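import Pool.Agent.FAN4.StE

/-!
# Project FAN4 (MP_aaed04_an), block END: the final calculus (module FAN4E_CAL)
-/

set_option autoImplicit false

namespace Pool.Agent.FAN

/-- Optimisation over `lam`, exact form. -/
private lemma ecal_opt (u s b c0 C G X Lg : ℝ) (hb0 : 0 < b) (hb1 : b < 1) (hc0 : 0 < c0)
    (hC : 0 < C) (hX : 0 < X) (hLg : 0 < Lg)
    (H : ∀ lam : ℝ, 0 < lam → c0 ≤ C * X ^ (u - s * b) *
      (lam ^ (1 / b) * (1 + G) + lam ^ (-1 / (1 - b)) * Lg / X)) :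
    c0 / (2 * C) * (2 * C / c0) ^ (-((1 - b) / b)) *
      (X ^ ((1 - u - (1 - s) * b) / b) * Lg ^ (-((1 - b) / b))) ≤ 1 + G := by
  have hb1' : 0 < 1 - b := by linarith
  set A : ℝ := 2 * C / c0 * X ^ (u - s * b - 1) * Lg with hA
  have hXp : 0 < X ^ (u - s * b - 1) := Real.rpow_pos_of_pos hX _
  have hA0 : 0 < A := by positivity
  have h := H (A ^ (1 - b)) (Real.rpow_pos_of_pos hA0 _)
  have e1 : (A ^ (1 - b)) ^ (1 / b) = A ^ ((1 - b) / b) := by
    rw [← Real.rpow_mul hA0.le]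
    congr 1
    field_simp
  have e2 : (A ^ (1 - b)) ^ (-1 / (1 - b)) = A⁻¹ := by
    rw [← Real.rpow_mul hA0.le, ← Real.rpow_neg_one]
    congr 1
    field_simp
  rw [e1, e2] at h
  have e3 : X ^ (u - s * b) = X ^ (u - s * b - 1) * X := by
    rw [← Real.rpow_add_one hX.ne']
    congr 1
    ring
  have e4 : C * X ^ (u - s * b) * (A⁻¹ * Lg / X) = c0 / 2 := by
    rw [e3, hA]
    field_simp
  have h2 : c0 / 2 ≤ C * X ^ (u - s * b) * A ^ ((1 - b) / b) * (1 + G) := by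
    have e5 : C * X ^ (u - s * b) * (A ^ ((1 - b) / b) * (1 + G) + A⁻¹ * Lg / X) =
        C * X ^ (u - s * b) * A ^ ((1 - b) / b) * (1 + G) +
          C * X ^ (u - s * b) * (A⁻¹ * Lg / X) := by ring
    rw [e5, e4] at h
    linarith
  set P : ℝ := C * X ^ (u - s * b) * A ^ ((1 - b) / b) with hP
  have hP0 : 0 < P := by
    have h1 : 0 < X ^ (u - s * b) := Real.rpow_pos_of_pos hX _
    have h3 : 0 < A ^ ((1 - b) / b) := Real.rpow_pos_of_pos hA0 _
    positivity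
  have h3 : c0 / 2 / P ≤ 1 + G := by
    rw [div_le_iff₀ hP0]
    linarith
  refine le_trans (le_of_eq ?_) h3
  -- the value of `c0 / 2 / P`
  have hcc : 0 < 2 * C / c0 := by positivity
  have hAk : A ^ ((1 - b) / b) = (2 * C / c0) ^ ((1 - b) / b) *
      X ^ ((u - s * b - 1) * ((1 - b) / b)) * Lg ^ ((1 - b) / b) := by
    rw [hA, Real.mul_rpow (by positivity) hLg.le, Real.mul_rpow hcc.le hXp.le,
      ← Real.rpow_mul hX.le]
  have hXe : X ^ ((1 - u - (1 - s) * b) / b) =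
      (X ^ (u - s * b) * X ^ ((u - s * b - 1) * ((1 - b) / b)))⁻¹ := by
    rw [← Real.rpow_add hX, ← Real.rpow_neg hX.le]
    congr 1
    field_simp
    ring
  rw [hXe, Real.rpow_neg hcc.le, Real.rpow_neg hLg.le, hP, hAk]
  have q1 : (2 * C / c0) ^ ((1 - b) / b) ≠ 0 := (Real.rpow_pos_of_pos hcc _).ne'
  have q2 : Lg ^ ((1 - b) / b) ≠ 0 := (Real.rpow_pos_of_pos hLg _).ne'
  have q3 : X ^ (u - s * b) ≠ 0 := (Real.rpow_pos_of_pos hX _).ne'
  have q4 : X ^ ((u - s * b - 1) * ((1 - b) / b)) ≠ 0 := (Real.rpow_pos_of_pos hX _).ne'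
  field_simp

/-- `1 + log n ≤ (1 + 1/δ) n^δ`. -/
private lemma ecal_log (δ X : ℝ) (hδ : 0 < δ) (hX : 1 ≤ X) :
    1 + Real.log X ≤ (1 + 1 / δ) * X ^ δ := by
  have h1 : Real.log X ≤ X ^ δ / δ := Real.log_le_rpow_div (by linarith) hδ
  have h2 : 1 ≤ X ^ δ := Real.one_le_rpow hX hδ.le
  have h3 : (1 + 1 / δ) * X ^ δ = X ^ δ + X ^ δ / δ := by ring
  linarith

/-- The conclusion for one `s`, along the multiples of `C`. -/
private lemma ecal_one (u s b c0 C : ℝ) (G : ℝ → ℝ) (hb0 : 0 < b) (hb1 : b < 1) (hc0 : 0 < c0)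
    (hC : 0 < C)
    (H : ∀ n : ℕ, 1 ≤ n → ∀ lam : ℝ, 0 < lam → c0 ≤ C * (n : ℝ) ^ (u - s * b) *
      (lam ^ (1 / b) * (1 + G (C * n)) + lam ^ (-1 / (1 - b)) * (1 + Real.log n) / n))
    (g : ℝ) (hg : g < (1 - u - (1 - s) * b) / b) :
    ∃ c : ℝ, 0 < c ∧ ∀ n : ℕ, 1 ≤ n → c * (n : ℝ) ^ g ≤ 1 + G (C * n) := by
  set g0 : ℝ := (1 - u - (1 - s) * b) / b with hg0
  set κ : ℝ := (1 - b) / b with hκ
  have hκ0 : 0 < κ := div_pos (by linarith) hb0
  set δ : ℝ := (g0 - g) / κ with hδ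
  have hδ0 : 0 < δ := div_pos (by linarith) hκ0
  have hcc : 0 < 2 * C / c0 := by positivity
  have hK : 0 < c0 / (2 * C) * (2 * C / c0) ^ (-κ) := by
    have := Real.rpow_pos_of_pos hcc (-κ)
    positivity
  have hM : 0 < 1 + 1 / δ := by positivity
  refine ⟨c0 / (2 * C) * (2 * C / c0) ^ (-κ) * (1 + 1 / δ) ^ (-κ),
    mul_pos hK (Real.rpow_pos_of_pos hM _), fun n hn => ?_⟩
  have hX : (1 : ℝ) ≤ n := by exact_mod_cast hn
  have hX0 : (0 : ℝ) < n := by linarith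
  have hLg : 0 < 1 + Real.log n := by
    have := Real.log_nonneg hX
    linarith
  have h := ecal_opt u s b c0 C (G (C * n)) n (1 + Real.log n) hb0 hb1 hc0 hC hX0 hLg
    (H n hn)
  refine le_trans ?_ h
  have h1 : ((1 + 1 / δ) * (n : ℝ) ^ δ) ^ (-κ) ≤ (1 + Real.log n) ^ (-κ) :=
    Real.rpow_le_rpow_of_nonpos hLg (ecal_log δ n hδ0 hX) (by linarith)
  have h2 : ((1 + 1 / δ) * (n : ℝ) ^ δ) ^ (-κ) = (1 + 1 / δ) ^ (-κ) * (n : ℝ) ^ (g - g0) := by
    rw [Real.mul_rpow hM.le (Real.rpow_nonneg hX0.le _), ← Real.rpow_mul hX0.le]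
    congr 2
    rw [hδ]
    field_simp
    ring
  rw [h2] at h1
  have h3 : (n : ℝ) ^ g0 * ((1 + 1 / δ) ^ (-κ) * (n : ℝ) ^ (g - g0)) =
      (1 + 1 / δ) ^ (-κ) * (n : ℝ) ^ g := by
    have : (n : ℝ) ^ g = (n : ℝ) ^ g0 * (n : ℝ) ^ (g - g0) := by
      rw [← Real.rpow_add hX0]
      congr 1
      ring
    rw [this]
    ring
  calc c0 / (2 * C) * (2 * C / c0) ^ (-κ) * (1 + 1 / δ) ^ (-κ) * (n : ℝ) ^ g
      = c0 / (2 * C) * (2 * C / c0) ^ (-κ) * ((1 + 1 / δ) ^ (-κ) * (n : ℝ) ^ g) := by ring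
    _ = c0 / (2 * C) * (2 * C / c0) ^ (-κ) *
        ((n : ℝ) ^ g0 * ((1 + 1 / δ) ^ (-κ) * (n : ℝ) ^ (g - g0))) := by rw [h3]
    _ ≤ c0 / (2 * C) * (2 * C / c0) ^ (-κ) * ((n : ℝ) ^ g0 * (1 + Real.log n) ^ (-κ)) := by
        apply mul_le_mul_of_nonneg_left _ hK.le
        exact mul_le_mul_of_nonneg_left h1 (Real.rpow_nonneg hX0.le _)

/-- (CAL1) The final calculus, one value of `s`. -/
theorem e_CAL1 (u s b c0 C : ℝ) (G : ℝ → ℝ) (hG : Monotone G) (hb0 : 0 < b) (hb1 : b < 1)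
    (hc0 : 0 < c0) (hC : 0 < C)
    (H : ∀ n : ℕ, 1 ≤ n → ∀ lam : ℝ, 0 < lam → c0 ≤ C * (n : ℝ) ^ (u - s * b) *
      (lam ^ (1 / b) * (1 + G (C * n)) + lam ^ (-1 / (1 - b)) * (1 + Real.log n) / n))
    (hpos : 0 < (1 - u - (1 - s) * b) / b)
    (g : ℝ) (hg : g < (1 - u - (1 - s) * b) / b) :
    ∃ c : ℝ, 0 < c ∧ ∃ L0 : ℝ, 1 ≤ L0 ∧ ∀ L : ℝ, L0 ≤ L → c * L ^ g ≤ G L := by
  set g0 : ℝ := (1 - u - (1 - s) * b) / b with hg0
  set g1 : ℝ := max g (g0 / 2) with hg1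
  have hg1p : 0 < g1 := lt_of_lt_of_le (by linarith) (le_max_right _ _)
  have hg1l : g1 < g0 := max_lt hg (by linarith)
  obtain ⟨c, hc, hn⟩ := ecal_one u s b c0 C G hb0 hb1 hc0 hC H g1 hg1l
  set c3 : ℝ := c * (2 * C) ^ (-g1) with hc3
  have hc30 : 0 < c3 := mul_pos hc (Real.rpow_pos_of_pos (by positivity) _)
  refine ⟨c3 / 2, by positivity, max (max 1 C) ((2 / c3) ^ (1 / g1)),
    (le_max_left _ _).trans (le_max_left _ _), fun L hL => ?_⟩
  have hL1 : 1 ≤ L := ((le_max_left _ _).trans (le_max_left _ _)).trans hL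
  have hLC : C ≤ L := ((le_max_right _ _).trans (le_max_left _ _)).trans hL
  have hL2 : (2 / c3) ^ (1 / g1) ≤ L := (le_max_right _ _).trans hL
  have hL0 : 0 < L := by linarith
  set n : ℕ := ⌊L / C⌋₊ with hndef
  have hLC1 : 1 ≤ L / C := (one_le_div hC).mpr hLC
  have hn1 : 1 ≤ n := Nat.le_floor (by exact_mod_cast hLC1)
  have hnle : (n : ℝ) ≤ L / C := Nat.floor_le (by positivity)
  have hnlt : L / C < n + 1 := Nat.lt_floor_add_one _
  have hnR : (1 : ℝ) ≤ n := by exact_mod_cast hn1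
  have hCn : C * n ≤ L := by
    have := mul_le_mul_of_nonneg_left hnle hC.le
    rwa [mul_div_cancel₀ _ hC.ne'] at this
  have hnge : L / (2 * C) ≤ n := by
    have e : L / (2 * C) = L / C / 2 := by field_simp
    rw [e]
    linarith
  have h1 := hn n hn1
  have h2 : c3 * L ^ g1 ≤ c * (n : ℝ) ^ g1 := by
    have e : c3 * L ^ g1 = c * (L / (2 * C)) ^ g1 := by
      rw [hc3, Real.div_rpow hL0.le (by positivity), Real.rpow_neg (by positivity)]
      field_simp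
    rw [e]
    apply mul_le_mul_of_nonneg_left _ hc.le
    exact Real.rpow_le_rpow (by positivity) hnge hg1p.le
  have h3 : G (C * n) ≤ G L := hG hCn
  have h4 : 2 / c3 ≤ L ^ g1 := by
    have := Real.rpow_le_rpow (by positivity) hL2 hg1p.le
    rwa [← Real.rpow_mul (by positivity), one_div_mul_cancel hg1p.ne', Real.rpow_one] at this
  have h5 : 1 ≤ c3 / 2 * L ^ g1 := by
    rw [div_le_iff₀ hc30] at h4
    linarith
  have h6 : L ^ g ≤ L ^ g1 := Real.rpow_le_rpow_of_exponent_le hL1 (le_max_left _ _)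
  have h7 : c3 / 2 * L ^ g ≤ c3 / 2 * L ^ g1 := mul_le_mul_of_nonneg_left h6 (by positivity)
  have h8 : c3 * L ^ g1 = c3 / 2 * L ^ g1 + c3 / 2 * L ^ g1 := by ring
  linarith

/-- (CAL) The final calculus: all `s` near `1`. -/
theorem e_CAL (u al : ℝ) (hu : u < 1) (hal0 : 0 < al) (hal1 : al < 1 / 2)
    (G : ℝ → ℝ) (hG : Monotone G)
    (H : ∀ s : ℝ, 0 < s → s < 1 → ∃ c0 C : ℝ, 0 < c0 ∧ 0 < C ∧ ∀ n : ℕ, 1 ≤ n →
      ∀ lam : ℝ, 0 < lam → c0 ≤ C * (n : ℝ) ^ (u - s * (2 * al / (1 + s))) *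
        (lam ^ (1 / (2 * al / (1 + s))) * (1 + G (C * n)) +
          lam ^ (-1 / (1 - 2 * al / (1 + s))) * (1 + Real.log n) / n))
    (g : ℝ) (hg : g < (1 - u) / al) :
    ∃ c : ℝ, 0 < c ∧ ∃ L0 : ℝ, 1 ≤ L0 ∧ ∀ L : ℝ, L0 ≤ L → c * L ^ g ≤ G L := by
  have hu0 : 0 < 1 - u := by linarith
  have hq : 0 < (1 - u) / al := by positivity
  set g1 : ℝ := max g 0 with hg1
  have hg1l : g1 < (1 - u) / al := max_lt hg hq
  set M : ℝ := (1 - u) / (2 * al) + 1 with hM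
  have hM0 : 0 < M := by positivity
  set d : ℝ := ((1 - u) / al - g1) / M with hd
  have hd0 : 0 < d := div_pos (by linarith) hM0
  set s : ℝ := 1 - min (1 / 2) (d / 2) with hs
  have hmin0 : 0 < min (1 / 2) (d / 2) := lt_min (by norm_num) (by linarith)
  have hmin1 : min (1 / 2) (d / 2) ≤ 1 / 2 := min_le_left _ _
  have hmin2 : min (1 / 2) (d / 2) ≤ d / 2 := min_le_right _ _
  have hs0 : 0 < s := by linarith
  have hs1 : s < 1 := by linarith
  obtain ⟨c0, C, hc0, hC, hH⟩ := H s hs0 hs1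
  set b : ℝ := 2 * al / (1 + s) with hb
  have hb0 : 0 < b := by positivity
  have hb1 : b < 1 := by
    rw [hb, div_lt_one (by linarith)]
    linarith
  have hval : (1 - u - (1 - s) * b) / b = (1 - u) / al - (1 - s) * M := by
    rw [hb, hM]
    have h1s : (1 + s) ≠ 0 := by linarith
    field_simp
    ring
  have hgt : g1 < (1 - u - (1 - s) * b) / b := by
    rw [hval]
    have h1 : 1 - s < d := by linarith
    have h2 : (1 - s) * M < d * M := mul_lt_mul_of_pos_right h1 hM0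
    have h3 : d * M = (1 - u) / al - g1 := by
      rw [hd]
      field_simp
    linarith
  exact e_CAL1 u s b c0 C G hG hb0 hb1 hc0 hC hH
    (lt_of_le_of_lt (le_max_right _ _) hgt) g (lt_of_le_of_lt (le_max_left _ _) hgt)

/-- (CAL) The statement of the project. -/
theorem q_CAL : Se_CAL := by
  intro e u c₀ G he0 he1 hu heu hc0 _ hGm H γ hγ
  have hu1 : u < 1 := by
    by_contra hcon
    push Not at hcon
    have : (2 : ℝ) ^ (1 : ℝ) ≤ 2 ^ u := Real.rpow_le_rpow_of_exponent_le (by norm_num) hcon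
    rw [Real.rpow_one, hu] at this
    linarith
  have key : ∀ s : ℝ, 0 < s → s < 1 → ∃ c0 C : ℝ, 0 < c0 ∧ 0 < C ∧ ∀ n : ℕ, 1 ≤ n →
      ∀ lam : ℝ, 0 < lam → c0 ≤ C * (n : ℝ) ^ (u - s * (2 * ((1 - e) / 2) / (1 + s))) *
        (lam ^ (1 / (2 * ((1 - e) / 2) / (1 + s))) * (1 + G (C * n)) +
          lam ^ (-1 / (1 - 2 * ((1 - e) / 2) / (1 + s))) * (1 + Real.log n) / n) := by
    intro s hs0 hs1
    obtain ⟨C, hC, hH⟩ := H s hs0 hs1
    have hb : 2 * ((1 - e) / 2) / (1 + s) = (1 - e) / (1 + s) := by ring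
    rw [hb]
    set b : ℝ := (1 - e) / (1 + s) with hbd
    have hsb : s * b ≤ u := by
      have h1 : s * b ≤ (1 - e) / 2 := by
        rw [hbd, ← mul_div_assoc, div_le_div_iff₀ (by linarith) (by norm_num)]
        nlinarith
      linarith
    have hC0 : 0 < C := by linarith
    have hK1 : 1 ≤ C ^ (u - s * b) := Real.one_le_rpow hC (by linarith)
    have hK0 : 0 < C ^ (u - s * b) := by linarith
    refine ⟨c₀, C ^ (u - s * b) * C, hc0, by positivity, fun n hn lam hlam => ?_⟩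
    obtain ⟨m, rfl⟩ : ∃ m, n = m + 1 := ⟨n - 1, by omega⟩
    have h := hH m b lam rfl hlam
    refine le_trans h ?_
    push_cast
    set N : ℝ := (m : ℝ) + 1 with hN
    have hN1 : 1 ≤ N := by
      have : (0 : ℝ) ≤ m := Nat.cast_nonneg m
      linarith
    have hN0 : 0 < N := by linarith
    have e1 : (C * N) ^ (u - s * b) = C ^ (u - s * b) * N ^ (u - s * b) :=
      Real.mul_rpow hC0.le hN0.le
    have hGle : G (C * N) ≤ G (C ^ (u - s * b) * C * N) := by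
      apply hGm
      have : C ≤ C ^ (u - s * b) * C := le_mul_of_one_le_left hC0.le hK1
      exact mul_le_mul_of_nonneg_right this hN0.le
    have e2 : -1 / (1 - b) = -(1 / (1 - b)) := by ring
    rw [e1, e2]
    have hNp : 0 < N ^ (u - s * b) := Real.rpow_pos_of_pos hN0 _
    have hlb : 0 < lam ^ (1 / b) := Real.rpow_pos_of_pos hlam _
    calc C ^ (u - s * b) * N ^ (u - s * b) * (lam ^ (1 / b) * (C * (1 + G (C * N))) +
          lam ^ (-(1 / (1 - b))) * (C * (1 + Real.log N) / N))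
        = C ^ (u - s * b) * C * N ^ (u - s * b) * (lam ^ (1 / b) * (1 + G (C * N)) +
          lam ^ (-(1 / (1 - b))) * (1 + Real.log N) / N) := by ring
      _ ≤ C ^ (u - s * b) * C * N ^ (u - s * b) * (lam ^ (1 / b) *
          (1 + G (C ^ (u - s * b) * C * N)) +
          lam ^ (-(1 / (1 - b))) * (1 + Real.log N) / N) := by
        apply mul_le_mul_of_nonneg_left _ (by positivity)
        have : lam ^ (1 / b) * (1 + G (C * N)) ≤
            lam ^ (1 / b) * (1 + G (C ^ (u - s * b) * C * N)) :=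
          mul_le_mul_of_nonneg_left (by linarith) hlb.le
        linarith
  obtain ⟨c, hc, L0, _, hL⟩ := e_CAL u ((1 - e) / 2) hu1 (by linarith) (by linarith) G hGm key γ hγ
  exact ⟨c, hc, L0, hL⟩

end Pool.Agent.FAN
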