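import Pool.Agent.FAN4.StE

/-!
# FAN4, block E: a vector seen from a direction
-/

set_option autoImplicit false

open scoped ComplexConjugate
open MeasureTheory Set Filter Topology

namespace Pool.Agent.FAN

theorem COT_cxev (z : ℂ) (ψ : ℝ) : cx (ev ψ) z = ‖z‖ * Real.sin (Complex.arg z - ψ) := by
  have e : z = (‖z‖ : ℂ) * ev (Complex.arg z) := by
    rw [ev_eq_exp]
    exact (Complex.norm_mul_exp_arg_mul_I z).symm
  conv_lhs => rw [e]
  rw [cx_real_right, Real.sin_sub]
  simp only [cx, ev]
  ring

theorem COT_half {s : ℝ} (h1 : s < 1) (h0 : 0 < s) :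
    IntervalIntegrable (fun t => |Real.sin t| ^ (-s)) volume 0 (Real.pi / 2) := by
  have h := (intervalIntegral.intervalIntegrable_rpow' (a := 0) (b := Real.pi / 2) (r := -s)
    (by linarith)).const_mul ((2 / Real.pi) ^ (-s))
  refine h.mono_fun ?_ ?_
  · exact (by fun_prop : Measurable fun t => |Real.sin t| ^ (-s)).aestronglyMeasurable
  · rw [uIoc_of_le (by positivity)]
    refine (ae_restrict_iff' measurableSet_Ioc).2 (Eventually.of_forall fun t ht => ?_)
    have hp := Real.pi_pos
    have e1 : 2 / Real.pi * t ≤ Real.sin t := Real.mul_le_sin ht.1.le ht.2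
    have e2 : 0 < 2 / Real.pi * t := mul_pos (by positivity) ht.1
    simp only []
    rw [Real.norm_of_nonneg (Real.rpow_nonneg (abs_nonneg _) _),
      ← Real.mul_rpow (by positivity) ht.1.le, Real.norm_of_nonneg (Real.rpow_nonneg e2.le _),
      abs_of_pos (e2.trans_le e1)]
    exact Real.rpow_le_rpow_of_nonpos e2 e1 (by linarith)

theorem COT_pi {s : ℝ} (h1 : s < 1) (h0 : 0 < s) :
    IntervalIntegrable (fun t => |Real.sin t| ^ (-s)) volume 0 Real.pi := by
  have a1 := COT_half h1 h0
  have a2 := (COT_half h1 h0).comp_sub_left Real.pi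
  have e : (fun x => |Real.sin (Real.pi - x)| ^ (-s)) = fun t => |Real.sin t| ^ (-s) := by
    funext x
    rw [Real.sin_pi_sub]
  rw [e, sub_zero, show Real.pi - Real.pi / 2 = Real.pi / 2 by ring] at a2
  exact a1.trans a2.symm

theorem COT_per (s : ℝ) : Function.Periodic (fun t => |Real.sin t| ^ (-s)) Real.pi := by
  intro t
  simp only [Real.sin_add_pi, abs_neg]

theorem q_COT : Se_COT := by
  intro s h0 h1
  have hp := Real.pi_pos
  set g : ℝ → ℝ := fun t => |Real.sin t| ^ (-s) with hg
  have hper : Function.Periodic g Real.pi := COT_per s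
  have hint : ∀ a b, IntervalIntegrable g volume a b :=
    hper.intervalIntegrable₀ hp.ne' (COT_pi h1 h0)
  have hper2 : Function.Periodic g (2 * Real.pi) := by
    have := hper.nsmul 2
    simpa using this
  have hnn : ∀ t, 0 ≤ g t := fun t => Real.rpow_nonneg (abs_nonneg _) _
  refine ⟨(∫ t in (0 : ℝ)..(2 * Real.pi), g t) + 1, ?_, fun z hz => ?_⟩
  · have := intervalIntegral.integral_nonneg (μ := volume) (by positivity : (0 : ℝ) ≤ 2 * Real.pi)
      fun t _ => hnn t
    linarith
  have hz0 : ‖z‖ ≠ 0 := norm_ne_zero_iff.2 hz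
  have e : (fun ψ => |cx (ev ψ) z / ‖z‖| ^ (-s)) = fun ψ => g (Complex.arg z - ψ) := by
    funext ψ
    rw [COT_cxev, mul_div_cancel_left₀ _ hz0]
  refine ⟨?_, ?_⟩
  · rw [e]
    have := (hint (Complex.arg z) (Complex.arg z - 2 * Real.pi)).comp_sub_left (Complex.arg z)
    rwa [sub_self, sub_sub_cancel] at this
  · simp only [e]
    rw [intervalIntegral.integral_comp_sub_left (fun t => g t), sub_zero]
    have h2 := hper2.intervalIntegral_add_eq (Complex.arg z - 2 * Real.pi) 0
    rw [sub_add_cancel, zero_add] at h2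
    rw [h2]
    linarith

end Pool.Agent.FAN
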