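import Pool.Agent.FAN4.StE

/-!
# FAN4, block E: dyadic sum
-/

set_option autoImplicit false

open scoped ComplexConjugate
open MeasureTheory Set

namespace Pool.Agent.FAN

theorem DYM_dy (y : ℝ) (hy : y ≤ 1) (J : ℕ) :
    y ≤ (1 / 2 : ℝ) ^ J + ∑ j ∈ Finset.range J, (1 / 2 : ℝ) ^ j *
      (if (1 / 2 : ℝ) ^ (j + 1) < y then 1 else 0) := by
  induction J with
  | zero => simpa using hy
  | succ J ih =>
    rw [Finset.sum_range_succ]
    have hs : 0 ≤ ∑ j ∈ Finset.range J, (1 / 2 : ℝ) ^ j *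
        (if (1 / 2 : ℝ) ^ (j + 1) < y then (1 : ℝ) else 0) := by
      apply Finset.sum_nonneg
      intro j _
      split_ifs <;> positivity
    have hp : 0 < (1 / 2 : ℝ) ^ (J + 1) := by positivity
    by_cases h : (1 / 2 : ℝ) ^ (J + 1) < y
    · rw [if_pos h, mul_one]
      linarith
    · rw [if_neg h, mul_zero, add_zero]
      push Not at h
      linarith

/-- heights of the frame coordinates -/
theorem DYM_iml (v x p : ℂ) : (conj v * (p - x)).im = cx v (p - x) := by
  rw [cx_eq_im]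

theorem DYM_imr (v x p : ℂ) : (v * conj (p - x)).im = -cx v (p - x) := by
  simp only [cx, Complex.mul_im, Complex.conj_re, Complex.conj_im]
  ring

open Classical in
/-- Pointwise bound of `mn`. -/
theorem DYM_pt (hALG : Sg_ALG) (hBOT : Sg_BOT) (hONE : Se_ONE1) (hWDS : Ss_WDS) (p : PR)
    (S : TriSys) (r : S.R) (i : ZMod 3) (n : ℕ) (J : ℕ) (ψ : ℝ) :
    mn p S r i n ψ ≤ (1 / 2 : ℝ) ^ J + ∑ j ∈ Finset.range J, (1 / 2 : ℝ) ^ j *
      (if ψ ∈ WD S r i n ((1 / 2 : ℝ) ^ (j + 1)) then 1 else 0) := by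
  have hR : 0 ≤ (1 / 2 : ℝ) ^ J + ∑ j ∈ Finset.range J, (1 / 2 : ℝ) ^ j *
      (if ψ ∈ WD S r i n ((1 / 2 : ℝ) ^ (j + 1)) then (1 : ℝ) else 0) := by
    apply add_nonneg (by positivity)
    apply Finset.sum_nonneg
    intro j _
    split_ifs <;> positivity
  by_cases hex : ∃ js ∈ wds n, Run (Pl.home S r) (S.P r i) (ev ψ) (i :: js) ∧
      min (bot (frl (ev ψ) (S.P r i) (lvs (Pl.home S r) (i :: js)))).im
        (bot (frr (ev ψ) (S.P r i) (rvs (Pl.home S r) (i :: js)))).im < p.k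
  · obtain ⟨js, hjs, hrun, hk⟩ := hex
    have hlen : js.length = n := (hWDS.1 n js).1 hjs
    set y := min (bot (frl (ev ψ) (S.P r i) (lvs (Pl.home S r) (i :: js)))).im
        (bot (frr (ev ψ) (S.P r i) (rvs (Pl.home S r) (i :: js)))).im with hy
    have hmn : mn p S r i n ψ = y := by
      unfold mn
      rw [Finset.sum_eq_single js]
      · rw [if_pos ⟨hrun, hk⟩]
      · intro js' hjs' hne
        rw [if_neg]
        rintro ⟨h1, _⟩
        exact hne (hONE S r _ _ i js' js (((hWDS.1 n js').1 hjs').trans hlen.symm) h1 hrun)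
      · intro h; exact absurd hjs h
    rw [hmn]
    refine (DYM_dy y (by linarith [p.k1]) J).trans ?_
    gcongr with j _
    by_cases hj : (1 / 2 : ℝ) ^ (j + 1) < y
    · rw [if_pos hj, if_pos]
      refine ⟨js, hlen, hrun, ?_⟩
      have hA := (hALG S (i :: js) [] (Pl.home S r) (S.P r i) (ev ψ)).1.1 hrun
      rintro q (hq | hq)
      · have hq1 : conj (ev ψ) * (q - S.P r i) ∈ frl (ev ψ) (S.P r i) (lvs (Pl.home S r) (i :: js)) := by
          unfold frl
          exact List.mem_map.2 ⟨q, hq, rfl⟩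
        have h1 := (hBOT _ (List.ne_nil_of_mem hq1)).2.1 _ hq1
        rw [DYM_iml] at h1
        have h2 : y ≤ cx (ev ψ) (q - S.P r i) := (min_le_left _ _).trans h1
        exact lt_of_lt_of_le hj (h2.trans (le_abs_self _))
      · have hq1 : ev ψ * conj (q - S.P r i) ∈ frr (ev ψ) (S.P r i) (rvs (Pl.home S r) (i :: js)) := by
          unfold frr
          exact List.mem_map.2 ⟨q, hq, rfl⟩
        have h1 := (hBOT _ (List.ne_nil_of_mem hq1)).2.1 _ hq1
        rw [DYM_imr] at h1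
        have h2 : y ≤ -cx (ev ψ) (q - S.P r i) := (min_le_right _ _).trans h1
        exact lt_of_lt_of_le hj (h2.trans (neg_le_abs _))
    · rw [if_neg hj]
      split_ifs <;> norm_num
  · have hmn : mn p S r i n ψ = 0 := by
      unfold mn
      apply Finset.sum_eq_zero
      intro js hjs
      rw [if_neg]
      intro h
      exact hex ⟨js, hjs, h⟩
    rw [hmn]
    exact hR

theorem q_DYM (hALG : Sg_ALG) (hBOT : Sg_BOT) (hONE : Se_ONE1) (hWDS : Ss_WDS) (hPCK : Se_PCK) :
    Se_DYM := by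
  classical
  intro S
  obtain ⟨C, hC, hP⟩ := hPCK S
  refine ⟨4 * C + 7, by linarith, fun p r i n => ?_⟩
  have hn : (0 : ℝ) < n + 1 := by positivity
  have hlog : 0 ≤ Real.log (n + 1) := Real.log_nonneg (by linarith [(Nat.cast_nonneg n : (0 : ℝ) ≤ n)])
  have h2π : (0 : ℝ) ≤ 2 * Real.pi := by positivity
  by_cases hI : IntervalIntegrable (mn p S r i n) volume 0 (2 * Real.pi)
  swap
  · rw [intervalIntegral.integral_undef hI]
    positivity
  set J : ℕ := Nat.log 2 (n + 1) + 1 with hJ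
  set w : ℕ → ℝ := fun j => (1 / 2 : ℝ) ^ (j + 1) with hw
  have hw0 : ∀ j, 0 < w j := fun j => by simp only [hw]; positivity
  have hw1 : ∀ j, w j ≤ 1 := fun j => by
    simp only [hw]
    exact pow_le_one₀ (by norm_num) (by norm_num)
  -- integrals of the indicators
  have hint : ∀ j, IntervalIntegrable
      (fun ψ => (1 / 2 : ℝ) ^ j * (if ψ ∈ WD S r i n (w j) then (1 : ℝ) else 0)) volume 0
      (2 * Real.pi) := by
    intro j
    apply IntervalIntegrable.const_mul
    rw [intervalIntegrable_iff_integrableOn_Ioc_of_le h2π]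
    have hm := (hP r i n (w j) (hw0 j) (hw1 j)).1
    have : (fun ψ => if ψ ∈ WD S r i n (w j) then (1 : ℝ) else 0) =
        (WD S r i n (w j)).indicator fun _ => (1 : ℝ) := by
      funext ψ
      by_cases h : ψ ∈ WD S r i n (w j)
      · rw [if_pos h, indicator_of_mem h]
      · rw [if_neg h, indicator_of_notMem h]
    rw [this]
    exact (integrableOn_const measure_Ioc_lt_top.ne).indicator hm
  have hval : ∀ j, ∫ ψ in (0 : ℝ)..(2 * Real.pi),
      (1 / 2 : ℝ) ^ j * (if ψ ∈ WD S r i n (w j) then (1 : ℝ) else 0) ≤ 2 * C / (n + 1) := by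
    intro j
    obtain ⟨hm, hv⟩ := hP r i n (w j) (hw0 j) (hw1 j)
    rw [intervalIntegral.integral_const_mul, intervalIntegral.integral_of_le h2π]
    have e1 : (fun ψ => if ψ ∈ WD S r i n (w j) then (1 : ℝ) else 0) =
        (WD S r i n (w j)).indicator fun _ => (1 : ℝ) := by
      funext ψ
      by_cases h : ψ ∈ WD S r i n (w j)
      · rw [if_pos h, indicator_of_mem h]
      · rw [if_neg h, indicator_of_notMem h]
    rw [e1, setIntegral_indicator hm, setIntegral_const, smul_eq_mul, mul_one]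
    have hpos : 0 ≤ C / ((n + 1) * w j) := by
      have := hw0 j
      positivity
    have h3 : volume.real (Ioc 0 (2 * Real.pi) ∩ WD S r i n (w j)) ≤ C / ((n + 1) * w j) := by
      unfold Measure.real
      rw [inter_comm]
      exact ENNReal.toReal_le_of_le_ofReal hpos hv
    calc (1 / 2 : ℝ) ^ j * volume.real (Ioc 0 (2 * Real.pi) ∩ WD S r i n (w j))
        ≤ (1 / 2 : ℝ) ^ j * (C / ((n + 1) * w j)) := mul_le_mul_of_nonneg_left h3 (by positivity)
      _ = 2 * C / (n + 1) := by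
        simp only [hw]
        rw [pow_succ]
        have : (1 / 2 : ℝ) ^ j ≠ 0 := by positivity
        field_simp
  have hsumI : IntervalIntegrable (fun ψ => ∑ j ∈ Finset.range J,
      (1 / 2 : ℝ) ^ j * (if ψ ∈ WD S r i n (w j) then (1 : ℝ) else 0)) volume 0
      (2 * Real.pi) := by
    have e : (fun ψ => ∑ j ∈ Finset.range J,
        (1 / 2 : ℝ) ^ j * (if ψ ∈ WD S r i n (w j) then (1 : ℝ) else 0)) =
        ∑ j ∈ Finset.range J, fun ψ =>
          (1 / 2 : ℝ) ^ j * (if ψ ∈ WD S r i n (w j) then (1 : ℝ) else 0) := by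
      funext ψ
      rw [Finset.sum_apply]
    rw [e]
    exact IntervalIntegrable.sum _ fun j _ => hint j
  have hmono : ∫ ψ in (0 : ℝ)..(2 * Real.pi), mn p S r i n ψ ≤
      ∫ ψ in (0 : ℝ)..(2 * Real.pi), ((1 / 2 : ℝ) ^ J + ∑ j ∈ Finset.range J,
        (1 / 2 : ℝ) ^ j * (if ψ ∈ WD S r i n (w j) then (1 : ℝ) else 0)) := by
    apply intervalIntegral.integral_mono_on h2π hI (intervalIntegrable_const.add hsumI)
    intro ψ _
    exact DYM_pt hALG hBOT hONE hWDS p S r i n J ψ
  rw [intervalIntegral.integral_add intervalIntegrable_const hsumI,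
    intervalIntegral.integral_const, intervalIntegral.integral_finset_sum (fun j _ => hint j)]
    at hmono
  have hsum : ∑ j ∈ Finset.range J, ∫ ψ in (0 : ℝ)..(2 * Real.pi),
      (1 / 2 : ℝ) ^ j * (if ψ ∈ WD S r i n (w j) then (1 : ℝ) else 0) ≤ J * (2 * C / (n + 1)) := by
    refine (Finset.sum_le_sum fun j _ => hval j).trans ?_
    rw [Finset.sum_const, Finset.card_range, nsmul_eq_mul]
  have hJ1 : (1 / 2 : ℝ) ^ J ≤ 1 / (n + 1) := by
    have h1 : n + 1 < 2 ^ J := Nat.lt_pow_succ_log_self (by norm_num) (n + 1)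
    have h2 : ((n : ℝ) + 1) ≤ 2 ^ J := by exact_mod_cast h1.le
    rw [one_div_pow]
    exact one_div_le_one_div_of_le hn h2
  have hJ2 : (J : ℝ) ≤ 1 + 2 * Real.log (n + 1) := by
    have h1 : 2 ^ (Nat.log 2 (n + 1)) ≤ n + 1 := Nat.pow_log_le_self 2 (by omega)
    have h2 : (2 : ℝ) ^ (Nat.log 2 (n + 1)) ≤ (n : ℝ) + 1 := by exact_mod_cast h1
    have h3 := Real.log_le_log (by positivity) h2
    rw [Real.log_pow] at h3
    have h4 : (1 / 2 : ℝ) < Real.log 2 := by linarith [Real.log_two_gt_d9]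
    have h5 : (0 : ℝ) ≤ (Nat.log 2 (n + 1) : ℝ) := Nat.cast_nonneg _
    rw [hJ]
    push_cast
    nlinarith
  have hπ : Real.pi < 3.15 := Real.pi_lt_d2
  have hfin : (2 * Real.pi - 0) • (1 / 2 : ℝ) ^ J + J * (2 * C / (n + 1)) ≤
      (4 * C + 7) * (1 + Real.log (n + 1)) / (n + 1) := by
    rw [smul_eq_mul, sub_zero]
    have k1 : 2 * Real.pi * (1 / 2 : ℝ) ^ J ≤ 7 * (1 / (n + 1)) :=
      mul_le_mul (by linarith) hJ1 (by positivity) (by norm_num)
    have k2 : (J : ℝ) * (2 * C / (n + 1)) ≤ (1 + 2 * Real.log (n + 1)) * (2 * C / (n + 1)) :=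
      mul_le_mul_of_nonneg_right hJ2 (by positivity)
    have k3 : 7 * (1 / ((n : ℝ) + 1)) + (1 + 2 * Real.log (n + 1)) * (2 * C / (n + 1)) ≤
        (4 * C + 7) * (1 + Real.log (n + 1)) / (n + 1) := by
      rw [mul_one_div, mul_div_assoc', ← add_div]
      apply div_le_div_of_nonneg_right _ hn.le
      nlinarith
    linarith
  linarith

end Pool.Agent.FAN
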