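import Pool.Agent.FAN4.StE

/-!
# FAN4, block E: FIN4 (helper23)
-/

set_option autoImplicit false

open scoped ComplexConjugate
open MeasureTheory Set
open Pool.Agent.Billiard

namespace Pool.Agent.FAN

theorem q_FIN4 (hFIT : St_FIT) (hPL : Pool.Agent.FAN4.Si_PL2) (hG : Se_GRO) : Si_FIN4 := by
  intro u hu P β hβ
  have hu0 : 0 < u := by
    by_contra h
    push Not at h
    have h1 : (2 : ℝ) ^ u ≤ 1 := Real.rpow_le_one_of_one_le_of_nonpos (by norm_num) h
    linarith
  have hu1 : u < 1 / 2 := by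
    by_contra h
    push Not at h
    have h1 : (2 : ℝ) ^ (0 : ℝ) < (2 : ℝ) ^ u :=
      Real.rpow_lt_rpow_of_exponent_lt (by norm_num) (by linarith)
    rw [Real.rpow_zero] at h1
    linarith
  have hγ : max (β - 1) 0 < (1 - u) / ((1 - (1 - 2 * u)) / 2) := by
    have e : (1 - u) / ((1 - (1 - 2 * u)) / 2) = 1 / u - 1 := by
      field_simp
      ring
    rw [e]
    apply max_lt
    · linarith
    · have : 1 < 1 / u := by
        rw [lt_div_iff₀ hu0]
        linarith
      linarith
  obtain ⟨c, hc, h⟩ := hFIT (max (β - 1) 0) (le_max_right _ _) (by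
    intro S hS
    obtain ⟨c, hc, n₀, h⟩ := hG hPL S hS (1 - 2 * u) u (by linarith) (by linarith) (by linarith)
      (by linarith) _ hγ
    refine ⟨c, hc, n₀, fun L hL => ?_⟩
    rw [← GT_eq]
    exact h L hL) P
  refine ⟨c, hc, fun n hn => le_trans ?_ (h n hn)⟩
  have hn1 : (1 : ℝ) ≤ n := by exact_mod_cast hn
  apply mul_le_mul_of_nonneg_left _ hc.le
  apply Real.rpow_le_rpow_of_exponent_le hn1
  have := le_max_left (β - 1) 0
  linarith

end Pool.Agent.FAN
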