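import Pool.Agent.FAN4.StE

/-!
# FAN4, block E, module GRO: growth of the number of generalized diagonals
-/

set_option autoImplicit false

open scoped ComplexConjugate
open MeasureTheory Set

namespace Pool.Agent.FAN

theorem q_GRO (hM : Ss_MON) (hP : Ss_POS) (hU : Se_UPB) (hC : Se_CAL) : Se_GRO := by
  intro hPL S hS e u he0 he1 hu heu γ hγ
  obtain ⟨κ₁, hκ₁, h1⟩ := hM hPL S
  obtain ⟨κ₂, hκ₂, h2⟩ := hP S hS
  obtain ⟨κ₃, hκ₃, h3⟩ := hU S
  set k : ℝ := min 1 (min κ₁ (min κ₂ κ₃)) with hk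
  have hk0 : 0 < k := lt_min one_pos (lt_min hκ₁ (lt_min hκ₂ hκ₃))
  have hk1 : k ≤ 1 := min_le_left _ _
  have hkκ₁ : k ≤ κ₁ := (min_le_right _ _).trans (min_le_left _ _)
  have hkκ₂ : k ≤ κ₂ := ((min_le_right _ _).trans (min_le_right _ _)).trans (min_le_left _ _)
  have hkκ₃ : k ≤ κ₃ := ((min_le_right _ _).trans (min_le_right _ _)).trans (min_le_right _ _)
  let p : PR := ⟨k, e, u, hk0, hk1, he0, he1, hu⟩
  have hpos : 0 < Psi p S 0 := h2 p hkκ₂
  have hmon : ∀ n : ℕ, Psi p S 0 ≤ Psi p S n := by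
    intro n
    induction n with
    | zero => exact le_rfl
    | succ n ih => exact ih.trans (h1 p n hkκ₁)
  have hGm : Monotone (GT S) := by
    intro L L' h
    unfold GT
    refine Finset.sum_le_sum fun r _ => Finset.sum_le_sum fun i _ => ?_
    have hsub : GG S r i L ⊆ GG S r i L' := fun _ hjs => ⟨hjs.1, hjs.2.1, hjs.2.2.trans h⟩
    exact_mod_cast Set.ncard_le_ncard hsub (b_KFIN S r i L')
  have hG0 : ∀ L, 0 ≤ GT S L := fun L =>
    Finset.sum_nonneg fun _ _ => Finset.sum_nonneg fun _ _ => Nat.cast_nonneg _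
  refine hC e u (Psi p S 0) (GT S) he0 he1 hu heu hpos hG0 hGm ?_ γ hγ
  intro s hs0 hs1
  obtain ⟨C, hC1, h4⟩ := h3 s hs0 hs1
  exact ⟨C, hC1, fun n b lam hb hlam => (hmon n).trans (h4 p n b lam hkκ₃ hb heu hlam)⟩

end Pool.Agent.FAN
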