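import Pool.Agent.FAN4.StE

/-!
# FAN4, block E: HTS (helper17)
-/

set_option autoImplicit false

open scoped ComplexConjugate
open MeasureTheory Set

namespace Pool.Agent.FAN

/-- the end points of a crossed edge are in the lists -/
theorem hts_mem {S : TriSys} (A : List (ZMod 3)) (k : ZMod 3) (B : List (ZMod 3)) :
    ∀ q : Pl S, (endP q A).V (k + 2) ∈ lvs q (A ++ k :: B) ∧
      (endP q A).V (k + 1) ∈ rvs q (A ++ k :: B) := by
  induction A with
  | nil =>
    intro q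
    simp [endP, lvs, rvs]
  | cons j A ih =>
    intro q
    obtain ⟨h1, h2⟩ := ih (q.nx j)
    simp only [List.cons_append, endP, lvs, rvs, List.mem_cons]
    exact ⟨Or.inr h1, Or.inr h2⟩

/-- every vertex of a room between two letters of the word is an end point of a crossed edge -/
theorem hts_room {S : TriSys} (q : Pl S) (x v : ℂ) (A B : List (ZMod 3)) (k : ZMod 3)
    (hA : A ≠ []) (hr : Run q x v (A ++ k :: B)) (m : ZMod 3) :
    (endP q A).V m ∈ lvs q (A ++ k :: B) ∨ (endP q A).V m ∈ rvs q (A ++ k :: B) := by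
  obtain ⟨A₀, j, rfl⟩ : ∃ A₀ j, A = A₀ ++ [j] :=
    ⟨A.dropLast, A.getLast hA, (List.dropLast_append_getLast hA).symm⟩
  have hr2 : Run q x v (A₀ ++ (j :: k :: B)) := by
    have : (A₀ ++ [j]) ++ k :: B = A₀ ++ (j :: k :: B) := by simp
    rwa [this] at hr
  rw [Run_append] at hr2
  obtain ⟨-, hj, hk, -⟩ := hr2
  have hEn := Pl.Ex.ent hj
  have e1 : endP q (A₀ ++ [j]) = (endP q A₀).nx j := by
    rw [endP_append]; rfl
  have e2 : (A₀ ++ [j]) ++ k :: B = A₀ ++ j :: (k :: B) := by simp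
  have m1 := hts_mem A₀ j (k :: B) q
  have m2 := hts_mem (A₀ ++ [j]) k B q
  rw [e1] at m2 ⊢
  rw [e2] at m2 ⊢
  rcases z_cases ((endP q A₀).en j) m with rfl | rfl | rfl
  · rcases Pl.En.exit hEn hk with ⟨rfl, -⟩ | ⟨rfl, -⟩
    · left
      have := m2.1
      rwa [z31] at this
    · right
      have := m2.2
      rwa [z32] at this
  · left
    rw [Pl.V_nx1]
    exact m1.1
  · right
    rw [Pl.V_nx2]
    exact m1.2

theorem q_HTS (hALG : Sg_ALG) : Se_HTS := by
  intro S
  obtain ⟨C₁, hC₁, hLEN⟩ := b_LEN S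
  refine ⟨1 / (2 * C₁), ⌈4 * C₁⌉₊, by positivity, ?_⟩
  intro r i n w ψ y l₁ l₂ hn hw hψ hy hyw hct hP1 hP2
  obtain ⟨js, hlen, hrun, hfar⟩ := hψ
  set q := Pl.home S r with hq
  set v := ev ψ with hv
  have hv1 : ‖v‖ = 1 := norm_ev ψ
  set W := i :: js with hW
  set x := S.P r i with hx
  have hVx : q.V i = x := Pl.V_home r i
  -- heights over the line through `y`
  have hcx : ∀ p : ℂ, cx v (p - y) = cx v (p - x) - cx v (y - x) := by
    intro p
    rw [← cx_sub_right]
    congr 1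
    ring
  have hyw' := abs_lt.1 hyw
  have hsig := (hALG S W [] q x v).1.1 hrun
  have hL : ∀ p ∈ lvs q W, w / 2 < cx v (p - y) := by
    intro p hp
    have h1 := hsig.1 p hp
    have h2 := hfar p (Or.inl hp)
    rw [abs_of_pos h1] at h2
    rw [hcx p]
    linarith
  have hR : ∀ p ∈ rvs q W, cx v (p - y) < -(w / 2) := by
    intro p hp
    have h1 := hsig.2 p hp
    have h2 := hfar p (Or.inr hp)
    rw [abs_of_neg h1] at h2
    rw [hcx p]
    linarith
  have hrunY : Run q y v W := by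
    apply (hALG S W [] q y v).1.2
    exact ⟨fun p hp => by linarith [hL p hp], fun p hp => by linarith [hR p hp]⟩
  obtain ⟨hIn, hr1, he1⟩ := hP1
  obtain ⟨-, hr2, he2⟩ := hP2
  set T : ℝ := 1 + 1 / (2 * C₁) * n with hT
  have hT1 : 1 ≤ T := by
    rw [hT]
    have : 0 ≤ 1 / (2 * C₁) * (n : ℝ) := by positivity
    linarith
  -- crossing times
  have hpos := (b_CTS S).2.2.2 W q y v hIn hrunY
  have hbig : ∃ t ∈ cts q y v W, T < t := by
    by_contra hno
    push Not at hno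
    have h1 := hLEN W q y v 0 T hv1 (by linarith) hrunY (fun t ht => ⟨(hpos t ht).le, hno t ht⟩)
    have h2 : (W.length : ℝ) = n + 1 := by
      rw [hW, List.length_cons, hlen]
      push_cast
      ring
    rw [h2] at h1
    have h3 : C₁ * (1 + (T - 0)) = 2 * C₁ + n / 2 := by
      rw [hT]
      field_simp
      ring
    rw [h3] at h1
    have h4 : 4 * C₁ ≤ n := (Nat.le_ceil _).trans (by exact_mod_cast hn)
    linarith
  obtain ⟨t₀, ht₀, hTt₀⟩ := hbig
  have hlt2 := (b_CTS S).2.2.1 l₂ q y v T hr2 he2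
  -- `l₂` is a proper prefix of `W`
  have hpre : ∃ k B, W = l₂ ++ k :: B := by
    rcases Run_comparable l₂ W q y v hr2 hrunY with ⟨t, ht⟩ | ⟨t, ht⟩
    · cases t with
      | nil =>
        exfalso
        rw [List.append_nil] at ht
        rw [← ht] at ht₀
        linarith [hlt2 t₀ ht₀]
      | cons k B => exact ⟨k, B, ht.symm⟩
    · exfalso
      rw [← ht, cts_append] at hlt2
      linarith [hlt2 t₀ (List.mem_append_left _ ht₀)]
  obtain ⟨k, B, hWB⟩ := hpre
  obtain ⟨⟨l₃, hl₃⟩, -⟩ := b_MON S r y v 1 T l₁ l₂ hT1 ⟨hIn, hr1, he1⟩ ⟨hIn, hr2, he2⟩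
  -- `l₁` is not empty
  have hne : l₁ ≠ [] := by
    rintro rfl
    have h1 : q.Ex y v i := hrunY.1
    have h2 := (b_TIM S).2.1 q y v i 1 h1 he1
    linarith
  refine ⟨l₁, l₃, ⟨hIn, hr1, he1⟩, ?_, ?_, ?_⟩
  · show PW S r y v (1 + 1 / (2 * C₁) * n) (l₁ ++ l₃)
    rw [hl₃]
    exact ⟨hIn, hr2, he2⟩
  · -- hit
    show clr q l₁ y v < w / 2
    have h1 := (b_CLV S l₁ q y v).1 (q.V i) ((b_CLV S l₁ q y v).2.2.2.1 i)
    rw [hcx, hVx, sub_self] at h1
    have h2 : cx v (0 : ℂ) = 0 := by simp [cx]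
    rw [h2, zero_sub, abs_neg] at h1
    linarith
  · -- silence
    show w / 2 ≤ clr (endP q l₁) l₃ y v
    obtain ⟨p, hp, hpe⟩ := clr_mem l₃ (endP q l₁) y v
    rw [hpe]
    obtain ⟨a, b, m, hab, hpm⟩ := (mem_vl _ _ _).1 hp
    rw [← endP_append] at hpm
    have hsplit : ∃ k' B', W = (l₁ ++ a) ++ k' :: B' := by
      rw [hWB, ← hl₃, hab]
      cases b with
      | nil => exact ⟨k, B, by simp⟩
      | cons k' B' => exact ⟨k', B' ++ k :: B, by simp⟩
    obtain ⟨k', B', hk'⟩ := hsplit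
    have hr3 : Run q y v ((l₁ ++ a) ++ k' :: B') := hk' ▸ hrunY
    have h1 := hts_room q y v (l₁ ++ a) B' k' (by simp [hne]) hr3 m
    rw [← hk', ← hpm] at h1
    rcases h1 with h1 | h1
    · have h2 := hL p h1
      rw [abs_of_pos (by linarith)]
      exact h2.le
    · have h2 := hR p h1
      rw [abs_of_neg (by linarith)]
      linarith

end Pool.Agent.FAN
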