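import Pool.Agent.FAN4.StE

/-!
# FAN4, block E: the kernel inequality
-/

set_option autoImplicit false

open Set

namespace Pool.Agent.FAN

theorem KER_anti (p : PR) {a b : ℝ} (ha : 0 < a) (hab : a ≤ b) : trf p b ≤ trf p a := by
  unfold trf
  have h := Real.rpow_le_rpow_of_nonpos ha hab (by linarith [p.e1] : p.e - 1 ≤ 0)
  exact max_le_max (by linarith) le_rfl

theorem KER_zero (p : PR) {a : ℝ} (ha : p.k ≤ a) : trf p a = 0 := by
  unfold trf
  have h := Real.rpow_le_rpow_of_nonpos p.k0 ha (by linarith [p.e1] : p.e - 1 ≤ 0)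
  exact max_eq_right (by linarith)

theorem q_KER : Se_KER := by
  intro p a b ha hb
  have h1 := KER_anti p ha (by linarith : a ≤ a + b)
  refine ⟨mul_nonneg ha.le (by linarith), ?_, ?_⟩
  · have hab : 0 < a + b := by linarith
    have hA : 0 < a ^ (p.e - 1) := Real.rpow_pos_of_pos ha _
    have hS : 0 < (a + b) ^ (p.e - 1) := Real.rpow_pos_of_pos hab _
    have hSA : (a + b) ^ (p.e - 1) ≤ a ^ (p.e - 1) :=
      Real.rpow_le_rpow_of_nonpos ha (by linarith) (by linarith [p.e1])
    have hd : trf p a - trf p (a + b) ≤ a ^ (p.e - 1) - (a + b) ^ (p.e - 1) := by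
      unfold trf
      rcases le_total (a ^ (p.e - 1) - p.k ^ (p.e - 1)) 0 with h | h
      · rw [max_eq_right h]
        have := le_max_right ((a + b) ^ (p.e - 1) - p.k ^ (p.e - 1)) 0
        linarith
      · rw [max_eq_left h]
        have := le_max_left ((a + b) ^ (p.e - 1) - p.k ^ (p.e - 1)) 0
        linarith
    have hd2 := mul_le_mul_of_nonneg_left hd ha.le
    refine hd2.trans ?_
    rcases le_total a b with h | h
    · rw [min_eq_left h]
      nlinarith
    · rw [min_eq_right h]
      have e1 : a ^ p.e ≤ (a + b) ^ p.e := Real.rpow_le_rpow ha.le (by linarith) p.e0.le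
      have e2 : a ^ (p.e - 1) = a ^ p.e / a := Real.rpow_sub_one ha.ne' _
      have e3 : (a + b) ^ (p.e - 1) = (a + b) ^ p.e / (a + b) := Real.rpow_sub_one hab.ne' _
      have hX : 0 < a ^ p.e := Real.rpow_pos_of_pos ha _
      rw [e2, e3]
      have e4 : a ^ p.e / (a + b) ≤ (a + b) ^ p.e / (a + b) :=
        div_le_div_of_nonneg_right e1 hab.le
      have e5 : a * (a ^ p.e / a - a ^ p.e / (a + b)) ≤ b * (a ^ p.e / a) := by
        have : a * (a ^ p.e / a - a ^ p.e / (a + b)) = b * (a ^ p.e / (a + b)) := by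
          field_simp
          ring
        rw [this]
        apply mul_le_mul_of_nonneg_left _ hb.le
        exact div_le_div_of_nonneg_left hX.le ha (by linarith)
      have e6 := mul_le_mul_of_nonneg_left e4 ha.le
      linarith
  · intro hk
    rw [KER_zero p hk, KER_zero p (by linarith : p.k ≤ a + b)]
    ring

end Pool.Agent.FAN
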