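import Pool.Agent.FAN4.StE

/-!
# FAN4, block E: ONE1 (helper23)
-/

set_option autoImplicit false

open scoped ComplexConjugate
open MeasureTheory Set

namespace Pool.Agent.FAN

theorem q_ONE1 : Se_ONE1 := by
  intro S r x v i js js' hl h h'
  have hl' : (i :: js).length = (i :: js').length := by simp [hl]
  rcases Run_comparable (i :: js) (i :: js') _ x v h h' with h1 | h1
  · have := h1.eq_of_length hl'
    exact (List.cons.inj this).2
  · have := h1.eq_of_length hl'.symm
    exact (List.cons.inj this).2.symm

end Pool.Agent.FAN
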