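import Pool.Agent.FAN4.StE
import Pool.Agent.FAN2.H_NOW

/-!
# FAN4, block E: PCK (helper17)
-/

set_option autoImplicit false

open scoped ComplexConjugate
open MeasureTheory Set

namespace Pool.Agent.FAN

theorem pck_meas (hMSR : Sg_MSR) (S : TriSys) (r : S.R) (i : ZMod 3) (n : ℕ) (w : ℝ) :
    MeasurableSet (WD S r i n w) := by
  have e : WD S r i n w = ⋃ js : List (ZMod 3), {ψ : ℝ | js.length = n ∧
      Run (Pl.home S r) (S.P r i) (ev ψ) (i :: js) ∧
      ∀ p : ℂ, (p ∈ lvs (Pl.home S r) (i :: js) ∨ p ∈ rvs (Pl.home S r) (i :: js)) →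
        w < |cx (ev ψ) (p - S.P r i)|} := by
    ext ψ
    simp only [WD, Set.mem_setOf_eq, Set.mem_iUnion]
  rw [e]
  refine MeasurableSet.iUnion fun js => ?_
  by_cases hl : js.length = n
  · have e2 : {ψ : ℝ | js.length = n ∧ Run (Pl.home S r) (S.P r i) (ev ψ) (i :: js) ∧
        ∀ p : ℂ, (p ∈ lvs (Pl.home S r) (i :: js) ∨ p ∈ rvs (Pl.home S r) (i :: js)) →
          w < |cx (ev ψ) (p - S.P r i)|} =
        {ψ : ℝ | Run (Pl.home S r) (S.P r i) (ev ψ) (i :: js)} ∩
        ⋂ p ∈ {p : ℂ | p ∈ lvs (Pl.home S r) (i :: js) ∨ p ∈ rvs (Pl.home S r) (i :: js)},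
          {ψ : ℝ | w < |cx (ev ψ) (p - S.P r i)|} := by
      ext ψ
      simp only [Set.mem_setOf_eq, Set.mem_inter_iff, Set.mem_iInter]
      constructor
      · rintro ⟨-, h1, h2⟩
        exact ⟨h1, h2⟩
      · rintro ⟨h1, h2⟩
        exact ⟨hl, h1, h2⟩
    rw [e2]
    refine (hMSR.1 S (Pl.home S r) (S.P r i) (i :: js)).inter ?_
    refine MeasurableSet.biInter ?_ fun p _ => ?_
    · have hf : {p : ℂ | p ∈ lvs (Pl.home S r) (i :: js) ∨
          p ∈ rvs (Pl.home S r) (i :: js)}.Finite :=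
        (List.finite_toSet (lvs (Pl.home S r) (i :: js))).union
          (List.finite_toSet (rvs (Pl.home S r) (i :: js)))
      exact hf.countable
    · exact (isOpen_lt continuous_const
        (continuous_abs.comp (continuous_cx continuous_ev continuous_const))).measurableSet
  · have e3 : {ψ : ℝ | js.length = n ∧ Run (Pl.home S r) (S.P r i) (ev ψ) (i :: js) ∧
        ∀ p : ℂ, (p ∈ lvs (Pl.home S r) (i :: js) ∨ p ∈ rvs (Pl.home S r) (i :: js)) →
          w < |cx (ev ψ) (p - S.P r i)|} = ∅ := by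
      ext ψ
      simp [hl]
    rw [e3]
    exact MeasurableSet.empty

/-- the part of the phase space used for the packing -/
def pckZ (S : TriSys) (r : S.R) (i : ZMod 3) (n : ℕ) (w : ℝ) : Set (ℝ × ℂ) :=
  {p | p.1 ∈ WD S r i n w ∩ Ioc (0 : ℝ) (2 * Real.pi) ∧ p.2 ∈ rm S r ∧
    |cx (ev p.1) (p.2 - S.P r i)| < w / 2 ∧ (Pl.home S r).ct p.2 (ev p.1) i < 1}

theorem pckZ_meas (hMSR : Sg_MSR) (S : TriSys) (r : S.R) (i : ZMod 3) (n : ℕ) (w : ℝ) :
    MeasurableSet (pckZ S r i n w) := by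
  have m1 : MeasurableSet {p : ℝ × ℂ | p.1 ∈ WD S r i n w ∩ Ioc (0 : ℝ) (2 * Real.pi)} :=
    measurable_fst ((pck_meas hMSR S r i n w).inter measurableSet_Ioc)
  have m2 : MeasurableSet {p : ℝ × ℂ | p.2 ∈ rm S r} := measurable_snd (b_OPN S r).2.2.1
  have hev : Continuous (fun p : ℝ × ℂ => ev p.1) := continuous_ev.comp continuous_fst
  have m3 : MeasurableSet {p : ℝ × ℂ | |cx (ev p.1) (p.2 - S.P r i)| < w / 2} :=
    (isOpen_lt (continuous_abs.comp (continuous_cx hev (continuous_snd.sub continuous_const)))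
      continuous_const).measurableSet
  have m4 : MeasurableSet {p : ℝ × ℂ | (Pl.home S r).ct p.2 (ev p.1) i < 1} := by
    have h : Measurable (fun p : ℝ × ℂ => (Pl.home S r).ct p.2 (ev p.1) i) := by
      unfold Pl.ct
      exact (continuous_cx (continuous_const.sub continuous_snd)
        (continuous_const.sub continuous_snd)).measurable.div
        (continuous_cx hev continuous_const).measurable
    exact measurableSet_lt h measurable_const
  exact m1.inter (m2.inter (m3.inter m4))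

theorem q_PCK (hHTS : Se_HTS) (hSTR : Se_STR) (hMEV : Se_MEV) (hMSR : Sg_MSR) : Se_PCK := by
  intro S
  obtain ⟨c, m, hc, hH⟩ := hHTS S
  obtain ⟨η, hη, hη1, hS⟩ := hSTR S
  obtain ⟨V, hV, hM⟩ := hMEV S
  set m₁ : ℕ := max m ⌈1 / c⌉₊ with hm₁
  have hpi : 0 < Real.pi := Real.pi_pos
  set C : ℝ := 1 + 2 * Real.pi * (m₁ + 1) + 2 * V / (c * η) with hC
  have hC1 : 1 ≤ C := by
    rw [hC]
    have h1 : 0 ≤ 2 * Real.pi * ((m₁ : ℝ) + 1) := by positivity
    have h2 : 0 ≤ 2 * V / (c * η) := by positivity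
    linarith
  refine ⟨C, hC1, fun r i n w hw hw1 => ⟨pck_meas hMSR S r i n w, ?_⟩⟩
  have hn0 : (0 : ℝ) ≤ n := Nat.cast_nonneg n
  by_cases hn : m₁ ≤ n
  · -- large `n`
    have hmn : m ≤ n := (le_max_left _ _).trans hn
    have hcn : 1 ≤ c * n := by
      have h1 : ⌈1 / c⌉₊ ≤ n := (le_max_right _ _).trans hn
      have h2 : 1 / c ≤ n := (Nat.le_ceil _).trans (by exact_mod_cast h1)
      rw [div_le_iff₀ hc] at h2
      linarith
    have hnpos : (1 : ℝ) ≤ n := by
      rcases Nat.eq_zero_or_pos n with h | h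
      · rw [h] at hcn
        norm_num at hcn
      · exact_mod_cast h
    -- null set
    set N₁ : Set (ℝ × ℂ) := {p | ¬ ∃ js, PW S r p.2 (ev p.1) 1 js} ∩
      (Ioc (0 : ℝ) (2 * Real.pi) ×ˢ rm S r) with hN₁
    set N₂ : Set (ℝ × ℂ) := {p | ¬ ∃ js, PW S r p.2 (ev p.1) (1 + c * n) js} ∩
      (Ioc (0 : ℝ) (2 * Real.pi) ×ˢ rm S r) with hN₂
    have hz₁ : volume N₁ = 0 := by
      have h := h_NOW S 1 zero_le_one
      unfold mm at h
      rw [Finset.sum_eq_zero_iff] at h
      exact h r (Finset.mem_univ r)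
    have hz₂ : volume N₂ = 0 := by
      have h := h_NOW S (1 + c * n) (by positivity)
      unfold mm at h
      rw [Finset.sum_eq_zero_iff] at h
      exact h r (Finset.mem_univ r)
    have hsub : pckZ S r i n w ⊆
        (EvH S (w / 2) (c * n) r ∩ (Ioc (0 : ℝ) (2 * Real.pi) ×ˢ rm S r)) ∪ (N₁ ∪ N₂) := by
      rintro ⟨ψ, y⟩ ⟨⟨hψ, hI⟩, hy, hyw, hct⟩
      have hbox : (ψ, y) ∈ Ioc (0 : ℝ) (2 * Real.pi) ×ˢ rm S r := ⟨hI, hy⟩
      by_cases h1 : ∃ js, PW S r y (ev ψ) 1 js
      · by_cases h2 : ∃ js, PW S r y (ev ψ) (1 + c * n) js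
        · obtain ⟨l₁, hl₁⟩ := h1
          obtain ⟨l₂, hl₂⟩ := h2
          exact Or.inl ⟨hH r i n w ψ y l₁ l₂ hmn hw hψ hy hyw hct hl₁ hl₂, hbox⟩
        · exact Or.inr (Or.inr ⟨h2, hbox⟩)
      · exact Or.inr (Or.inl ⟨h1, hbox⟩)
    have hvol : volume (pckZ S r i n w) ≤ ENNReal.ofReal (V / (c * n)) := by
      calc volume (pckZ S r i n w) ≤ volume ((EvH S (w / 2) (c * n) r ∩
            (Ioc (0 : ℝ) (2 * Real.pi) ×ˢ rm S r)) ∪ (N₁ ∪ N₂)) := measure_mono hsub
        _ ≤ volume (EvH S (w / 2) (c * n) r ∩ (Ioc (0 : ℝ) (2 * Real.pi) ×ˢ rm S r)) +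
            volume (N₁ ∪ N₂) := measure_union_le _ _
        _ = volume (EvH S (w / 2) (c * n) r ∩ (Ioc (0 : ℝ) (2 * Real.pi) ×ˢ rm S r)) := by
            rw [measure_union_null hz₁ hz₂, add_zero]
        _ ≤ mm S (EvH S (w / 2) (c * n)) := by
            unfold mm
            exact Finset.single_le_sum (f := fun r => volume (EvH S (w / 2) (c * n) r ∩
              (Ioc (0 : ℝ) (2 * Real.pi) ×ˢ rm S r))) (fun _ _ => zero_le) (Finset.mem_univ r)
        _ ≤ _ := hM (w / 2) (c * n) (by positivity) hcn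
    -- lower bound by sections
    have hlow : volume (WD S r i n w ∩ Ioc (0 : ℝ) (2 * Real.pi)) * ENNReal.ofReal (w * η) ≤
        volume (pckZ S r i n w) := by
      rw [Measure.volume_eq_prod, Measure.prod_apply (pckZ_meas hMSR S r i n w)]
      have hmW : MeasurableSet (WD S r i n w ∩ Ioc (0 : ℝ) (2 * Real.pi)) :=
        (pck_meas hMSR S r i n w).inter measurableSet_Ioc
      calc volume (WD S r i n w ∩ Ioc (0 : ℝ) (2 * Real.pi)) * ENNReal.ofReal (w * η)
          = ∫⁻ _ψ in WD S r i n w ∩ Ioc (0 : ℝ) (2 * Real.pi), ENNReal.ofReal (w * η) := by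
            rw [setLIntegral_const, mul_comm]
        _ ≤ ∫⁻ ψ in WD S r i n w ∩ Ioc (0 : ℝ) (2 * Real.pi),
              volume (Prod.mk ψ ⁻¹' pckZ S r i n w) := by
            apply setLIntegral_mono' hmW
            intro ψ hψ
            obtain ⟨js, hlen, hrun, hfar⟩ := hψ.1
            have h1 : (Pl.home S r).Ex (S.P r i) (ev ψ) i := hrun.1
            have h2 : w < |cx (ev ψ) (S.P r (i + 1) - S.P r i)| := by
              have := hfar ((Pl.home S r).V (i + 1)) (Or.inr (by simp [rvs]))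
              rwa [Pl.V_home] at this
            have h3 : w < |cx (ev ψ) (S.P r (i + 2) - S.P r i)| := by
              have := hfar ((Pl.home S r).V (i + 2)) (Or.inl (by simp [lvs]))
              rwa [Pl.V_home] at this
            refine (hS r i (ev ψ) w (norm_ev ψ) hw h1 h2 h3).trans (measure_mono ?_)
            rintro y ⟨hy, hyw, hct⟩
            exact ⟨hψ, hy, hyw, hct⟩
        _ ≤ ∫⁻ ψ, volume (Prod.mk ψ ⁻¹' pckZ S r i n w) := setLIntegral_le_lintegral _ _
    have hwη : 0 < w * η := mul_pos hw hη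
    have hfin : volume (WD S r i n w ∩ Ioc (0 : ℝ) (2 * Real.pi)) ≤
        ENNReal.ofReal (V / (c * n)) / ENNReal.ofReal (w * η) := by
      rw [ENNReal.le_div_iff_mul_le (Or.inl (by simpa using hwη)) (Or.inl ENNReal.ofReal_ne_top)]
      exact hlow.trans hvol
    refine hfin.trans ?_
    rw [← ENNReal.ofReal_div_of_pos hwη]
    apply ENNReal.ofReal_le_ofReal
    have hcnpos : 0 < c * n := by linarith
    calc V / (c * n) / (w * η) = V / (c * η) / (n * w) := by
          field_simp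
      _ ≤ V / (c * η) * (2 / ((n + 1) * w)) := by
          rw [div_eq_mul_inv (V / (c * η)) ((n : ℝ) * w)]
          apply mul_le_mul_of_nonneg_left _ (by positivity)
          rw [inv_eq_one_div, div_le_div_iff₀ (by positivity) (by positivity)]
          nlinarith
      _ = (2 * V / (c * η)) / ((n + 1) * w) := by ring
      _ ≤ C / ((n + 1) * w) := by
          apply div_le_div_of_nonneg_right _ (by positivity)
          rw [hC]
          have h1 : 0 ≤ 2 * Real.pi * ((m₁ : ℝ) + 1) := by positivity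
          linarith
  · -- small `n`
    rw [not_le] at hn
    have h1 : volume (WD S r i n w ∩ Ioc (0 : ℝ) (2 * Real.pi)) ≤
        ENNReal.ofReal (2 * Real.pi) := by
      calc volume (WD S r i n w ∩ Ioc (0 : ℝ) (2 * Real.pi)) ≤
          volume (Ioc (0 : ℝ) (2 * Real.pi)) := measure_mono inter_subset_right
        _ = ENNReal.ofReal (2 * Real.pi) := by rw [Real.volume_Ioc, sub_zero]
    refine h1.trans (ENNReal.ofReal_le_ofReal ?_)
    rw [le_div_iff₀ (by positivity)]
    have h2 : (n : ℝ) + 1 ≤ m₁ + 1 := by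
      have : (n : ℝ) ≤ m₁ := by exact_mod_cast hn.le
      linarith
    have h3 : ((n : ℝ) + 1) * w ≤ m₁ + 1 := by nlinarith
    have h4 : 2 * Real.pi * (((n : ℝ) + 1) * w) ≤ 2 * Real.pi * (m₁ + 1) :=
      mul_le_mul_of_nonneg_left h3 (by positivity)
    have h5 : 0 ≤ 2 * V / (c * η) := by positivity
    rw [hC]
    linarith

end Pool.Agent.FAN
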