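import Pool.Agent.FAN4.StE

/-!
# FAN4, block E: pointwise bound of the functional
-/

set_option autoImplicit false

open Set

namespace Pool.Agent.FAN

theorem PTW_one (hKER : Se_KER) (hYNG : Se_YNG) (p : PR) {s b lam M T a c : ℝ} (hs : 0 < s)
    (hs1 : s < 1) (hb : b = (1 - p.e) / (1 + s)) (hu : (1 - p.e) / 2 ≤ p.u) (hl : 0 < lam)
    (ha : 0 < a) (hc : 0 < c) (hT : a < p.k → 0 < T) (hTM : T ≤ M) (hM : 0 ≤ M) :
    T ^ p.u * (a * (trf p a - trf p (a + c))) ≤ M ^ (p.u - s * b) *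
      (lam ^ (1 / b) * (if a < p.k then (T / a) ^ s else 0) +
        lam ^ (-(1 / (1 - b))) * (if min a c < p.k then min a c else 0)) := by
  have he0 := p.e0
  have he1 := p.e1
  have h1s : 0 < 1 + s := by linarith
  have hb0 : 0 < b := by rw [hb]; exact div_pos (by linarith) h1s
  have hb1 : b < 1 := by rw [hb, div_lt_one h1s]; linarith
  have hm : 0 < min a c := lt_min ha hc
  obtain ⟨k1, k2, k3⟩ := hKER p a c ha hc
  have hL2 : 0 < lam ^ (-(1 / (1 - b))) := Real.rpow_pos_of_pos hl _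
  have hMr : 0 ≤ M ^ (p.u - s * b) := Real.rpow_nonneg hM _
  rcases lt_or_ge a p.k with h | h
  · have hT0 := hT h
    have hmk : min a c < p.k := lt_of_le_of_lt (min_le_left _ _) h
    rw [if_pos h, if_pos hmk]
    calc T ^ p.u * (a * (trf p a - trf p (a + c)))
        ≤ T ^ p.u * (min a c * a ^ (p.e - 1)) :=
          mul_le_mul_of_nonneg_left k2 (Real.rpow_nonneg hT0.le _)
      _ ≤ M ^ (p.u - s * b) * (((T / a) ^ s) ^ b * (min a c) ^ (1 - b)) :=
          hYNG.2 p s b T a (min a c) M hs hs1 hb hu hT0 hTM hm (min_le_left _ _)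
      _ ≤ _ := by
          apply mul_le_mul_of_nonneg_left _ hMr
          exact hYNG.1 b lam ((T / a) ^ s) (min a c) hb0 hb1 hl
            (Real.rpow_nonneg (by positivity) _) hm.le
  · rw [k3 h, if_neg (not_lt.2 h), mul_zero, mul_zero, zero_add]
    apply mul_nonneg hMr (mul_nonneg hL2.le _)
    split_ifs
    · exact hm.le
    · exact le_rfl

theorem q_PTW (hKER : Se_KER) (hYNG : Se_YNG) : Se_PTW := by
  intro p s b lam M z w hs hs1 hb hu hl hz hw hzT hwT hzM hwM hM
  have h1 := PTW_one hKER hYNG p hs hs1 hb hu hl hz hw hzT hzM hM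
  have h2 := PTW_one hKER hYNG p hs hs1 hb hu hl hw hz hwT hwM hM
  unfold PH
  rw [add_comm w.im z.im, min_comm w.im z.im] at h2
  refine (add_le_add h1 h2).trans (le_of_eq ?_)
  ring

end Pool.Agent.FAN
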