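import Pool.Agent.FAN4.StE

/-!
# FAN4, block E, module SHR: area of a sheared strip
-/

set_option autoImplicit false

open scoped ComplexConjugate
open MeasureTheory Set

namespace Pool.Agent.FAN

theorem q_SHR : Se_SHR := by
  intro A v w η c₀ k hv hw hη
  have hcv : ‖conj v‖ = 1 := by rw [RCLike.norm_conj]; exact hv
  -- the motion
  let c : Circle := ⟨conj v, mem_sphere_zero_iff_norm.2 hcv⟩
  have hc : ∀ z : ℂ, rotation c z = conj v * z := fun z => rfl
  have hrot : MeasurePreserving (fun z : ℂ => rotation c z) volume volume :=
    (rotation c).measurePreserving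
  have htr : MeasurePreserving (fun z : ℂ => z - A) volume volume :=
    measurePreserving_sub_right volume A
  have hf : MeasurePreserving (fun y : ℂ => rotation c (y - A)) volume volume := hrot.comp htr
  have hm1 : Measurable (fun s : ℝ => c₀ + k * s - η) := by fun_prop
  have hm2 : Measurable (fun s : ℝ => c₀ + k * s) := by fun_prop
  have hreg : MeasurableSet (regionBetween (fun s : ℝ => c₀ + k * s - η)
      (fun s : ℝ => c₀ + k * s) (Ioo (-w) w)) :=
    measurableSet_regionBetween hm1 hm2 measurableSet_Ioo
  have hsw : MeasurePreserving (Prod.swap : ℝ × ℝ → ℝ × ℝ) volume volume :=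
    Measure.measurePreserving_swap
  have hset : {y : ℂ | |cx v (y - A)| < w ∧ c₀ + k * cx v (y - A) - η < dt v (y - A) ∧
      dt v (y - A) < c₀ + k * cx v (y - A)} =
      (fun y : ℂ => rotation c (y - A)) ⁻¹' (Complex.measurableEquivRealProd ⁻¹'
        (Prod.swap ⁻¹' (regionBetween (fun s : ℝ => c₀ + k * s - η)
      (fun s : ℝ => c₀ + k * s) (Ioo (-w) w)))) := by
    ext y
    have e1 : (conj v * (y - A)).re = dt v (y - A) := by
      rw [Complex.mul_re, Complex.conj_re, Complex.conj_im]
      unfold dt
      ring
    have e2 : (conj v * (y - A)).im = cx v (y - A) := by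
      rw [Complex.mul_im, Complex.conj_re, Complex.conj_im]
      unfold cx
      ring
    simp only [mem_ofPred_eq, mem_preimage, regionBetween, mem_Ioo, hc,
      Complex.measurableEquivRealProd_apply, Prod.swap_prod_mk, e1, e2, abs_lt]
  have hi1 : IntegrableOn (fun s : ℝ => c₀ + k * s - η) (Ioo (-w) w) volume := by
    have : IntegrableOn (fun s : ℝ => c₀ + k * s - η) (Icc (-w) w) volume :=
      (by fun_prop : Continuous (fun s : ℝ => c₀ + k * s - η)).continuousOn.integrableOn_Icc
    exact this.mono_set Ioo_subset_Icc_self
  have hi2 : IntegrableOn (fun s : ℝ => c₀ + k * s) (Ioo (-w) w) volume := by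
    have : IntegrableOn (fun s : ℝ => c₀ + k * s) (Icc (-w) w) volume :=
      (by fun_prop : Continuous (fun s : ℝ => c₀ + k * s)).continuousOn.integrableOn_Icc
    exact this.mono_set Ioo_subset_Icc_self
  rw [hset, hf.measure_preimage
    (Complex.measurableEquivRealProd.measurable (measurable_swap hreg)).nullMeasurableSet,
    Complex.volume_preserving_equiv_real_prod.measure_preimage
      (measurable_swap hreg).nullMeasurableSet,
    hsw.measure_preimage hreg.nullMeasurableSet,
    Measure.volume_eq_prod, volume_regionBetween_eq_integral hi1 hi2 measurableSet_Ioo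
      (fun s _ => by linarith)]
  congr 1
  have : ∀ s : ℝ, ((fun s : ℝ => c₀ + k * s) - fun s : ℝ => c₀ + k * s - η) s = η := by
    intro s
    simp
  simp only [this]
  rw [setIntegral_const, smul_eq_mul, measureReal_def, Real.volume_Ioo,
    ENNReal.toReal_ofReal (by linarith)]
  ring

end Pool.Agent.FAN
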