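import Pool.Agent.FAN4.StE
import Pool.Agent.FAN2.HBase

/-!
# FAN4, block E: the strip in the first room
-/

set_option autoImplicit false

open scoped ComplexConjugate
open MeasureTheory Set

namespace Pool.Agent.FAN

theorem STR_frame (v p q : ℂ) (hv : ‖v‖ = 1) : cx p q = dt v p * cx v q - cx v p * dt v q := by
  have e : v.re ^ 2 + v.im ^ 2 = 1 := by
    have e1 : Complex.normSq v = 1 := by rw [Complex.normSq_eq_norm_sq, hv]; norm_num
    rw [Complex.normSq_apply] at e1
    nlinarith [e1]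
  simp only [cx, dt]
  linear_combination (-(p.re * q.im - p.im * q.re)) * e

theorem STR_z1 : ∀ i : ZMod 3, i + 1 + 2 = i := by decide
theorem STR_z2 : ∀ i : ZMod 3, i + 1 + 1 = i + 2 := by decide
theorem STR_z3 : ∀ i : ZMod 3, i + 2 + 2 = i + 1 := by decide
theorem STR_z4 : ∀ i : ZMod 3, i + 2 + 1 = i := by decide
theorem STR_z5 : ∀ i j : ZMod 3, j = i ∨ j = i + 1 ∨ j = i + 2 := by decide

theorem cx_sub_l (p q z : ℂ) : cx (p - q) z = cx p z - cx q z := by
  simp only [cx, Complex.sub_re, Complex.sub_im]; ring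
theorem cx_sub_r (p q z : ℂ) : cx z (p - q) = cx z p - cx z q := by
  simp only [cx, Complex.sub_re, Complex.sub_im]; ring

theorem q_STR (h : Se_SHR) : Se_STR := by
  intro S
  obtain ⟨D₀, h₀, _, hh, _, _, _, h4⟩ := b_DIA S
  refine ⟨min (h₀ / 2) (1 / 2), by positivity, lt_of_le_of_lt (min_le_right _ _) (by norm_num), ?_⟩
  intro r i v w hv hw hE hB hA
  have hVh : ∀ j, (Pl.home S r).V j = S.P r j := by
    intro j
    simp [Pl.home, Pl.V]
  have hη0 : (0 : ℝ) < min (h₀ / 2) (1 / 2) := by positivity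
  have hη1 : min (h₀ / 2) (1 / 2) ≤ h₀ / 2 := min_le_left _ _
  have hη2 : min (h₀ / 2) (1 / 2) ≤ (1 / 2 : ℝ) := min_le_right _ _
  generalize min (h₀ / 2) (1 / 2) = η at *
  have hE' := hE
  obtain ⟨ha, hb⟩ := hE'
  rw [hVh] at ha hb
  have hc := h4 (Pl.home S r) v i hv (by rw [hVh]; exact hE)
  simp only [Pl.ct] at hc
  simp only [hVh] at hc
  rw [abs_of_neg hb] at hB
  rw [abs_of_pos ha] at hA
  have hsh := h (S.P r i) v (w / 2) η
    (cx (S.P r (i + 1) - S.P r i) (S.P r (i + 2) - S.P r i) / cx v (S.P r (i + 2) - S.P r (i + 1)))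
    ((dt v (S.P r (i + 2) - S.P r i) - dt v (S.P r (i + 1) - S.P r i)) /
      cx v (S.P r (i + 2) - S.P r (i + 1))) hv (by linarith) hη0
  have e2 : 2 * (w / 2) * η = w * η := by ring
  rw [e2] at hsh
  rw [← hsh]
  apply measure_mono
  intro y hy
  obtain ⟨hy1, hy2, hy3⟩ := hy
  -- names
  have eAB : S.P r (i + 2) - S.P r (i + 1) = (S.P r (i + 2) - S.P r i) - (S.P r (i + 1) - S.P r i) := by ring
  have eYA : y - S.P r (i + 2) = (y - S.P r i) - (S.P r (i + 2) - S.P r i) := by ring
  have eYB : y - S.P r (i + 1) = (y - S.P r i) - (S.P r (i + 1) - S.P r i) := by ring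
  have eAY : S.P r (i + 2) - y = (S.P r (i + 2) - S.P r i) - (y - S.P r i) := by ring
  have eBY : S.P r (i + 1) - y = (S.P r (i + 1) - S.P r i) - (y - S.P r i) := by ring
  have eXA : S.P r i - S.P r (i + 2) = - (S.P r (i + 2) - S.P r i) := by ring
  have hyA := hy1
  rw [abs_lt] at hyA
  have hf1 := STR_frame v (S.P r (i + 1) - S.P r i) (S.P r (i + 2) - S.P r i) hv
  have hf2 := STR_frame v (S.P r (i + 2) - S.P r i) (y - S.P r i) hv
  have hf3 := STR_frame v (S.P r (i + 1) - S.P r i) (y - S.P r i) hv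
  have eD : cx v (S.P r (i + 2) - S.P r (i + 1)) = cx v (S.P r (i + 2) - S.P r i) - cx v (S.P r (i + 1) - S.P r i) := by
    rw [eAB, cx_sub_r]
  rw [eD] at hc hy2 hy3
  have hin : ∀ j : ZMod 3, (0 < cx (S.P r (i + 2) - S.P r (i + 1)) (y - S.P r (i + 1)) ∧
      0 < cx (S.P r i - S.P r (i + 2)) (y - S.P r (i + 2)) ∧
      0 < cx (S.P r (i + 1) - S.P r i) (y - S.P r i)) ∧ (Pl.home S r).ct y v i < 1 := by
    intro j
    simp only [Pl.ct, hVh]
    rw [eD]
    rw [eYA, eYB, eAY, eBY, eXA, eAB]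
    have g0 : ∀ p q : ℂ, cx (-p) q = - cx p q := by
      intro p q; simp only [cx, Complex.neg_re, Complex.neg_im]; ring
    have g1 : ∀ p q : ℂ, cx p q = - cx q p := by
      intro p q; simp only [cx]; ring
    have g2 : ∀ p : ℂ, cx p p = 0 := by
      intro p; simp only [cx]; ring
    clear eYA eYB eAY eBY eXA eAB eD hsh
    generalize S.P r (i + 2) - S.P r i = A at *
    generalize S.P r (i + 1) - S.P r i = B at *
    generalize y - S.P r i = s at *
    rw [g0]
    simp only [cx_sub_l, cx_sub_r, g2]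
    rw [g1 s A, g1 A B]
    rw [hf1, hf2, hf3]
    rw [hf1] at hc hy2 hy3
    generalize dt v A = T2 at *
    generalize dt v B = T1 at *
    generalize dt v s = t at *
    generalize cx v A = a at *
    generalize hbb : cx v B = b' at *
    generalize cx v s = σ at *
    obtain ⟨hσ1, hσ2⟩ := hyA
    have hab : 0 < a - b' := by linarith
    set c0 := (T1 * a - b' * T2) / (a - b') with hc0
    set k := (T2 - T1) / (a - b') with hk
    have k1 : c0 * (a - b') = T1 * a - b' * T2 := by rw [hc0]; field_simp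
    have k2 : k * (a - b') = T2 - T1 := by rw [hk]; field_simp
    have k3 : T2 = c0 + k * a := by
      have : (a - b') * (T2 - (c0 + k * a)) = 0 := by linear_combination (-1) * k1 - a * k2
      rcases mul_eq_zero.1 this with h1 | h1
      · linarith
      · linarith
    have k4 : T1 = c0 + k * b' := by
      have : (a - b') * (T1 - (c0 + k * b')) = 0 := by linear_combination (-1) * k1 - b' * k2
      rcases mul_eq_zero.1 this with h1 | h1
      · linarith
      · linarith
    clear_value c0 k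
    have hc00 : 0 < c0 := by linarith
    refine ⟨⟨?_, ?_, ?_⟩, ?_⟩
    · rw [k3, k4]
      have : 0 < (a - b') * (c0 + k * σ - t) := mul_pos hab (by linarith)
      nlinarith [this]
    · rw [k3]
      have q1 : 0 < (a - w) * c0 := mul_pos (by linarith) hc00
      have q2 : 0 < (c0 / 2 - (c0 + k * σ - t)) * a := mul_pos (by linarith) (by linarith)
      have q3 : 0 < (w / 2 - σ) * c0 := mul_pos (by linarith) hc00
      nlinarith [q1, q2, q3]
    · rw [k4]
      have q1 : 0 < (-b' - w) * c0 := mul_pos (by linarith) hc00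
      have q2 : 0 < (c0 / 2 - (c0 + k * σ - t)) * (-b') := mul_pos (by linarith) (by linarith)
      have q3 : 0 < (w / 2 + σ) * c0 := mul_pos (by linarith) hc00
      nlinarith [q1, q2, q3]
    · rw [div_lt_iff₀ hab, k3, k4]
      have : 0 < (a - b') * (1 - (c0 + k * σ - t)) := mul_pos hab (by linarith)
      nlinarith [this]
  obtain ⟨⟨g1, g2, g3⟩, g4⟩ := hin 0
  refine ⟨?_, hy1, g4⟩
  intro j
  simp only [hVh]
  rcases STR_z5 i j with rfl | rfl | rfl
  · exact g1
  · rw [STR_z1, STR_z2]; exact g2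
  · rw [STR_z3, STR_z4]; exact g3

end Pool.Agent.FAN
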