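import Pool.Agent.FAN4.StG

/-!
# FAN4, block G: ALG (helper23)
-/

set_option autoImplicit false

open scoped ComplexConjugate
open MeasureTheory Set

namespace Pool.Agent.FAN

variable {S : TriSys}

theorem run_iff (js : List (ZMod 3)) (q : Pl S) (x v : ℂ) :
    Run q x v js ↔ (∀ p ∈ lvs q js, 0 < cx v (p - x)) ∧ ∀ p ∈ rvs q js, cx v (p - x) < 0 := by
  induction js generalizing q with
  | nil => simp [Run, lvs, rvs]
  | cons j js ih =>
    simp only [Run, lvs, rvs, List.mem_cons, forall_eq_or_imp]
    rw [ih]
    simp only [Pl.Ex]
    tauto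

theorem lvs_append (js js' : List (ZMod 3)) (q : Pl S) :
    lvs q (js ++ js') = lvs q js ++ lvs (endP q js) js' := by
  induction js generalizing q with
  | nil => simp [lvs, endP]
  | cons j js ih => simp only [List.cons_append, lvs, endP]; rw [ih]

theorem rvs_append (js js' : List (ZMod 3)) (q : Pl S) :
    rvs q (js ++ js') = rvs q js ++ rvs (endP q js) js' := by
  induction js generalizing q with
  | nil => simp [rvs, endP]
  | cons j js ih => simp only [List.cons_append, rvs, endP]; rw [ih]

theorem lvs_rev (js : List (ZMod 3)) (q : Pl S) :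
    lvs (endP q js) (rev q js) = (rvs q js).reverse := by
  induction js generalizing q with
  | nil => simp [lvs, rvs, rev]
  | cons j js ih =>
    simp only [endP, rev, rvs, List.reverse_cons]
    rw [lvs_append, ih, endP_rev]
    simp only [lvs, Pl.V_nx2]

theorem rvs_rev (js : List (ZMod 3)) (q : Pl S) :
    rvs (endP q js) (rev q js) = (lvs q js).reverse := by
  induction js generalizing q with
  | nil => simp [lvs, rvs, rev]
  | cons j js ih =>
    simp only [endP, rev, lvs, List.reverse_cons]
    rw [rvs_append, ih, endP_rev]
    simp only [rvs, Pl.V_nx1]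

theorem lvs_mv (c e : ℂ) (hc : ‖c‖ = 1) (js : List (ZMod 3)) (q : Pl S) :
    lvs (q.mv c e hc) js = (lvs q js).map (fun p => c * p + e) := by
  induction js generalizing q with
  | nil => simp [lvs]
  | cons j js ih =>
    simp only [lvs, List.map_cons]
    rw [Pl.nx_mv, ih, Pl.V_mv]

theorem rvs_mv (c e : ℂ) (hc : ‖c‖ = 1) (js : List (ZMod 3)) (q : Pl S) :
    rvs (q.mv c e hc) js = (rvs q js).map (fun p => c * p + e) := by
  induction js generalizing q with
  | nil => simp [rvs]
  | cons j js ih =>
    simp only [rvs, List.map_cons]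
    rw [Pl.nx_mv, ih, Pl.V_mv]

theorem lvs_length (js : List (ZMod 3)) (q : Pl S) : (lvs q js).length = js.length := by
  induction js generalizing q with
  | nil => rfl
  | cons j js ih => simp only [lvs, List.length_cons, ih]

theorem rvs_length (js : List (ZMod 3)) (q : Pl S) : (rvs q js).length = js.length := by
  induction js generalizing q with
  | nil => rfl
  | cons j js ih => simp only [rvs, List.length_cons, ih]

theorem q_ALG : Sg_ALG := fun _ js js' q x v =>
  ⟨run_iff js q x v, lvs_append js js' q, rvs_append js js' q, lvs_rev js q, rvs_rev js q,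
    fun c e hc => ⟨lvs_mv c e hc js q, rvs_mv c e hc js q⟩, lvs_length js q, rvs_length js q⟩

end Pool.Agent.FAN
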