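import Pool.Agent.FAN4.StE
import Pool.Agent.FAN4.G_ALG

/-!
# FAN4, block E: VIS (helper48). The lowest point is visible.
-/

set_option autoImplicit false

open scoped ComplexConjugate
open MeasureTheory Set

namespace Pool.Agent.FAN

theorem VIS_im_frl (v p x : ℂ) : (conj v * (p - x)).im = cx v (p - x) := (cx_eq_im v (p - x)).symm

theorem VIS_im_frr (v p x : ℂ) : (v * conj (p - x)).im = -cx v (p - x) := by
  simp only [cx, Complex.mul_im, Complex.conj_re, Complex.conj_im, Complex.sub_re, Complex.sub_im]
  ring

/-- position of an element of a mapped list -/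
theorem VIS_map_split {f : ℂ → ℂ} {l l₁' l₂' : List ℂ} {z : ℂ} (h : l.map f = l₁' ++ z :: l₂') :
    ∃ a p c, l = a ++ p :: c ∧ f p = z ∧ ∀ p' ∈ a, f p' ∈ l₁' := by
  obtain ⟨a, b, hab, ha, hb⟩ := List.map_eq_append_iff.1 h
  obtain ⟨p, c, hb2, hp, -⟩ := List.map_eq_cons_iff.1 hb
  refine ⟨a, p, c, by rw [hab, hb2], hp, ?_⟩
  intro p' hp'
  rw [← ha]
  exact List.mem_map_of_mem hp'

theorem VIS_take {js : List (ZMod 3)} {m : ℕ} (h : m < js.length) :
    ∃ js₁ j js₂, js = js₁ ++ j :: js₂ ∧ js₁.length = m := by
  refine ⟨js.take m, js[m], js.drop (m + 1), ?_, ?_⟩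
  · rw [List.cons_getElem_drop_succ, List.take_append_drop]
  · rw [List.length_take]; omega

theorem q_VIS (hBOT : Sg_BOT) (hEXT : Sg_EXT) (hREC : Sg_REC) (hBDF : Sg_BDF) : Se_VIS := by
  intro S
  obtain ⟨D, hD1, hD⟩ := hBDF S
  refine ⟨D, hD1, ?_⟩
  intro r i js v hv hrun
  set q := Pl.home S r with hq
  set x := S.P r i with hx
  have hVi : q.V i = x := Pl.V_home r i
  obtain ⟨hR1, ⟨h0, hh0, hR2⟩, -⟩ := hREC S
  have hmono : ∀ js₁ : List (ZMod 3), js₁.length ≤ js.length → ∀ p : ℂ, p = apQ q i (i :: js₁) → GD q i js₁ →
      p ∈ PT S r i (D * (js.length + 1)) := by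
    intro js₁ hlen p hp hG
    right
    refine ⟨i :: js₁, ⟨⟨js₁, rfl⟩, ?_, ?_⟩, hp.symm⟩
    · have := hG
      unfold GD at this
      rw [hVi] at this
      exact this
    · have h1 := hD q i js₁ (apQ q i (i :: js₁)) (Or.inr (Or.inr rfl))
      rw [hVi] at h1
      refine h1.trans ?_
      have h2 : (js₁.length : ℝ) ≤ js.length := by exact_mod_cast hlen
      apply mul_le_mul_of_nonneg_left _ (by linarith)
      linarith
  refine ⟨?_, ?_, ?_, ?_, ?_⟩
  · -- left
    have hne : frl v x (lvs q (i :: js)) ≠ [] := by
      simp [frl, lvs]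
    obtain ⟨-, -, -, ⟨l₁', l₂', hdec, hlow⟩, -⟩ := hBOT _ hne
    obtain ⟨a, p, c, hl, hp, ha⟩ := VIS_map_split (f := fun p => conj v * (p - x)) hdec
    have hlow' : ∀ p' ∈ a, cx v (p - x) < cx v (p' - x) := by
      intro p' hp'
      have := hlow _ (ha p' hp')
      rw [← hp] at this
      simp only [VIS_im_frl] at this
      exact this
    refine ⟨p, ?_, hp.symm⟩
    rcases Nat.eq_zero_or_pos a.length with h0a | hpos
    · have ha0 : a = [] := List.length_eq_zero_iff.1 h0a
      rw [ha0] at hl
      simp only [lvs, List.nil_append, List.cons.injEq] at hl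
      left
      right
      rw [← hl.1]
      exact Pl.V_home r (i + 2)
    · have hlen : (lvs q (i :: js)).length = js.length + 1 := by
        rw [lvs_length]; simp
      have hlen2 : a.length - 1 < js.length := by
        rw [hl] at hlen
        simp only [List.length_append, List.length_cons] at hlen
        omega
      obtain ⟨js₁, j, js₂, hjs, hjs1⟩ := VIS_take hlen2
      have hcons : i :: js = (i :: js₁) ++ (j :: js₂) := by rw [hjs]; simp
      have hl2 : lvs q (i :: js₁) ++ lvs (endP q (i :: js₁)) (j :: js₂) = a ++ p :: c := by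
        rw [← lvs_append, ← hcons, hl]
      have hlen3 : (lvs q (i :: js₁)).length = a.length := by
        rw [lvs_length, List.length_cons]; omega
      obtain ⟨e1, e2⟩ := List.append_inj hl2 hlen3
      simp only [lvs, List.cons.injEq] at e2
      obtain ⟨e3, -⟩ := e2
      rw [hcons] at hrun
      obtain ⟨hr1, hr2⟩ := (Run_append _ _ _ _ _).1 hrun
      have hex : (endP q (i :: js₁)).Ex x v j := hr2.1
      have hen := (b_ENT S (i :: js₁) q x v i (by simp) hr1).1
      have hlen4 : js₁.length ≤ js.length := by rw [hjs]; simp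
      rcases hen.exit hex with ⟨hj, hc⟩ | ⟨hj, hc⟩
      · have hpa : p = apQ q i (i :: js₁) := by
          rw [← e3, hj, z31]; rfl
        apply hmono js₁ hlen4 p hpa
        apply hR1 q i v js₁ hv (by rw [hVi]; exact hr1)
        · intro p' hp'
          rw [← hpa, hVi]
          exact hlow' p' (by rw [← e1]; exact hp')
        · intro p' hp'
          rw [hVi]
          have := ((run_iff _ _ _ _).1 hr1).2 p' hp'
          exact this.trans hc
      · exfalso
        obtain ⟨-, ⟨w, hw, hw1, -⟩⟩ := hEXT S q i js₁
        have e4 : lvs q (i :: (js₁ ++ [eI q i (i :: js₁) + 2])) =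
            lvs q (i :: js₁) ++ [(endP q (i :: js₁)).V (eI q i (i :: js₁) + 2 + 2)] := by
          rw [← List.cons_append, lvs_append]
          rfl
        rw [hw1] at e4
        have e5 := List.append_cancel_left e4
        simp only [List.cons.injEq, and_true] at e5
        have e6 : w = p := by rw [e5, ← e3, hj]
        have := hlow' w (by rw [← e1]; exact hw)
        rw [e6] at this
        exact lt_irrefl _ this
  · -- right
    have hne : frr v x (rvs q (i :: js)) ≠ [] := by
      simp [frr, rvs]
    obtain ⟨-, -, -, ⟨l₁', l₂', hdec, hlow⟩, -⟩ := hBOT _ hne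
    obtain ⟨a, p, c, hl, hp, ha⟩ := VIS_map_split (f := fun p => v * conj (p - x)) hdec
    have hlow' : ∀ p' ∈ a, cx v (p' - x) < cx v (p - x) := by
      intro p' hp'
      have := hlow _ (ha p' hp')
      rw [← hp] at this
      simp only [VIS_im_frr] at this
      linarith
    refine ⟨p, ?_, hp.symm⟩
    rcases Nat.eq_zero_or_pos a.length with h0a | hpos
    · have ha0 : a = [] := List.length_eq_zero_iff.1 h0a
      rw [ha0] at hl
      simp only [rvs, List.nil_append, List.cons.injEq] at hl
      left
      left
      rw [← hl.1]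
      exact Pl.V_home r (i + 1)
    · have hlen : (rvs q (i :: js)).length = js.length + 1 := by
        rw [rvs_length]; simp
      have hlen2 : a.length - 1 < js.length := by
        rw [hl] at hlen
        simp only [List.length_append, List.length_cons] at hlen
        omega
      obtain ⟨js₁, j, js₂, hjs, hjs1⟩ := VIS_take hlen2
      have hcons : i :: js = (i :: js₁) ++ (j :: js₂) := by rw [hjs]; simp
      have hl2 : rvs q (i :: js₁) ++ rvs (endP q (i :: js₁)) (j :: js₂) = a ++ p :: c := by
        rw [← rvs_append, ← hcons, hl]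
      have hlen3 : (rvs q (i :: js₁)).length = a.length := by
        rw [rvs_length, List.length_cons]; omega
      obtain ⟨e1, e2⟩ := List.append_inj hl2 hlen3
      simp only [rvs, List.cons.injEq] at e2
      obtain ⟨e3, -⟩ := e2
      rw [hcons] at hrun
      obtain ⟨hr1, hr2⟩ := (Run_append _ _ _ _ _).1 hrun
      have hex : (endP q (i :: js₁)).Ex x v j := hr2.1
      have hen := (b_ENT S (i :: js₁) q x v i (by simp) hr1).1
      have hlen4 : js₁.length ≤ js.length := by rw [hjs]; simp
      rcases hen.exit hex with ⟨hj, hc⟩ | ⟨hj, hc⟩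
      · exfalso
        obtain ⟨⟨w, hw, -, hw1⟩, -⟩ := hEXT S q i js₁
        have e4 : rvs q (i :: (js₁ ++ [eI q i (i :: js₁) + 1])) =
            rvs q (i :: js₁) ++ [(endP q (i :: js₁)).V (eI q i (i :: js₁) + 1 + 1)] := by
          rw [← List.cons_append, rvs_append]
          rfl
        rw [hw1] at e4
        have e5 := List.append_cancel_left e4
        simp only [List.cons.injEq, and_true] at e5
        have e6 : w = p := by rw [e5, ← e3, hj]
        have := hlow' w (by rw [← e1]; exact hw)
        rw [e6] at this
        exact lt_irrefl _ this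
      · have hpa : p = apQ q i (i :: js₁) := by
          rw [← e3, hj, z32]; rfl
        apply hmono js₁ hlen4 p hpa
        apply hR1 q i v js₁ hv (by rw [hVi]; exact hr1)
        · intro p' hp'
          rw [hVi]
          have := ((run_iff _ _ _ _).1 hr1).1 p' hp'
          exact hc.trans this
        · intro p' hp'
          rw [← hpa, hVi]
          exact hlow' p' (by rw [← e1]; exact hp')
  · -- not the corner
    intro p hp
    rcases hp with hp | ⟨js', hjs', rfl⟩
    · have hpos := TriSys.pos' r i
      rcases hp with hp | hp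
      · rw [hp]
        intro h
        rw [h, ← hx, sub_self] at hpos
        simp [cx] at hpos
      · rw [mem_singleton_iff] at hp
        rw [hp]
        intro h
        rw [h, ← hx, cx_self] at hpos
        exact lt_irrefl _ hpos
    · obtain ⟨⟨js'', rfl⟩, hrun', -⟩ := hjs'
      have hG : GD q i js'' := by
        unfold GD
        rw [hVi]
        exact hrun'
      have := hR2 q i js'' hG
      intro h
      have h' : apQ q i (i :: js'') = S.P r i := h
      rw [h', hVi, sub_self, norm_zero] at this
      linarith
  · exact ((finite_singleton _).insert _).union ((b_KFIN S r i _).image _)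
  · have hfin := b_KFIN S r i (D * (js.length + 1))
    have h1 : (PT S r i (D * (js.length + 1))).ncard ≤
        2 + (GG S r i (D * (js.length + 1))).ncard := by
      refine (ncard_union_le _ _).trans ?_
      apply add_le_add
      · exact (ncard_insert_le _ _).trans (by simp)
      · exact ncard_image_le hfin
    exact_mod_cast h1

end Pool.Agent.FAN
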