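import Pool.Agent.FAN4.StE
import Pool.Agent.FAN4.G_ALG
import Pool.Agent.FAN4.E_VIS

/-!
# FAN4, block E: SUM (helper48). The sum over the words, one corner.
-/

set_option autoImplicit false

open scoped ComplexConjugate
open MeasureTheory Set

namespace Pool.Agent.FAN

theorem SUM_re_frl (v p x : ℂ) : (conj v * (p - x)).re = dt v (p - x) := (dt_eq_re v (p - x)).symm

theorem SUM_re_frr (v p x : ℂ) : (v * conj (p - x)).re = dt v (p - x) := by
  simp only [dt, Complex.mul_re, Complex.conj_re, Complex.conj_im, Complex.sub_re, Complex.sub_im]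
  ring

/-- comparison of the slope with the sine -/
theorem SUM_slope {v w : ℂ} {s a b : ℝ} (hs : 0 < s) (ha : 0 < a) (ha' : a ≤ ‖w‖)
    (hb : b = |cx v w|) (hb0 : 0 < b) : (a / b) ^ s ≤ |cx v w / ‖w‖| ^ (-s) := by
  have hw : 0 < ‖w‖ := lt_of_lt_of_le ha ha'
  have e : |cx v w / ‖w‖| ^ (-s) = (‖w‖ / b) ^ s := by
    rw [abs_div, abs_of_pos hw, ← hb, Real.rpow_neg (by positivity), ← Real.inv_rpow (by positivity),
      inv_div]
  rw [e]
  apply Real.rpow_le_rpow (by positivity) _ hs.le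
  gcongr

/-- facts on the lowest points -/
theorem SUM_facts (hBOT : Sg_BOT) {S : TriSys} {κ₀ D : ℝ}
    (hSML : ∀ (q : Pl S) (i : ZMod 3) (v : ℂ) (js : List (ZMod 3)), ‖v‖ = 1 →
      Run q (q.V i) v (i :: js) → ∀ p : ℂ, (p ∈ lvs q (i :: js) ∨ p ∈ rvs q (i :: js)) →
        |cx v (p - q.V i)| < κ₀ → 0 < dt v (p - q.V i))
    (hD : ∀ (q : Pl S) (i : ZMod 3) (js : List (ZMod 3)) (p : ℂ),
      (p ∈ lvs q (i :: js) ∨ p ∈ rvs q (i :: js) ∨ p = apQ q i (i :: js)) →
        ‖p - q.V i‖ ≤ D * (js.length + 1))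
    (p : PR) (hk : p.k ≤ κ₀) (r : S.R) (i : ZMod 3) (js : List (ZMod 3)) (v : ℂ) (hv : ‖v‖ = 1)
    (hrun : Run (Pl.home S r) (S.P r i) v (i :: js)) :
    (0 < (bot (frl v (S.P r i) (lvs (Pl.home S r) (i :: js)))).im ∧
      ((bot (frl v (S.P r i) (lvs (Pl.home S r) (i :: js)))).im < p.k →
        0 < (bot (frl v (S.P r i) (lvs (Pl.home S r) (i :: js)))).re) ∧
      |(bot (frl v (S.P r i) (lvs (Pl.home S r) (i :: js)))).re| ≤ D * (js.length + 1)) ∧
    (0 < (bot (frr v (S.P r i) (rvs (Pl.home S r) (i :: js)))).im ∧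
      ((bot (frr v (S.P r i) (rvs (Pl.home S r) (i :: js)))).im < p.k →
        0 < (bot (frr v (S.P r i) (rvs (Pl.home S r) (i :: js)))).re) ∧
      |(bot (frr v (S.P r i) (rvs (Pl.home S r) (i :: js)))).re| ≤ D * (js.length + 1)) := by
  have hVi : (Pl.home S r).V i = S.P r i := Pl.V_home r i
  have hri := (run_iff _ _ _ _).1 hrun
  constructor
  · have hne : frl v (S.P r i) (lvs (Pl.home S r) (i :: js)) ≠ [] := by
      simp [frl, lvs]
    obtain ⟨hmem, -⟩ := hBOT _ hne
    obtain ⟨p', hp', he⟩ := List.mem_map.1 hmem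
    rw [← he, SUM_re_frl, VIS_im_frl]
    have h1 := hri.1 p' hp'
    refine ⟨h1, ?_, ?_⟩
    · intro hlt
      have := hSML (Pl.home S r) i v js hv (by rw [hVi]; exact hrun) p' (Or.inl hp')
      rw [hVi] at this
      apply this
      rw [abs_of_pos h1]
      linarith
    · have := hD (Pl.home S r) i js p' (Or.inl hp')
      rw [hVi] at this
      exact (abs_dt_le hv _).trans this
  · have hne : frr v (S.P r i) (rvs (Pl.home S r) (i :: js)) ≠ [] := by
      simp [frr, rvs]
    obtain ⟨hmem, -⟩ := hBOT _ hne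
    obtain ⟨p', hp', he⟩ := List.mem_map.1 hmem
    rw [← he, SUM_re_frr, VIS_im_frr]
    have h1 := hri.2 p' hp'
    refine ⟨by linarith, ?_, ?_⟩
    · intro hlt
      have := hSML (Pl.home S r) i v js hv (by rw [hVi]; exact hrun) p' (Or.inr hp')
      rw [hVi] at this
      apply this
      rw [abs_of_neg h1]
      linarith
    · have := hD (Pl.home S r) i js p' (Or.inr (Or.inl hp'))
      rw [hVi] at this
      exact (abs_dt_le hv _).trans this

theorem SUM_fsum {ι : Type*} (s : Finset ι) {f : ι → ℝ → ℝ} {a b : ℝ}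
    (h : ∀ i ∈ s, IntervalIntegrable (f i) volume a b) :
    IntervalIntegrable (fun t => ∑ i ∈ s, f i t) volume a b := by
  have := IntervalIntegrable.sum s h
  have e : (fun t => ∑ i ∈ s, f i t) = ∑ i ∈ s, f i := by
    ext t
    rw [Finset.sum_apply]
  rw [e]
  exact this

theorem SUM_intbl {f : ℝ → ℝ} (hf : Measurable f) {B : ℝ} (hb : ∀ t, |f t| ≤ B) (a b : ℝ) :
    IntervalIntegrable f volume a b := by
  apply (intervalIntegrable_const (c := B)).mono_fun hf.aestronglyMeasurable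
  filter_upwards with t
  rw [Real.norm_eq_abs, Real.norm_eq_abs]
  exact (hb t).trans (le_abs_self B)

open Classical in
theorem q_SUM (hBOT : Sg_BOT) (hSML : Sg_SML) (hBDF : Sg_BDF) (hMSR : Sg_MSR) (hWDS : Ss_WDS)
    (hVIS : Se_VIS) (hONE : Se_ONE1) (hPTW : Se_PTW) (hCOT : Se_COT) : Se_SUM := by
  intro S
  obtain ⟨κ₀, hκ0, hSML⟩ := hSML S
  obtain ⟨D₁, hD1, hVIS⟩ := hVIS S
  obtain ⟨D₂, hD2, hBDF⟩ := hBDF S
  refine ⟨κ₀, hκ0, ?_⟩
  intro s hs0 hs1
  obtain ⟨C₃, hC3, hCOT⟩ := hCOT s hs0 hs1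
  set C := max (max D₁ D₂) (4 * C₃) with hC
  have hCD1 : D₁ ≤ C := (le_max_left _ _).trans (le_max_left _ _)
  have hCD2 : D₂ ≤ C := (le_max_right _ _).trans (le_max_left _ _)
  have hCC3 : 4 * C₃ ≤ C := le_max_right _ _
  have hC1 : 1 ≤ C := hD1.trans hCD1
  refine ⟨C, hC1, ?_⟩
  intro p r i n b lam hk hb hu hlam
  have hn0 : (0 : ℝ) ≤ n := Nat.cast_nonneg n
  have he0 := p.e0
  have he1 := p.e1
  have hsb : s * b ≤ (1 - p.e) / 2 := by
    rw [hb, ← mul_div_assoc, div_le_div_iff₀ (by linarith) (by norm_num)]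
    nlinarith
  have hexp : 0 ≤ p.u - s * b := by linarith
  set q := Pl.home S r with hq
  set x := S.P r i with hx
  set M : ℝ := D₂ * (n + 1) with hM
  have hM0 : 0 ≤ M := by positivity
  have hMC : M ≤ C * (n + 1) := by
    rw [hM]
    exact mul_le_mul_of_nonneg_right hCD2 (by linarith)
  set L₁ : ℝ := D₁ * (n + 1) with hL1
  have hL1C : L₁ ≤ C * (n + 1) := by
    rw [hL1]
    exact mul_le_mul_of_nonneg_right hCD1 (by linarith)
  set zl : List (ZMod 3) → ℝ → ℂ := fun js ψ => bot (frl (ev ψ) x (lvs q (i :: js))) with hzl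
  set zr : List (ZMod 3) → ℝ → ℂ := fun js ψ => bot (frr (ev ψ) x (rvs q (i :: js))) with hzr
  have hfacts : ∀ js ∈ wds n, ∀ ψ, Run q x (ev ψ) (i :: js) →
      (0 < (zl js ψ).im ∧ ((zl js ψ).im < p.k → 0 < (zl js ψ).re) ∧ |(zl js ψ).re| ≤ M) ∧
      (0 < (zr js ψ).im ∧ ((zr js ψ).im < p.k → 0 < (zr js ψ).re) ∧ |(zr js ψ).re| ≤ M) := by
    intro js hjs ψ hrun
    have hlen := (hWDS.1 n js).1 hjs
    have := SUM_facts hBOT hSML hBDF p hk r i js (ev ψ) (norm_ev ψ) hrun
    rw [hlen] at this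
    exact this
  obtain ⟨hMSR1, hMSR2, hMSR3⟩ := hMSR
  have hmr : ∀ js, MeasurableSet {ψ : ℝ | Run q x (ev ψ) (i :: js)} := fun js => hMSR1 S q x (i :: js)
  have hmzl : ∀ js, Measurable (zl js) := fun js => (hMSR2 p x (lvs q (i :: js)) []).1
  have hmzr : ∀ js, Measurable (zr js) := fun js => (hMSR2 p x [] (rvs q (i :: js))).2.1
  have hmPH : Measurable (fun t : ℂ × ℂ => PH p t.1 t.2) := (hMSR2 p x [] []).2.2.2.2
  set f : List (ZMod 3) → ℝ → ℝ := fun js ψ => if Run q x (ev ψ) (i :: js) then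
    PHw p q (i :: js) x (ev ψ) else 0 with hf
  have hfPH : ∀ js ψ, f js ψ = if Run q x (ev ψ) (i :: js) then PH p (zl js ψ) (zr js ψ) else 0 :=
    fun _ _ => rfl
  have hfm : ∀ js, Measurable (f js) := by
    intro js
    exact Measurable.ite (hmr js) (hmPH.comp ((hmzl js).prodMk (hmzr js))) measurable_const
  have hfi : ∀ js ∈ wds n, IntervalIntegrable (f js) volume 0 (2 * Real.pi) := by
    intro js hjs
    apply SUM_intbl (hfm js) (B := 2 * M ^ p.u)
    intro ψ
    rw [hfPH]
    split_ifs with h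
    · obtain ⟨⟨a1, a2, a3⟩, ⟨b1, b2, b3⟩⟩ := hfacts js hjs ψ h
      exact hMSR3 p M _ _ a1 b1 a3 b3
    · rw [abs_zero]
      have := Real.rpow_nonneg hM0 p.u
      linarith
  set g : List (ZMod 3) → ℝ → ℝ := fun js ψ => if Run q x (ev ψ) (i :: js) ∧
      min (zl js ψ).im (zr js ψ).im < p.k then min (zl js ψ).im (zr js ψ).im else 0 with hg
  have hmn : ∀ ψ, mn p S r i n ψ = ∑ js ∈ wds n, g js ψ := fun ψ => rfl
  have hg0 : ∀ js ∈ wds n, ∀ ψ, 0 ≤ g js ψ ∧ |g js ψ| ≤ p.k := by
    intro js hjs ψ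
    show 0 ≤ (if _ then _ else _ : ℝ) ∧ |(if _ then _ else _ : ℝ)| ≤ p.k
    split_ifs with h
    · obtain ⟨⟨a1, -, -⟩, ⟨b1, -, -⟩⟩ := hfacts js hjs ψ h.1
      have : 0 < min (zl js ψ).im (zr js ψ).im := lt_min a1 b1
      refine ⟨this.le, ?_⟩
      rw [abs_of_pos this]
      exact h.2.le
    · refine ⟨le_rfl, ?_⟩
      rw [abs_zero]
      exact p.k0.le
  have hgm : ∀ js, Measurable (g js) := by
    intro js
    have hmin : Measurable fun ψ => min (zl js ψ).im (zr js ψ).im :=
      (Complex.measurable_im.comp (hmzl js)).min (Complex.measurable_im.comp (hmzr js))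
    exact Measurable.ite ((hmr js).inter (measurableSet_lt hmin measurable_const)) hmin measurable_const
  have hmni : IntervalIntegrable (mn p S r i n) volume 0 (2 * Real.pi) := by
    have : mn p S r i n = fun ψ => ∑ js ∈ wds n, g js ψ := funext hmn
    rw [this]
    apply SUM_fsum
    intro js hjs
    exact SUM_intbl (hgm js) (fun ψ => (hg0 js hjs ψ).2) _ _
  -- the finite set of points
  have hPTfin : (PT S r i L₁).Finite := by
    have h1 : ((GG S r i L₁)).Finite := b_KFIN S r i L₁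
    exact ((finite_singleton _).insert _).union (h1.image _)
  set F := hPTfin.toFinset with hF
  set w : ℂ → ℝ → ℝ := fun z ψ => |cx (ev ψ) (z - x) / ‖z - x‖| ^ (-s) with hw
  have hw0 : ∀ z ψ, 0 ≤ w z ψ := fun z ψ => Real.rpow_nonneg (abs_nonneg _) _
  have hpt : ∀ ψ, ∑ js ∈ wds n, f js ψ ≤ M ^ (p.u - s * b) *
      (lam ^ (1 / b) * (2 * ∑ z ∈ F, w z ψ) + 2 * lam ^ (-(1 / (1 - b))) * mn p S r i n ψ) := by
    intro ψ
    have hsum0 : 0 ≤ ∑ z ∈ F, w z ψ := Finset.sum_nonneg fun z _ => hw0 z ψ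
    have hl1 : 0 ≤ lam ^ (1 / b) := Real.rpow_nonneg hlam.le _
    have hl2 : 0 ≤ lam ^ (-(1 / (1 - b))) := Real.rpow_nonneg hlam.le _
    have hMp : 0 ≤ M ^ (p.u - s * b) := Real.rpow_nonneg hM0 _
    by_cases hex : ∃ js ∈ wds n, Run q x (ev ψ) (i :: js)
    · obtain ⟨js, hjs, hrun⟩ := hex
      have huniq : ∀ js' ∈ wds n, js' ≠ js → ¬ Run q x (ev ψ) (i :: js') := by
        intro js' hjs' hne hrun'
        apply hne
        apply hONE S r x (ev ψ) i js' js _ hrun' hrun
        rw [(hWDS.1 n js').1 hjs', (hWDS.1 n js).1 hjs]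
      have e1 : ∑ js ∈ wds n, f js ψ = PH p (zl js ψ) (zr js ψ) := by
        rw [Finset.sum_eq_single js]
        · rw [hfPH, if_pos hrun]
        · intro js' hjs' hne
          rw [hfPH, if_neg (huniq js' hjs' hne)]
        · intro h
          exact absurd hjs h
      have e2 : mn p S r i n ψ = if min (zl js ψ).im (zr js ψ).im < p.k then
          min (zl js ψ).im (zr js ψ).im else 0 := by
        rw [hmn, Finset.sum_eq_single js]
        · show (if _ then _ else _ : ℝ) = _
          by_cases hmk : min (zl js ψ).im (zr js ψ).im < p.k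
          · rw [if_pos ⟨hrun, hmk⟩, if_pos hmk]
          · rw [if_neg (fun h => hmk h.2), if_neg hmk]
        · intro js' hjs' hne
          show (if _ then _ else _ : ℝ) = _
          rw [if_neg (fun h => huniq js' hjs' hne h.1)]
        · intro h
          exact absurd hjs h
      obtain ⟨⟨a1, a2, a3⟩, ⟨b1, b2, b3⟩⟩ := hfacts js hjs ψ hrun
      have hp := hPTW p s b lam M (zl js ψ) (zr js ψ) hs0 hs1 hb hu hlam a1 b1 a2 b2
        ((le_abs_self _).trans a3) ((le_abs_self _).trans b3) hM0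
      rw [e1, e2]
      refine hp.trans ?_
      apply mul_le_mul_of_nonneg_left _ hMp
      have hV := hVIS r i js (ev ψ) (norm_ev ψ) hrun
      have hlen := (hWDS.1 n js).1 hjs
      rw [hlen] at hV
      obtain ⟨⟨z1, hz1, hz1e⟩, ⟨z2, hz2, hz2e⟩, -⟩ := hV
      have hkey1 : (if (zl js ψ).im < p.k then ((zl js ψ).re / (zl js ψ).im) ^ s else 0) ≤
          ∑ z ∈ F, w z ψ := by
        split_ifs with h
        · have e3 : zl js ψ = conj (ev ψ) * (z1 - x) := hz1e
          have hre := a2 h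
          rw [e3, SUM_re_frl] at hre
          rw [e3, VIS_im_frl] at a1
          rw [e3, SUM_re_frl, VIS_im_frl]
          refine (SUM_slope hs0 hre ((le_abs_self _).trans (abs_dt_le (norm_ev ψ) _))
            (abs_of_pos a1).symm a1).trans ?_
          exact Finset.single_le_sum (f := fun z => w z ψ) (fun z _ => hw0 z ψ)
            (hPTfin.mem_toFinset.2 hz1)
        · exact hsum0
      have hkey2 : (if (zr js ψ).im < p.k then ((zr js ψ).re / (zr js ψ).im) ^ s else 0) ≤
          ∑ z ∈ F, w z ψ := by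
        split_ifs with h
        · have e3 : zr js ψ = ev ψ * conj (z2 - x) := hz2e
          have hre := b2 h
          rw [e3, SUM_re_frr] at hre
          rw [e3, VIS_im_frr] at b1
          rw [e3, SUM_re_frr, VIS_im_frr]
          have hneg : cx (ev ψ) (z2 - x) < 0 := by linarith
          refine (SUM_slope hs0 hre ((le_abs_self _).trans (abs_dt_le (norm_ev ψ) _))
            (abs_of_neg hneg).symm b1).trans ?_
          exact Finset.single_le_sum (f := fun z => w z ψ) (fun z _ => hw0 z ψ)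
            (hPTfin.mem_toFinset.2 hz2)
        · exact hsum0
      have := mul_le_mul_of_nonneg_left (add_le_add hkey1 hkey2) hl1
      have e4 : ∑ z ∈ F, w z ψ + ∑ z ∈ F, w z ψ = 2 * ∑ z ∈ F, w z ψ := by ring
      rw [e4] at this
      linarith
    · push Not at hex
      have e1 : ∑ js ∈ wds n, f js ψ = 0 := by
        apply Finset.sum_eq_zero
        intro js hjs
        rw [hfPH, if_neg (hex js hjs)]
      have e2 : mn p S r i n ψ = 0 := by
        rw [hmn]
        apply Finset.sum_eq_zero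
        intro js hjs
        show (if _ then _ else _ : ℝ) = _
        rw [if_neg (fun h => hex js hjs h.1)]
      rw [e1, e2]
      positivity
  have hwi : ∀ z ∈ F, IntervalIntegrable (w z) volume 0 (2 * Real.pi) ∧
      ∫ ψ in (0 : ℝ)..(2 * Real.pi), w z ψ ≤ C₃ := by
    intro z hz
    apply hCOT
    have hz' : z ∈ PT S r i L₁ := hPTfin.mem_toFinset.1 hz
    rw [sub_ne_zero]
    rcases hz' with hz' | ⟨js', hjs', rfl⟩
    · have hpos := TriSys.pos' r i
      rcases hz' with hz' | hz'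
      · rw [hz']
        intro h
        rw [h, ← hx, sub_self] at hpos
        simp [cx] at hpos
      · rw [mem_singleton_iff] at hz'
        rw [hz']
        intro h
        rw [h, ← hx, cx_self] at hpos
        exact lt_irrefl _ hpos
    · obtain ⟨⟨js'', rfl⟩, hrun', -⟩ := hjs'
      intro h
      have h' : (endP (Pl.home S r) (i :: js'')).V (eI (Pl.home S r) i (i :: js'')) = S.P r i := h
      rw [h', sub_self] at hrun'
      have := hrun'.1.1
      simp [cx] at this
  have hsumi : IntervalIntegrable (fun ψ => ∑ z ∈ F, w z ψ) volume 0 (2 * Real.pi) := by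
    apply SUM_fsum
    intro z hz
    exact (hwi z hz).1
  have hpi : (0 : ℝ) ≤ 2 * Real.pi := by positivity
  have hl1 : 0 ≤ lam ^ (1 / b) := Real.rpow_nonneg hlam.le _
  have hl2 : 0 ≤ lam ^ (-(1 / (1 - b))) := Real.rpow_nonneg hlam.le _
  have hMp : 0 ≤ M ^ (p.u - s * b) := Real.rpow_nonneg hM0 _
  have hmn0 : 0 ≤ ∫ ψ in (0 : ℝ)..(2 * Real.pi), mn p S r i n ψ := by
    apply intervalIntegral.integral_nonneg hpi
    intro ψ _
    rw [hmn]
    exact Finset.sum_nonneg fun js hjs => (hg0 js hjs ψ).1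
  have hGGfin : (GG S r i (C * (n + 1))).Finite := b_KFIN S r i _
  have hcardF : (F.card : ℝ) ≤ 2 * (1 + (GG S r i (C * (n + 1))).ncard) := by
    have h1 : (GG S r i L₁).ncard ≤ (GG S r i (C * (n + 1))).ncard := by
      apply ncard_le_ncard _ hGGfin
      rintro js ⟨h1, h2, h3⟩
      exact ⟨h1, h2, h3.trans hL1C⟩
    have h2 : F.card ≤ 2 + (GG S r i L₁).ncard := by
      rw [hF, ← ncard_eq_toFinset_card _ hPTfin]
      refine (ncard_union_le _ _).trans ?_
      apply add_le_add
      · exact (ncard_insert_le _ _).trans (by simp)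
      · exact ncard_image_le (b_KFIN S r i _)
    have h3 : (F.card : ℝ) ≤ 2 + (GG S r i L₁).ncard := by exact_mod_cast h2
    have h4 : ((GG S r i L₁).ncard : ℝ) ≤ (GG S r i (C * (n + 1))).ncard := by exact_mod_cast h1
    have h5 : (0 : ℝ) ≤ (GG S r i (C * (n + 1))).ncard := Nat.cast_nonneg _
    linarith
  calc ∑ js ∈ wds n, JJ p S r i (i :: js)
      = ∑ js ∈ wds n, ∫ ψ in (0 : ℝ)..(2 * Real.pi), f js ψ := rfl
    _ = ∫ ψ in (0 : ℝ)..(2 * Real.pi), ∑ js ∈ wds n, f js ψ := by
        rw [intervalIntegral.integral_finsetSum hfi]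
    _ ≤ ∫ ψ in (0 : ℝ)..(2 * Real.pi), M ^ (p.u - s * b) *
        (lam ^ (1 / b) * (2 * ∑ z ∈ F, w z ψ) + 2 * lam ^ (-(1 / (1 - b))) * mn p S r i n ψ) := by
        apply intervalIntegral.integral_mono_on hpi
        · exact SUM_fsum _ hfi
        · exact (((hsumi.const_mul 2).const_mul _).add (hmni.const_mul _)).const_mul _
        · intro ψ _
          exact hpt ψ
    _ = M ^ (p.u - s * b) * (lam ^ (1 / b) * (2 * ∑ z ∈ F, ∫ ψ in (0 : ℝ)..(2 * Real.pi), w z ψ) +
        2 * lam ^ (-(1 / (1 - b))) * ∫ ψ in (0 : ℝ)..(2 * Real.pi), mn p S r i n ψ) := by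
        rw [intervalIntegral.integral_const_mul, intervalIntegral.integral_add
          ((hsumi.const_mul 2).const_mul _) (hmni.const_mul _), intervalIntegral.integral_const_mul,
          intervalIntegral.integral_const_mul, intervalIntegral.integral_const_mul,
          intervalIntegral.integral_finsetSum (fun z hz => (hwi z hz).1)]
    _ ≤ (C * (n + 1)) ^ (p.u - s * b) * (lam ^ (1 / b) * (C * (1 + (GG S r i (C * (n + 1))).ncard)) +
        2 * lam ^ (-(1 / (1 - b))) * ∫ ψ in (0 : ℝ)..(2 * Real.pi), mn p S r i n ψ) := by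
        have h1 : ∑ z ∈ F, ∫ ψ in (0 : ℝ)..(2 * Real.pi), w z ψ ≤ F.card * C₃ := by
          rw [← nsmul_eq_mul]
          exact Finset.sum_le_card_nsmul _ _ _ fun z hz => (hwi z hz).2
        have h2 : 2 * ∑ z ∈ F, ∫ ψ in (0 : ℝ)..(2 * Real.pi), w z ψ ≤
            C * (1 + (GG S r i (C * (n + 1))).ncard) := by
          have h3 : (F.card : ℝ) * C₃ ≤ 2 * (1 + (GG S r i (C * (n + 1))).ncard) * C₃ :=
            mul_le_mul_of_nonneg_right hcardF hC3.le
          have h4 : (4 * C₃) * (1 + (GG S r i (C * (n + 1))).ncard : ℝ) ≤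
              C * (1 + (GG S r i (C * (n + 1))).ncard) :=
            mul_le_mul_of_nonneg_right hCC3 (by positivity)
          nlinarith
        apply mul_le_mul
        · exact Real.rpow_le_rpow hM0 hMC hexp
        · have := mul_le_mul_of_nonneg_left h2 hl1
          linarith
        · have h5 : 0 ≤ ∑ z ∈ F, ∫ ψ in (0 : ℝ)..(2 * Real.pi), w z ψ := by
            apply Finset.sum_nonneg
            intro z _
            apply intervalIntegral.integral_nonneg hpi
            intro ψ _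
            exact hw0 z ψ
          positivity
        · positivity

end Pool.Agent.FAN
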