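import Pool.Agent.FAN4.StE

/-!
# FAN4, block E: Young
-/

set_option autoImplicit false

open Set

namespace Pool.Agent.FAN

theorem q_YNG : Se_YNG := by
  refine ⟨?_, ?_⟩
  · intro b lam X m hb hb1 hl hX hm
    have h1b : 0 < 1 - b := by linarith
    have hL1 : 0 < lam ^ (1 / b) := Real.rpow_pos_of_pos hl _
    have hL2 : 0 < lam ^ (-(1 / (1 - b))) := Real.rpow_pos_of_pos hl _
    have h := Real.geom_mean_le_arith_mean2_weighted hb.le h1b.le (mul_nonneg hL1.le hX)
      (mul_nonneg hL2.le hm) (by ring)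
    have e1 : (lam ^ (1 / b) * X) ^ b = lam * X ^ b := by
      rw [Real.mul_rpow hL1.le hX, ← Real.rpow_mul hl.le, one_div, inv_mul_cancel₀ hb.ne',
        Real.rpow_one]
    have e2 : (lam ^ (-(1 / (1 - b))) * m) ^ (1 - b) = lam⁻¹ * m ^ (1 - b) := by
      rw [Real.mul_rpow hL2.le hm, ← Real.rpow_mul hl.le]
      have : -(1 / (1 - b)) * (1 - b) = -1 := by
        field_simp
      rw [this, Real.rpow_neg_one]
    rw [e1, e2] at h
    have e3 : lam * X ^ b * (lam⁻¹ * m ^ (1 - b)) = X ^ b * m ^ (1 - b) := by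
      field_simp
    rw [e3] at h
    refine h.trans ?_
    have k1 : b * (lam ^ (1 / b) * X) ≤ 1 * (lam ^ (1 / b) * X) :=
      mul_le_mul_of_nonneg_right hb1.le (mul_nonneg hL1.le hX)
    have k2 : (1 - b) * (lam ^ (-(1 / (1 - b))) * m) ≤ 1 * (lam ^ (-(1 / (1 - b))) * m) :=
      mul_le_mul_of_nonneg_right (by linarith) (mul_nonneg hL2.le hm)
    linarith
  · intro p s b T a m M hs hs1 hb hu hT hTM hm hma
    have ha : 0 < a := lt_of_lt_of_le hm hma
    have h1s : 0 < 1 + s := by linarith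
    have he1 := p.e1
    have hb0 : 0 < b := by rw [hb]; exact div_pos (by linarith) h1s
    have hbs : b * (1 + s) = 1 - p.e := by rw [hb]; field_simp
    have hsb : s * b ≤ p.u := by
      refine le_trans ?_ hu
      nlinarith
    have hM : 0 < M := lt_of_lt_of_le hT hTM
    have e1 : T ^ p.u = T ^ (p.u - s * b) * T ^ (s * b) := by
      rw [← Real.rpow_add hT]; congr 1; ring
    have e2 : a ^ (p.e - 1) = a ^ (-b) * a ^ (-(s * b)) := by
      rw [← Real.rpow_add ha]; congr 1; linarith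
    have e3 : ((T / a) ^ s) ^ b = T ^ (s * b) * a ^ (-(s * b)) := by
      rw [← Real.rpow_mul (by positivity), Real.div_rpow hT.le ha.le, Real.rpow_neg ha.le]
      rfl
    have e4 : m * a ^ (-b) ≤ m ^ (1 - b) := by
      have h1 : m ^ (1 - b) = m * m ^ (-b) := by
        rw [show (1 : ℝ) - b = 1 + -b by ring, Real.rpow_add hm, Real.rpow_one]
      rw [h1]
      apply mul_le_mul_of_nonneg_left _ hm.le
      exact Real.rpow_le_rpow_of_nonpos hm hma (by linarith)
    have e5 : T ^ (p.u - s * b) ≤ M ^ (p.u - s * b) :=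
      Real.rpow_le_rpow hT.le hTM (by linarith)
    have p1 : 0 < T ^ (s * b) := Real.rpow_pos_of_pos hT _
    have p2 : 0 < a ^ (-(s * b)) := Real.rpow_pos_of_pos ha _
    have p3 : 0 < T ^ (p.u - s * b) := Real.rpow_pos_of_pos hT _
    have p4 : 0 < m * a ^ (-b) := mul_pos hm (Real.rpow_pos_of_pos ha _)
    have p5 : 0 < M ^ (p.u - s * b) := Real.rpow_pos_of_pos hM _
    rw [e1, e2, e3]
    calc T ^ (p.u - s * b) * T ^ (s * b) * (m * (a ^ (-b) * a ^ (-(s * b))))
        = T ^ (p.u - s * b) * (m * a ^ (-b)) * (T ^ (s * b) * a ^ (-(s * b))) := by ring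
      _ ≤ M ^ (p.u - s * b) * m ^ (1 - b) * (T ^ (s * b) * a ^ (-(s * b))) := by
          apply mul_le_mul_of_nonneg_right _ (mul_pos p1 p2).le
          exact mul_le_mul e5 e4 p4.le p5.le
      _ = M ^ (p.u - s * b) * (T ^ (s * b) * a ^ (-(s * b)) * m ^ (1 - b)) := by ring

end Pool.Agent.FAN
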