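import Pool.Agent.FAN4.StG

/-!
# FAN4, module BDF: distances
-/

set_option autoImplicit false

namespace Pool.Agent.FAN

theorem q_BDF : Sg_BDF := by
  intro S
  obtain ⟨D₀, h₀, hD1, -, hd1, -⟩ := b_DIA S
  have key : ∀ (js : List (ZMod 3)) (q : Pl S) (i : ZMod 3) (p : ℂ),
      (p ∈ lvs q js ∨ p ∈ rvs q js ∨ ∃ k, p = (endP q js).V k) →
        ‖p - q.V i‖ ≤ D₀ * (js.length + 1) := by
    intro js
    induction js with
    | nil =>
      intro q i p hp
      rcases hp with h | h | ⟨k, rfl⟩
      · simp [lvs] at h
      · simp [rvs] at h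
      · have := hd1 q k i
        simpa [endP] using this
    | cons j js ih =>
      intro q i p hp
      have hlen : (0 : ℝ) ≤ js.length := by positivity
      have step : ∀ k, p = q.V k → ‖p - q.V i‖ ≤ D₀ * (((j :: js).length : ℕ) + 1) := by
        intro k hk
        rw [hk]
        have := hd1 q k i
        simp only [List.length_cons]
        push_cast
        nlinarith
      have step2 : (p ∈ lvs (q.nx j) js ∨ p ∈ rvs (q.nx j) js ∨
          ∃ k, p = (endP (q.nx j) js).V k) → ‖p - q.V i‖ ≤ D₀ * (((j :: js).length : ℕ) + 1) := by
        intro h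
        have h1 := ih (q.nx j) (q.en j + 1) p h
        rw [Pl.V_nx1] at h1
        have h2 := hd1 q (j + 2) i
        calc ‖p - q.V i‖ = ‖(p - q.V (j + 2)) + (q.V (j + 2) - q.V i)‖ := by
              congr 1
              ring
          _ ≤ ‖p - q.V (j + 2)‖ + ‖q.V (j + 2) - q.V i‖ := norm_add_le _ _
          _ ≤ D₀ * (js.length + 1) + D₀ := add_le_add h1 h2
          _ = D₀ * (((j :: js).length : ℕ) + 1) := by
              simp only [List.length_cons]
              push_cast
              ring
      rcases hp with h | h | h
      · rw [lvs] at h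
        rcases List.mem_cons.mp h with h | h
        · exact step _ h
        · exact step2 (Or.inl h)
      · rw [rvs] at h
        rcases List.mem_cons.mp h with h | h
        · exact step _ h
        · exact step2 (Or.inr (Or.inl h))
      · exact step2 (Or.inr (Or.inr h))
  refine ⟨2 * D₀, by linarith, ?_⟩
  intro q i js p hp
  have h1 := key (i :: js) q i p (by
    rcases hp with h | h | h
    · exact Or.inl h
    · exact Or.inr (Or.inl h)
    · exact Or.inr (Or.inr ⟨_, h⟩))
  have hlen : (0 : ℝ) ≤ js.length := by positivity
  refine h1.trans ?_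
  simp only [List.length_cons]
  push_cast
  nlinarith

end Pool.Agent.FAN
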