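import Pool.Agent.FAN4.StG

/-!
# FAN4, block G: BOT (helper23)
-/

set_option autoImplicit false

open scoped ComplexConjugate
open MeasureTheory Set

namespace Pool.Agent.FAN

theorem bot_single (z : ℂ) : bot [z] = z := by simp [bot]

theorem bot_cons (z : ℂ) {l : List ℂ} (hl : l ≠ []) :
    bot (z :: l) = if z.im ≤ (bot l).im then z else bot l := by
  simp only [bot, hl, false_or]

theorem bot_mem {l : List ℂ} (hl : l ≠ []) : bot l ∈ l := by
  induction l with
  | nil => exact absurd rfl hl
  | cons z l ih =>
    by_cases h : l = []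
    · subst h; simp [bot_single]
    · rw [bot_cons z h]
      split_ifs with h1
      · simp
      · exact List.mem_cons_of_mem _ (ih h)

theorem bot_le {l : List ℂ} : ∀ z ∈ l, (bot l).im ≤ z.im := by
  induction l with
  | nil => intro z hz; simp at hz
  | cons w l ih =>
    intro z hz
    by_cases h : l = []
    · subst h
      rw [List.mem_singleton] at hz
      rw [hz, bot_single]
    · rw [bot_cons w h]
      rcases List.mem_cons.1 hz with h2 | h2
      · rw [h2]
        split_ifs with h1
        · exact le_rfl
        · exact (lt_of_not_ge h1).le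
      · split_ifs with h1
        · exact h1.trans (ih z h2)
        · exact ih z h2

theorem bot_snoc {l : List ℂ} (hl : l ≠ []) (w : ℂ) :
    bot (l ++ [w]) = if w.im < (bot l).im then w else bot l := by
  induction l with
  | nil => exact absurd rfl hl
  | cons z l ih =>
    by_cases h : l = []
    · subst h
      rw [List.singleton_append, bot_cons z (by simp), bot_single, bot_single]
      by_cases h1 : z.im ≤ w.im
      · rw [if_pos h1, if_neg (not_lt.2 h1)]
      · rw [if_neg h1, if_pos (lt_of_not_ge h1)]
    · rw [List.cons_append, bot_cons z (by simp), ih h, bot_cons z h]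
      by_cases h1 : w.im < (bot l).im
      · rw [if_pos h1]
        by_cases h2 : z.im ≤ w.im
        · rw [if_pos h2, if_pos (h2.trans h1.le), if_neg (not_lt.2 h2)]
        · rw [if_neg h2]
          by_cases h3 : z.im ≤ (bot l).im
          · rw [if_pos h3, if_pos (lt_of_not_ge h2)]
          · rw [if_neg h3, if_pos h1]
      · rw [if_neg h1]
        by_cases h3 : z.im ≤ (bot l).im
        · rw [if_pos h3, if_neg (not_lt.2 (h3.trans (not_lt.1 h1)))]
        · rw [if_neg h3, if_neg h1]

theorem bot_first {l : List ℂ} (hl : l ≠ []) :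
    ∃ l₁ l₂, l = l₁ ++ bot l :: l₂ ∧ ∀ z ∈ l₁, (bot l).im < z.im := by
  induction l with
  | nil => exact absurd rfl hl
  | cons z l ih =>
    by_cases h : l = []
    · subst h
      exact ⟨[], [], by rw [bot_single]; rfl, by simp⟩
    · rw [bot_cons z h]
      split_ifs with h1
      · exact ⟨[], l, rfl, by simp⟩
      · obtain ⟨l₁, l₂, h2, h3⟩ := ih h
        refine ⟨z :: l₁, l₂, by rw [List.cons_append, ← h2], ?_⟩
        intro w hw
        rcases List.mem_cons.1 hw with h4 | h4
        · rw [h4]; exact lt_of_not_ge h1
        · exact h3 w h4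

theorem q_BOT : Sg_BOT := by
  intro l hl
  refine ⟨bot_mem hl, bot_le, bot_snoc hl, bot_first hl, fun l' h' => ?_⟩
  have hl' : l' ≠ [] := by
    intro h
    have := (h' (bot l)).2 (bot_mem hl)
    rw [h] at this
    simp at this
  have h1 : (bot l').im = (bot l).im :=
    le_antisymm (bot_le _ ((h' _).2 (bot_mem hl))) (bot_le _ ((h' _).1 (bot_mem hl')))
  exact ⟨h1, fun h2 => h2 _ ((h' _).1 (bot_mem hl')) _ (bot_mem hl) h1⟩

end Pool.Agent.FAN
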