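import Pool.Agent.FAN4.G_ALG

/-!
# FAN4, block G: EXT (helper23)
-/

set_option autoImplicit false

open scoped ComplexConjugate
open MeasureTheory Set

namespace Pool.Agent.FAN

variable {S : TriSys}

theorem ext_aux (W : List (ZMod 3)) (j₀ : ZMod 3) (q : Pl S) (i : ZMod 3) :
    (∃ w ∈ rvs q (W ++ [j₀]),
      lvs q ((W ++ [j₀]) ++ [eI q i (W ++ [j₀]) + 1]) = lvs q (W ++ [j₀]) ++ [apQ q i (W ++ [j₀])] ∧
      rvs q ((W ++ [j₀]) ++ [eI q i (W ++ [j₀]) + 1]) = rvs q (W ++ [j₀]) ++ [w]) ∧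
    (∃ w ∈ lvs q (W ++ [j₀]),
      lvs q ((W ++ [j₀]) ++ [eI q i (W ++ [j₀]) + 2]) = lvs q (W ++ [j₀]) ++ [w] ∧
      rvs q ((W ++ [j₀]) ++ [eI q i (W ++ [j₀]) + 2]) = rvs q (W ++ [j₀]) ++ [apQ q i (W ++ [j₀])]) := by
  have he : eI q i (W ++ [j₀]) = (endP q W).en j₀ := by rw [eI_append]; rfl
  have hE : endP q (W ++ [j₀]) = (endP q W).nx j₀ := by rw [endP_append]; rfl
  have hap : apQ q i (W ++ [j₀]) = ((endP q W).nx j₀).V ((endP q W).en j₀) := by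
    rw [apQ, he, hE]
  have hl : lvs q (W ++ [j₀]) = lvs q W ++ [(endP q W).V (j₀ + 2)] := by
    rw [lvs_append]; rfl
  have hr : rvs q (W ++ [j₀]) = rvs q W ++ [(endP q W).V (j₀ + 1)] := by
    rw [rvs_append]; rfl
  refine ⟨⟨(endP q W).V (j₀ + 1), by rw [hr]; simp, ?_, ?_⟩,
    ⟨(endP q W).V (j₀ + 2), by rw [hl]; simp, ?_, ?_⟩⟩
  · rw [lvs_append _ [_] q, he, hE, hap]
    simp only [lvs, z31]
  · rw [rvs_append _ [_] q, he, hE]
    simp only [rvs, z11, Pl.V_nx2]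
  · rw [lvs_append _ [_] q, he, hE]
    simp only [lvs, z22, Pl.V_nx1]
  · rw [rvs_append _ [_] q, he, hE, hap]
    simp only [rvs, z32]

theorem q_EXT : Sg_EXT := by
  intro S q i js
  rcases List.eq_nil_or_concat (i :: js) with h | ⟨W, j₀, h⟩
  · simp at h
  · have h' : i :: js = W ++ [j₀] := by rw [h, List.concat_eq_append]
    have h1 := ext_aux W j₀ q i
    rw [← h'] at h1
    exact h1

end Pool.Agent.FAN
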