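import Pool.Agent.FAN4.G_LNK
import Pool.Agent.FAN4.G_BOT

/-!
# FAN4, block G: HYP, hypothesis (H) of the planar inequality (helper32)
-/

set_option autoImplicit false

open scoped ComplexConjugate
open MeasureTheory Set

namespace Pool.Agent.FAN

variable {S : TriSys}

theorem HYP_core {κ₀ : ℝ} (hκ : ∀ (q : Pl S) (i : ZMod 3) (v : ℂ) (js : List (ZMod 3)), ‖v‖ = 1 →
    Run q (q.V i) v (i :: js) → ∀ p : ℂ, (p ∈ lvs q (i :: js) ∨ p ∈ rvs q (i :: js)) →
    |cx v (p - q.V i)| < κ₀ → 0 < dt v (p - q.V i))
    (q : Pl S) (i i' : ZMod 3) (js js' : List (ZMod 3)) (hrev : rev q (i :: js) = i' :: js')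
    (x z v : ℂ) (hx : q.V i = x) (hz : (endP q (i :: js)).V i' = z) (hv : ‖v‖ = 1)
    (hl : ∀ p ∈ lvs q (i :: js), 0 < cx v (p - x) ∧ cx v (z - x) < cx v (p - x))
    (hr : ∀ p ∈ rvs q (i :: js), cx v (p - x) < 0 ∧ cx v (p - x) < cx v (z - x))
    (p : ℂ) (hp : p ∈ lvs q (i :: js) ∨ p ∈ rvs q (i :: js)) (h1 : |cx v (p - x)| < κ₀)
    (h2 : |cx v (p - x) - cx v (z - x)| < κ₀) :
    0 < dt v (p - x) ∧ dt v (p - x) < dt v (z - x) := by
  have R1 : Run q (q.V i) v (i :: js) := by
    rw [run_iff, hx]
    exact ⟨fun p hp => (hl p hp).1, fun p hp => (hr p hp).1⟩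
  have c1 := hκ q i v js hv R1 p hp (by rw [hx]; exact h1)
  rw [hx] at c1
  have e1 : ∀ p : ℂ, cx (-v) (p - z) = cx v (z - x) - cx v (p - x) := by
    intro p
    have e : p - z = (p - x) - (z - x) := by ring
    rw [cx_neg_left, e, cx_sub_right]
    ring
  have e2 : ∀ p : ℂ, dt (-v) (p - z) = dt v (z - x) - dt v (p - x) := by
    intro p
    simp only [dt, Complex.neg_re, Complex.neg_im, Complex.sub_re, Complex.sub_im]
    ring
  have R2 : Run (endP q (i :: js)) ((endP q (i :: js)).V i') (-v) (i' :: js') := by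
    rw [← hrev, run_iff, lvs_rev, rvs_rev, hz]
    constructor
    · intro p hp
      rw [List.mem_reverse] at hp
      rw [e1]
      linarith [(hr p hp).2]
    · intro p hp
      rw [List.mem_reverse] at hp
      rw [e1]
      linarith [(hl p hp).2]
  have hp' : p ∈ lvs (endP q (i :: js)) (i' :: js') ∨ p ∈ rvs (endP q (i :: js)) (i' :: js') := by
    rw [← hrev, lvs_rev, rvs_rev, List.mem_reverse, List.mem_reverse]
    exact hp.symm
  have c2 := hκ _ i' (-v) js' (by rw [norm_neg, hv]) R2 p hp' (by
    rw [hz, e1, abs_sub_comm]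
    exact h2)
  rw [hz, e2] at c2
  exact ⟨c1, by linarith⟩

theorem conj_ev (φ : ℝ) : conj (ev φ) = ev (-φ) := by
  apply Complex.ext
  · simp [ev]
  · simp [ev]

/-- the frame coordinates in the rotated frame -/
theorem HYP_frame {v : ℂ} (w : ℂ) : (conj v * w).im = cx v w ∧ (conj v * w).re = dt v w ∧
    (v * conj w).im = -cx v w ∧ (v * conj w).re = dt v w := by
  refine ⟨(cx_eq_im v w).symm, (dt_eq_re v w).symm, ?_, ?_⟩
  · simp only [cx, Complex.mul_im, Complex.conj_re, Complex.conj_im]
    ring
  · simp only [dt, Complex.mul_re, Complex.conj_re, Complex.conj_im]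
    ring

theorem q_HYP (hSML : Sg_SML) (hRVW : Sg_RVW) : Sg_HYP := by
  intro S
  obtain ⟨κ₀, hκ0, hκ⟩ := hSML S
  refine ⟨κ₀, hκ0, ?_⟩
  intro pr r i js hk hGD z u L hz hL hu
  set q := Pl.home S r with hq
  set x := S.P r i with hx
  have hVx : q.V i = x := Pl.V_home r i
  obtain ⟨js', -, hrev, -⟩ := hRVW S q i js
  have hzV : (endP q (i :: js)).V (eI q i (i :: js)) = z := by
    rw [hz]
    rfl
  -- the length is positive
  have hd : z - x ≠ 0 := by
    intro h0
    have h1 := hGD
    unfold GD at h1
    rw [← hz, hVx, h0] at h1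
    have h2 := h1.1.1
    simp [cx] at h2
  have hL0 : 0 < L := by
    rw [hL]
    exact norm_pos_iff.2 hd
  obtain ⟨hu1, hu2⟩ := LNK_unit hL hL0 hu
  have hun : ‖u‖ = 1 := by
    rw [hu, norm_div, ← hL, Complex.norm_real, Real.norm_eq_abs, abs_of_pos hL0]
    exact div_self hL0.ne'
  have hlne : lvs q (i :: js) ≠ [] := by simp [lvs]
  have hrne : rvs q (i :: js) ≠ [] := by simp [rvs]
  constructor
  · intro φ hφ0 hφ1 hC hA
    have hsin : 0 < Real.sin φ := Real.sin_pos_of_pos_of_lt_pi hφ0 (by linarith [Real.pi_pos])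
    have hB : 0 < L * Real.sin φ := mul_pos hL0 hsin
    set v := ev (-φ) * u with hv
    have hvn : ‖v‖ = 1 := by rw [hv, norm_mul, norm_ev, hun, one_mul]
    have f1 : ∀ w : ℂ, ev φ * (conj u * w) = conj v * w := by
      intro w
      rw [hv, map_mul, conj_ev, neg_neg]
      ring
    have f2 : ∀ w : ℂ, ev (-φ) * (u * conj w) = v * conj w := by
      intro w
      rw [hv]
      ring
    have hz1 : conj v * (z - x) = ev φ * L := by
      rw [← f1, hu1]
    have hzc : cx v (z - x) = L * Real.sin φ := by
      rw [← (HYP_frame (z - x)).1, hz1]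
      simp [ev, mul_comm]
    have hzd : dt v (z - x) = L * Real.cos φ := by
      rw [← (HYP_frame (z - x)).2.1, hz1]
      simp [ev, mul_comm]
    set a := bot ((frl u x (lvs q (i :: js))).map fun z => ev φ * z) with ha
    set c := bot ((frr u x (rvs q (i :: js))).map fun z => ev (-φ) * z) with hc
    have ma : ∀ p ∈ lvs q (i :: js), conj v * (p - x) ∈
        (frl u x (lvs q (i :: js))).map fun z => ev φ * z := by
      intro p hp
      rw [← f1]
      exact List.mem_map_of_mem (List.mem_map_of_mem hp)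
    have mc : ∀ p ∈ rvs q (i :: js), v * conj (p - x) ∈
        (frr u x (rvs q (i :: js))).map fun z => ev (-φ) * z := by
      intro p hp
      rw [← f2]
      exact List.mem_map_of_mem (List.mem_map_of_mem hp)
    have hl : ∀ p ∈ lvs q (i :: js), 0 < cx v (p - x) ∧ cx v (z - x) < cx v (p - x) := by
      intro p hp
      have h1 := bot_le _ (ma p hp)
      rw [← ha, (HYP_frame (p - x)).1] at h1
      rw [hzc]
      exact ⟨by linarith, by linarith⟩
    have hr : ∀ p ∈ rvs q (i :: js), cx v (p - x) < 0 ∧ cx v (p - x) < cx v (z - x) := by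
      intro p hp
      have h1 := bot_le _ (mc p hp)
      rw [← hc, (HYP_frame (p - x)).2.2.1] at h1
      rw [hzc]
      exact ⟨by linarith, by linarith⟩
    have core := HYP_core hκ q i _ js js' hrev x z v hVx hzV hvn hl hr
    have hamem : a ∈ (frl u x (lvs q (i :: js))).map fun z => ev φ * z := by
      apply bot_mem
      unfold frl
      simpa using hlne
    have hcmem : c ∈ (frr u x (rvs q (i :: js))).map fun z => ev (-φ) * z := by
      apply bot_mem
      unfold frr
      simpa using hrne
    rw [List.mem_map] at hamem hcmem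
    obtain ⟨a', ha', hae⟩ := hamem
    obtain ⟨c', hc', hce⟩ := hcmem
    unfold frl at ha'
    unfold frr at hc'
    rw [List.mem_map] at ha' hc'
    obtain ⟨pa, hpa, rfl⟩ := ha'
    obtain ⟨pc, hpc, rfl⟩ := hc'
    rw [f1] at hae
    rw [f2] at hce
    obtain ⟨g1, g2, -, -⟩ := HYP_frame (v := v) (pa - x)
    obtain ⟨-, -, g3, g4⟩ := HYP_frame (v := v) (pc - x)
    rw [hae] at g1 g2
    rw [hce] at g3 g4
    constructor
    · intro hak
      have h1 := core pa (Or.inl hpa) (by
        rw [← g1, abs_of_pos (by linarith)]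
        linarith) (by
        rw [← g1, hzc, abs_of_pos (by linarith)]
        linarith)
      rw [← g2, hzd] at h1
      exact h1
    · intro hck
      have g5 : cx v (pc - x) = -c.im := by linarith
      have h1 := core pc (Or.inr hpc) (by
        rw [g5, abs_neg, abs_of_pos hC]
        linarith) (by
        rw [g5, hzc, abs_of_neg (by linarith)]
        linarith)
      rw [← g4, hzd] at h1
      exact h1
  · intro φ hφ0 hφ1 hC hA
    have hsin : 0 < Real.sin φ := Real.sin_pos_of_pos_of_lt_pi hφ0 (by linarith [Real.pi_pos])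
    have hB : 0 < L * Real.sin φ := mul_pos hL0 hsin
    set v := ev φ * u with hv
    have hvn : ‖v‖ = 1 := by rw [hv, norm_mul, norm_ev, hun, one_mul]
    have f1 : ∀ w : ℂ, ev (-φ) * (conj u * w) = conj v * w := by
      intro w
      rw [hv, map_mul, conj_ev]
      ring
    have f2 : ∀ w : ℂ, ev φ * (u * conj w) = v * conj w := by
      intro w
      rw [hv]
      ring
    have hz1 : conj v * (z - x) = ev (-φ) * L := by
      rw [← f1, hu1]
    have hzc : cx v (z - x) = -(L * Real.sin φ) := by
      rw [← (HYP_frame (z - x)).1, hz1]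
      simp [ev, mul_comm]
    have hzd : dt v (z - x) = L * Real.cos φ := by
      rw [← (HYP_frame (z - x)).2.1, hz1]
      simp [ev, mul_comm]
    set a := bot ((frr u x (rvs q (i :: js))).map fun z => ev φ * z) with ha
    set c := bot ((frl u x (lvs q (i :: js))).map fun z => ev (-φ) * z) with hc
    have ma : ∀ p ∈ rvs q (i :: js), v * conj (p - x) ∈
        (frr u x (rvs q (i :: js))).map fun z => ev φ * z := by
      intro p hp
      rw [← f2]
      exact List.mem_map_of_mem (List.mem_map_of_mem hp)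
    have mc : ∀ p ∈ lvs q (i :: js), conj v * (p - x) ∈
        (frl u x (lvs q (i :: js))).map fun z => ev (-φ) * z := by
      intro p hp
      rw [← f1]
      exact List.mem_map_of_mem (List.mem_map_of_mem hp)
    have hr : ∀ p ∈ rvs q (i :: js), cx v (p - x) < 0 ∧ cx v (p - x) < cx v (z - x) := by
      intro p hp
      have h1 := bot_le _ (ma p hp)
      rw [← ha, (HYP_frame (p - x)).2.2.1] at h1
      rw [hzc]
      exact ⟨by linarith, by linarith⟩
    have hl : ∀ p ∈ lvs q (i :: js), 0 < cx v (p - x) ∧ cx v (z - x) < cx v (p - x) := by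
      intro p hp
      have h1 := bot_le _ (mc p hp)
      rw [← hc, (HYP_frame (p - x)).1] at h1
      rw [hzc]
      exact ⟨by linarith, by linarith⟩
    have core := HYP_core hκ q i _ js js' hrev x z v hVx hzV hvn hl hr
    have hamem : a ∈ (frr u x (rvs q (i :: js))).map fun z => ev φ * z := by
      apply bot_mem
      unfold frr
      simpa using hrne
    have hcmem : c ∈ (frl u x (lvs q (i :: js))).map fun z => ev (-φ) * z := by
      apply bot_mem
      unfold frl
      simpa using hlne
    rw [List.mem_map] at hamem hcmem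
    obtain ⟨a', ha', hae⟩ := hamem
    obtain ⟨c', hc', hce⟩ := hcmem
    unfold frr at ha'
    unfold frl at hc'
    rw [List.mem_map] at ha' hc'
    obtain ⟨pa, hpa, rfl⟩ := ha'
    obtain ⟨pc, hpc, rfl⟩ := hc'
    rw [f2] at hae
    rw [f1] at hce
    obtain ⟨-, -, g1, g2⟩ := HYP_frame (v := v) (pa - x)
    obtain ⟨g3, g4, -, -⟩ := HYP_frame (v := v) (pc - x)
    rw [hae] at g1 g2
    rw [hce] at g3 g4
    constructor
    · intro hak
      have g5 : cx v (pa - x) = -a.im := by linarith
      have h1 := core pa (Or.inr hpa) (by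
        rw [g5, abs_neg, abs_of_pos (by linarith)]
        linarith) (by
        rw [g5, hzc, abs_of_neg (by linarith)]
        linarith)
      rw [← g2, hzd] at h1
      exact h1
    · intro hck
      have h1 := core pc (Or.inl hpc) (by
        rw [← g3, abs_of_pos hC]
        linarith) (by
        rw [← g3, hzc, abs_of_pos (by linarith)]
        linarith)
      rw [← g4, hzd] at h1
      exact h1

end Pool.Agent.FAN
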