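import Pool.Agent.FAN4.G_SPT

/-!
# FAN4, modules LFR and LFL: the life of a generalized diagonal in its frame
-/

set_option autoImplicit false

open scoped ComplexConjugate
open MeasureTheory Set

namespace Pool.Agent.FAN

namespace LFR

open SPT

variable {S : TriSys}

lemma ev_per2 (ψ : ℝ) : ev (ψ + 2 * Real.pi) = ev ψ := by
  apply Complex.ext <;> simp [ev]

lemma conj_ev (ψ : ℝ) : conj (ev ψ) = ev (-ψ) := by
  apply Complex.ext <;> simp [ev]

lemma ev_arg {u : ℂ} (hu : ‖u‖ = 1) : ev (Complex.arg u) = u := by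
  have h := Complex.norm_mul_exp_arg_mul_I u
  rw [hu] at h
  rw [ev_eq_exp]
  simpa using h

lemma conj_ev_mul (ψ : ℝ) : conj (ev ψ) * ev ψ = 1 := by
  rw [conj_ev, ← ev_add]
  apply Complex.ext <;> simp [ev]

/-- integral over a period, right turn -/
lemma int_right (g H : ℝ → ℝ) (θ : ℝ) (hg : Function.Periodic g (2 * Real.pi))
    (h1 : ∀ φ, 0 < φ → φ ≤ Real.pi / 2 → g (θ - φ) = H φ)
    (h2 : ∀ φ, Real.pi / 2 < φ → φ ≤ 2 * Real.pi → g (θ - φ) = 0) :
    ∫ ψ in (0 : ℝ)..(2 * Real.pi), g ψ = ∫ φ in (0 : ℝ)..(Real.pi / 2), H φ := by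
  have hpi := Real.pi_pos
  have e1 : ∫ φ in (0 : ℝ)..(2 * Real.pi), g (θ - φ) = ∫ ψ in (0 : ℝ)..(2 * Real.pi), g ψ := by
    rw [intervalIntegral.integral_comp_sub_left]
    have := hg.intervalIntegral_add_eq (θ - 2 * Real.pi) 0
    rw [zero_add] at this
    rw [← this]
    congr 1
    ring
  rw [← e1, intervalIntegral.integral_of_le (by linarith),
    intervalIntegral.integral_of_le (by linarith)]
  rw [setIntegral_eq_of_subset_of_forall_sdiff_eq_zero (s := Ioc 0 (Real.pi / 2))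
    (t := Ioc 0 (2 * Real.pi)) measurableSet_Ioc (Ioc_subset_Ioc_right (by linarith))]
  · apply setIntegral_congr_fun measurableSet_Ioc
    intro φ hφ
    exact h1 φ hφ.1 hφ.2
  · intro φ hφ
    apply h2 φ _ hφ.1.2
    by_contra h
    push Not at h
    exact hφ.2 ⟨hφ.1.1, h⟩

/-- integral over a period, left turn -/
lemma int_left (g H : ℝ → ℝ) (θ : ℝ) (hg : Function.Periodic g (2 * Real.pi))
    (h1 : ∀ φ, 0 < φ → φ ≤ Real.pi / 2 → g (θ + φ) = H φ)
    (h2 : ∀ φ, Real.pi / 2 < φ → φ ≤ 2 * Real.pi → g (θ + φ) = 0) :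
    ∫ ψ in (0 : ℝ)..(2 * Real.pi), g ψ = ∫ φ in (0 : ℝ)..(Real.pi / 2), H φ := by
  have hpi := Real.pi_pos
  have e1 : ∫ φ in (0 : ℝ)..(2 * Real.pi), g (θ + φ) = ∫ ψ in (0 : ℝ)..(2 * Real.pi), g ψ := by
    rw [intervalIntegral.integral_comp_add_left]
    have := hg.intervalIntegral_add_eq θ 0
    rw [zero_add] at this
    rw [← this, add_zero]
  rw [← e1, intervalIntegral.integral_of_le (by linarith),
    intervalIntegral.integral_of_le (by linarith)]
  rw [setIntegral_eq_of_subset_of_forall_sdiff_eq_zero (s := Ioc 0 (Real.pi / 2))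
    (t := Ioc 0 (2 * Real.pi)) measurableSet_Ioc (Ioc_subset_Ioc_right (by linarith))]
  · apply setIntegral_congr_fun measurableSet_Ioc
    intro φ hφ
    exact h1 φ hφ.1 hφ.2
  · intro φ hφ
    apply h2 φ _ hφ.1.2
    by_contra h
    push Not at h
    exact hφ.2 ⟨hφ.1.1, h⟩

/-- a line runs through the word if the lowest points have positive heights -/
lemma run_iff (hA : Sg_ALG) (hB : Sg_BOT) (q : Pl S) (j : ZMod 3) (js : List (ZMod 3)) (x v : ℂ) :
    Run q x v (j :: js) ↔ 0 < (bot (frl v x (lvs q (j :: js)))).im ∧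
      0 < (bot (frr v x (rvs q (j :: js)))).im := by
  rw [(hA S (j :: js) [] q x v).1]
  have hb := hB _ (frl_ne v x q j js)
  have hc := hB _ (frr_ne v x q j js)
  constructor
  · rintro ⟨h1, h2⟩
    obtain ⟨p, hp, hp2⟩ := List.mem_map.mp hb.1
    obtain ⟨p', hp', hp2'⟩ := List.mem_map.mp hc.1
    rw [← hp2, ← hp2', im_l, im_r]
    exact ⟨h1 p hp, by linarith [h2 p' hp']⟩
  · rintro ⟨h1, h2⟩
    refine ⟨fun p hp => ?_, fun p hp => ?_⟩
    · have := hb.2.1 _ (frl_mem (v := v) (x := x) hp)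
      rw [im_l] at this
      linarith
    · have := hc.2.1 _ (frr_mem (v := v) (x := x) hp)
      rw [im_r] at this
      linarith

/-- rotation of the frames to the right -/
lemma rot_right (θ φ : ℝ) (x : ℂ) (l : List ℂ) :
    frl (ev (θ - φ)) x l = (frl (ev θ) x l).map (fun z => ev φ * z) ∧
    frr (ev (θ - φ)) x l = (frr (ev θ) x l).map (fun z => ev (-φ) * z) := by
  have e1 : conj (ev (θ - φ)) = ev φ * conj (ev θ) := by
    rw [conj_ev, conj_ev, ← ev_add]
    congr 1
    ring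
  have e2 : ev (θ - φ) = ev (-φ) * ev θ := by
    rw [← ev_add]
    congr 1
    ring
  unfold frl frr
  rw [List.map_map, List.map_map]
  constructor
  · apply List.map_congr_left
    intro p _
    simp only [Function.comp_apply]
    rw [e1]
    ring
  · apply List.map_congr_left
    intro p _
    simp only [Function.comp_apply]
    rw [e2]
    ring

/-- rotation of the frames to the left -/
lemma rot_left (θ φ : ℝ) (x : ℂ) (l : List ℂ) :
    frl (ev (θ + φ)) x l = (frl (ev θ) x l).map (fun z => ev (-φ) * z) ∧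
    frr (ev (θ + φ)) x l = (frr (ev θ) x l).map (fun z => ev φ * z) := by
  have e1 : conj (ev (θ + φ)) = ev (-φ) * conj (ev θ) := by
    rw [conj_ev, conj_ev, ← ev_add]
    congr 1
    ring
  have e2 : ev (θ + φ) = ev φ * ev θ := by
    rw [← ev_add]
    congr 1
    ring
  unfold frl frr
  rw [List.map_map, List.map_map]
  constructor
  · apply List.map_congr_left
    intro p _
    simp only [Function.comp_apply]
    rw [e1]
    ring
  · apply List.map_congr_left
    intro p _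
    simp only [Function.comp_apply]
    rw [e2]
    ring

lemma evL (φ L : ℝ) : (ev φ * (L : ℂ)).im = L * Real.sin φ ∧ (ev φ * (L : ℂ)).re = L * Real.cos φ := by
  simp only [ev, Complex.mul_im, Complex.mul_re, Complex.ofReal_re, Complex.ofReal_im]
  constructor <;> ring

/-- the new vertex is a left end point of the word with one more letter, or it is high -/
lemma far_left (hA : Sg_ALG) (hE : Sg_EXT) {κ₀ : ℝ}
    (hS : ∀ (q : Pl S) (i : ZMod 3) (v : ℂ) (js : List (ZMod 3)), ‖v‖ = 1 →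
      Run q (q.V i) v (i :: js) → ∀ p : ℂ, (p ∈ lvs q (i :: js) ∨ p ∈ rvs q (i :: js)) →
        |cx v (p - q.V i)| < κ₀ → 0 < dt v (p - q.V i))
    (q : Pl S) (i : ZMod 3) (js : List (ZMod 3)) (v : ℂ) (hv : ‖v‖ = 1)
    (hrun : Run q (q.V i) v (i :: js)) (h1 : 0 < cx v (apQ q i (i :: js) - q.V i))
    (h2 : dt v (apQ q i (i :: js) - q.V i) ≤ 0) : κ₀ ≤ cx v (apQ q i (i :: js) - q.V i) := by
  obtain ⟨w, hw, hw1, hw2⟩ := (hE S q i js).1
  have hr := ((hA S (i :: js) [] q (q.V i) v).1).mp hrun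
  have hrun' : Run q (q.V i) v (i :: (js ++ [eI q i (i :: js) + 1])) := by
    rw [(hA S (i :: (js ++ [eI q i (i :: js) + 1])) [] q (q.V i) v).1, hw1, hw2]
    refine ⟨fun p hp => ?_, fun p hp => ?_⟩
    · rcases List.mem_append.mp hp with h | h
      · exact hr.1 p h
      · rw [List.mem_singleton.mp h]
        exact h1
    · rcases List.mem_append.mp hp with h | h
      · exact hr.2 p h
      · rw [List.mem_singleton.mp h]
        exact hr.2 w hw
  by_contra h3
  push Not at h3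
  have h4 := hS q i v _ hv hrun' (apQ q i (i :: js)) (Or.inl (by rw [hw1]; simp))
    (by rw [abs_of_pos h1]; exact h3)
  linarith

lemma far_right (hA : Sg_ALG) (hE : Sg_EXT) {κ₀ : ℝ}
    (hS : ∀ (q : Pl S) (i : ZMod 3) (v : ℂ) (js : List (ZMod 3)), ‖v‖ = 1 →
      Run q (q.V i) v (i :: js) → ∀ p : ℂ, (p ∈ lvs q (i :: js) ∨ p ∈ rvs q (i :: js)) →
        |cx v (p - q.V i)| < κ₀ → 0 < dt v (p - q.V i))
    (q : Pl S) (i : ZMod 3) (js : List (ZMod 3)) (v : ℂ) (hv : ‖v‖ = 1)
    (hrun : Run q (q.V i) v (i :: js)) (h1 : cx v (apQ q i (i :: js) - q.V i) < 0)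
    (h2 : dt v (apQ q i (i :: js) - q.V i) ≤ 0) : κ₀ ≤ -cx v (apQ q i (i :: js) - q.V i) := by
  obtain ⟨w, hw, hw1, hw2⟩ := (hE S q i js).2
  have hr := ((hA S (i :: js) [] q (q.V i) v).1).mp hrun
  have hrun' : Run q (q.V i) v (i :: (js ++ [eI q i (i :: js) + 2])) := by
    rw [(hA S (i :: (js ++ [eI q i (i :: js) + 2])) [] q (q.V i) v).1, hw1, hw2]
    refine ⟨fun p hp => ?_, fun p hp => ?_⟩
    · rcases List.mem_append.mp hp with h | h
      · exact hr.1 p h
      · rw [List.mem_singleton.mp h]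
        exact hr.1 w hw
    · rcases List.mem_append.mp hp with h | h
      · exact hr.2 p h
      · rw [List.mem_singleton.mp h]
        exact h1
  by_contra h3
  push Not at h3
  have h4 := hS q i v _ hv hrun' (apQ q i (i :: js)) (Or.inr (by rw [hw2]; simp))
    (by rw [abs_of_neg h1]; exact h3)
  linarith

end LFR

open SPT LFR in
theorem q_LFR (hA : Sg_ALG) (hB : Sg_BOT) (hE : Sg_EXT) (hP : Sg_PHS) (hR : Sg_REC)
    (hS : Sg_SML) : Sg_LFR := by
  classical
  intro S
  obtain ⟨κ₀, hκ, hS⟩ := hS S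
  obtain ⟨h, hh, hR2⟩ := (hR S).2.1
  refine ⟨κ₀, hκ, ?_⟩
  intro p r i js hk hGD z u L hz hL hu
  obtain ⟨q, hq⟩ : ∃ q, q = Pl.home S r := ⟨_, rfl⟩
  obtain ⟨x, hx⟩ : ∃ x, x = S.P r i := ⟨_, rfl⟩
  have hqx : q.V i = x := by rw [hq, hx, Pl.V_home]
  have hpi := Real.pi_pos
  unfold DRt Lf
  rw [← hq] at hGD hz ⊢
  rw [← hx] at hL hu ⊢
  rw [← hz]
  have hL0 : 0 < L := by
    have := hR2 q i js hGD
    rw [hqx, ← hz, ← hL] at this
    linarith
  have hLc : (L : ℂ) ≠ 0 := by exact_mod_cast hL0.ne'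
  have hu1 : ‖u‖ = 1 := by
    rw [hu, norm_div, ← hL, Complex.norm_real, Real.norm_eq_abs, abs_of_pos hL0]
    exact div_self hL0.ne'
  obtain ⟨θ, hθ⟩ : ∃ θ, θ = Complex.arg u := ⟨_, rfl⟩
  have hue : u = ev θ := by rw [hθ, ev_arg hu1]
  have hzx : z - x = ev θ * L := by
    rw [← hue, hu]
    field_simp
  have hzr : ∀ φ, conj (ev (θ - φ)) * (z - x) = ev φ * L := by
    intro φ
    have e1 : conj (ev (θ - φ)) = ev φ * conj (ev θ) := by
      rw [conj_ev, conj_ev, ← ev_add]
      congr 1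
      ring
    rw [e1, hzx]
    calc ev φ * conj (ev θ) * (ev θ * L) = ev φ * (conj (ev θ) * ev θ) * L := by ring
      _ = ev φ * L := by rw [conj_ev_mul, mul_one]
  have hcx : ∀ φ, cx (ev (θ - φ)) (z - x) = L * Real.sin φ := by
    intro φ
    rw [← im_l, hzr, (evL φ L).1]
  have hdt : ∀ φ, dt (ev (θ - φ)) (z - x) = L * Real.cos φ := by
    intro φ
    rw [← re_l, hzr, (evL φ L).2]
  rw [hue]
  apply int_right _ _ θ
  · intro ψ
    simp only [ev_per2]
  · intro φ h0 h1
    have hsin : 0 < Real.sin φ := Real.sin_pos_of_pos_of_lt_pi h0 (by linarith)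
    have hB0 : 0 < L * Real.sin φ := mul_pos hL0 hsin
    have hrl := (rot_right θ φ x (lvs q (i :: js))).1
    have hrr := (rot_right θ φ x (rvs q (i :: js))).2
    have hrun := run_iff hA hB q i js x (ev (θ - φ))
    unfold PHw
    rw [hzr, hcx]
    rw [hrl, hrr] at hrun ⊢
    rw [(evL φ L).1]
    by_cases hc : 0 < (bot ((frr (ev θ) x (rvs q (i :: js))).map fun z => ev (-φ) * z)).im ∧
        L * Real.sin φ < (bot ((frl (ev θ) x (lvs q (i :: js))).map fun z => ev φ * z)).im
    · rw [if_pos hc, if_pos ⟨hrun.mpr ⟨hB0.trans hc.2, hc.1⟩, hB0, hc.2⟩]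
    · rw [if_neg hc, if_neg]
      rintro ⟨h2, -, h3⟩
      exact hc ⟨(hrun.mp h2).2, h3⟩
  · intro φ h0 h1
    rw [hcx]
    split_ifs with hc
    · obtain ⟨h2, h3, h4⟩ := hc
      have hsin : 0 < Real.sin φ := by
        by_contra h5
        push Not at h5
        nlinarith
      have hφπ : φ < Real.pi := by
        by_contra h5
        push Not at h5
        have h6 : Real.sin φ = -Real.sin (φ - Real.pi) := by
          rw [Real.sin_sub_pi]
          ring
        have h7 : 0 ≤ Real.sin (φ - Real.pi) :=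
          Real.sin_nonneg_of_nonneg_of_le_pi (by linarith) (by linarith)
        linarith
      have hcos : Real.cos φ ≤ 0 :=
        Real.cos_nonpos_of_pi_div_two_le_of_le h0.le (by linarith)
      have h8 : κ₀ ≤ L * Real.sin φ := by
        have h9 := far_left hA hE hS q i js (ev (θ - φ)) (norm_ev _) (by rw [hqx]; exact h2)
          (by rw [hqx, ← hz, hcx]; exact h3)
          (by rw [hqx, ← hz, hdt]; exact mul_nonpos_of_nonneg_of_nonpos hL0.le hcos)
        rwa [hqx, ← hz, hcx] at h9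
      have hrun := (run_iff hA hB q i js x (ev (θ - φ))).mp h2
      unfold PHw
      rw [(hP p (conj (ev (θ - φ)) * (z - x)) (bot (frl (ev (θ - φ)) x (lvs q (i :: js))))
        (bot (frr (ev (θ - φ)) x (rvs q (i :: js))))).2.1 hrun.2 ?_ ?_]
      · ring
      · rw [im_l, hcx]
        linarith
      · linarith
    · rfl

open SPT LFR in
theorem q_LFL (hA : Sg_ALG) (hB : Sg_BOT) (hE : Sg_EXT) (hP : Sg_PHS) (hR : Sg_REC)
    (hS : Sg_SML) : Sg_LFL := by
  classical
  intro S
  obtain ⟨κ₀, hκ, hS⟩ := hS S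
  obtain ⟨h, hh, hR2⟩ := (hR S).2.1
  refine ⟨κ₀, hκ, ?_⟩
  intro p r i js hk hGD z u L hz hL hu
  obtain ⟨q, hq⟩ : ∃ q, q = Pl.home S r := ⟨_, rfl⟩
  obtain ⟨x, hx⟩ : ∃ x, x = S.P r i := ⟨_, rfl⟩
  have hqx : q.V i = x := by rw [hq, hx, Pl.V_home]
  have hpi := Real.pi_pos
  unfold DLt Lf
  rw [← hq] at hGD hz ⊢
  rw [← hx] at hL hu ⊢
  rw [← hz]
  have hL0 : 0 < L := by
    have := hR2 q i js hGD
    rw [hqx, ← hz, ← hL] at this
    linarith
  have hLc : (L : ℂ) ≠ 0 := by exact_mod_cast hL0.ne'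
  have hu1 : ‖u‖ = 1 := by
    rw [hu, norm_div, ← hL, Complex.norm_real, Real.norm_eq_abs, abs_of_pos hL0]
    exact div_self hL0.ne'
  obtain ⟨θ, hθ⟩ : ∃ θ, θ = Complex.arg u := ⟨_, rfl⟩
  have hue : u = ev θ := by rw [hθ, ev_arg hu1]
  have hzx : z - x = ev θ * L := by
    rw [← hue, hu]
    field_simp
  have hzr : ∀ φ, ev (θ + φ) * conj (z - x) = ev φ * L := by
    intro φ
    have e1 : ev (θ + φ) = ev φ * ev θ := by
      rw [← ev_add]
      congr 1
      ring
    rw [e1, hzx, map_mul, Complex.conj_ofReal]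
    calc ev φ * ev θ * (conj (ev θ) * L) = ev φ * (conj (ev θ) * ev θ) * L := by ring
      _ = ev φ * L := by rw [conj_ev_mul, mul_one]
  have hcx : ∀ φ, -cx (ev (θ + φ)) (z - x) = L * Real.sin φ := by
    intro φ
    rw [← im_r, hzr, (evL φ L).1]
  have hcx' : ∀ φ, cx (ev (θ + φ)) (z - x) = -(L * Real.sin φ) := by
    intro φ
    linarith [hcx φ]
  have hdt : ∀ φ, dt (ev (θ + φ)) (z - x) = L * Real.cos φ := by
    intro φ
    rw [← re_r, hzr, (evL φ L).2]
  rw [hue]
  apply int_left _ _ θ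
  · intro ψ
    simp only [ev_per2]
  · intro φ h0 h1
    have hsin : 0 < Real.sin φ := Real.sin_pos_of_pos_of_lt_pi h0 (by linarith)
    have hB0 : 0 < L * Real.sin φ := mul_pos hL0 hsin
    have hrl := (rot_left θ φ x (lvs q (i :: js))).1
    have hrr := (rot_left θ φ x (rvs q (i :: js))).2
    have hrun := run_iff hA hB q i js x (ev (θ + φ))
    unfold PHw
    rw [hzr, hcx, hcx']
    rw [hrl, hrr] at hrun ⊢
    rw [(evL φ L).1]
    by_cases hc : 0 < (bot ((frl (ev θ) x (lvs q (i :: js))).map fun z => ev (-φ) * z)).im ∧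
        L * Real.sin φ < (bot ((frr (ev θ) x (rvs q (i :: js))).map fun z => ev φ * z)).im
    · rw [if_pos hc, if_pos ⟨hrun.mpr ⟨hc.1, hB0.trans hc.2⟩, by linarith, hc.2⟩,
        (hP p (bot ((frl (ev θ) x (lvs q (i :: js))).map fun z => ev (-φ) * z)) 0 (ev φ * L)).1,
        (hP p (bot ((frl (ev θ) x (lvs q (i :: js))).map fun z => ev (-φ) * z)) 0
          (bot ((frr (ev θ) x (rvs q (i :: js))).map fun z => ev φ * z))).1]
    · rw [if_neg hc, if_neg]
      rintro ⟨h2, -, h3⟩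
      exact hc ⟨(hrun.mp h2).1, h3⟩
  · intro φ h0 h1
    rw [hcx, hcx']
    split_ifs with hc
    · obtain ⟨h2, h3, h4⟩ := hc
      have hsin : 0 < Real.sin φ := by
        by_contra h5
        push Not at h5
        nlinarith
      have hφπ : φ < Real.pi := by
        by_contra h5
        push Not at h5
        have h6 : Real.sin φ = -Real.sin (φ - Real.pi) := by
          rw [Real.sin_sub_pi]
          ring
        have h7 : 0 ≤ Real.sin (φ - Real.pi) :=
          Real.sin_nonneg_of_nonneg_of_le_pi (by linarith) (by linarith)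
        linarith
      have hcos : Real.cos φ ≤ 0 :=
        Real.cos_nonpos_of_pi_div_two_le_of_le h0.le (by linarith)
      have h8 : κ₀ ≤ L * Real.sin φ := by
        have h9 := far_right hA hE hS q i js (ev (θ + φ)) (norm_ev _) (by rw [hqx]; exact h2)
          (by rw [hqx, ← hz, hcx']; exact h3)
          (by rw [hqx, ← hz, hdt]; exact mul_nonpos_of_nonneg_of_nonpos hL0.le hcos)
        rwa [hqx, ← hz, hcx] at h9
      have hrun := (run_iff hA hB q i js x (ev (θ + φ))).mp h2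
      unfold PHw
      rw [(hP p (bot (frl (ev (θ + φ)) x (lvs q (i :: js)))) 0 (ev (θ + φ) * conj (z - x))).1,
        (hP p (bot (frl (ev (θ + φ)) x (lvs q (i :: js)))) 0
          (bot (frr (ev (θ + φ)) x (rvs q (i :: js))))).1,
        (hP p (ev (θ + φ) * conj (z - x)) (bot (frr (ev (θ + φ)) x (rvs q (i :: js))))
        (bot (frl (ev (θ + φ)) x (lvs q (i :: js))))).2.1 hrun.1 ?_ ?_]
      · ring
      · rw [im_r, hcx]
        linarith
      · linarith
    · rfl

end Pool.Agent.FAN
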