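import Pool.Agent.FAN4.G_ALG

/-!
# FAN4, block G: LNK, the lists of the reversed generalized diagonal (helper32)
-/

set_option autoImplicit false

open scoped ComplexConjugate
open MeasureTheory Set

namespace Pool.Agent.FAN

variable {S : TriSys}

theorem apQ_mv (c e : ℂ) (hc : ‖c‖ = 1) (q : Pl S) (i : ZMod 3) (js : List (ZMod 3)) :
    apQ (q.mv c e hc) i js = c * apQ q i js + e := by
  unfold apQ
  rw [endP_mv, eI_mv, Pl.V_mv]

/-- the last index of the reversed word is the first corner -/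
theorem eI_rev_cons (q : Pl S) (i k : ZMod 3) (js : List (ZMod 3)) :
    eI (endP q (i :: js)) k (rev q (i :: js)) = i := by
  show eI (endP (q.nx i) js) k (rev (q.nx i) js ++ [q.en i]) = i
  rw [eI_append, endP_rev]
  show (q.nx i).en (q.en i) = i
  exact Pl.nx_en q i

/-- the apex of the reversed word is the first corner -/
theorem apQ_rev_cons (q : Pl S) (i k : ZMod 3) (js : List (ZMod 3)) :
    apQ (endP q (i :: js)) k (rev q (i :: js)) = q.V i := by
  unfold apQ
  rw [eI_rev_cons, endP_rev]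

theorem LNK_conj_mul {a : ℂ} (ha : ‖a‖ = 1) : conj a * a = 1 := by
  rw [mul_comm, Complex.mul_conj, Complex.normSq_eq_norm_sq, ha]
  norm_num

theorem LNK_unit {d u : ℂ} {L : ℝ} (hL : L = ‖d‖) (hL0 : 0 < L) (hu : u = d / L) :
    conj u * d = L ∧ u * conj d = L := by
  have hL1 : (L : ℂ) ≠ 0 := by exact_mod_cast hL0.ne'
  have h1 : d * conj d = (L : ℂ) ^ 2 := by
    rw [Complex.mul_conj, Complex.normSq_eq_norm_sq, ← hL]
    push_cast
    rfl
  constructor
  · rw [hu, map_div₀, Complex.conj_ofReal, div_mul_eq_mul_div, mul_comm, h1]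
    field_simp
  · rw [hu, div_mul_eq_mul_div, h1]
    field_simp

theorem q_LNK : Sg_LNK := by
  intro S r i js js' r' i' z u z' u' L hr' hi' hrev hz hL hL0 hu hz' hu'
  set Q := Pl.home S r with hQ
  set Q' := endP Q (i :: js) with hQ'
  subst hr'
  have hmv : Pl.mv Q'.a Q'.b Q'.ha (Pl.home S Q'.r) = Q' := Pl.mv_home Q'
  have ha := Q'.ha
  have hz1 : z = Q'.a * S.P Q'.r i' + Q'.b := by
    rw [hz, apQ, ← hQ', ← hi']
    rfl
  have hx1 : S.P r i = Q'.a * z' + Q'.b := by
    have e1 := apQ_mv Q'.a Q'.b Q'.ha (Pl.home S Q'.r) i' (i' :: js')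
    rw [hmv, ← hz'] at e1
    have e2 := apQ_rev_cons Q i i' js
    rw [hrev, ← hQ', e1, hQ, Pl.V_home] at e2
    exact e2.symm
  have hd : z - S.P r i = -(Q'.a * (z' - S.P Q'.r i')) := by
    rw [hz1, hx1]
    ring
  have hL' : L = ‖z' - S.P Q'.r i'‖ := by
    rw [hL, hd, norm_neg, norm_mul, ha, one_mul]
  have hau : Q'.a * u' = -u := by
    rw [hu, hu', hd]
    ring
  obtain ⟨hu1, hu2⟩ := LNK_unit hL hL0 hu
  have hca := LNK_conj_mul ha
  have l1 := lvs_mv Q'.a Q'.b Q'.ha (i' :: js') (Pl.home S Q'.r)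
  have l2 := rvs_mv Q'.a Q'.b Q'.ha (i' :: js') (Pl.home S Q'.r)
  rw [hmv] at l1 l2
  have l3 := lvs_rev (i :: js) Q
  have l4 := rvs_rev (i :: js) Q
  rw [hrev, ← hQ'] at l3 l4
  rw [l1] at l3
  rw [l2] at l4
  -- the two identities
  have k1 : ∀ p' : ℂ, conj u' * (p' - S.P Q'.r i') =
      L - conj (u * conj (Q'.a * p' + Q'.b - S.P r i)) := by
    intro p'
    have e1 : conj u' * (p' - S.P Q'.r i') =
        conj (Q'.a * u') * (Q'.a * p' + Q'.b - z) := by
      rw [hz1, map_mul]
      linear_combination (-(conj u' * (p' - S.P Q'.r i'))) * hca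
    rw [e1, hau, map_neg, map_mul, Complex.conj_conj]
    linear_combination hu1
  have k2 : ∀ p' : ℂ, u' * conj (p' - S.P Q'.r i') =
      L - conj (conj u * (Q'.a * p' + Q'.b - S.P r i)) := by
    intro p'
    have e1 : u' * conj (p' - S.P Q'.r i') =
        (Q'.a * u') * conj (Q'.a * p' + Q'.b - z) := by
      have e2 : Q'.a * p' + Q'.b - z = Q'.a * (p' - S.P Q'.r i') := by
        rw [hz1]
        ring
      rw [e2, map_mul]
      linear_combination (-(u' * conj (p' - S.P Q'.r i'))) * hca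
    rw [e1, hau, map_mul, Complex.conj_conj]
    have e3 : conj (Q'.a * p' + Q'.b - z) =
        conj (Q'.a * p' + Q'.b - S.P r i) - conj (z - S.P r i) := by
      rw [← map_sub]
      congr 1
      ring
    rw [e3]
    linear_combination hu2
  refine ⟨hL', ?_, ?_⟩
  · intro w
    unfold frl frr hat
    rw [List.map_map, List.mem_map, List.mem_map]
    constructor
    · rintro ⟨p', hp', rfl⟩
      refine ⟨Q'.a * p' + Q'.b, ?_, ?_⟩
      · rw [← List.mem_reverse, ← l3]
        exact List.mem_map_of_mem hp'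
      · exact (k1 p').symm
    · rintro ⟨p, hp, rfl⟩
      rw [← List.mem_reverse, ← l3, List.mem_map] at hp
      obtain ⟨p', hp', rfl⟩ := hp
      exact ⟨p', hp', k1 p'⟩
  · intro w
    unfold frl frr hat
    rw [List.map_map, List.mem_map, List.mem_map]
    constructor
    · rintro ⟨p', hp', rfl⟩
      refine ⟨Q'.a * p' + Q'.b, ?_, ?_⟩
      · rw [← List.mem_reverse, ← l4]
        exact List.mem_map_of_mem hp'
      · exact (k2 p').symm
    · rintro ⟨p, hp, rfl⟩
      rw [← List.mem_reverse, ← l4, List.mem_map] at hp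
      obtain ⟨p', hp', rfl⟩ := hp
      exact ⟨p', hp', k2 p'⟩

end Pool.Agent.FAN
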