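import Pool.Agent.FAN4.StG

/-!
# FAN4, module MSR: measurability and boundedness
-/

set_option autoImplicit false

open scoped ComplexConjugate
open MeasureTheory Set

namespace Pool.Agent.FAN

namespace MSR

lemma run_meas {S : TriSys} (js : List (ZMod 3)) : ∀ (q : Pl S) (x : ℂ),
    MeasurableSet {ψ : ℝ | Run q x (ev ψ) js} := by
  induction js with
  | nil =>
    intro q x
    simp [Run]
  | cons j js ih =>
    intro q x
    have h1 : {ψ : ℝ | Run q x (ev ψ) (j :: js)} =
        ({ψ | 0 < cx (ev ψ) (q.V (j + 2) - x)} ∩ {ψ | cx (ev ψ) (q.V (j + 1) - x) < 0}) ∩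
          {ψ | Run (q.nx j) x (ev ψ) js} := by
      ext ψ
      simp only [Run, Pl.Ex, mem_ofPred_eq, mem_inter_iff]
    rw [h1]
    have c : ∀ w : ℂ, Measurable fun ψ : ℝ => cx (ev ψ) w := fun w =>
      (continuous_cx continuous_ev continuous_const).measurable
    exact ((measurableSet_lt measurable_const (c _)).inter
      (measurableSet_lt (c _) measurable_const)).inter (ih _ x)

lemma bot_meas (l : List ℂ) (F : ℝ → ℂ → ℂ) (hF : ∀ z, Measurable fun ψ => F ψ z) :
    Measurable fun ψ : ℝ => bot (l.map (F ψ)) := by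
  induction l with
  | nil => simp [bot]
  | cons w l ih =>
    by_cases hl : l = []
    · subst hl
      simp only [List.map_cons, List.map_nil, bot, true_or, if_true]
      exact hF w
    · have h1 : (fun ψ : ℝ => bot ((w :: l).map (F ψ))) = fun ψ =>
          if (F ψ w).im ≤ (bot (l.map (F ψ))).im then F ψ w else bot (l.map (F ψ)) := by
        funext ψ
        rw [List.map_cons, bot]
        have h2 : l.map (F ψ) ≠ [] := by simpa using hl
        simp only [h2, false_or]
      rw [h1]
      refine Measurable.ite ?_ (hF w) ih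
      exact measurableSet_le (Complex.measurable_im.comp (hF w)) (Complex.measurable_im.comp ih)

lemma trf_anti (p : PR) {x y : ℝ} (hx : 0 < x) (hxy : x ≤ y) : trf p y ≤ trf p x := by
  unfold trf
  apply max_le_max _ le_rfl
  have h1 : y ^ (p.e - 1) ≤ x ^ (p.e - 1) :=
    Real.rpow_le_rpow_of_nonpos hx hxy (by linarith [p.e1])
  linarith

lemma u_nonneg (p : PR) : 0 ≤ p.u := by
  by_contra h0
  push Not at h0
  have h1 := Real.rpow_lt_one_of_one_lt_of_neg (show (1 : ℝ) < 2 by norm_num) h0
  rw [p.hu] at h1
  linarith [p.e0]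

lemma w_bound (p : PR) {a b : ℝ} (ha : 0 < a) (hb : 0 < b) :
    |a * (trf p a - trf p (a + b))| ≤ 1 := by
  have h1 : trf p (a + b) ≤ trf p a := trf_anti p ha (by linarith)
  have h2 : 0 ≤ trf p (a + b) := le_max_right _ _
  rw [abs_of_nonneg (mul_nonneg ha.le (by linarith))]
  rcases le_total p.k a with h | h
  · have h3 : trf p a = 0 := by
      unfold trf
      apply max_eq_right
      have : a ^ (p.e - 1) ≤ p.k ^ (p.e - 1) :=
        Real.rpow_le_rpow_of_nonpos p.k0 h (by linarith [p.e1])
      linarith
    have h4 : trf p (a + b) = 0 := le_antisymm (h1.trans h3.le) h2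
    rw [h3, h4]
    simp
  · have h3 : trf p a ≤ a ^ (p.e - 1) := by
      unfold trf
      have hk := p.k0
      apply max_le
      · have : 0 ≤ p.k ^ (p.e - 1) := by positivity
        linarith
      · positivity
    have h4 : a * a ^ (p.e - 1) = a ^ p.e := by
      nth_rw 1 [← Real.rpow_one a]
      rw [← Real.rpow_add ha]
      congr 1
      ring
    calc a * (trf p a - trf p (a + b)) ≤ a * a ^ (p.e - 1) := by
          apply mul_le_mul_of_nonneg_left _ ha.le
          linarith
      _ = a ^ p.e := h4
      _ ≤ 1 := Real.rpow_le_one ha.le (h.trans p.k1) p.e0.le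

end MSR

open MSR in
theorem q_MSR : Sg_MSR := by
  refine ⟨fun S q x js => run_meas js q x, ?_, ?_⟩
  · intro p x l l'
    have mev : Measurable ev := continuous_ev.measurable
    refine ⟨?_, ?_, ?_, ?_, ?_⟩
    · exact bot_meas l (fun ψ p => conj (ev ψ) * (p - x))
        fun z => (Complex.continuous_conj.measurable.comp mev).mul_const _
    · exact bot_meas l' (fun ψ p => ev ψ * conj (p - x)) fun z => mev.mul_const _
    · exact bot_meas l (fun ψ z => ev ψ * z) fun z => mev.mul_const _
    · exact bot_meas l (fun ψ z => ev (-ψ) * z) fun z => (mev.comp measurable_neg).mul_const _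
    · unfold PH trf
      have a1 : Measurable fun t : ℂ × ℂ => t.1.re := Complex.measurable_re.comp measurable_fst
      have a2 : Measurable fun t : ℂ × ℂ => t.1.im := Complex.measurable_im.comp measurable_fst
      have a3 : Measurable fun t : ℂ × ℂ => t.2.re := Complex.measurable_re.comp measurable_snd
      have a4 : Measurable fun t : ℂ × ℂ => t.2.im := Complex.measurable_im.comp measurable_snd
      fun_prop
  · intro p B z w hz hw hzB hwB
    have hB : 0 ≤ B := (abs_nonneg _).trans hzB
    have hu := u_nonneg p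
    have h1 : |z.re ^ p.u| ≤ B ^ p.u :=
      (Real.abs_rpow_le_abs_rpow _ _).trans (Real.rpow_le_rpow (abs_nonneg _) hzB hu)
    have h2 : |w.re ^ p.u| ≤ B ^ p.u :=
      (Real.abs_rpow_le_abs_rpow _ _).trans (Real.rpow_le_rpow (abs_nonneg _) hwB hu)
    have h3 := w_bound p hz hw
    have h4 := w_bound p hw hz
    have h5 : |z.re ^ p.u * (z.im * (trf p z.im - trf p (z.im + w.im)))| ≤ B ^ p.u * 1 := by
      rw [abs_mul (z.re ^ p.u)]
      exact mul_le_mul h1 h3 (abs_nonneg _) (by positivity)
    have h6 : |w.re ^ p.u * (w.im * (trf p w.im - trf p (z.im + w.im)))| ≤ B ^ p.u * 1 := by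
      rw [abs_mul (w.re ^ p.u), add_comm z.im w.im]
      exact mul_le_mul h2 h4 (abs_nonneg _) (by positivity)
    unfold PH
    refine (abs_add_le _ _).trans ?_
    linarith

end Pool.Agent.FAN
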