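import Pool.Agent.FAN4.G_ALG

/-!
# FAN4, block G: PAR4 (helper23)
-/

set_option autoImplicit false

open scoped ComplexConjugate
open MeasureTheory Set

namespace Pool.Agent.FAN

theorem q_PAR4 (hREC : Sg_REC) (hRVW : Sg_RVW) (hZER : Sg_ZER) (hLFR : Sg_LFR) (hLFL : Sg_LFL)
    (hPRM : Sg_PRM) (hLNK : Sg_LNK) (hHYP : Sg_HYP) : Sg_PAR4 := by
  intro hPL S
  obtain ⟨k₁, hk₁, h1⟩ := hLFR S
  obtain ⟨k₂, hk₂, h2⟩ := hLFL S
  obtain ⟨k₃, hk₃, h3⟩ := hHYP S
  obtain ⟨-, ⟨h, hh, hlen⟩, -⟩ := hREC S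
  refine ⟨min (min k₁ k₂) (min k₃ (h / 10)), by positivity, ?_⟩
  intro p r i js js' r' i' hk hr' hi' hrev
  have e1 : p.k ≤ k₁ := hk.trans ((min_le_left _ _).trans (min_le_left _ _))
  have e2 : p.k ≤ k₂ := hk.trans ((min_le_left _ _).trans (min_le_right _ _))
  have e3 : p.k ≤ k₃ := hk.trans ((min_le_right _ _).trans (min_le_left _ _))
  have e4 : p.k ≤ h / 10 := hk.trans ((min_le_right _ _).trans (min_le_right _ _))
  obtain ⟨js₁, -, g2, -, -, -, -, g7, g8⟩ := hRVW S (Pl.home S r) i js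
  have hjs : js₁ = js' := by
    rw [g2, hi'] at hrev
    exact (List.cons.inj hrev).2
  subst hjs
  have hGD : GD (Pl.home S r') i' js₁ ↔ GD (Pl.home S r) i js := by
    rw [hr', hi', (g8 (endP (Pl.home S r) (i :: js)) (eI (Pl.home S r) i (i :: js)) js₁).1]
    exact g7
  by_cases hG : GD (Pl.home S r) i js
  · have hG' := hGD.2 hG
    have hL := hlen (Pl.home S r) i js hG
    rw [Pl.V_home] at hL
    set z := apQ (Pl.home S r) i (i :: js) with hz
    set L := ‖z - S.P r i‖ with hLdef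
    set u := (z - S.P r i) / (L : ℂ) with hu
    have hL0 : 0 < L := lt_of_lt_of_le hh hL
    set z' := apQ (Pl.home S r') i' (i' :: js₁) with hz'
    set u' := (z' - S.P r' i') / (L : ℂ) with hu'
    obtain ⟨l1, l2, l3⟩ := hLNK S r i js js₁ r' i' z u z' u' L hr' hi' hrev hz hLdef hL0 hu hz' hu'
    set A := frl u (S.P r i) (lvs (Pl.home S r) (i :: js)) with hA
    set C := frr u (S.P r i) (rvs (Pl.home S r) (i :: js)) with hC
    have hAne : A ≠ [] := by
      rw [hA, frl]; simp [lvs]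
    have hCne : C ≠ [] := by
      rw [hC, frr]; simp [rvs]
    have d1 : DRt p S r i js = Lf p L A C := h1 p r i js e1 hG z u L hz hLdef hu
    have d2 : DLt p S r i js = Lf p L C A := h2 p r i js e2 hG z u L hz hLdef hu
    have d3 := h1 p r' i' js₁ e1 hG' z' u' L hz' l1 hu'
    have d4 := h2 p r' i' js₁ e2 hG' z' u' L hz' l1 hu'
    have hhA : hat L A ≠ [] := by
      rw [hat]; simpa using hAne
    have hhC : hat L C ≠ [] := by
      rw [hat]; simpa using hCne
    rw [hPRM p L _ _ _ _ l2 l3 hhC hhA] at d3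
    rw [hPRM p L _ _ _ _ l3 l2 hhA hhC] at d4
    rw [d1, d2, d3, d4]
    obtain ⟨y1, y2⟩ := h3 p r i js e3 hG z u L hz hLdef hu
    have hsgn := (run_iff (i :: js) (Pl.home S r) (S.P r i) (z - S.P r i)).1 (by
      have := hG
      unfold GD at this
      rwa [Pl.V_home] at this)
    have hcx : ∀ q : ℂ, cx (z - S.P r i) q = L * cx u q := by
      intro q
      have hLne : (L : ℂ) ≠ 0 := by exact_mod_cast hL0.ne'
      have : z - S.P r i = L * u := by rw [hu]; field_simp
      rw [this, cx_real_left]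
    have hA0 : ∀ w ∈ A, 0 < w.im := by
      intro w hw
      rw [hA, frl, List.mem_map] at hw
      obtain ⟨q, hq, rfl⟩ := hw
      rw [← cx_eq_im]
      have := hsgn.1 q hq
      rw [hcx] at this
      exact (mul_pos_iff_of_pos_left hL0).1 this
    have hC0 : ∀ w ∈ C, 0 < w.im := by
      intro w hw
      rw [hC, frr, List.mem_map] at hw
      obtain ⟨q, hq, rfl⟩ := hw
      have e : (u * (starRingEnd ℂ) (q - S.P r i)).im = -cx u (q - S.P r i) := by
        simp only [cx, Complex.mul_im, Complex.conj_re, Complex.conj_im]; ring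
      rw [e]
      have := hsgn.2 q hq
      rw [hcx] at this
      have h5 : 0 < L * (-cx u (q - S.P r i)) := by linarith
      exact (mul_pos_iff_of_pos_left hL0).1 h5
    have := hPL p L A C hL0 (by linarith) hAne hCne hA0 hC0 y1 y2
    linarith
  · have hG' : ¬ GD (Pl.home S r') i' js₁ := fun h => hG (hGD.1 h)
    obtain ⟨a1, a2⟩ := hZER p S r i js hG
    obtain ⟨a3, a4⟩ := hZER p S r' i' js₁ hG'
    rw [a1, a2, a3, a4]
    norm_num

end Pool.Agent.FAN
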