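import Pool.Agent.FAN4.StG

/-!
# FAN4, block G: elementary facts on `PH`
-/

set_option autoImplicit false

open Set

namespace Pool.Agent.FAN

theorem PHS_anti (p : PR) {a b : ℝ} (ha : 0 < a) (hab : a ≤ b) : trf p b ≤ trf p a := by
  unfold trf
  have h := Real.rpow_le_rpow_of_nonpos ha hab (by linarith [p.e1] : p.e - 1 ≤ 0)
  exact max_le_max (by linarith) le_rfl

theorem PHS_zero (p : PR) {a : ℝ} (ha : p.k ≤ a) : trf p a = 0 := by
  unfold trf
  have h := Real.rpow_le_rpow_of_nonpos p.k0 ha (by linarith [p.e1] : p.e - 1 ≤ 0)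
  exact max_eq_right (by linarith)

/-- strict monotonicity below `k` -/
theorem PHS_lt (p : PR) {a b : ℝ} (ha : 0 < a) (hab : a < b) (hk : a < p.k) :
    trf p b < trf p a := by
  have he : p.e - 1 < 0 := by linarith [p.e1]
  have h1 : b ^ (p.e - 1) < a ^ (p.e - 1) := Real.rpow_lt_rpow_of_neg ha hab he
  have h2 : p.k ^ (p.e - 1) < a ^ (p.e - 1) := Real.rpow_lt_rpow_of_neg ha hk he
  unfold trf
  rw [max_eq_left (by linarith : (0 : ℝ) ≤ a ^ (p.e - 1) - p.k ^ (p.e - 1))]
  exact max_lt (by linarith) (by linarith)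

theorem PHS_half (p : PR) {T a b : ℝ} (ha : 0 < a) (hb : 0 < b) (hT : a < p.k → 0 < T) :
    0 ≤ T ^ p.u * (a * (trf p a - trf p (a + b))) ∧
      (a < p.k → 0 < T ^ p.u * (a * (trf p a - trf p (a + b)))) := by
  rcases lt_or_ge a p.k with h | h
  · have h1 : 0 < T ^ p.u * (a * (trf p a - trf p (a + b))) := by
      apply mul_pos (Real.rpow_pos_of_pos (hT h) _) (mul_pos ha _)
      have := PHS_lt p ha (by linarith : a < a + b) h
      linarith
    exact ⟨h1.le, fun _ => h1⟩
  · rw [PHS_zero p h, PHS_zero p (by linarith : p.k ≤ a + b)]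
    refine ⟨by simp, fun h' => absurd h' (not_lt.2 h)⟩

theorem q_PHS : Sg_PHS := by
  intro p z z' w
  refine ⟨?_, ?_, ?_⟩
  · unfold PH
    rw [add_comm w.im z.im]
    ring
  · intro hw hz hz'
    unfold PH
    rw [PHS_zero p hz, PHS_zero p hz', PHS_zero p (by linarith : p.k ≤ z.im + w.im),
      PHS_zero p (by linarith : p.k ≤ z'.im + w.im)]
    ring
  · intro hz hw hzT hwT
    obtain ⟨a1, a2⟩ := PHS_half p hz hw hzT
    obtain ⟨b1, _⟩ := PHS_half p hw hz hwT
    unfold PH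
    rw [add_comm w.im z.im] at b1
    exact ⟨add_nonneg a1 b1, fun h => add_pos_of_pos_of_nonneg (a2 h) b1⟩

end Pool.Agent.FAN
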