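import Pool.Agent.FAN4.StG

/-!
# FAN4, module PRM: the order of the lists does not matter
-/

set_option autoImplicit false

open scoped ComplexConjugate
open MeasureTheory Set

namespace Pool.Agent.FAN

namespace PRM

lemma cnt1 {ζ : ℂ} (h : ζ ≠ 0) : {φ : ℝ | (ev φ * ζ).im = 0}.Countable := by
  have h1 : -conj ζ ≠ 0 := by
    intro h0
    apply h
    have h2 : conj ζ = 0 := by
      rw [← neg_neg (conj ζ), h0, neg_zero]
    simpa using h2
  have h2 := NHC.count h1
  refine h2.mono ?_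
  intro φ hφ
  simp only [mem_ofPred_eq, ev, cx, Complex.mul_im, Complex.neg_im, Complex.neg_re, Complex.conj_re,
    Complex.conj_im] at hφ ⊢
  linarith

lemma cnt2 {ζ : ℂ} (h : ζ ≠ 0) : {φ : ℝ | (ev (-φ) * ζ).im = 0}.Countable := by
  have h2 := NHC.count h
  refine h2.mono ?_
  intro φ hφ
  simp only [mem_ofPred_eq, ev, cx, Complex.mul_im, Real.cos_neg, Real.sin_neg] at hφ ⊢
  linarith

/-- outside of a countable set the heights are different -/
lemma gen (F : ℝ → ℂ) (hF : ∀ ζ : ℂ, ζ ≠ 0 → {φ : ℝ | (F φ * ζ).im = 0}.Countable)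
    (A : List ℂ) : ∀ᵐ φ : ℝ, ∀ z ∈ A, ∀ w ∈ A, (F φ * z).im = (F φ * w).im → z = w := by
  have h1 : (⋃ z ∈ {z | z ∈ A}, ⋃ w ∈ {w | w ∈ A}, {φ : ℝ | z ≠ w ∧
      (F φ * z).im = (F φ * w).im}).Countable := by
    refine Set.Countable.biUnion (List.finite_toSet A).countable fun z _ => ?_
    refine Set.Countable.biUnion (List.finite_toSet A).countable fun w _ => ?_
    by_cases hzw : z = w
    · refine (countable_empty (α := ℝ)).mono ?_
      rintro φ ⟨h, -⟩
      exact absurd hzw h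
    · refine (hF (z - w) (sub_ne_zero.mpr hzw)).mono ?_
      rintro φ ⟨-, h⟩
      simp only [mem_ofPred_eq, mul_sub, Complex.sub_im, h, sub_self]
  filter_upwards [h1.ae_notMem volume] with φ hφ z hz w hw h
  by_contra hzw
  apply hφ
  simp only [mem_iUnion, mem_ofPred_eq]
  exact ⟨z, hz, w, hw, hzw, h⟩

lemma same (hB : Sg_BOT) (v : ℂ) (hv : v ≠ 0) (A A' : List ℂ) (hA : ∀ z, z ∈ A' ↔ z ∈ A) (h0 : A ≠ [])
    (h : ∀ z ∈ A, ∀ w ∈ A, (v * z).im = (v * w).im → z = w) :
    bot (A'.map fun z => v * z) = bot (A.map fun z => v * z) := by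
  refine ((hB (A.map fun z => v * z) (by simpa using h0)).2.2.2.2 (A'.map fun z => v * z) ?_).2 ?_
  · intro z
    simp only [List.mem_map]
    constructor
    · rintro ⟨w, hw, rfl⟩
      exact ⟨w, (hA w).mp hw, rfl⟩
    · rintro ⟨w, hw, rfl⟩
      exact ⟨w, (hA w).mpr hw, rfl⟩
  · intro z hz w hw hzw
    obtain ⟨z', hz', rfl⟩ := List.mem_map.mp hz
    obtain ⟨w', hw', rfl⟩ := List.mem_map.mp hw
    rw [h z' hz' w' hw' hzw]

end PRM

open PRM in
theorem q_PRM (hB : Sg_BOT) : Sg_PRM := by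
  classical
  intro p L A A' C C' hA hC hA0 hC0
  unfold Lf
  apply intervalIntegral.integral_congr_ae
  have hev : ∀ ψ, ev ψ ≠ 0 := by
    intro ψ h0
    have := norm_ev ψ
    rw [h0, norm_zero] at this
    exact zero_ne_one this
  filter_upwards [gen ev (fun ζ h => cnt1 h) A, gen (fun φ => ev (-φ)) (fun ζ h => cnt2 h) C]
    with φ h1 h2 _
  rw [same hB (ev φ) (hev _) A A' hA hA0 h1, same hB (ev (-φ)) (hev _) C C' hC hC0 h2]

end Pool.Agent.FAN
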