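import Pool.Agent.FAN4.StG
import Pool.Agent.FAN2.H_GEO

/-!
# FAN4, module REC: a record is visible
-/

set_option autoImplicit false

open scoped ComplexConjugate
open MeasureTheory Set

namespace Pool.Agent.FAN

theorem q_REC (hA : Sg_ALG) : Sg_REC := by
  intro S
  have h2 : Sh_CRX := h_CRX
  obtain ⟨D₀, h₀, hD1, hh0, hd1, hd2, hd3, hd4⟩ := b_DIA S
  have tpos : ∀ (q : Pl S) (i : ZMod 3) (v : ℂ) (js : List (ZMod 3)), ‖v‖ = 1 →
      Run q (q.V i) v (i :: js) → ∀ t ∈ cts q (q.V i) v (i :: js), 0 < t := by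
    intro q i v js hv r0 t ht
    have hpw := b_CTS S |>.1 (i :: js) q (q.V i) v r0
    have h4 := hd4 q v i hv r0.1
    simp only [cts, List.pairwise_cons] at hpw
    simp only [cts, List.mem_cons] at ht
    rcases ht with rfl | ht
    · exact lt_of_lt_of_le hh0 h4
    · exact lt_trans (lt_of_lt_of_le hh0 h4) (hpw.1 t ht)
  refine ⟨?_, ⟨h₀, hh0, ?_⟩, ?_⟩
  · intro Q i₀ v js hv r0 hl hr
    have hne : (i₀ :: js) ≠ [] := by simp
    have r0' := ((hA S (i₀ :: js) [] Q (Q.V i₀) v).1).mp r0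
    have r1 : Run Q (apQ Q i₀ (i₀ :: js)) v (i₀ :: js) := by
      rw [(hA S (i₀ :: js) [] Q _ v).1]
      refine ⟨fun p hp => ?_, fun p hp => ?_⟩
      · have e : cx v (p - apQ Q i₀ (i₀ :: js)) =
            cx v (p - Q.V i₀) - cx v (apQ Q i₀ (i₀ :: js) - Q.V i₀) := by
          rw [← cx_sub_right]
          congr 1
          ring
        rw [e]
        linarith [hl p hp]
      · have e : cx v (p - apQ Q i₀ (i₀ :: js)) =
            cx v (p - Q.V i₀) - cx v (apQ Q i₀ (i₀ :: js) - Q.V i₀) := by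
          rw [← cx_sub_right]
          congr 1
          ring
        rw [e]
        linarith [hr p hp]
    unfold GD
    set word := i₀ :: js with hword
    set p₀ := Q.V i₀ with hp₀
    set p₁ := apQ Q i₀ word with hp₁
    have t0 : ∀ t ∈ cts Q p₀ v word, 0 < t := tpos Q i₀ v js hv r0
    have t1 : ∀ t ∈ cts Q p₁ v word, t < 0 := by
      obtain ⟨hen, -, -, hle⟩ := b_ENT S word Q p₁ v i₀ hne r1
      intro t ht
      have hz : cx v ((endP Q word).V (eI Q i₀ word) - p₁) = 0 := by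
        rw [hp₁, apQ, sub_self]; simp [cx]
      have h9 := (b_TIM S).2.2.2.2.2.2.2.2 (endP Q word) p₁ v (eI Q i₀ word) hv hen hz
      have hz2 : dt v ((endP Q word).V (eI Q i₀ word) - p₁) = 0 := by
        rw [hp₁, apQ, sub_self]; simp [dt]
      rw [hz2] at h9
      exact lt_of_le_of_lt (hle t ht) h9.2
    refine hgeo_run word Q p₀ (p₁ - p₀) fun l₁ k l₂ e => ?_
    have x0 := hgeo_ex r0 e
    have x1 := hgeo_ex r1 e
    have c0 : 0 < (endP Q l₁).ct p₀ v k := t0 _ ((mem_cts word Q p₀ v _).2 ⟨l₁, k, l₂, e, rfl⟩)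
    have c1 : (endP Q l₁).ct p₁ v k < 0 := t1 _ ((mem_cts word Q p₁ v _).2 ⟨l₁, k, l₂, e, rfl⟩)
    have hden := Pl.Ex.pos x0
    unfold Pl.ct at c0 c1
    have f0 := (div_pos_iff_of_pos_right hden).1 c0
    have f1 : cx ((endP Q l₁).V (k + 1) - p₁) ((endP Q l₁).V (k + 2) - p₁) < 0 := by
      have := (div_lt_iff₀ hden).1 c1
      rwa [zero_mul] at this
    exact h2 _ _ _ _ v x0.1 x1.1 x0.2 x1.2 f0 f1
  · intro Q i₀ js hrun
    have hne : (i₀ :: js) ≠ [] := by simp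
    unfold GD at hrun
    set word := i₀ :: js with hword
    set p₀ := Q.V i₀ with hp₀
    set p₁ := apQ Q i₀ word with hp₁
    have hu0 : p₁ - p₀ ≠ 0 := by
      intro h0
      have := hrun.1.1
      rw [h0] at this
      simp [cx] at this
    have hun : 0 < ‖p₁ - p₀‖ := norm_pos_iff.2 hu0
    set c : ℝ := ‖p₁ - p₀‖⁻¹ with hcdef
    have hc0 : 0 < c := inv_pos.2 hun
    have hv' : ‖(c : ℂ) * (p₁ - p₀)‖ = 1 := by
      rw [norm_mul, Complex.norm_real, Real.norm_eq_abs, abs_of_pos hc0, hcdef,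
        inv_mul_cancel₀ hun.ne']
    have hr2 : Run Q p₀ ((c : ℂ) * (p₁ - p₀)) word := (Run_scale word Q p₀ (p₁ - p₀) c hc0).2 hrun
    obtain ⟨hen, -, -, hle⟩ := b_ENT S word Q p₀ _ i₀ hne hr2
    have hz : cx ((c : ℂ) * (p₁ - p₀)) ((endP Q word).V (eI Q i₀ word) - p₀) = 0 := by
      have : (endP Q word).V (eI Q i₀ word) = p₁ := rfl
      rw [this, cx_real_left, cx_self, mul_zero]
    have h9 := (b_TIM S).2.2.2.2.2.2.2.2 (endP Q word) p₀ _ (eI Q i₀ word) hv' hen hz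
    have hdt : dt ((c : ℂ) * (p₁ - p₀)) ((endP Q word).V (eI Q i₀ word) - p₀) = ‖p₁ - p₀‖ := by
      have : (endP Q word).V (eI Q i₀ word) = p₁ := rfl
      rw [this]
      have h3 : dt ((c : ℂ) * (p₁ - p₀)) (p₁ - p₀) = c * dt (p₁ - p₀) (p₁ - p₀) := by
        simp only [dt, Complex.mul_re, Complex.mul_im, Complex.ofReal_re, Complex.ofReal_im]; ring
      rw [h3, dt_self, hcdef]
      field_simp
    rw [hdt] at h9
    have h4 := hd4 Q _ i₀ hv' hr2.1
    have hm : Q.ct p₀ ((c : ℂ) * (p₁ - p₀)) i₀ ∈ cts Q p₀ ((c : ℂ) * (p₁ - p₀)) word := by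
      rw [hword]; simp [cts]
    exact h4.trans ((hle _ hm).trans h9.2.le)
  · intro Q i₀ v js hv r0 h0
    have hne : (i₀ :: js) ≠ [] := by simp
    obtain ⟨hen, -, hmem, hle⟩ := b_ENT S (i₀ :: js) Q (Q.V i₀) v i₀ hne r0
    have h3 : (endP Q (i₀ :: js)).V (eI Q i₀ (i₀ :: js)) - Q.V i₀ = 0 := h0
    have hz : cx v ((endP Q (i₀ :: js)).V (eI Q i₀ (i₀ :: js)) - Q.V i₀) = 0 := by
      rw [h3]; simp [cx]
    have h9 := (b_TIM S).2.2.2.2.2.2.2.2 (endP Q (i₀ :: js)) (Q.V i₀) v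
      (eI Q i₀ (i₀ :: js)) hv hen hz
    have h4 := tpos Q i₀ v js hv r0 _ hmem
    rw [h3] at h9
    have h5 : dt v 0 = 0 := by simp [dt]
    rw [h5] at h9
    linarith [h9.2]

end Pool.Agent.FAN
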