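import Pool.Agent.FAN4.StG

/-!
# FAN4, block G: RVW (helper23)
-/

set_option autoImplicit false

open scoped ComplexConjugate
open MeasureTheory Set

namespace Pool.Agent.FAN

variable {S : TriSys}

theorem rev_first (W : List (ZMod 3)) (j₀ : ZMod 3) (q : Pl S) (i : ZMod 3) :
    rev q (W ++ [j₀]) = eI q i (W ++ [j₀]) :: rev q W := by
  rw [rev_append, eI_append]
  rfl

theorem GD_mv (c e : ℂ) (hc : ‖c‖ = 1) (q : Pl S) (k : ZMod 3) (l : List (ZMod 3)) :
    GD (q.mv c e hc) k l ↔ GD q k l := by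
  unfold GD
  have h1 : apQ (q.mv c e hc) k (k :: l) = c * apQ q k (k :: l) + e := by
    rw [apQ, apQ, endP_mv, eI_mv, Pl.V_mv]
  rw [h1, Pl.V_mv, show c * apQ q k (k :: l) + e - (c * q.V k + e) =
    c * (apQ q k (k :: l) - q.V k) by ring]
  exact Run_mv c e hc (k :: l) q (q.V k) _

theorem q_RVW : Sg_RVW := by
  intro S q i js
  have hW : ∃ W j₀, i :: js = W ++ [j₀] := by
    rcases List.eq_nil_or_concat (i :: js) with h | ⟨W, j₀, h⟩
    · simp at h
    · exact ⟨W, j₀, by rw [h, List.concat_eq_append]⟩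
  obtain ⟨W, j₀, hW⟩ := hW
  have hrev : rev q (i :: js) = eI q i (i :: js) :: rev q W := by
    rw [hW]; exact rev_first W j₀ q i
  have hlen : W.length = js.length := by
    have := congrArg List.length hW
    simp only [List.length_cons, List.length_append, List.length_nil] at this
    omega
  refine ⟨rev q W, by rw [rev_length, hlen], hrev, ?_, ?_, ?_, ?_, ?_, ?_⟩
  · rw [← hrev]
    simp only [rev, endP]
    rw [eI_append, endP_rev]
    simp only [eI, Pl.nx_en]
  · rw [← hrev, endP_rev]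
  · rw [← hrev, apQ, endP_rev]
    congr 1
    simp only [rev, endP]
    rw [eI_append, endP_rev]
    simp only [eI, Pl.nx_en]
  · rw [← hrev, rev_rev]
  · have hap : apQ (endP q (i :: js)) (eI q i (i :: js)) (eI q i (i :: js) :: rev q W) = q.V i := by
      rw [← hrev, apQ, endP_rev]
      congr 1
      simp only [rev, endP]
      rw [eI_append, endP_rev]
      simp only [eI, Pl.nx_en]
    have h1 := Run_rev (i :: js) q (q.V i) (apQ q i (i :: js) - q.V i) 1
    unfold GD
    rw [hap, ← hrev]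
    rw [Complex.ofReal_one, one_mul, add_sub_cancel, neg_sub] at h1
    exact h1
  · intro Q k l
    have h1 : Q = (Pl.home S Q.r).mv Q.a Q.b Q.ha := (Pl.mv_home Q).symm
    refine ⟨?_, ?_, ?_, ?_⟩
    · conv_rhs => rw [h1]
      exact (GD_mv Q.a Q.b Q.ha (Pl.home S Q.r) k l).symm
    · conv_rhs => rw [h1]
      exact (rev_mv Q.a Q.b Q.ha (k :: l) (Pl.home S Q.r)).symm
    · conv_rhs => rw [h1]
      exact (eI_mv Q.a Q.b Q.ha (k :: l) (Pl.home S Q.r) k).symm
    · conv_rhs => rw [h1]
      rw [endP_mv]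
      rfl

end Pool.Agent.FAN
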