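import Pool.Agent.FAN4.StG

/-!
# FAN4, module SPT: the node difference
-/

set_option autoImplicit false

open scoped ComplexConjugate
open MeasureTheory Set

namespace Pool.Agent.FAN

namespace SPT

variable {S : TriSys}

lemma im_l (v w : ℂ) : (conj v * w).im = cx v w := (cx_eq_im v w).symm

lemma re_l (v w : ℂ) : (conj v * w).re = dt v w := (dt_eq_re v w).symm

lemma im_r (v w : ℂ) : (v * conj w).im = -cx v w := by
  simp only [cx, Complex.mul_im, Complex.conj_re, Complex.conj_im]
  ring

lemma re_r (v w : ℂ) : (v * conj w).re = dt v w := by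
  simp only [dt, Complex.mul_re, Complex.conj_re, Complex.conj_im]
  ring

lemma ii_of_bdd (f : ℝ → ℝ) (hf : Measurable f) (M : ℝ) (h : ∀ ψ, |f ψ| ≤ M) :
    IntervalIntegrable f volume 0 (2 * Real.pi) := by
  rw [intervalIntegrable_iff_integrableOn_Ioc_of_le (by positivity)]
  apply Measure.integrableOn_of_bounded (M := M)
  · exact measure_Ioc_lt_top.ne
  · exact hf.aestronglyMeasurable
  · exact Filter.Eventually.of_forall h

lemma frl_mem {v x : ℂ} {l : List ℂ} {p : ℂ} (hp : p ∈ l) : conj v * (p - x) ∈ frl v x l :=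
  List.mem_map.mpr ⟨p, hp, rfl⟩

lemma frr_mem {v x : ℂ} {l : List ℂ} {p : ℂ} (hp : p ∈ l) : v * conj (p - x) ∈ frr v x l :=
  List.mem_map.mpr ⟨p, hp, rfl⟩

/-- the lists of a nonempty word are nonempty -/
lemma lvs_ne (q : Pl S) (j : ZMod 3) (js : List (ZMod 3)) : lvs q (j :: js) ≠ [] := by
  simp [lvs]

lemma rvs_ne (q : Pl S) (j : ZMod 3) (js : List (ZMod 3)) : rvs q (j :: js) ≠ [] := by
  simp [rvs]

lemma frl_ne (v x : ℂ) (q : Pl S) (j : ZMod 3) (js : List (ZMod 3)) :
    frl v x (lvs q (j :: js)) ≠ [] := by simp [frl, lvs]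

lemma frr_ne (v x : ℂ) (q : Pl S) (j : ZMod 3) (js : List (ZMod 3)) :
    frr v x (rvs q (j :: js)) ≠ [] := by simp [frr, rvs]

/-- the lowest points of a run have positive heights and bounded feet -/
lemma bots (hA : Sg_ALG) (hB : Sg_BOT) (q : Pl S) (j : ZMod 3) (js : List (ZMod 3)) (x v : ℂ)
    (hv : ‖v‖ = 1) (B : ℝ) (hL : ∀ p ∈ lvs q (j :: js), ‖p - x‖ ≤ B)
    (hR : ∀ p ∈ rvs q (j :: js), ‖p - x‖ ≤ B) :
    (|(bot (frl v x (lvs q (j :: js)))).re| ≤ B ∧ |(bot (frr v x (rvs q (j :: js)))).re| ≤ B) ∧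
    (Run q x v (j :: js) → 0 < (bot (frl v x (lvs q (j :: js)))).im ∧
      0 < (bot (frr v x (rvs q (j :: js)))).im) := by
  obtain ⟨p, hp, hp2⟩ := List.mem_map.mp (hB _ (frl_ne v x q j js)).1
  obtain ⟨p', hp', hp2'⟩ := List.mem_map.mp (hB _ (frr_ne v x q j js)).1
  rw [← hp2, ← hp2']
  refine ⟨⟨?_, ?_⟩, ?_⟩
  · rw [re_l]
    exact (abs_dt_le hv _).trans (hL p hp)
  · rw [re_r]
    exact (abs_dt_le hv _).trans (hR p' hp')
  · intro hrun
    have h1 := ((hA S (j :: js) [] q x v).1).mp hrun
    rw [im_l, im_r]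
    exact ⟨h1.1 p hp, by linarith [h1.2 p' hp']⟩

end SPT

open SPT in
theorem q_SPT (hA : Sg_ALG) (hB : Sg_BOT) (hE : Sg_EXT) (hM : Sg_MSR) (hD : Sg_BDF)
    (hR : Sg_REC) : Sg_SPT := by
  classical
  intro p S r i js
  obtain ⟨D, hD1, hD2⟩ := hD S
  obtain ⟨q, hq⟩ : ∃ q, q = Pl.home S r := ⟨_, rfl⟩
  obtain ⟨x, hx⟩ : ∃ x, x = S.P r i := ⟨_, rfl⟩
  have hqx : q.V i = x := by rw [hq, hx, Pl.V_home]
  obtain ⟨z, hz⟩ : ∃ z, z = apQ q i (i :: js) := ⟨_, rfl⟩
  have hpu : 0 ≤ p.u := by
    by_contra h0
    push Not at h0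
    have h1 := Real.rpow_lt_one_of_one_lt_of_neg (show (1 : ℝ) < 2 by norm_num) h0
    rw [p.hu] at h1
    linarith [p.e0]
  obtain ⟨B, hB0⟩ : ∃ B : ℝ, B = D * ((js.length : ℝ) + 2) := ⟨_, rfl⟩
  have hlen : (0 : ℝ) ≤ js.length := by positivity
  have hBz : ‖z - x‖ ≤ B := by
    have := hD2 q i js z (Or.inr (Or.inr hz))
    rw [hqx] at this
    rw [hB0]
    nlinarith
  have hBl : ∀ js' : List (ZMod 3), js'.length ≤ js.length + 1 →
      (∀ p ∈ lvs q (i :: js'), ‖p - x‖ ≤ B) ∧ ∀ p ∈ rvs q (i :: js'), ‖p - x‖ ≤ B := by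
    intro js' hjs
    have h0 : (js'.length : ℝ) ≤ js.length + 1 := by exact_mod_cast hjs
    refine ⟨fun p' hp' => ?_, fun p' hp' => ?_⟩
    · have := hD2 q i js' p' (Or.inl hp')
      rw [hqx] at this
      rw [hB0]
      nlinarith
    · have := hD2 q i js' p' (Or.inr (Or.inl hp'))
      rw [hqx] at this
      rw [hB0]
      nlinarith
  have hB00 : 0 ≤ B := (norm_nonneg _).trans hBz
  obtain ⟨hM1, hM2, hM3⟩ := hM
  -- the integrands
  let J : List (ZMod 3) → ℝ → ℝ := fun js' ψ =>
    if Run q x (ev ψ) (i :: js') then PHw p q (i :: js') x (ev ψ) else 0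
  let FR : ℝ → ℝ := fun ψ =>
    if Run q x (ev ψ) (i :: js) ∧ 0 < cx (ev ψ) (z - x) ∧
        cx (ev ψ) (z - x) < (bot (frl (ev ψ) x (lvs q (i :: js)))).im then
      PH p (conj (ev ψ) * (z - x)) (bot (frr (ev ψ) x (rvs q (i :: js)))) -
        PHw p q (i :: js) x (ev ψ)
    else 0
  let FL : ℝ → ℝ := fun ψ =>
    if Run q x (ev ψ) (i :: js) ∧ cx (ev ψ) (z - x) < 0 ∧
        -cx (ev ψ) (z - x) < (bot (frr (ev ψ) x (rvs q (i :: js)))).im then
      PH p (bot (frl (ev ψ) x (lvs q (i :: js)))) (ev ψ * conj (z - x)) -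
        PHw p q (i :: js) x (ev ψ)
    else 0
  have mPHw : ∀ js' : List (ZMod 3), Measurable fun ψ : ℝ => PHw p q (i :: js') x (ev ψ) := by
    intro js'
    have h1 := (hM2 p x (lvs q (i :: js')) (rvs q (i :: js'))).1
    have h2 := (hM2 p x (lvs q (i :: js')) (rvs q (i :: js'))).2.1
    have h3 := (hM2 p x (lvs q (i :: js')) (rvs q (i :: js'))).2.2.2.2
    exact h3.comp (h1.prodMk h2)
  have mJ : ∀ js', Measurable (J js') := fun js' =>
    Measurable.ite (hM1 S q x (i :: js')) (mPHw js') measurable_const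
  have mcx : Measurable fun ψ : ℝ => cx (ev ψ) (z - x) :=
    (continuous_cx continuous_ev continuous_const).measurable
  have mev : Measurable ev := continuous_ev.measurable
  have mL := (hM2 p x (lvs q (i :: js)) (rvs q (i :: js))).1
  have mR := (hM2 p x (lvs q (i :: js)) (rvs q (i :: js))).2.1
  have mPH := (hM2 p x (lvs q (i :: js)) (rvs q (i :: js))).2.2.2.2
  have mFR : Measurable FR := by
    refine Measurable.ite ?_ ?_ measurable_const
    · exact (hM1 S q x (i :: js)).inter ((measurableSet_lt measurable_const mcx).inter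
        (measurableSet_lt mcx (Complex.measurable_im.comp mL)))
    · refine Measurable.sub ?_ (mPHw js)
      have h1 : Measurable fun ψ : ℝ => conj (ev ψ) * (z - x) :=
        (Complex.continuous_conj.measurable.comp mev).mul_const _
      exact mPH.comp (h1.prodMk mR)
  have mFL : Measurable FL := by
    refine Measurable.ite ?_ ?_ measurable_const
    · exact (hM1 S q x (i :: js)).inter ((measurableSet_lt mcx measurable_const).inter
        (measurableSet_lt mcx.neg (Complex.measurable_im.comp mR)))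
    · refine Measurable.sub ?_ (mPHw js)
      have h1 : Measurable fun ψ : ℝ => ev ψ * conj (z - x) := mev.mul_const _
      exact mPH.comp (mL.prodMk h1)
  have hw0 : 0 ≤ B ^ p.u := by positivity
  have bJ : ∀ js' : List (ZMod 3), js'.length ≤ js.length + 1 → ∀ ψ, |J js' ψ| ≤ 2 * B ^ p.u := by
    intro js' hjs ψ
    simp only [J]
    split_ifs with h1
    · have h2 := bots hA hB q i js' x (ev ψ) (norm_ev ψ) B (hBl js' hjs).1 (hBl js' hjs).2
      exact hM3 p B _ _ (h2.2 h1).1 (h2.2 h1).2 h2.1.1 h2.1.2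
    · rw [abs_zero]
      positivity
  have hzB : ∀ ψ, |dt (ev ψ) (z - x)| ≤ B := fun ψ => (abs_dt_le (norm_ev ψ) _).trans hBz
  have bFR : ∀ ψ, |FR ψ| ≤ 4 * B ^ p.u := by
    intro ψ
    simp only [FR]
    split_ifs with h1
    · have h2 := bots hA hB q i js x (ev ψ) (norm_ev ψ) B (hBl js (by omega)).1
        (hBl js (by omega)).2
      have h3 := hM3 p B (conj (ev ψ) * (z - x)) (bot (frr (ev ψ) x (rvs q (i :: js))))
        (by rw [im_l]; exact h1.2.1) (h2.2 h1.1).2 (by rw [re_l]; exact hzB ψ) h2.1.2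
      have h4 := bJ js (by omega) ψ
      simp only [J, if_pos h1.1] at h4
      refine (abs_sub _ _).trans ?_
      linarith
    · rw [abs_zero]
      positivity
  have bFL : ∀ ψ, |FL ψ| ≤ 4 * B ^ p.u := by
    intro ψ
    simp only [FL]
    split_ifs with h1
    · have h2 := bots hA hB q i js x (ev ψ) (norm_ev ψ) B (hBl js (by omega)).1
        (hBl js (by omega)).2
      have h3 := hM3 p B (bot (frl (ev ψ) x (lvs q (i :: js)))) (ev ψ * conj (z - x))
        (h2.2 h1.1).1 (by rw [im_r]; linarith [h1.2.1]) h2.1.1 (by rw [re_r]; exact hzB ψ)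
      have h4 := bJ js (by omega) ψ
      simp only [J, if_pos h1.1] at h4
      refine (abs_sub _ _).trans ?_
      linarith
    · rw [abs_zero]
      positivity
  have iJ : ∀ js' : List (ZMod 3), js'.length ≤ js.length + 1 →
      IntervalIntegrable (J js') volume 0 (2 * Real.pi) :=
    fun js' h => ii_of_bdd _ (mJ js') _ (bJ js' h)
  have iFR := ii_of_bdd _ mFR _ bFR
  have iFL := ii_of_bdd _ mFL _ bFL
  -- pointwise identity
  have hpt : ∀ᵐ ψ : ℝ, (∑ j, J (js ++ [j]) ψ) - J js ψ = FR ψ + FL ψ := by
    have hexc : ∀ᵐ ψ : ℝ, Run q x (ev ψ) (i :: js) → cx (ev ψ) (z - x) ≠ 0 := by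
      by_cases h0 : z - x = 0
      · refine Filter.Eventually.of_forall fun ψ hrun => ?_
        have := (hR S).2.2 q i (ev ψ) js (norm_ev ψ) (by rw [hqx]; exact hrun)
        rw [hqx, ← hz] at this
        exact absurd h0 this
      · have h1 : ∀ᵐ ψ : ℝ, ψ ∉ {ψ : ℝ | cx (ev ψ) (z - x) = 0} :=
          (NHC.count h0).ae_notMem _
        filter_upwards [h1] with ψ h2 _
        exact h2
    filter_upwards [hexc] with ψ hne
    by_cases hrun : Run q x (ev ψ) (i :: js)
    · have hne' := hne hrun
      obtain ⟨i', hi'⟩ : ∃ i', i' = eI q i (i :: js) := ⟨_, rfl⟩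
      obtain ⟨Q', hQ'⟩ : ∃ Q', Q' = endP q (i :: js) := ⟨_, rfl⟩
      have hzV : Q'.V i' = z := by rw [hz, hQ', hi']; rfl
      have hEn : Q'.En x (ev ψ) i' := by
        rw [hQ', hi']
        exact (b_ENT S (i :: js) q x (ev ψ) i (by simp) hrun).1
      have hrj : ∀ j, Run q x (ev ψ) (i :: (js ++ [j])) ↔ Q'.Ex x (ev ψ) j := by
        intro j
        have h1 := Run_append (i :: js) [j] q x (ev ψ)
        rw [List.cons_append] at h1
        rw [h1, ← hQ']
        constructor
        · rintro ⟨-, h2, -⟩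
          exact h2
        · intro h2
          exact ⟨hrun, h2, trivial⟩
      have hexr : ∀ j, Q'.Ex x (ev ψ) j → (j = i' + 1 ∧ 0 < cx (ev ψ) (z - x)) ∨
          (j = i' + 2 ∧ cx (ev ψ) (z - x) < 0) := by
        intro j hj
        have := (m_EXU S).2.2.2.2.1 Q' x (ev ψ) i' j hEn hj
        rwa [hzV] at this
      have hex := (m_EXU S).2.2.2.1 Q' x (ev ψ) i' hEn
      rw [hzV] at hex
      have hbB := hB _ (frl_ne (ev ψ) x q i js)
      have hbC := hB _ (frr_ne (ev ψ) x q i js)
      have hEx := hE S q i js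
      rw [← hi', ← hz] at hEx
      rcases lt_or_gt_of_ne hne' with hneg | hpos
      · -- the apex is on the right
        have hsum : (∑ j, J (js ++ [j]) ψ) = J (js ++ [i' + 2]) ψ := by
          apply Finset.sum_eq_single
          · intro j _ hj
            simp only [J]
            rw [if_neg]
            intro h1
            rcases hexr j ((hrj j).mp h1) with h2 | h2
            · linarith [h2.2]
            · exact hj h2.1
          · intro h1
            exact absurd (Finset.mem_univ _) h1
        rw [hsum]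
        obtain ⟨w, hw, hw1, hw2⟩ := hEx.2
        have hFR : FR ψ = 0 := by
          simp only [FR]
          rw [if_neg]
          rintro ⟨-, h1, -⟩
          linarith
        have hJ1 : J (js ++ [i' + 2]) ψ = PHw p q (i :: (js ++ [i' + 2])) x (ev ψ) := by
          simp only [J]
          rw [if_pos ((hrj _).mpr (hex.2 hneg))]
        have hJ0 : J js ψ = PHw p q (i :: js) x (ev ψ) := by
          simp only [J]
          rw [if_pos hrun]
        have hb1 : bot (frl (ev ψ) x (lvs q (i :: (js ++ [i' + 2])))) =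
            bot (frl (ev ψ) x (lvs q (i :: js))) := by
          rw [hw1]
          unfold frl
          rw [List.map_append, List.map_cons, List.map_nil]
          have h1 := hbB.2.2.1 (conj (ev ψ) * (w - x))
          unfold frl at h1
          rw [h1, if_neg]
          have h2 := hbB.2.1 _ (frl_mem (v := ev ψ) (x := x) hw)
          unfold frl at h2
          linarith
        have hb2 : bot (frr (ev ψ) x (rvs q (i :: (js ++ [i' + 2])))) =
            if -cx (ev ψ) (z - x) < (bot (frr (ev ψ) x (rvs q (i :: js)))).im then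
              ev ψ * conj (z - x) else bot (frr (ev ψ) x (rvs q (i :: js))) := by
          rw [hw2]
          have h1 := hbC.2.2.1 (ev ψ * conj (z - x))
          rw [im_r] at h1
          rw [← h1]
          unfold frr
          rw [List.map_append, List.map_cons, List.map_nil]
        have hFL : FL ψ = if -cx (ev ψ) (z - x) < (bot (frr (ev ψ) x (rvs q (i :: js)))).im then
            PH p (bot (frl (ev ψ) x (lvs q (i :: js)))) (ev ψ * conj (z - x)) -
              PHw p q (i :: js) x (ev ψ) else 0 := by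
          simp only [FL]
          by_cases h1 : -cx (ev ψ) (z - x) < (bot (frr (ev ψ) x (rvs q (i :: js)))).im
          · rw [if_pos h1, if_pos ⟨hrun, hneg, h1⟩]
          · rw [if_neg h1, if_neg]
            rintro ⟨-, -, h2⟩
            exact h1 h2
        rw [hFR, hFL, hJ1, hJ0, zero_add]
        unfold PHw
        rw [hb1, hb2]
        split_ifs
        · rfl
        · simp
      · -- the apex is on the left
        have hsum : (∑ j, J (js ++ [j]) ψ) = J (js ++ [i' + 1]) ψ := by
          apply Finset.sum_eq_single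
          · intro j _ hj
            simp only [J]
            rw [if_neg]
            intro h1
            rcases hexr j ((hrj j).mp h1) with h2 | h2
            · exact hj h2.1
            · linarith [h2.2]
          · intro h1
            exact absurd (Finset.mem_univ _) h1
        rw [hsum]
        obtain ⟨w, hw, hw1, hw2⟩ := hEx.1
        have hFL : FL ψ = 0 := by
          simp only [FL]
          rw [if_neg]
          rintro ⟨-, h1, -⟩
          linarith
        have hJ1 : J (js ++ [i' + 1]) ψ = PHw p q (i :: (js ++ [i' + 1])) x (ev ψ) := by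
          simp only [J]
          rw [if_pos ((hrj _).mpr (hex.1 hpos))]
        have hJ0 : J js ψ = PHw p q (i :: js) x (ev ψ) := by
          simp only [J]
          rw [if_pos hrun]
        have hb1 : bot (frr (ev ψ) x (rvs q (i :: (js ++ [i' + 1])))) =
            bot (frr (ev ψ) x (rvs q (i :: js))) := by
          rw [hw2]
          unfold frr
          rw [List.map_append, List.map_cons, List.map_nil]
          have h1 := hbC.2.2.1 (ev ψ * conj (w - x))
          unfold frr at h1
          rw [h1, if_neg]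
          have h2 := hbC.2.1 _ (frr_mem (v := ev ψ) (x := x) hw)
          unfold frr at h2
          linarith
        have hb2 : bot (frl (ev ψ) x (lvs q (i :: (js ++ [i' + 1])))) =
            if cx (ev ψ) (z - x) < (bot (frl (ev ψ) x (lvs q (i :: js)))).im then
              conj (ev ψ) * (z - x) else bot (frl (ev ψ) x (lvs q (i :: js))) := by
          rw [hw1]
          have h1 := hbB.2.2.1 (conj (ev ψ) * (z - x))
          rw [im_l] at h1
          rw [← h1]
          unfold frl
          rw [List.map_append, List.map_cons, List.map_nil]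
        have hFR : FR ψ = if cx (ev ψ) (z - x) < (bot (frl (ev ψ) x (lvs q (i :: js)))).im then
            PH p (conj (ev ψ) * (z - x)) (bot (frr (ev ψ) x (rvs q (i :: js)))) -
              PHw p q (i :: js) x (ev ψ) else 0 := by
          simp only [FR]
          by_cases h1 : cx (ev ψ) (z - x) < (bot (frl (ev ψ) x (lvs q (i :: js)))).im
          · rw [if_pos h1, if_pos ⟨hrun, hpos, h1⟩]
          · rw [if_neg h1, if_neg]
            rintro ⟨-, -, h2⟩
            exact h1 h2
        rw [hFR, hFL, hJ1, hJ0, add_zero]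
        unfold PHw
        rw [hb1, hb2]
        split_ifs
        · rfl
        · simp
    · have h1 : ∀ j, J (js ++ [j]) ψ = 0 := by
        intro j
        simp only [J]
        rw [if_neg]
        intro h2
        have h3 : Run q x (ev ψ) ((i :: js) ++ [j]) := by rwa [List.cons_append]
        exact hrun (Run_take h3)
      have h2 : J js ψ = 0 := by
        simp only [J]
        rw [if_neg hrun]
      have h3 : FR ψ = 0 := by
        simp only [FR]
        rw [if_neg]
        rintro ⟨h4, -⟩
        exact hrun h4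
      have h4 : FL ψ = 0 := by
        simp only [FL]
        rw [if_neg]
        rintro ⟨h4, -⟩
        exact hrun h4
      rw [h2, h3, h4, Finset.sum_eq_zero fun j _ => h1 j]
      simp
  -- integrate
  have e1 : ∀ js', JJ p S r i (i :: js') = ∫ ψ in (0 : ℝ)..(2 * Real.pi), J js' ψ := by
    intro js'
    unfold JJ
    rw [← hq, ← hx]
  have e2 : DRt p S r i js = ∫ ψ in (0 : ℝ)..(2 * Real.pi), FR ψ := by
    unfold DRt
    rw [← hq, ← hx, ← hz]
  have e3 : DLt p S r i js = ∫ ψ in (0 : ℝ)..(2 * Real.pi), FL ψ := by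
    unfold DLt
    rw [← hq, ← hx, ← hz]
  have iS : IntervalIntegrable (fun ψ => ∑ j, J (js ++ [j]) ψ) volume 0 (2 * Real.pi) := by
    have h1 := IntervalIntegrable.sum Finset.univ (f := fun j => J (js ++ [j]))
      fun j _ => iJ (js ++ [j]) (by simp)
    have h2 : (fun ψ => ∑ j, J (js ++ [j]) ψ) = ∑ j, J (js ++ [j]) := by
      funext ψ
      simp
    rw [h2]
    exact h1
  rw [e2, e3, e1 js, Finset.sum_congr rfl fun j _ => e1 (js ++ [j]),
    ← intervalIntegral.integral_finsetSum (fun j _ => iJ (js ++ [j]) (by simp)),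
    ← intervalIntegral.integral_sub iS (iJ js (by omega)), ← intervalIntegral.integral_add iFR iFL]
  apply intervalIntegral.integral_congr_ae
  filter_upwards [hpt] with ψ h _
  rw [← h]

end Pool.Agent.FAN
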