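import Pool.Agent.FAN4.G_SPT

/-!
# FAN4, module ZER: words that are not generalized diagonals do not contribute
-/

set_option autoImplicit false

open scoped ComplexConjugate
open MeasureTheory Set

namespace Pool.Agent.FAN

open SPT in
theorem q_ZER (hA : Sg_ALG) (hB : Sg_BOT) (hR : Sg_REC) : Sg_ZER := by
  classical
  intro p S r i js hG
  have hx : (Pl.home S r).V i = S.P r i := Pl.V_home r i
  have hR1 := (hR S).1 (Pl.home S r) i
  unfold DRt DLt
  constructor
  · rw [intervalIntegral.integral_congr (g := fun _ => (0 : ℝ))]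
    · simp
    · intro ψ _
      simp only
      rw [if_neg]
      rintro ⟨h1, h2, h3⟩
      apply hG
      have h4 := ((hA S (i :: js) [] (Pl.home S r) (S.P r i) (ev ψ)).1).mp h1
      refine hR1 (ev ψ) js (norm_ev ψ) (by rw [hx]; exact h1) ?_ ?_
      · intro z hz
        rw [hx]
        have h5 := (hB _ (frl_ne (ev ψ) (S.P r i) (Pl.home S r) i js)).2.1 _
          (frl_mem (v := ev ψ) (x := S.P r i) hz)
        rw [im_l] at h5
        linarith
      · intro z hz
        rw [hx]
        linarith [h4.2 z hz]
  · rw [intervalIntegral.integral_congr (g := fun _ => (0 : ℝ))]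
    · simp
    · intro ψ _
      simp only
      rw [if_neg]
      rintro ⟨h1, h2, h3⟩
      apply hG
      have h4 := ((hA S (i :: js) [] (Pl.home S r) (S.P r i) (ev ψ)).1).mp h1
      refine hR1 (ev ψ) js (norm_ev ψ) (by rw [hx]; exact h1) ?_ ?_
      · intro z hz
        rw [hx]
        linarith [h4.1 z hz]
      · intro z hz
        rw [hx]
        have h5 := (hB _ (frr_ne (ev ψ) (S.P r i) (Pl.home S r) i js)).2.1 _
          (frr_mem (v := ev ψ) (x := S.P r i) hz)
        rw [im_r] at h5
        linarith

end Pool.Agent.FAN
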