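import Pool.Agent.FAN4.StE
import Pool.Agent.FAN2.H_ANT
import Pool.Agent.FAN2.H_PPM
import Pool.Agent.FAN2.H_MSE
import Pool.Agent.FAN2.H_EEM

set_option autoImplicit false

open scoped ComplexConjugate
open MeasureTheory Set

namespace Pool.Agent.FAN

theorem q_MEVx (hE : Sh_EEM) (hM : Sh_MSE) (hF : Sh_FLW) (hA : Sh_ANT) (hP : Sh_PPM) : Se_MEV := by
  intro S
  obtain ⟨V, hV, hp⟩ := hP S
  refine ⟨V, hV, fun w t hw ht => ?_⟩
  obtain ⟨p1, -⟩ := hp w hw
  have hfin : ∀ t, mm S (EvH S w t) < ⊤ := fun t => (hE S (EvH S w t) fun r => (hM S w t 0 r).1).1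
  set h : ℝ → ℝ := fun t => (mm S (EvH S w t)).toReal with hh
  have hmono : ∀ t t', 0 ≤ t → t ≤ t' → h t' ≤ h t := fun t t' h0 h1 =>
    ENNReal.toReal_mono (hfin t).ne (hA S w t t' h0 h1)
  have hind : ∀ m : ℕ, (m : ℝ) ≤ t → pp S w m ≥ pp S w 0 + m * h t := by
    intro m
    induction m with
    | zero => intro _; simp
    | succ k ih =>
      intro hk
      push_cast at hk
      have h1 := ih (by linarith)
      have h2 := hF S w k hw (Nat.cast_nonneg k)
      have h3 := hmono k t (Nat.cast_nonneg k) (by linarith)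
      push_cast
      rw [add_comm (k : ℝ) 1, h2]
      simp only [hh] at h1 h3 ⊢
      linarith
  have hm := hind ⌊t⌋₊ (Nat.floor_le (by linarith))
  have h2 := hF S w ⌊t⌋₊ hw (Nat.cast_nonneg _)
  have h3 := hmono ⌊t⌋₊ t (Nat.cast_nonneg _) (Nat.floor_le (by linarith))
  have h4 := (p1 (1 + ⌊t⌋₊) (by positivity)).2
  have h5 := (p1 0 le_rfl).1
  have h6 : t < ⌊t⌋₊ + 1 := Nat.lt_floor_add_one t
  have h7 : 0 ≤ h t := ENNReal.toReal_nonneg
  have h8 : t * h t ≤ V := by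
    simp only [hh] at hm h3 h7 ⊢
    nlinarith
  rw [← ENNReal.ofReal_toReal (hfin t).ne]
  apply ENNReal.ofReal_le_ofReal
  rw [le_div_iff₀ (by linarith)]
  simp only [hh] at h8
  linarith

end Pool.Agent.FAN
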