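import Mathlib

/-!
# FAN4: the root of `2 ^ u + 2 u = 2` (helper23)
-/

set_option autoImplicit false

namespace Pool.Agent.FAN

theorem root_aux : (822 / 641 : ℝ) < (2 : ℝ) ^ (230 / 641 : ℝ) := by
  have h1 : (822 / 641 : ℝ) ^ 641 < 2 ^ 230 := by
    have e : (822 / 641 : ℝ) ^ 641 = ((822 / 641 : ℝ) ^ 128) ^ 5 * (822 / 641 : ℝ) := by
      rw [← pow_mul, ← pow_succ]
    rw [e]
    norm_num
  have h2 : ((2 : ℝ) ^ (230 / 641 : ℝ)) ^ 641 = 2 ^ 230 := by
    rw [← Real.rpow_natCast, ← Real.rpow_mul (by norm_num)]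
    rw [show (230 / 641 : ℝ) * ((641 : ℕ) : ℝ) = ((230 : ℕ) : ℝ) by norm_num]
    exact Real.rpow_natCast 2 230
  rw [← h2] at h1
  exact lt_of_pow_lt_pow_left₀ 641 (by positivity) h1

/-- The exponent `1 / u`, `u` the root of `2 ^ u + 2 u = 2`, is larger than `2.7869`. -/
theorem root_exists : ∃ u : ℝ, 0 < u ∧ (2 : ℝ) ^ u + 2 * u = 2 ∧ 2.7869 < 1 / u := by
  have hc : ContinuousOn (fun u : ℝ => (2 : ℝ) ^ u + 2 * u) (Set.Icc 0 (230 / 641)) := by
    apply Continuous.continuousOn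
    have : Continuous fun u : ℝ => (2 : ℝ) ^ u :=
      Real.continuous_const_rpow (by norm_num)
    exact this.add (continuous_const.mul continuous_id)
  have h := intermediate_value_Icc (by norm_num : (0 : ℝ) ≤ 230 / 641) hc
  have hmem : (2 : ℝ) ∈ Set.Icc ((fun u : ℝ => (2 : ℝ) ^ u + 2 * u) 0)
      ((fun u : ℝ => (2 : ℝ) ^ u + 2 * u) (230 / 641)) := by
    refine ⟨?_, ?_⟩
    · simp only [Real.rpow_zero, mul_zero, add_zero]
      norm_num
    · have := root_aux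
      show (2 : ℝ) ≤ (2 : ℝ) ^ (230 / 641 : ℝ) + 2 * (230 / 641)
      linarith
  obtain ⟨u, hu, hu2⟩ := h hmem
  have hu3 : (2 : ℝ) ^ u + 2 * u = 2 := hu2
  have hu0 : 0 < u := by
    rcases hu.1.lt_or_eq with h | h
    · exact h
    · rw [← h, Real.rpow_zero] at hu3
      norm_num at hu3
  refine ⟨u, hu0, hu3, ?_⟩
  have h4 : (1 : ℝ) / (230 / 641) ≤ 1 / u := one_div_le_one_div_of_le hu0 hu.2
  have h5 : (2.7869 : ℝ) < 1 / (230 / 641) := by norm_num
  linarith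

end Pool.Agent.FAN
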