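import Pool.Agent.FAN4.S_WDS

/-!
# FAN4, block S: INV (helper23)
-/

set_option autoImplicit false

open scoped ComplexConjugate
open MeasureTheory Set

namespace Pool.Agent.FAN

/-- reversal of the words from corners -/
noncomputable def rho (S : TriSys) (t : S.R × ZMod 3 × List (ZMod 3)) : S.R × ZMod 3 × List (ZMod 3) :=
  ((endP (Pl.home S t.1) (t.2.1 :: t.2.2)).r, eI (Pl.home S t.1) t.2.1 (t.2.1 :: t.2.2),
    (rev (Pl.home S t.1) (t.2.1 :: t.2.2)).tail)

theorem q_INV (hR : Sg_RVW) : Ss_INV := by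
  intro S n F
  have key : ∀ t : S.R × ZMod 3 × List (ZMod 3), (rho S t).2.2.length = t.2.2.length ∧
      rho S (rho S t) = t := by
    rintro ⟨r, i, js⟩
    obtain ⟨js', h1, h2, h3, h4, -, h6, -, h8⟩ := hR S (Pl.home S r) i js
    have e1 : rho S (r, i, js) = ((endP (Pl.home S r) (i :: js)).r,
        eI (Pl.home S r) i (i :: js), js') := by
      simp only [rho]
      rw [h2]
      rfl
    obtain ⟨-, g2, g3, g4⟩ := h8 (endP (Pl.home S r) (i :: js)) (eI (Pl.home S r) i (i :: js)) js'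
    refine ⟨by rw [e1]; exact h1, ?_⟩
    rw [e1]
    simp only [rho]
    rw [g2, g3, g4, h3, h4, h6]
    rfl
  have hsum : ∀ G : S.R → ZMod 3 → List (ZMod 3) → ℝ, ∑ r, ∑ i, ∑ js ∈ wds n, G r i js =
      ∑ t ∈ (Finset.univ : Finset S.R) ×ˢ ((Finset.univ : Finset (ZMod 3)) ×ˢ wds n), G t.1 t.2.1 t.2.2 := by
    intro G
    rw [Finset.sum_product]
    refine Finset.sum_congr rfl fun r _ => ?_
    rw [Finset.sum_product]
  rw [hsum, hsum]
  refine Finset.sum_nbij' (rho S) (rho S) ?_ ?_ ?_ ?_ ?_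
  · intro t ht
    simp only [Finset.mem_product, Finset.mem_univ, true_and] at ht ⊢
    rw [mem_wds] at ht ⊢
    rw [(key t).1, ht]
  · intro t ht
    simp only [Finset.mem_product, Finset.mem_univ, true_and] at ht ⊢
    rw [mem_wds] at ht ⊢
    rw [(key t).1, ht]
  · intro t _
    exact (key t).2
  · intro t _
    exact (key t).2
  · intro t _
    have h := (key t).2
    have h' : F (rho S (rho S t)).1 (rho S (rho S t)).2.1 (rho S (rho S t)).2.2 = F t.1 t.2.1 t.2.2 := by
      rw [h]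
    exact h'.symm

end Pool.Agent.FAN
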