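import Pool.Agent.FAN4.S_WDS

/-!
# FAN4, block S: MON (helper23)
-/

set_option autoImplicit false

open scoped ComplexConjugate
open MeasureTheory Set

namespace Pool.Agent.FAN

theorem q_MON (hRVW : Sg_RVW) (hSPT : Sg_SPT) (hPAR : Sg_PAR4) (hINV : Ss_INV) : Ss_MON := by
  intro hPL S
  obtain ⟨k₀, hk₀, h⟩ := hPAR hPL S
  refine ⟨k₀, hk₀, fun p n hk => ?_⟩
  have h1 : Psi p S (n + 1) - Psi p S n =
      ∑ r, ∑ i, ∑ js ∈ wds n, (DRt p S r i js + DLt p S r i js) := by
    unfold Psi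
    rw [← Finset.sum_sub_distrib]
    refine Finset.sum_congr rfl fun r _ => ?_
    rw [← Finset.sum_sub_distrib]
    refine Finset.sum_congr rfl fun i _ => ?_
    rw [sum_wds_succ, ← Finset.sum_sub_distrib]
    refine Finset.sum_congr rfl fun js _ => ?_
    exact hSPT p S r i js
  have h2 := hINV S n (fun r i js => DRt p S r i js + DLt p S r i js)
  have h3 : 0 ≤ ∑ r, ∑ i, ∑ js ∈ wds n, (DRt p S r i js + DLt p S r i js) +
      ∑ r, ∑ i, ∑ js ∈ wds n, (DRt p S r i js + DLt p S r i js) := by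
    nth_rewrite 2 [h2]
    rw [← Finset.sum_add_distrib]
    refine Finset.sum_nonneg fun r _ => ?_
    rw [← Finset.sum_add_distrib]
    refine Finset.sum_nonneg fun i _ => ?_
    rw [← Finset.sum_add_distrib]
    refine Finset.sum_nonneg fun js _ => ?_
    obtain ⟨js', -, g2, -⟩ := hRVW S (Pl.home S r) i js
    have g3 : (rev (Pl.home S r) (i :: js)).tail = js' := by rw [g2]; rfl
    rw [g3]
    exact h p r i js js' _ _ hk rfl rfl g2
  linarith

end Pool.Agent.FAN
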