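import Pool.Agent.FAN4.StS

/-!
# FAN4, block S: the potential is positive at the start
-/

set_option autoImplicit false

open scoped ComplexConjugate
open MeasureTheory Set Filter Topology

namespace Pool.Agent.FAN

theorem POS_w (p : PR) (S : TriSys) (r : S.R) (i : ZMod 3) (v : ℂ) :
    PHw p (Pl.home S r) [i] (S.P r i) v = PH p (conj v * (S.P r (i + 2) - S.P r i))
      (v * conj (S.P r (i + 1) - S.P r i)) := by
  simp [PHw, frl, frr, lvs, rvs, bot, Pl.V_home]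

theorem POS_run (S : TriSys) (r : S.R) (i : ZMod 3) (v : ℂ) :
    Run (Pl.home S r) (S.P r i) v [i] ↔ 0 < cx v (S.P r (i + 2) - S.P r i) ∧
      cx v (S.P r (i + 1) - S.P r i) < 0 := by
  simp [Run, Pl.Ex, Pl.V_home]

theorem POS_ev (z : ℂ) : z = (‖z‖ : ℂ) * ev (Complex.arg z) := by
  rw [ev_eq_exp]
  exact (Complex.norm_mul_exp_arg_mul_I z).symm

theorem POS_cxev (z : ℂ) (ψ : ℝ) : cx (ev ψ) z = ‖z‖ * Real.sin (Complex.arg z - ψ) := by
  conv_lhs => rw [POS_ev z]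
  rw [cx_real_right, Real.sin_sub]
  simp only [cx, ev]
  ring

theorem POS_cont (z : ℂ) : Continuous fun ψ => cx (ev ψ) z := by
  have e : (fun ψ => cx (ev ψ) z) = fun ψ => ‖z‖ * Real.sin (Complex.arg z - ψ) :=
    funext fun ψ => POS_cxev z ψ
  rw [e]
  fun_prop

theorem POS_im1 (v u : ℂ) : (conj v * u).im = cx v u ∧ (conj v * u).re = dt v u :=
  ⟨(cx_eq_im v u).symm, (dt_eq_re v u).symm⟩

theorem POS_im2 (v u : ℂ) : (v * conj u).im = -cx v u ∧ (v * conj u).re = dt v u := by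
  constructor
  · simp only [cx, Complex.mul_im, Complex.conj_re, Complex.conj_im]; ring
  · simp only [dt, Complex.mul_re, Complex.conj_re, Complex.conj_im]; ring

theorem POS_val (hPH : Sg_PHS) {S : TriSys} {κ₀ : ℝ}
    (hκ : ∀ (q : Pl S) (i : ZMod 3) (v : ℂ) (js : List (ZMod 3)), ‖v‖ = 1 →
      Run q (q.V i) v (i :: js) → ∀ p : ℂ, (p ∈ lvs q (i :: js) ∨ p ∈ rvs q (i :: js)) →
      |cx v (p - q.V i)| < κ₀ → 0 < dt v (p - q.V i))
    (p : PR) (hk : p.k ≤ κ₀) (r : S.R) (i : ZMod 3) (v : ℂ) (hv : ‖v‖ = 1)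
    (hrun : Run (Pl.home S r) (S.P r i) v [i]) :
    0 ≤ PH p (conj v * (S.P r (i + 2) - S.P r i)) (v * conj (S.P r (i + 1) - S.P r i)) ∧
    (cx v (S.P r (i + 2) - S.P r i) < p.k →
      0 < PH p (conj v * (S.P r (i + 2) - S.P r i)) (v * conj (S.P r (i + 1) - S.P r i))) := by
  have hr := (POS_run S r i v).1 hrun
  have h1 := hκ (Pl.home S r) i v [] hv (by rwa [Pl.V_home])
  simp only [Pl.V_home] at h1
  have hl : S.P r (i + 2) ∈ lvs (Pl.home S r) [i] := by simp [lvs, Pl.V_home]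
  have hrr : S.P r (i + 1) ∈ rvs (Pl.home S r) [i] := by simp [rvs, Pl.V_home]
  have e1 := POS_im1 v (S.P r (i + 2) - S.P r i)
  have e2 := POS_im2 v (S.P r (i + 1) - S.P r i)
  have h2 := (hPH p (conj v * (S.P r (i + 2) - S.P r i)) 0
    (v * conj (S.P r (i + 1) - S.P r i))).2.2
  rw [e1.1, e1.2, e2.1, e2.2] at h2
  refine h2 hr.1 (by linarith [hr.2]) (fun h => h1 _ (Or.inl hl) ?_) (fun h => h1 _ (Or.inr hrr) ?_)
  · rw [abs_of_pos hr.1]; linarith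
  · rw [abs_of_neg hr.2]; linarith

open Classical in
/-- the integrand -/
noncomputable def POSg (p : PR) (S : TriSys) (r : S.R) (i : ZMod 3) (ψ : ℝ) : ℝ :=
  if Run (Pl.home S r) (S.P r i) (ev ψ) [i] then
    PHw p (Pl.home S r) [i] (S.P r i) (ev ψ) else 0

theorem POS_int (hM : Sg_MSR) (p : PR) (S : TriSys) (r : S.R) (i : ZMod 3) (a b : ℝ) :
    IntervalIntegrable (POSg p S r i) volume a b := by
  obtain ⟨m1, m2, m3⟩ := hM
  have hmeas : Measurable (POSg p S r i) := by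
    unfold POSg
    refine Measurable.ite (m1 S _ _ _) ?_ measurable_const
    unfold PHw
    have h := m2 p (S.P r i) (lvs (Pl.home S r) [i]) (rvs (Pl.home S r) [i])
    exact h.2.2.2.2.comp (h.1.prodMk h.2.1)
  set B : ℝ := max ‖S.P r (i + 2) - S.P r i‖ ‖S.P r (i + 1) - S.P r i‖ with hB
  have hB0 : 0 ≤ B := (norm_nonneg _).trans (le_max_left _ _)
  have hbd : ∀ ψ, |POSg p S r i ψ| ≤ 2 * B ^ p.u := by
    intro ψ
    unfold POSg
    split_ifs with h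
    · rw [POS_w]
      have hr := (POS_run S r i (ev ψ)).1 h
      have e1 := POS_im1 (ev ψ) (S.P r (i + 2) - S.P r i)
      have e2 := POS_im2 (ev ψ) (S.P r (i + 1) - S.P r i)
      refine m3 p B _ _ (by rw [e1.1]; exact hr.1) (by rw [e2.1]; linarith [hr.2]) ?_ ?_
      · rw [e1.2]; exact (abs_dt_le (norm_ev ψ) _).trans (le_max_left _ _)
      · rw [e2.2]; exact (abs_dt_le (norm_ev ψ) _).trans (le_max_right _ _)
    · rw [abs_zero]
      exact mul_nonneg (by norm_num) (Real.rpow_nonneg hB0 _)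
  have hc : IntervalIntegrable (fun _ : ℝ => 2 * B ^ p.u) volume a b := intervalIntegrable_const
  refine hc.mono_fun hmeas.aestronglyMeasurable (Eventually.of_forall fun ψ => ?_)
  simp only [Real.norm_eq_abs]
  exact (hbd ψ).trans (le_abs_self _)

theorem POS_nonneg (hPH : Sg_PHS) {S : TriSys} {κ₀ : ℝ}
    (hκ : ∀ (q : Pl S) (i : ZMod 3) (v : ℂ) (js : List (ZMod 3)), ‖v‖ = 1 →
      Run q (q.V i) v (i :: js) → ∀ p : ℂ, (p ∈ lvs q (i :: js) ∨ p ∈ rvs q (i :: js)) →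
      |cx v (p - q.V i)| < κ₀ → 0 < dt v (p - q.V i))
    (p : PR) (hk : p.k ≤ κ₀) (r : S.R) (i : ZMod 3) (ψ : ℝ) : 0 ≤ POSg p S r i ψ := by
  unfold POSg
  split_ifs with h
  · rw [POS_w]
    exact (POS_val hPH hκ p hk r i (ev ψ) (norm_ev ψ) h).1
  · exact le_rfl

theorem POS_JJ (p : PR) (S : TriSys) (r : S.R) (i : ZMod 3) :
    JJ p S r i [i] = ∫ ψ in (0 : ℝ)..(2 * Real.pi), POSg p S r i ψ := rfl

/-- an open nonempty set of directions in `(0, 2π)` -/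
theorem POS_dir (A Bv : ℂ) (k : ℝ) (hk : 0 < k) (h : 0 < cx Bv A) :
    ∃ a b : ℝ, 0 ≤ a ∧ a < b ∧ b ≤ 2 * Real.pi ∧ ∀ ψ ∈ Ioo a b, 0 < cx (ev ψ) A ∧ cx (ev ψ) A < k ∧
      cx (ev ψ) Bv < 0 := by
  set T : Set ℝ := {ψ | 0 < cx (ev ψ) A ∧ cx (ev ψ) A < k ∧ cx (ev ψ) Bv < 0} with hT
  have hTo : IsOpen T := by
    have h1 : IsOpen {ψ : ℝ | 0 < cx (ev ψ) A} := isOpen_lt continuous_const (POS_cont A)
    have h2 : IsOpen {ψ : ℝ | cx (ev ψ) A < k} := isOpen_lt (POS_cont A) continuous_const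
    have h3 : IsOpen {ψ : ℝ | cx (ev ψ) Bv < 0} := isOpen_lt (POS_cont Bv) continuous_const
    exact h1.inter (h2.inter h3)
  have hA : A ≠ 0 := by
    rintro rfl
    simp [cx] at h
  have hA0 : 0 < ‖A‖ := norm_pos_iff.2 hA
  set θ := Complex.arg A with hθ
  have hθ0 : cx (ev θ) A = 0 := by rw [POS_cxev]; simp [hθ]
  have hθB : cx (ev θ) Bv < 0 := by
    have e : cx Bv A = -(‖A‖ * cx (ev θ) Bv) := by
      conv_lhs => rw [POS_ev A]
      rw [cx_comm, cx_real_left]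
    rw [e] at h
    nlinarith
  -- a point of `T`
  obtain ⟨ψ₀, hψ₀⟩ : ∃ ψ₀, ψ₀ ∈ T := by
    have t1 : Tendsto (fun φ : ℝ => θ - φ) (𝓝[>] 0) (𝓝 θ) := by
      have : Tendsto (fun φ : ℝ => θ - φ) (𝓝 0) (𝓝 (θ - 0)) := (by fun_prop : Continuous fun φ : ℝ => θ - φ).tendsto 0
      rw [sub_zero] at this
      exact this.mono_left nhdsWithin_le_nhds
    have t2 : ∀ᶠ ψ in 𝓝 θ, cx (ev ψ) A < k :=
      (POS_cont A).continuousAt.eventually_lt_const (by simpa only [hθ0] using hk)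
    have t3 : ∀ᶠ ψ in 𝓝 θ, cx (ev ψ) Bv < 0 :=
      (POS_cont Bv).continuousAt.eventually_lt_const hθB
    have t4 : ∀ᶠ φ : ℝ in 𝓝[>] 0, φ ∈ Ioo 0 Real.pi := Ioo_mem_nhdsGT Real.pi_pos
    obtain ⟨φ, g1, g2, g3⟩ := ((t1.eventually t2).and ((t1.eventually t3).and t4)).exists
    refine ⟨θ - φ, ?_, g1, g2⟩
    rw [POS_cxev]
    have e : Complex.arg A - (θ - φ) = φ := by rw [hθ]; ring
    rw [e]
    exact mul_pos hA0 (Real.sin_pos_of_mem_Ioo g3)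
  -- period
  have hper : ∀ z ψ, ∀ n : ℤ, cx (ev (ψ + n * (2 * Real.pi))) z = cx (ev ψ) z := fun z ψ n => by
    rw [POS_cxev, POS_cxev]
    congr 1
    rw [show Complex.arg z - (ψ + n * (2 * Real.pi)) = Complex.arg z - ψ - n * (2 * Real.pi) by ring]
    exact Real.sin_sub_int_mul_two_pi _ _
  have hperT : ∀ ψ, ∀ n : ℤ, ψ ∈ T → ψ + n * (2 * Real.pi) ∈ T := fun ψ n hψ => by
    simp only [hT, Set.mem_ofPred_eq] at hψ ⊢
    rw [hper A ψ n, hper Bv ψ n]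
    exact hψ
  have h2p : (0 : ℝ) < 2 * Real.pi := by positivity
  obtain ⟨ψ₁, hψ₁, h01⟩ : ∃ ψ₁ ∈ T, ψ₁ ∈ Ico 0 (2 * Real.pi) := by
    refine ⟨toIcoMod h2p 0 ψ₀, ?_, by simpa using toIcoMod_mem_Ico h2p 0 ψ₀⟩
    have := hperT ψ₀ (-(toIcoDiv h2p 0 ψ₀)) hψ₀
    rw [toIcoMod]
    have e : ψ₀ - toIcoDiv h2p 0 ψ₀ • (2 * Real.pi) =
        ψ₀ + ((-(toIcoDiv h2p 0 ψ₀) : ℤ) : ℝ) * (2 * Real.pi) := by
      rw [zsmul_eq_mul]; push_cast; ring
    rw [e]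
    exact this
  have hne : (T ∩ Ioo 0 (2 * Real.pi)).Nonempty := by
    rcases h01.1.eq_or_lt with h0 | h0
    · rw [← h0] at hψ₁
      have t1 : ∀ᶠ ψ in 𝓝[>] (0 : ℝ), ψ ∈ T := nhdsWithin_le_nhds (hTo.mem_nhds hψ₁)
      have t2 : ∀ᶠ ψ in 𝓝[>] (0 : ℝ), ψ ∈ Ioo 0 (2 * Real.pi) := Ioo_mem_nhdsGT h2p
      obtain ⟨ψ, g1, g2⟩ := (t1.and t2).exists
      exact ⟨ψ, g1, g2⟩
    · exact ⟨ψ₁, hψ₁, h0, h01.2⟩
  obtain ⟨a, b, hab, hsub⟩ := (hTo.inter isOpen_Ioo).exists_Ioo_subset hne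
  refine ⟨max a 0, min b (2 * Real.pi), le_max_right _ _, ?_, min_le_right _ _, fun ψ hψ => ?_⟩
  · -- a point of the interval
    have hm : (a + b) / 2 ∈ Ioo a b := ⟨by linarith, by linarith⟩
    have h3 := (hsub hm).2
    refine max_lt (lt_min hab ?_) (lt_min ?_ h2p)
    · linarith [h3.2, hm.1]
    · linarith [h3.1, hm.2]
  · have h4 : ψ ∈ Ioo a b := ⟨(le_max_left _ _).trans_lt hψ.1, hψ.2.trans_le (min_le_left _ _)⟩
    exact (hsub h4).1

theorem q_POS (hS : Sg_SML) (hPH : Sg_PHS) (hM : Sg_MSR) (hW : Ss_WDS) : Ss_POS := by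
  intro S hne
  obtain ⟨κ₀, hκ0, hκ⟩ := hS S
  refine ⟨κ₀, hκ0, fun p hk => ?_⟩
  have h2p : (0 : ℝ) < 2 * Real.pi := by positivity
  have h0 : ∀ r i, 0 ≤ ∑ js ∈ wds 0, JJ p S r i (i :: js) := fun r i => by
    rw [hW.2.1, Finset.sum_singleton, POS_JJ]
    exact intervalIntegral.integral_nonneg h2p.le fun ψ _ => POS_nonneg hPH hκ p hk r i ψ
  obtain ⟨r⟩ := hne
  have h1 : 0 < ∑ js ∈ wds 0, JJ p S r 0 (0 :: js) := by
    rw [hW.2.1, Finset.sum_singleton, POS_JJ]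
    have e1 : (0 : ZMod 3) + 1 = 1 := by decide
    have e2 : (0 : ZMod 3) + 2 = 2 := by decide
    obtain ⟨a, b, ha, hab, hb, hT⟩ := POS_dir (S.P r (0 + 2) - S.P r 0) (S.P r (0 + 1) - S.P r 0)
      p.k p.k0 (by rw [e1, e2]; exact S.pos r)
    have i1 : 0 < ∫ ψ in a..b, POSg p S r 0 ψ := by
      refine intervalIntegral.intervalIntegral_pos_of_pos_on (POS_int hM p S r 0 a b) (fun ψ hψ => ?_)
        hab
      have hψ' := hT ψ hψ
      have hrun : Run (Pl.home S r) (S.P r 0) (ev ψ) [0] := (POS_run S r 0 (ev ψ)).2 ⟨hψ'.1, hψ'.2.2⟩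
      unfold POSg
      rw [if_pos hrun, POS_w]
      exact (POS_val hPH hκ p hk r 0 (ev ψ) (norm_ev ψ) hrun).2 hψ'.2.1
    refine i1.trans_le ?_
    exact intervalIntegral.integral_mono_interval ha hab.le hb
      (Eventually.of_forall fun ψ => POS_nonneg hPH hκ p hk r 0 ψ) (POS_int hM p S r 0 0 (2 * Real.pi))
  unfold Psi
  refine Finset.sum_pos' (fun r' _ => Finset.sum_nonneg fun i _ => h0 r' i) ⟨r, Finset.mem_univ r, ?_⟩
  exact Finset.sum_pos' (fun i _ => h0 r i) ⟨0, Finset.mem_univ _, h1⟩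

end Pool.Agent.FAN
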