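import Pool.Agent.FAN4.StS

/-!
# FAN4, block S: WDS (helper23)
-/

set_option autoImplicit false

open scoped ComplexConjugate
open MeasureTheory Set

namespace Pool.Agent.FAN

theorem mem_wds (n : ℕ) (js : List (ZMod 3)) : js ∈ wds n ↔ js.length = n := by
  unfold wds
  rw [Set.Finite.mem_toFinset]
  rfl

theorem wds_zero : wds 0 = {[]} := by
  ext js
  rw [mem_wds, Finset.mem_singleton, List.length_eq_zero_iff]

theorem sum_wds_succ (n : ℕ) (G : List (ZMod 3) → ℝ) :
    ∑ js ∈ wds (n + 1), G js = ∑ js ∈ wds n, ∑ j, G (js ++ [j]) := by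
  rw [← Finset.sum_product' (s := wds n) (t := Finset.univ) (f := fun js j => G (js ++ [j]))]
  symm
  refine Finset.sum_bij (fun t _ => t.1 ++ [t.2]) ?_ ?_ ?_ ?_
  · rintro ⟨js, j⟩ h
    rw [Finset.mem_product, mem_wds] at h
    rw [mem_wds, List.length_append, h.1]
    rfl
  · rintro ⟨js, j⟩ _ ⟨js', j'⟩ _ h
    have h1 := List.append_inj' h rfl
    simp only [List.cons.injEq, and_true] at h1
    exact Prod.ext h1.1 h1.2
  · intro js h
    rw [mem_wds] at h
    rcases List.eq_nil_or_concat js with h1 | ⟨W, j₀, h1⟩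
    · rw [h1] at h; simp at h
    · rw [List.concat_eq_append] at h1
      refine ⟨(W, j₀), ?_, h1.symm⟩
      rw [Finset.mem_product, mem_wds]
      refine ⟨?_, Finset.mem_univ _⟩
      rw [h1, List.length_append, List.length_singleton] at h
      simpa using h
  · intro t _
    rfl

theorem q_WDS : Ss_WDS := ⟨mem_wds, wds_zero, sum_wds_succ⟩

end Pool.Agent.FAN
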