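import Pool.Agent.FAN4.AllP
import Pool.Agent.FAN4.Root2
import Pool.Agent.FAN4.E_CAL
import Pool.Agent.FAN4.E_COT
import Pool.Agent.FAN4.E_DYM
import Pool.Agent.FAN4.E_FIN4
import Pool.Agent.FAN4.E_GRO
import Pool.Agent.FAN4.E_HTS
import Pool.Agent.FAN4.E_KER
import Pool.Agent.FAN4.E_ONE1
import Pool.Agent.FAN4.E_PCK
import Pool.Agent.FAN4.E_PTW
import Pool.Agent.FAN4.E_SHR
import Pool.Agent.FAN4.E_STR
import Pool.Agent.FAN4.E_SUM
import Pool.Agent.FAN4.E_UPB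
import Pool.Agent.FAN4.E_VIS
import Pool.Agent.FAN4.E_YNG
import Pool.Agent.FAN4.G_ALG
import Pool.Agent.FAN4.G_BDF
import Pool.Agent.FAN4.G_BOT
import Pool.Agent.FAN4.G_EXT
import Pool.Agent.FAN4.G_HYP
import Pool.Agent.FAN4.G_LFR
import Pool.Agent.FAN4.G_LNK
import Pool.Agent.FAN4.G_MSR
import Pool.Agent.FAN4.G_PAR4
import Pool.Agent.FAN4.G_PHS
import Pool.Agent.FAN4.G_PRM
import Pool.Agent.FAN4.G_REC
import Pool.Agent.FAN4.G_RVW
import Pool.Agent.FAN4.G_SML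
import Pool.Agent.FAN4.G_SPT
import Pool.Agent.FAN4.G_ZER
import Pool.Agent.FAN4.S_INV
import Pool.Agent.FAN4.S_MON
import Pool.Agent.FAN4.S_POS
import Pool.Agent.FAN4.S_WDS
import Pool.Agent.FAN4.MEVx
import Pool.Agent.FAN2.All

/-!
# FAN4: total assembly (helper23), `F_P(n) ≥ c n^β` for every `β < 2.7869..` and every polygon

Blocks: PATH (helper88), G, S, E (helper23); modules by helpers 8, 15, 17, 23, 32, 48, 63, 88, 92, 99.
-/

set_option autoImplicit false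

open Pool.Agent.Billiard

namespace Pool.Agent.FAN

theorem a4_REC : Sg_REC := q_REC q_ALG
theorem a4_SML : Sg_SML := q_SML q_ALG q_EXT
theorem a4_ZER : Sg_ZER := q_ZER q_ALG q_BOT a4_REC
theorem a4_SPT : Sg_SPT := q_SPT q_ALG q_BOT q_EXT q_MSR q_BDF a4_REC
theorem a4_LFR : Sg_LFR := q_LFR q_ALG q_BOT q_EXT q_PHS a4_REC a4_SML
theorem a4_LFL : Sg_LFL := q_LFL q_ALG q_BOT q_EXT q_PHS a4_REC a4_SML
theorem a4_PRM : Sg_PRM := q_PRM q_BOT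
theorem a4_HYP : Sg_HYP := q_HYP a4_SML q_RVW
theorem a4_PAR4 : Sg_PAR4 := q_PAR4 a4_REC q_RVW a4_ZER a4_LFR a4_LFL a4_PRM q_LNK a4_HYP
theorem a4_INV : Ss_INV := q_INV q_RVW
theorem a4_MON : Ss_MON := q_MON q_RVW a4_SPT a4_PAR4 a4_INV
theorem a4_POS : Ss_POS := q_POS a4_SML q_PHS q_MSR q_WDS
theorem a4_VIS : Se_VIS := q_VIS q_BOT q_EXT a4_REC q_BDF
theorem a4_PTW : Se_PTW := q_PTW q_KER q_YNG
theorem a4_SUM : Se_SUM := q_SUM q_BOT a4_SML q_BDF q_MSR q_WDS a4_VIS q_ONE1 a4_PTW q_COT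

theorem a4_STR : Se_STR := q_STR q_SHR

theorem a4_MEV : Se_MEV := by
  have hSHM : Sw_SHM := w_SHM b_OPN (w_SHE b_UNI)
  have hSPL : Sw_SPL := w_SPL m_MOV m_EXU b_UNI b_CLV b_MON (w_SHE b_UNI)
  have hFLW : Sh_FLW := h_FLW h_EEM h_NOW hSHM hSPL all_HHH
  exact q_MEVx h_EEM h_MSE hFLW (h_ANT h_NOW) (h_PPM h_EEM h_MSE h_NOW)

theorem a4_PCK : Se_PCK := q_PCK (q_HTS q_ALG) a4_STR a4_MEV q_MSR
theorem a4_DYM : Se_DYM := q_DYM q_ALG q_BOT q_ONE1 q_WDS a4_PCK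
theorem a4_UPB : Se_UPB := q_UPB a4_SUM a4_DYM
theorem a4_GRO : Se_GRO := q_GRO a4_MON a4_POS a4_UPB q_CAL

/-- The full complexity of the billiard in an arbitrary polygon grows at least like `n ^ β` for every
`β < 1 / u`, `u` the root of `2 ^ u + 2 u = 2`. -/
theorem fan4_final : Si_FIN4 := q_FIN4 (t_fit_all t_LEN t_GRW) Pool.Agent.FAN4.all_PL2 a4_GRO

end Pool.Agent.FAN
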