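import Pool.Agent.FAN4.StP

/-!
# FAN4, block PATH, module BND: bound of the first part of the derivative of the second potential
-/

set_option autoImplicit false

open MeasureTheory Set

namespace Pool.Agent.FAN4

theorem p_BND (hFFF : Sp_FFF) (hOMG : Sp_OMG) : Sp_BND := by
  intro P L a c B hL hB ha hc hBa har hBc hcr
  obtain ⟨-, -, -, -, hfc, hf6, -, -, -, -⟩ := hFFF P
  obtain ⟨-, -, hder, -, -, -⟩ := hOMG P L hL
  have hr := P.r0
  set m := min a c - B with hm
  set S := a + c - B with hS
  have hm0 : 0 ≤ m := by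
    rw [hm]
    have := le_min hBa hBc
    linarith
  have hmS : a + m ≤ S := by
    rw [hm, hS]
    have := min_le_right a c
    linarith
  have hE : 2 * min a c - B = B + 2 * m := by
    rw [hm]
    ring
  have hEr : B + 2 * m ≤ 2 * P.r := by
    rw [hm]
    have := min_le_left a c
    linarith
  have hlt : ∀ u ∈ Icc a (a + m), |2 * u - 2 * a + B| < L := by
    intro u hu
    rw [abs_of_nonneg (by linarith [hu.1])]
    linarith [hu.2]
  have hle : a ≤ a + m := by linarith
  -- the primitive
  set FU := P.f (a + m) - P.f S with hFU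
  set l := P.lam S with hl
  have hz : ∀ u : ℝ, HasDerivAt (fun u : ℝ => 2 * u - 2 * a + B) 2 u := by
    intro u
    have h1 := (((hasDerivAt_id u).const_mul 2).sub_const (2 * a)).add_const B
    simpa using h1
  have hΦ : ∀ u ∈ Icc a (a + m), HasDerivAt (fun u => FU * P.g L (2 * u - 2 * a + B) +
      l * (P.g L (2 * u - 2 * a + B) * (a + m - u) + P.G L (2 * u - 2 * a + B) / 2))
      (2 * (P.dg L (2 * u - 2 * a + B) * (FU + l * (a + m - u)))) u := by
    intro u hu
    obtain ⟨-, h1, h2, -, -, -⟩ := hder _ (hlt u hu)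
    have h3 := h1.comp u (hz u)
    have h4 := h2.comp u (hz u)
    have h5 : HasDerivAt (fun u : ℝ => a + m - u) (-1) u := by
      have := (hasDerivAt_id u).const_sub (a + m)
      simpa using this
    have h6 := (h3.const_mul FU).add (((h3.mul h5).add (h4.div_const 2)).const_mul l)
    refine h6.congr_deriv ?_
    simp only [Function.comp_apply]
    ring
  have hdgc : ContinuousOn (fun u => P.dg L (2 * u - 2 * a + B)) (Icc a (a + m)) := by
    intro u hu
    obtain ⟨-, -, -, h1, -, -⟩ := hder _ (hlt u hu)
    exact (ContinuousAt.comp (f := fun u : ℝ => 2 * u - 2 * a + B) h1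
      (hz u).continuousAt).continuousWithinAt
  have hfc' : ContinuousOn P.f (Icc a (a + m)) := by
    apply hfc.mono
    intro u hu
    exact lt_of_lt_of_le ha hu.1
  have hc1 : ContinuousOn (fun u => 2 * (P.dg L (2 * u - 2 * a + B) * (FU + l * (a + m - u))))
      (Icc a (a + m)) := by
    apply ContinuousOn.mul continuousOn_const
    apply hdgc.mul
    fun_prop
  have hc2 : ContinuousOn (fun u => 2 * (P.dg L (2 * u - 2 * a + B) * (P.f u - P.f S)))
      (Icc a (a + m)) := by
    apply ContinuousOn.mul continuousOn_const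
    exact hdgc.mul (hfc'.sub continuousOn_const)
  have hi1 : IntervalIntegrable
      (fun u => 2 * (P.dg L (2 * u - 2 * a + B) * (FU + l * (a + m - u)))) volume a (a + m) := by
    apply ContinuousOn.intervalIntegrable
    rw [uIcc_of_le hle]
    exact hc1
  have hi2 : IntervalIntegrable
      (fun u => 2 * (P.dg L (2 * u - 2 * a + B) * (P.f u - P.f S))) volume a (a + m) := by
    apply ContinuousOn.intervalIntegrable
    rw [uIcc_of_le hle]
    exact hc2
  have hint := intervalIntegral.integral_eq_sub_of_hasDerivAt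
    (fun u hu => hΦ u (by rwa [uIcc_of_le hle] at hu)) hi1
  have hcmp := intervalIntegral.integral_mono_on hle hi1 hi2 (by
    intro u hu
    obtain ⟨-, -, -, -, -, h1⟩ := hder _ (hlt u hu)
    apply mul_le_mul_of_nonneg_left _ (by norm_num : (0 : ℝ) ≤ 2)
    apply mul_le_mul_of_nonneg_left _ h1
    have h2 := hf6 u (a + m) S (lt_of_lt_of_le ha hu.1) hu.2 hmS
    rw [hFU, hl]
    linarith)
  rw [hint] at hcmp
  rw [intervalIntegral.integral_const_mul] at hcmp
  have e1 : 2 * (a + m) - 2 * a + B = B + 2 * m := by ring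
  have e2 : 2 * a - 2 * a + B = B := by ring
  rw [e1, e2] at hcmp
  unfold Par.be Par.Ga
  rw [← hS, ← hm, hE]
  have e3 : P.f (a + m) - P.f S = FU := hFU.symm
  rw [e3]
  have e4 : P.f a - P.f (a + m) = (P.f a - P.f S) - FU := by
    rw [hFU]
    ring
  rw [e4]
  nlinarith [hcmp]

end Pool.Agent.FAN4
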