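import Pool.Agent.FAN4.StB

/-!
# FAN4, module BRG: the bridge between the two languages
-/

set_option autoImplicit false

open scoped ComplexConjugate
open MeasureTheory Set

namespace Pool.Agent.FAN4

open Pool.Agent.FAN (ev PR bot trf PH Lf hat)

namespace BRG

/-- a complex number as a pair -/
def tp (z : ℂ) : ℝ × ℝ := (z.re, z.im)

/-- the parameters -/
noncomputable def par (p : PR) : Par := ⟨p.e, p.u, p.k, p.e0, p.e1, p.hu, p.k0⟩

lemma im_ev (φ : ℝ) (z : ℂ) : (ev φ * z).im = Par.up (tp z) φ := by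
  simp only [ev, Complex.mul_im, Par.up, tp]
  ring

lemma re_ev (φ : ℝ) (z : ℂ) : (ev φ * z).re = (tp z).1 * Real.cos φ - (tp z).2 * Real.sin φ := by
  simp only [ev, Complex.mul_re, tp]
  ring

lemma im_ev' (φ : ℝ) (z : ℂ) : (ev (-φ) * z).im = Par.dn (tp z) φ := by
  simp only [ev, Complex.mul_im, Par.dn, tp, Real.cos_neg, Real.sin_neg]
  ring

lemma re_ev' (φ : ℝ) (z : ℂ) : (ev (-φ) * z).re = (tp z).1 * Real.cos φ + (tp z).2 * Real.sin φ := by
  simp only [ev, Complex.mul_re, tp, Real.cos_neg, Real.sin_neg]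
  ring

/-! ### `bot` -/

lemma bot_mem {l : List ℂ} (h : l ≠ []) : bot l ∈ l := by
  induction l with
  | nil => exact absurd rfl h
  | cons z l ih =>
    rw [bot]
    split_ifs with h1
    · simp
    · push Not at h1
      exact List.mem_cons_of_mem _ (ih h1.1)

lemma bot_le {l : List ℂ} : ∀ z ∈ l, (bot l).im ≤ z.im := by
  induction l with
  | nil => simp
  | cons w l ih =>
    intro z hz
    rw [bot]
    split_ifs with h1
    · rcases List.mem_cons.mp hz with rfl | h
      · exact le_rfl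
      · rcases h1 with h1 | h1
        · rw [h1] at h; simp at h
        · exact h1.trans (ih z h)
    · push Not at h1
      rcases List.mem_cons.mp hz with rfl | h
      · exact h1.2.le
      · exact ih z h

lemma bot_meas (A : List ℂ) (u : ℝ → ℂ) (hu : Measurable u) :
    Measurable fun φ : ℝ => bot (A.map fun z => u φ * z) := by
  induction A with
  | nil => simp [bot]
  | cons w A ih =>
    by_cases hA : A = []
    · subst hA
      simp only [List.map_cons, List.map_nil, bot, true_or, if_true]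
      exact hu.mul_const _
    · have h1 : (fun φ : ℝ => bot ((w :: A).map fun z => u φ * z)) = fun φ =>
          if (u φ * w).im ≤ (bot (A.map fun z => u φ * z)).im then u φ * w
            else bot (A.map fun z => u φ * z) := by
        funext φ
        rw [List.map_cons, bot]
        have h2 : (A.map fun z => u φ * z) ≠ [] := by simpa using hA
        simp only [h2, false_or]
      rw [h1]
      refine Measurable.ite ?_ (hu.mul_const _) ih
      exact measurableSet_le (Complex.measurable_im.comp (hu.mul_const _))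
        (Complex.measurable_im.comp ih)

lemma ev_meas : Measurable ev := by
  have h : (ev : ℝ → ℂ) = fun ψ => (Real.cos ψ : ℂ) + (Real.sin ψ : ℂ) * Complex.I := by
    funext ψ
    apply Complex.ext <;> simp [ev, Complex.cos_ofReal_re, Complex.sin_ofReal_re]
  rw [h]
  fun_prop

/-! ### truncated minima -/

lemma foldr_min_le (l : List ℝ) (r : ℝ) : l.foldr min r ≤ r := by
  induction l with
  | nil => exact le_rfl
  | cons a l ih => exact (min_le_right _ _).trans ih

lemma foldr_min_le_mem (l : List ℝ) (r : ℝ) : ∀ a ∈ l, l.foldr min r ≤ a := by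
  induction l with
  | nil => simp
  | cons b l ih =>
    intro a ha
    rcases List.mem_cons.mp ha with rfl | h
    · exact min_le_left _ _
    · exact (min_le_right _ _).trans (ih a h)

lemma foldr_min_eq (l : List ℝ) (r x : ℝ) (hx : x ∈ l) (hle : ∀ a ∈ l, x ≤ a) :
    l.foldr min r = min x r := by
  apply le_antisymm
  · exact le_min (foldr_min_le_mem l r x hx) (foldr_min_le l r)
  · clear hx
    induction l with
    | nil => exact min_le_right _ _
    | cons b l ih =>
      exact le_min ((min_le_left _ _).trans (hle b (by simp)))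
        (ih fun a ha => hle a (by simp [ha]))

lemma mup_eq (P : Par) {A : List ℂ} (hA : A ≠ []) (φ : ℝ) :
    P.mup (A.map tp) φ = min (bot (A.map fun z => ev φ * z)).im P.r := by
  have h1 := bot_mem (l := A.map fun z => ev φ * z) (by simpa using hA)
  obtain ⟨z, hz, hz2⟩ := List.mem_map.mp h1
  unfold Par.mup
  apply foldr_min_eq
  · rw [← hz2, im_ev, List.map_map]
    exact List.mem_map.mpr ⟨z, hz, rfl⟩
  · intro a ha
    rw [List.map_map] at ha
    obtain ⟨w, hw, rfl⟩ := List.mem_map.mp ha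
    have h2 := bot_le (l := A.map fun z => ev φ * z) (ev φ * w) (List.mem_map.mpr ⟨w, hw, rfl⟩)
    rw [im_ev] at h2
    exact h2

lemma mdn_eq (P : Par) {A : List ℂ} (hA : A ≠ []) (φ : ℝ) :
    P.mdn (A.map tp) φ = min (bot (A.map fun z => ev (-φ) * z)).im P.r := by
  have h1 := bot_mem (l := A.map fun z => ev (-φ) * z) (by simpa using hA)
  obtain ⟨z, hz, hz2⟩ := List.mem_map.mp h1
  unfold Par.mdn
  apply foldr_min_eq
  · rw [← hz2, im_ev', List.map_map]
    exact List.mem_map.mpr ⟨z, hz, rfl⟩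
  · intro a ha
    rw [List.map_map] at ha
    obtain ⟨w, hw, rfl⟩ := List.mem_map.mp ha
    have h2 := bot_le (l := A.map fun z => ev (-φ) * z) (ev (-φ) * w)
      (List.mem_map.mpr ⟨w, hw, rfl⟩)
    rw [im_ev'] at h2
    exact h2

/-- the foot of the bottleneck, upper side -/
noncomputable def tu (A : List ℂ) (φ : ℝ) : ℝ := (bot (A.map fun z => ev φ * z)).re

/-- the foot of the bottleneck, lower side -/
noncomputable def td (A : List ℂ) (φ : ℝ) : ℝ := (bot (A.map fun z => ev (-φ) * z)).re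

lemma isUp (P : Par) {A : List ℂ} (hA : A ≠ []) (φ₁ : ℝ) : P.IsUp (A.map tp) φ₁ (tu A) := by
  intro φ _ _ hr
  have h1 := bot_mem (l := A.map fun z => ev φ * z) (by simpa using hA)
  obtain ⟨z, hz, hz2⟩ := List.mem_map.mp h1
  rw [mup_eq P hA] at hr ⊢
  refine ⟨tp z, List.mem_map.mpr ⟨z, hz, rfl⟩, ?_, ?_⟩
  · rw [← im_ev, hz2, min_eq_left]
    by_contra h
    push Not at h
    rw [min_eq_right h.le] at hr
    exact lt_irrefl _ hr
  · unfold tu
    rw [← hz2, re_ev]

lemma isDn (P : Par) {A : List ℂ} (hA : A ≠ []) (φ₁ : ℝ) : P.IsDn (A.map tp) φ₁ (td A) := by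
  intro φ _ _ hr
  have h1 := bot_mem (l := A.map fun z => ev (-φ) * z) (by simpa using hA)
  obtain ⟨z, hz, hz2⟩ := List.mem_map.mp h1
  rw [mdn_eq P hA] at hr ⊢
  refine ⟨tp z, List.mem_map.mpr ⟨z, hz, rfl⟩, ?_, ?_⟩
  · rw [← im_ev', hz2, min_eq_left]
    by_contra h
    push Not at h
    rw [min_eq_right h.le] at hr
    exact lt_irrefl _ hr
  · unfold td
    rw [← hz2, re_ev']

/-! ### the life interval -/

lemma dn_anti {q : ℝ × ℝ} (h1 : 0 ≤ q.1) (h2 : 0 < q.2) {x y : ℝ} (hx : 0 ≤ x) (hxy : x < y)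
    (hy : y ≤ Real.pi / 2) : Par.dn q y < Par.dn q x := by
  unfold Par.dn
  have h3 : Real.cos y < Real.cos x :=
    Real.cos_lt_cos_of_nonneg_of_le_pi_div_two hx hy hxy
  have h4 : Real.sin x < Real.sin y := Real.sin_lt_sin_of_lt_of_le_pi_div_two (by
    have := Real.pi_pos
    linarith) hy hxy
  nlinarith

lemma dn_pos {q : ℝ × ℝ} (h1 : q.1 ≤ 0) (h2 : 0 < q.2) {x : ℝ} (hx : 0 ≤ x)
    (hy : x < Real.pi / 2) : 0 < Par.dn q x := by
  unfold Par.dn
  have h3 : 0 < Real.cos x := Real.cos_pos_of_mem_Ioo ⟨by linarith [Real.pi_pos], hy⟩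
  have h4 : 0 ≤ Real.sin x := Real.sin_nonneg_of_nonneg_of_le_pi hx (by linarith [Real.pi_pos])
  nlinarith [mul_pos h2 h3]

lemma one (q : ℝ × ℝ) (h2 : 0 < q.2) (s : ℝ) (hs : 0 < s) (hs2 : s < Real.pi / 2) :
    ∃ θ, 0 < θ ∧ θ ≤ s ∧ (∀ φ, 0 ≤ φ → φ < θ → 0 < Par.dn q φ) ∧
      (θ = s ∨ Par.dn q θ = 0) ∧ ∀ φ, θ < φ → φ < Real.pi / 2 → s ≤ φ ∨ ¬ 0 < Par.dn q φ := by
  rcases le_total q.1 0 with h1 | h1
  · exact ⟨s, hs, le_rfl, fun φ h3 h4 => dn_pos h1 h2 h3 (h4.trans hs2), Or.inl rfl,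
      fun φ h3 _ => Or.inl h3.le⟩
  · rcases lt_or_ge 0 (Par.dn q s) with h3 | h3
    · exact ⟨s, hs, le_rfl, fun φ h4 h5 => h3.trans (dn_anti h1 h2 h4 h5 hs2.le), Or.inl rfl,
        fun φ h3 _ => Or.inl h3.le⟩
    · have hc : ContinuousOn (Par.dn q) (Icc 0 s) := by
        unfold Par.dn
        fun_prop
      have h0 : Par.dn q 0 = q.2 := by simp [Par.dn]
      obtain ⟨θ, hθ, hθ2⟩ := intermediate_value_Icc' hs.le hc
        (show (0 : ℝ) ∈ Icc (Par.dn q s) (Par.dn q 0) from ⟨h3, by rw [h0]; exact h2.le⟩)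
      have hθ0 : 0 < θ := by
        rcases hθ.1.lt_or_eq with h | h
        · exact h
        · rw [← h, h0] at hθ2
          exact absurd hθ2 h2.ne'
      refine ⟨θ, hθ0, hθ.2, fun φ h4 h5 => ?_, Or.inr hθ2, fun φ h4 h5 => Or.inr ?_⟩
      · rw [← hθ2]
        exact dn_anti h1 h2 h4 h5 (hθ.2.trans hs2.le)
      · have := dn_anti h1 h2 hθ0.le h4 h5.le
        rw [hθ2] at this
        linarith

lemma many (K : List (ℝ × ℝ)) (hK : ∀ q ∈ K, 0 < q.2) (s : ℝ) (hs : 0 < s)
    (hs2 : s < Real.pi / 2) :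
    ∃ θ, 0 < θ ∧ θ ≤ s ∧ (∀ φ, 0 ≤ φ → φ < θ → ∀ q ∈ K, 0 < Par.dn q φ) ∧
      (θ = s ∨ ∃ q ∈ K, Par.dn q θ = 0) ∧
      ∀ φ, θ < φ → φ < Real.pi / 2 → s ≤ φ ∨ ¬ ∀ q ∈ K, 0 < Par.dn q φ := by
  induction K with
  | nil =>
    refine ⟨s, hs, le_rfl, by simp, Or.inl rfl, fun φ h3 _ => Or.inl h3.le⟩
  | cons q K ih =>
    obtain ⟨θ, h1, h2, h3, h4, h5⟩ := ih fun p hp => hK p (by simp [hp])
    obtain ⟨η, g1, g2, g3, g4, g5⟩ := one q (hK q (by simp)) s hs hs2
    refine ⟨min η θ, lt_min g1 h1, (min_le_left _ _).trans g2, ?_, ?_, ?_⟩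
    · intro φ h6 h7 p hp
      rcases List.mem_cons.mp hp with rfl | hp
      · exact g3 φ h6 (h7.trans_le (min_le_left _ _))
      · exact h3 φ h6 (h7.trans_le (min_le_right _ _)) p hp
    · rcases le_total η θ with h | h
      · rw [min_eq_left h]
        rcases g4 with g4 | g4
        · exact Or.inl g4
        · exact Or.inr ⟨q, by simp, g4⟩
      · rw [min_eq_right h]
        rcases h4 with h4 | ⟨p, hp, h4⟩
        · exact Or.inl h4
        · exact Or.inr ⟨p, by simp [hp], h4⟩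
    · intro φ h6 h7
      rcases le_total η θ with h | h
      · rw [min_eq_left h] at h6
        rcases g5 φ h6 h7 with h8 | h8
        · exact Or.inl h8
        · exact Or.inr fun h9 => h8 (h9 q (by simp))
      · rw [min_eq_right h] at h6
        rcases h5 φ h6 h7 with h8 | h8
        · exact Or.inl h8
        · exact Or.inr fun h9 => h8 fun p hp => h9 p (by simp [hp])

/-- the life conditions -/
def Con (L : ℝ) (A C : List (ℝ × ℝ)) (φ : ℝ) : Prop :=
  (∀ q ∈ A, L * Real.sin φ < Par.up q φ) ∧ ∀ q ∈ C, 0 < Par.dn q φ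

lemma up_refl (L φ : ℝ) (q : ℝ × ℝ) :
    Par.up (L - q.1, q.2) φ = Par.dn q φ + L * Real.sin φ := by
  unfold Par.up Par.dn
  ring

lemma dn_refl (L φ : ℝ) (q : ℝ × ℝ) :
    Par.dn (L - q.1, q.2) φ = Par.up q φ - L * Real.sin φ := by
  unfold Par.up Par.dn
  ring

lemma con_iff (L : ℝ) (A C : List (ℝ × ℝ)) (φ : ℝ) :
    Con L A C φ ↔ ∀ q ∈ C ++ refl L A, 0 < Par.dn q φ := by
  unfold Con refl
  constructor
  · rintro ⟨h1, h2⟩ q hq
    rcases List.mem_append.mp hq with h | h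
    · exact h2 q h
    · obtain ⟨p, hp, rfl⟩ := List.mem_map.mp h
      rw [dn_refl]
      linarith [h1 p hp]
  · intro h
    refine ⟨fun q hq => ?_, fun q hq => h q (List.mem_append.mpr (Or.inl hq))⟩
    have := h (L - q.1, q.2) (List.mem_append.mpr (Or.inr (List.mem_map.mpr ⟨q, hq, rfl⟩)))
    rw [dn_refl] at this
    linarith

lemma con_refl (L : ℝ) (A C : List (ℝ × ℝ)) (φ : ℝ) :
    Con L (refl L C) (refl L A) φ ↔ Con L A C φ := by
  unfold Con refl
  constructor
  · rintro ⟨h1, h2⟩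
    refine ⟨fun q hq => ?_, fun q hq => ?_⟩
    · have := h2 _ (List.mem_map.mpr ⟨q, hq, rfl⟩)
      rw [dn_refl] at this
      linarith
    · have := h1 _ (List.mem_map.mpr ⟨q, hq, rfl⟩)
      rw [up_refl] at this
      linarith
  · rintro ⟨h1, h2⟩
    refine ⟨fun q hq => ?_, fun q hq => ?_⟩
    · obtain ⟨p, hp, rfl⟩ := List.mem_map.mp hq
      rw [up_refl]
      linarith [h2 p hp]
    · obtain ⟨p, hp, rfl⟩ := List.mem_map.mp hq
      rw [dn_refl]
      linarith [h1 p hp]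

lemma life (P : Par) (L : ℝ) (hL : 10 * P.r ≤ L) (A C : List (ℝ × ℝ)) (hA : ∀ q ∈ A, 0 < q.2)
    (hC : ∀ q ∈ C, 0 < q.2) : ∃ φ₁, Life P L A C φ₁ ∧
      ∀ φ, φ₁ < φ → φ < Real.pi / 2 → P.r ≤ L * Real.sin φ ∨ ¬ Con L A C φ := by
  have hr := P.r0
  have hL0 : 0 < L := by linarith
  have hrL : P.r / L ≤ 1 / 10 := by
    rw [div_le_iff₀ hL0]
    linarith
  have hrL0 : 0 < P.r / L := by positivity
  have hs : 0 < Real.arcsin (P.r / L) := Real.arcsin_pos.mpr hrL0
  have hs2 : Real.arcsin (P.r / L) < Real.pi / 2 := by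
    rw [Real.arcsin_lt_pi_div_two]
    linarith
  have hsin : L * Real.sin (Real.arcsin (P.r / L)) = P.r := by
    rw [Real.sin_arcsin (by linarith) (by linarith)]
    field_simp
  obtain ⟨θ, h1, h2, h3, h4, h5⟩ := many (C ++ refl L A) (by
    intro q hq
    rcases List.mem_append.mp hq with h | h
    · exact hC q h
    · obtain ⟨p, hp, rfl⟩ := List.mem_map.mp h
      exact hA p hp) _ hs hs2
  have hθ2 : θ < Real.pi / 2 := h2.trans_lt hs2
  refine ⟨θ, ⟨h1, hθ2, fun φ h6 h7 => (con_iff L A C φ).mpr (h3 φ h6 h7), ?_⟩, ?_⟩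
  · rcases h4 with h4 | ⟨q, hq, h4⟩
    · left
      rw [h4, hsin]
    · right
      rcases List.mem_append.mp hq with h | h
      · exact Or.inr ⟨q, h, h4⟩
      · obtain ⟨p, hp, rfl⟩ := List.mem_map.mp h
        rw [dn_refl] at h4
        exact Or.inl ⟨p, hp, by linarith⟩
  · intro φ h6 h7
    rcases h5 φ h6 h7 with h8 | h8
    · left
      rw [← hsin]
      apply mul_le_mul_of_nonneg_left _ hL0.le
      exact Real.sin_le_sin_of_le_of_le_pi_div_two (by linarith [Real.pi_pos]) h7.le h8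
    · right
      rw [con_iff]
      exact h8

/-! ### the functional -/

lemma f_eq (p : PR) (y : ℝ) : (par p).f y = trf p y := rfl

lemma PH_eq (p : PR) (z w : ℂ) : PH p z w = (par p).Ph z.im z.re w.im w.re := by
  simp only [PH, Par.Ph, Par.w, f_eq, add_comm w.im z.im]
  rfl

lemma f_zero (P : Par) {z : ℝ} (hz : P.r ≤ z) : P.f z = 0 := by
  unfold Par.f
  apply max_eq_right
  have h1 : z ^ (P.e - 1) ≤ P.r ^ (P.e - 1) :=
    Real.rpow_le_rpow_of_nonpos P.r0 hz (by linarith [P.e1])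
  linarith

lemma f_nonneg (P : Par) (z : ℝ) : 0 ≤ P.f z := le_max_right _ _

lemma f_anti (P : Par) {x y : ℝ} (hx : 0 < x) (hxy : x ≤ y) : P.f y ≤ P.f x := by
  unfold Par.f
  apply max_le_max _ le_rfl
  have h1 : y ^ (P.e - 1) ≤ x ^ (P.e - 1) :=
    Real.rpow_le_rpow_of_nonpos hx hxy (by linarith [P.e1])
  linarith

/-- truncation of the clearances does not change the difference -/
lemma trunc (P : Par) (B N a T b T' : ℝ) (hB : 0 < B) (hb : 0 < b) (ha : B < a) :
    P.Ph B N b T' - P.Ph a T b T' =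
      P.Ph B N (min b P.r) T' - P.Ph (min a P.r) T (min b P.r) T' := by
  have hr := P.r0
  have ha0 : 0 < a := hB.trans ha
  have step1 : P.Ph B N b T' - P.Ph a T b T' =
      P.Ph B N (min b P.r) T' - P.Ph a T (min b P.r) T' := by
    rcases le_total b P.r with h | h
    · rw [min_eq_left h]
    · rw [min_eq_right h]
      unfold Par.Ph Par.w
      rw [f_zero P (show P.r ≤ B + b by linarith), f_zero P (show P.r ≤ b + B by linarith),
        f_zero P (show P.r ≤ a + b by linarith), f_zero P (show P.r ≤ b + a by linarith),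
        f_zero P (show P.r ≤ B + P.r by linarith), f_zero P (show P.r ≤ P.r + B by linarith),
        f_zero P (show P.r ≤ a + P.r by linarith), f_zero P (show P.r ≤ P.r + a by linarith)]
      ring
  rw [step1]
  congr 1
  rcases le_total a P.r with h | h
  · rw [min_eq_left h]
  · rw [min_eq_right h]
    have hb' : 0 < min b P.r := lt_min hb hr
    unfold Par.Ph Par.w
    rw [f_zero P h, f_zero P (le_refl P.r), f_zero P (show P.r ≤ a + min b P.r by linarith),
      f_zero P (show P.r ≤ min b P.r + a by linarith),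
      f_zero P (show P.r ≤ P.r + min b P.r by linarith),
      f_zero P (show P.r ≤ min b P.r + P.r by linarith)]
    ring

/-- nothing changes when the new vertex is higher than the truncation height -/
lemma high (P : Par) (B N a T b T' : ℝ) (hB : P.r ≤ B) (hb : 0 < b) (ha : B < a) :
    P.Ph B N b T' - P.Ph a T b T' = 0 := by
  unfold Par.Ph Par.w
  rw [f_zero P hB, f_zero P (show P.r ≤ a by linarith), f_zero P (show P.r ≤ B + b by linarith),
    f_zero P (show P.r ≤ b + B by linarith), f_zero P (show P.r ≤ a + b by linarith),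
    f_zero P (show P.r ≤ b + a by linarith)]
  ring

/-! ### the integral -/

lemma con_bot {L : ℝ} {A C : List ℂ} (hA : A ≠ []) (hC : C ≠ []) (φ : ℝ) :
    (0 < (bot (C.map fun z => ev (-φ) * z)).im ∧
      (ev φ * (L : ℂ)).im < (bot (A.map fun z => ev φ * z)).im) ↔
    Con L (A.map tp) (C.map tp) φ := by
  have hL : (ev φ * (L : ℂ)).im = L * Real.sin φ := by
    simp only [ev, Complex.mul_im, Complex.ofReal_re, Complex.ofReal_im]
    ring
  rw [hL]
  unfold Con
  constructor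
  · rintro ⟨h1, h2⟩
    refine ⟨fun q hq => ?_, fun q hq => ?_⟩
    · obtain ⟨z, hz, rfl⟩ := List.mem_map.mp hq
      rw [← im_ev]
      exact h2.trans_le (bot_le _ (List.mem_map.mpr ⟨z, hz, rfl⟩))
    · obtain ⟨z, hz, rfl⟩ := List.mem_map.mp hq
      rw [← im_ev']
      exact h1.trans_le (bot_le _ (List.mem_map.mpr ⟨z, hz, rfl⟩))
  · rintro ⟨h1, h2⟩
    have h3 := bot_mem (l := A.map fun z => ev φ * z) (by simpa using hA)
    obtain ⟨z, hz, hz2⟩ := List.mem_map.mp h3
    have h4 := bot_mem (l := C.map fun z => ev (-φ) * z) (by simpa using hC)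
    obtain ⟨w, hw, hw2⟩ := List.mem_map.mp h4
    rw [← hz2, ← hw2, im_ev', im_ev]
    exact ⟨h2 _ (List.mem_map.mpr ⟨w, hw, rfl⟩), h1 _ (List.mem_map.mpr ⟨z, hz, rfl⟩)⟩

lemma Lf_eq (p : PR) (L : ℝ) (hL : 0 < L) (A C : List ℂ) (hA : A ≠ []) (hC : C ≠ []) (φ₁ : ℝ)
    (h0 : 0 < φ₁) (h1 : φ₁ < Real.pi / 2)
    (hin : ∀ φ, 0 ≤ φ → φ < φ₁ → Con L (A.map tp) (C.map tp) φ)
    (hout : ∀ φ, φ₁ < φ → φ < Real.pi / 2 → (par p).r ≤ L * Real.sin φ ∨
      ¬ Con L (A.map tp) (C.map tp) φ) :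
    Lf p L A C = ∫ φ in (0 : ℝ)..φ₁, (par p).W L (A.map tp) (C.map tp) (tu A) (td C) φ := by
  have hpi := Real.pi_pos
  unfold Lf
  rw [intervalIntegral.integral_of_le (by linarith), intervalIntegral.integral_of_le h0.le,
    integral_Ioc_eq_integral_Ioo, integral_Ioc_eq_integral_Ioo]
  have hcL : ∀ φ, (ev φ * (L : ℂ)).im = L * Real.sin φ ∧ (ev φ * (L : ℂ)).re = L * Real.cos φ := by
    intro φ
    simp only [ev, Complex.mul_im, Complex.mul_re, Complex.ofReal_re, Complex.ofReal_im]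
    constructor <;> ring
  have key : ∀ φ, 0 < φ → φ < Real.pi / 2 → Con L (A.map tp) (C.map tp) φ →
      0 < L * Real.sin φ ∧ 0 < (bot (C.map fun z => ev (-φ) * z)).im ∧
        L * Real.sin φ < (bot (A.map fun z => ev φ * z)).im := by
    intro φ h2 h3 h4
    have h5 := (con_bot hA hC φ).mpr h4
    rw [(hcL φ).1] at h5
    exact ⟨mul_pos hL (Real.sin_pos_of_pos_of_lt_pi h2 (by linarith)), h5⟩
  rw [setIntegral_eq_of_subset_of_ae_sdiff_eq_zero (s := Ioo 0 φ₁) (t := Ioo 0 (Real.pi / 2))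
    measurableSet_Ioo.nullMeasurableSet (Ioo_subset_Ioo_right h1.le)]
  · apply setIntegral_congr_fun measurableSet_Ioo
    intro φ hφ
    have h2 := hin φ hφ.1.le hφ.2
    have h3 := (con_bot hA hC φ).mpr h2
    have h4 := key φ hφ.1 (hφ.2.trans h1) h2
    simp only
    rw [if_pos h3, PH_eq, PH_eq, (hcL φ).1, (hcL φ).2,
      trunc (par p) _ _ _ _ _ _ h4.1 h4.2.1 h4.2.2]
    unfold Par.W
    rw [mup_eq (par p) hA, mdn_eq (par p) hC]
    rfl
  · have h5 : ∀ᵐ φ : ℝ, φ ≠ φ₁ := by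
      rw [ae_iff]
      simp
    filter_upwards [h5] with φ h6 h7
    have h8 : φ₁ < φ := by
      by_contra h9
      push Not at h9
      exact h7.2 ⟨h7.1.1, lt_of_le_of_ne h9 h6⟩
    split_ifs with h9
    · have h10 := (con_bot hA hC φ).mp h9
      have h11 := key φ h7.1.1 h7.1.2 h10
      rcases hout φ h8 h7.1.2 with h12 | h12
      · rw [PH_eq, PH_eq, (hcL φ).1, (hcL φ).2]
        exact high (par p) _ _ _ _ _ _ h12 h11.2.1 h11.2.2
      · exact absurd h10 h12
    · rfl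

/-! ### integrability -/

lemma w_bound (P : Par) {a b : ℝ} (ha : 0 < a) (hb : 0 ≤ b) : |P.w a b| ≤ P.r ^ P.e := by
  unfold Par.w
  have hr := P.r0
  have h1 : P.f (a + b) ≤ P.f a := f_anti P ha (by linarith)
  have h2 := f_nonneg P (a + b)
  rw [abs_of_nonneg (mul_nonneg ha.le (by linarith))]
  rcases le_total P.r a with h | h
  · have h3 := f_zero P h
    rw [h3] at h1
    have h4 : P.f (a + b) = 0 := le_antisymm h1 h2
    rw [h3, h4]
    simp only [sub_self, mul_zero]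
    positivity
  · have h3 : P.f a ≤ a ^ (P.e - 1) := by
      unfold Par.f
      apply max_le
      · have : 0 ≤ P.r ^ (P.e - 1) := by positivity
        linarith
      · positivity
    have h4 : a * a ^ (P.e - 1) = a ^ P.e := by
      nth_rw 1 [← Real.rpow_one a]
      rw [← Real.rpow_add ha]
      congr 1
      ring
    calc a * (P.f a - P.f (a + b)) ≤ a * a ^ (P.e - 1) := by
          apply mul_le_mul_of_nonneg_left _ ha.le
          linarith
      _ = a ^ P.e := h4
      _ ≤ P.r ^ P.e := Real.rpow_le_rpow ha.le h P.e0.le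

lemma w_meas (P : Par) : Measurable fun x : ℝ × ℝ => P.w x.1 x.2 := by
  unfold Par.w Par.f
  fun_prop

lemma rpow_bound {T R ρ : ℝ} (hρ : 0 ≤ ρ) (h : |T| ≤ R) : |T ^ ρ| ≤ R ^ ρ :=
  (Real.abs_rpow_le_abs_rpow T ρ).trans (Real.rpow_le_rpow (abs_nonneg _) h hρ)

lemma Ph_bound (P : Par) (hρ : 0 ≤ P.ρ) {a T b T' R : ℝ} (ha : 0 < a) (hb : 0 < b)
    (hT : |T| ≤ R) (hT' : |T'| ≤ R) : |P.Ph a T b T'| ≤ 2 * (R ^ P.ρ * P.r ^ P.e) := by
  unfold Par.Ph
  have h1 := rpow_bound hρ hT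
  have h2 := rpow_bound hρ hT'
  have h3 := w_bound P ha hb.le
  have h4 := w_bound P hb ha.le
  have hR : 0 ≤ R := (abs_nonneg _).trans hT
  refine (abs_add_le _ _).trans ?_
  rw [abs_mul, abs_mul]
  have h5 : |T ^ P.ρ| * |P.w a b| ≤ R ^ P.ρ * P.r ^ P.e :=
    mul_le_mul h1 h3 (abs_nonneg _) (by positivity)
  have h6 : |T' ^ P.ρ| * |P.w b a| ≤ R ^ P.ρ * P.r ^ P.e :=
    mul_le_mul h2 h4 (abs_nonneg _) (by positivity)
  linarith

lemma list_bound (A : List ℂ) : ∃ R : ℝ, 0 ≤ R ∧ ∀ z ∈ A, ‖z‖ ≤ R := by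
  induction A with
  | nil => exact ⟨0, le_rfl, by simp⟩
  | cons w A ih =>
    obtain ⟨R, h0, h⟩ := ih
    refine ⟨max ‖w‖ R, h0.trans (le_max_right _ _), ?_⟩
    intro z hz
    rcases List.mem_cons.mp hz with rfl | hz
    · exact le_max_left _ _
    · exact (h z hz).trans (le_max_right _ _)

lemma norm_ev (φ : ℝ) : ‖ev φ‖ = 1 := by
  have h : ‖ev φ‖ ^ 2 = 1 := by
    rw [← Complex.normSq_eq_norm_sq, Complex.normSq_apply]
    simp only [ev]
    nlinarith [Real.cos_sq_add_sin_sq φ]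
  nlinarith [norm_nonneg (ev φ)]

lemma re_bound {A : List ℂ} (hA : A ≠ []) {R : ℝ} (hR : ∀ z ∈ A, ‖z‖ ≤ R) (ψ : ℝ) :
    |(bot (A.map fun z => ev ψ * z)).re| ≤ R := by
  have h1 := bot_mem (l := A.map fun z => ev ψ * z) (by simpa using hA)
  obtain ⟨z, hz, hz2⟩ := List.mem_map.mp h1
  rw [← hz2]
  refine (Complex.abs_re_le_norm _).trans ?_
  rw [norm_mul, norm_ev, one_mul]
  exact hR z hz

lemma W_int (P : Par) (L : ℝ) (hL : 0 < L) (hρ : 0 ≤ P.ρ) (A C : List ℂ) (hA : A ≠ [])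
    (hC : C ≠ []) (φ₁ : ℝ) (h0 : 0 < φ₁) (h1 : φ₁ < Real.pi / 2)
    (hin : ∀ φ, 0 ≤ φ → φ < φ₁ → Con L (A.map tp) (C.map tp) φ) :
    IntervalIntegrable (P.W L (A.map tp) (C.map tp) (tu A) (td C)) volume 0 φ₁ := by
  have hpi := Real.pi_pos
  obtain ⟨R1, hR10, hR1⟩ := list_bound A
  obtain ⟨R2, hR20, hR2⟩ := list_bound C
  obtain ⟨R, hR⟩ : ∃ R, R = max (max R1 R2) L := ⟨_, rfl⟩
  have hRA : ∀ z ∈ A, ‖z‖ ≤ R := fun z hz => (hR1 z hz).trans (by
    rw [hR]; exact (le_max_left _ _).trans (le_max_left _ _))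
  have hRC : ∀ z ∈ C, ‖z‖ ≤ R := fun z hz => (hR2 z hz).trans (by
    rw [hR]; exact (le_max_right _ _).trans (le_max_left _ _))
  have hRL : L ≤ R := by rw [hR]; exact le_max_right _ _
  rw [intervalIntegrable_iff_integrableOn_Ioo_of_le h0.le]
  have hm1 : Measurable fun φ => bot (A.map fun z => ev φ * z) := bot_meas A _ ev_meas
  have hm2 : Measurable fun φ => bot (C.map fun z => ev (-φ) * z) :=
    bot_meas C (fun φ => ev (-φ)) (ev_meas.comp measurable_neg)
  have hmu : Measurable (P.mup (A.map tp)) := by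
    have : P.mup (A.map tp) = fun φ => min (bot (A.map fun z => ev φ * z)).im P.r := by
      funext φ
      exact mup_eq P hA φ
    rw [this]
    exact (Complex.measurable_im.comp hm1).min measurable_const
  have hmd : Measurable (P.mdn (C.map tp)) := by
    have : P.mdn (C.map tp) = fun φ => min (bot (C.map fun z => ev (-φ) * z)).im P.r := by
      funext φ
      exact mdn_eq P hC φ
    rw [this]
    exact (Complex.measurable_im.comp hm2).min measurable_const
  have htu : Measurable (tu A) := Complex.measurable_re.comp hm1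
  have htd : Measurable (td C) := Complex.measurable_re.comp hm2
  have hW : Measurable (P.W L (A.map tp) (C.map tp) (tu A) (td C)) := by
    have hPh : ∀ a T b T' : ℝ → ℝ, Measurable a → Measurable T → Measurable b → Measurable T' →
        Measurable fun φ => P.Ph (a φ) (T φ) (b φ) (T' φ) := by
      intro a T b T' ha hT hb hT'
      unfold Par.Ph
      exact ((hT.pow_const _).mul ((w_meas P).comp (ha.prodMk hb))).add
        ((hT'.pow_const _).mul ((w_meas P).comp (hb.prodMk ha)))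
    exact (hPh _ _ _ _ (by fun_prop) (by fun_prop) hmd htd).sub (hPh _ _ _ _ hmu htu hmd htd)
  apply Measure.integrableOn_of_bounded (M := 4 * (R ^ P.ρ * P.r ^ P.e))
  · simp
  · exact hW.aestronglyMeasurable
  · rw [ae_restrict_iff' measurableSet_Ioo]
    refine Filter.Eventually.of_forall fun φ hφ => ?_
    have h2 := hin φ hφ.1.le hφ.2
    have h3 := (con_bot hA hC φ).mpr h2
    have hsin : 0 < Real.sin φ := Real.sin_pos_of_pos_of_lt_pi hφ.1 (by linarith [hφ.2])
    have hs : (ev φ * (L : ℂ)).im = L * Real.sin φ := by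
      simp only [ev, Complex.mul_im, Complex.ofReal_re, Complex.ofReal_im]
      ring
    rw [hs] at h3
    have hB : 0 < L * Real.sin φ := mul_pos hL hsin
    have ha : 0 < P.mup (A.map tp) φ := by
      rw [mup_eq P hA]
      exact lt_min (hB.trans h3.2) P.r0
    have hb : 0 < P.mdn (C.map tp) φ := by
      rw [mdn_eq P hC]
      exact lt_min h3.1 P.r0
    have hc : |L * Real.cos φ| ≤ R := by
      rw [abs_mul, abs_of_pos hL]
      have := Real.abs_cos_le_one φ
      nlinarith [abs_nonneg (Real.cos φ)]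
    have h4 := Ph_bound P hρ hB hb hc (re_bound hC hRC (-φ))
    have h5 := Ph_bound P hρ ha hb (re_bound hA hRA φ) (re_bound hC hRC (-φ))
    rw [Real.norm_eq_abs]
    unfold Par.W
    refine (abs_sub _ _).trans ?_
    unfold tu td
    linarith

lemma refl_hat (L : ℝ) (A : List ℂ) : refl L (A.map tp) = (hat L A).map tp := by
  unfold refl hat
  rw [List.map_map, List.map_map]
  apply List.map_congr_left
  intro z _
  simp [tp]

lemma feet1 (p : PR) (L : ℝ) {A C : List ℂ} (hA : A ≠ []) (hC : C ≠ []) (h : HF p L A C) (φ₁ : ℝ)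
    (h1 : φ₁ < Real.pi / 2) (hin : ∀ φ, 0 ≤ φ → φ < φ₁ → Con L (A.map tp) (C.map tp) φ) :
    Feet (par p) L (A.map tp) φ₁ := by
  intro φ h2 h3 h4
  have h5 := (con_bot hA hC φ).mpr (hin φ h2.le h3)
  have hs : (ev φ * (L : ℂ)).im = L * Real.sin φ := by
    simp only [ev, Complex.mul_im, Complex.ofReal_re, Complex.ofReal_im]
    ring
  rw [hs] at h5
  rw [mup_eq (par p) hA] at h4 ⊢
  have h6 : (bot (A.map fun z => ev φ * z)).im < (par p).r := by
    by_contra h7
    push Not at h7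
    rw [min_eq_right h7] at h4
    exact lt_irrefl _ h4
  have h7 := (h φ h2 (h3.trans h1) h5.1 h5.2).1 h6
  obtain ⟨z, hz, hz2⟩ := List.mem_map.mp (bot_mem (l := A.map fun z => ev φ * z) (by simpa using hA))
  refine ⟨tp z, List.mem_map.mpr ⟨z, hz, rfl⟩, ?_, ?_, ?_⟩
  · rw [← im_ev, hz2, min_eq_left h6.le]
  · rw [← re_ev, hz2]
    exact h7.1.le
  · rw [← re_ev, hz2]
    exact h7.2.le

lemma feet2 (p : PR) (L : ℝ) {A C : List ℂ} (hA : A ≠ []) (hC : C ≠ []) (h : HF p L A C) (φ₁ : ℝ)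
    (h1 : φ₁ < Real.pi / 2) (hin : ∀ φ, 0 ≤ φ → φ < φ₁ → Con L (A.map tp) (C.map tp) φ) :
    Feet (par p) L (refl L (C.map tp)) φ₁ := by
  intro φ h2 h3 h4
  have h5 := (con_bot hA hC φ).mpr (hin φ h2.le h3)
  have hs : (ev φ * (L : ℂ)).im = L * Real.sin φ := by
    simp only [ev, Complex.mul_im, Complex.ofReal_re, Complex.ofReal_im]
    ring
  rw [hs] at h5
  obtain ⟨w, hw, hw2⟩ := List.mem_map.mp
    (bot_mem (l := C.map fun z => ev (-φ) * z) (by simpa using hC))
  have hmem : (L - (tp w).1, (tp w).2) ∈ refl L (C.map tp) :=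
    List.mem_map.mpr ⟨tp w, List.mem_map.mpr ⟨w, hw, rfl⟩, rfl⟩
  have hup : Par.up (L - (tp w).1, (tp w).2) φ =
      (bot (C.map fun z => ev (-φ) * z)).im + L * Real.sin φ := by
    rw [up_refl, ← im_ev', hw2]
  have hm : (par p).mup (refl L (C.map tp)) φ =
      min ((bot (C.map fun z => ev (-φ) * z)).im + L * Real.sin φ) (par p).r := by
    unfold Par.mup
    apply foldr_min_eq
    · rw [← hup]
      exact List.mem_map.mpr ⟨_, hmem, rfl⟩
    · intro a ha
      obtain ⟨q, hq, rfl⟩ := List.mem_map.mp ha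
      obtain ⟨q', hq', rfl⟩ := List.mem_map.mp hq
      obtain ⟨v, hv, rfl⟩ := List.mem_map.mp hq'
      rw [up_refl, ← im_ev']
      have := bot_le (l := C.map fun z => ev (-φ) * z) (ev (-φ) * v)
        (List.mem_map.mpr ⟨v, hv, rfl⟩)
      linarith
  rw [hm] at h4 ⊢
  have h6 : (bot (C.map fun z => ev (-φ) * z)).im + L * Real.sin φ < (par p).r := by
    by_contra h7
    push Not at h7
    rw [min_eq_right h7] at h4
    exact lt_irrefl _ h4
  have h7 := (h φ h2 (h3.trans h1) h5.1 h5.2).2 h6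
  refine ⟨_, hmem, ?_, ?_, ?_⟩
  · rw [hup, min_eq_left h6.le]
  · have h8 := re_ev' φ w
    rw [hw2] at h8
    simp only
    linarith [h7.2]
  · have h8 := re_ev' φ w
    rw [hw2] at h8
    simp only
    linarith [h7.1]

/-- one turning sense -/
lemma sense (p : PR) (L : ℝ) (hL : 0 < L) (hk : 10 * p.k ≤ L) (A C : List ℂ) (hA : A ≠ [])
    (hC : C ≠ []) (hA0 : ∀ z ∈ A, 0 < z.im) (hC0 : ∀ z ∈ C, 0 < z.im) (h : HF p L A C) :
    ∃ φ₁, Life (par p) L (A.map tp) (C.map tp) φ₁ ∧ Feet (par p) L (A.map tp) φ₁ ∧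
      Feet (par p) L (refl L (C.map tp)) φ₁ ∧
      Lf p L A C + Lf p L (hat L C) (hat L A) =
        ∫ φ in (0 : ℝ)..φ₁, ((par p).W L (A.map tp) (C.map tp) (tu A) (td C) φ +
          (par p).W L (refl L (C.map tp)) (refl L (A.map tp)) (tu (hat L C)) (td (hat L A)) φ) := by
  have hρ : 0 ≤ (par p).ρ := by
    by_contra h0
    push Not at h0
    have h1 := Real.rpow_lt_one_of_one_lt_of_neg (show (1 : ℝ) < 2 by norm_num) h0
    rw [(par p).hρ] at h1
    linarith [(par p).e0]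
  obtain ⟨φ₁, hlife, hout⟩ := life (par p) L hk (A.map tp) (C.map tp) (by
    intro q hq
    obtain ⟨z, hz, rfl⟩ := List.mem_map.mp hq
    exact hA0 z hz) (by
    intro q hq
    obtain ⟨z, hz, rfl⟩ := List.mem_map.mp hq
    exact hC0 z hz)
  obtain ⟨h0, h1, hin, -⟩ := id hlife
  have hA' : hat L A ≠ [] := by simpa [hat] using hA
  have hC' : hat L C ≠ [] := by simpa [hat] using hC
  have hin' : ∀ φ, 0 ≤ φ → φ < φ₁ → Con L ((hat L C).map tp) ((hat L A).map tp) φ := by
    intro φ h2 h3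
    rw [← refl_hat, ← refl_hat, con_refl]
    exact hin φ h2 h3
  refine ⟨φ₁, hlife, feet1 p L hA hC h φ₁ h1 hin, feet2 p L hA hC h φ₁ h1 hin, ?_⟩
  rw [Lf_eq p L hL A C hA hC φ₁ h0 h1 hin hout,
    Lf_eq p L hL (hat L C) (hat L A) hC' hA' φ₁ h0 h1 hin' (by
      intro φ h2 h3
      rw [← refl_hat, ← refl_hat, con_refl]
      exact hout φ h2 h3),
    refl_hat, refl_hat]
  rw [intervalIntegral.integral_add]
  · exact W_int (par p) L hL hρ A C hA hC φ₁ h0 h1 hin
  · exact W_int (par p) L hL hρ (hat L C) (hat L A) hC' hA' φ₁ h0 h1 hin'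

end BRG

open BRG in
theorem p_BRG : Sb_BRG := by
  intro hPLN p L A C hL hk hA hC hA0 hC0 hH1 hH2
  obtain ⟨φ₁, hl1, hf1, hf2, he1⟩ := sense p L hL hk A C hA hC hA0 hC0 hH1
  obtain ⟨φ₂, hl2, hf3, hf4, he2⟩ := sense p L hL hk C A hC hA hC0 hA0 hH2
  have hA' : hat L A ≠ [] := by simpa [hat] using hA
  have hC' : hat L C ≠ [] := by simpa [hat] using hC
  have hq : ∀ B : List ℂ, (∀ z ∈ B, 0 < z.im) → ∀ q ∈ B.map tp, 0 < q.2 := by
    intro B hB q hq
    obtain ⟨z, hz, rfl⟩ := List.mem_map.mp hq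
    exact hB z hz
  have key := hPLN (par p) L (A.map tp) (C.map tp) φ₁ φ₂ (tu A) (td C) (tu (hat L C))
    (td (hat L A)) (tu C) (td A) (tu (hat L A)) (td (hat L C)) hk (hq A hA0) (hq C hC0) hl1 hl2
    hf1 hf2 hf3 hf4 (isUp _ hA _) (isDn _ hC _) (by rw [refl_hat]; exact isUp _ hC' _)
    (by rw [refl_hat]; exact isDn _ hA' _) (isUp _ hC _) (isDn _ hA _)
    (by rw [refl_hat]; exact isUp _ hA' _) (by rw [refl_hat]; exact isDn _ hC' _)
  rw [← he1, ← he2] at key
  linarith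

end Pool.Agent.FAN4
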