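import Pool.Agent.FAN4.StP

/-!
# FAN4, block PATH, module FFF: the truncated power
-/

set_option autoImplicit false

open MeasureTheory Set

namespace Pool.Agent.FAN4

/-- the supporting line at `1` of a power with nonpositive exponent -/
lemma FFF_bern (p x : ℝ) (hp : p ≤ 0) (hx : 0 < x) : 1 + p * (x - 1) ≤ x ^ p := by
  have h1 : x ^ p = Real.exp (Real.log x * p) := Real.rpow_def_of_pos hx p
  have h2 : Real.log x * p + 1 ≤ Real.exp (Real.log x * p) := Real.add_one_le_exp _
  have h3 : Real.log x ≤ x - 1 := Real.log_le_sub_one_of_pos hx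
  rw [h1]
  nlinarith [mul_nonneg (sub_nonneg.mpr h3) (neg_nonneg.mpr hp)]

/-- the supporting line of a power with nonpositive exponent -/
lemma FFF_tan (p x y : ℝ) (hp : p ≤ 0) (hx : 0 < x) (hy : 0 < y) :
    y ^ p + p * y ^ (p - 1) * (x - y) ≤ x ^ p := by
  have h1 := FFF_bern p (x / y) hp (div_pos hx hy)
  have h2 : (x / y) ^ p = x ^ p / y ^ p := Real.div_rpow hx.le hy.le p
  have h3 : y ^ (p - 1) = y ^ p / y := by rw [Real.rpow_sub_one hy.ne']
  have h4 : 0 < y ^ p := Real.rpow_pos_of_pos hy p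
  rw [h2, le_div_iff₀ h4] at h1
  rw [h3]
  have h5 : (1 + p * (x / y - 1)) * y ^ p = y ^ p + p * (y ^ p / y) * (x - y) := by
    field_simp
  linarith

theorem p_FFF : Sp_FFF := by
  intro P
  have e0 := P.e0
  have e1 := P.e1
  have r0 := P.r0
  have hp : P.e - 1 ≤ 0 := by linarith
  have hp2 : P.e - 2 ≤ 0 := by linarith
  have he2 : P.e - 1 - 1 = P.e - 2 := by ring
  have hrp : 0 < P.r ^ (P.e - 1) := Real.rpow_pos_of_pos r0 _
  have q1 : ∀ z, 0 ≤ P.f z := fun z => le_max_right _ _
  have q2 : ∀ z, P.r ≤ z → P.f z = 0 := by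
    intro z hz
    have := Real.rpow_le_rpow_of_nonpos r0 hz hp
    unfold Par.f
    exact max_eq_right (by linarith)
  have q3 : ∀ z, 0 < z → z ≤ P.r → P.f z = z ^ (P.e - 1) - P.r ^ (P.e - 1) := by
    intro z hz hzr
    have := Real.rpow_le_rpow_of_nonpos hz hzr hp
    unfold Par.f
    exact max_eq_left (by linarith)
  have q3' : ∀ z, z ^ (P.e - 1) - P.r ^ (P.e - 1) ≤ P.f z := fun z => le_max_left _ _
  have q4 : AntitoneOn P.f (Ioi 0) := by
    intro u hu v _ huv
    have := Real.rpow_le_rpow_of_nonpos hu huv hp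
    unfold Par.f
    exact max_le_max (by linarith) le_rfl
  have q5 : ContinuousOn P.f (Ioi 0) := by
    unfold Par.f
    refine ContinuousOn.sup (ContinuousOn.sub ?_ continuousOn_const) continuousOn_const
    intro z hz
    exact (Real.continuousAt_rpow_const z (P.e - 1) (Or.inl (ne_of_gt hz))).continuousWithinAt
  have q8 : ∀ z, 0 < z → 0 ≤ P.lam z := by
    intro z hz
    unfold Par.lam
    split_ifs
    · exact mul_nonneg (by linarith) (Real.rpow_nonneg hz.le _)
    · exact le_rfl
  -- lower bound of differences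
  have low : ∀ u v, 0 < u → u ≤ v → v < P.r →
      (1 - P.e) * v ^ (P.e - 2) * (v - u) ≤ P.f u - P.f v := by
    intro u v hu huv hv
    have hv0 : 0 < v := lt_of_lt_of_le hu huv
    have ht := FFF_tan (P.e - 1) u v hp hu hv0
    rw [he2] at ht
    rw [q3 u hu (by linarith), q3 v hv0 hv.le]
    nlinarith
  -- upper bound of differences
  have upp : ∀ u v, 0 < u → u ≤ v → P.f u - P.f v ≤ (1 - P.e) * u ^ (P.e - 2) * (v - u) := by
    intro u v hu huv
    have hv0 : 0 < v := lt_of_lt_of_le hu huv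
    by_cases hur : u ≤ P.r
    · have ht := FFF_tan (P.e - 1) v u hp hv0 hu
      rw [he2] at ht
      have := q3' v
      rw [q3 u hu hur]
      nlinarith
    · rw [q2 u (le_of_not_ge hur), q2 v (by linarith [le_of_not_ge hur])]
      have : 0 ≤ (1 - P.e) * u ^ (P.e - 2) * (v - u) :=
        mul_nonneg (mul_nonneg (by linarith) (Real.rpow_nonneg hu.le _)) (by linarith)
      linarith
  refine ⟨q1, q2, q3, q4, q5, ?_, ?_, q8, ?_, ?_⟩
  · intro u v S hu huv hvS
    have hv0 : 0 < v := lt_of_lt_of_le hu huv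
    have hS0 : 0 < S := lt_of_lt_of_le hv0 hvS
    by_cases hS : S < P.r
    · have h1 := low u v hu huv (lt_of_le_of_lt hvS hS)
      have h2 : S ^ (P.e - 2) ≤ v ^ (P.e - 2) := Real.rpow_le_rpow_of_nonpos hv0 hvS hp2
      have h3 : P.lam S = (1 - P.e) * S ^ (P.e - 2) := by
        unfold Par.lam
        rw [if_pos hS]
      rw [h3]
      refine le_trans ?_ h1
      exact mul_le_mul_of_nonneg_right (mul_le_mul_of_nonneg_left h2 (by linarith)) (by linarith)
    · have h3 : P.lam S = 0 := by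
        unfold Par.lam
        rw [if_neg hS]
      rw [h3, zero_mul]
      have := q4 hu hv0 huv
      linarith
  · intro u v S hu huv hvS
    have hv0 : 0 < v := lt_of_lt_of_le hu huv
    have hS0 : 0 < S := lt_of_lt_of_le hv0 hvS
    by_cases hv : v < P.r
    · have h1 := low u v hu huv hv
      have h2 := upp v S hv0 hvS
      calc (P.f v - P.f S) * (v - u) ≤ ((1 - P.e) * v ^ (P.e - 2) * (S - v)) * (v - u) :=
            mul_le_mul_of_nonneg_right h2 (by linarith)
        _ = ((1 - P.e) * v ^ (P.e - 2) * (v - u)) * (S - v) := by ring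
        _ ≤ (P.f u - P.f v) * (S - v) := mul_le_mul_of_nonneg_right h1 (by linarith)
    · rw [q2 v (not_lt.mp hv), q2 S (le_trans (not_lt.mp hv) hvS)]
      have := q1 u
      have h3 : 0 ≤ P.f u * (S - v) := mul_nonneg this (by linarith)
      simpa using h3
  · intro z₀ hz₀
    have hK : 0 ≤ (1 - P.e) * z₀ ^ (P.e - 2) :=
      mul_nonneg (by linarith) (Real.rpow_nonneg hz₀.le _)
    refine ⟨⟨(1 - P.e) * z₀ ^ (P.e - 2), hK⟩, LipschitzOnWith.of_dist_le_mul ?_⟩
    have key : ∀ x ∈ Ici z₀, ∀ y ∈ Ici z₀, x ≤ y →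
        dist (P.f x) (P.f y) ≤ (1 - P.e) * z₀ ^ (P.e - 2) * dist x y := by
      intro x hx y hy hxy
      have hx0 : 0 < x := lt_of_lt_of_le hz₀ hx
      have h1 := upp x y hx0 hxy
      have h2 := q4 hx0 (lt_of_lt_of_le hx0 hxy) hxy
      have h3 : x ^ (P.e - 2) ≤ z₀ ^ (P.e - 2) := Real.rpow_le_rpow_of_nonpos hz₀ hx hp2
      rw [Real.dist_eq, Real.dist_eq, abs_of_nonneg (by linarith), abs_of_nonpos (by linarith)]
      have h4 : (1 - P.e) * x ^ (P.e - 2) * (y - x) ≤ (1 - P.e) * z₀ ^ (P.e - 2) * (y - x) :=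
        mul_le_mul_of_nonneg_right (mul_le_mul_of_nonneg_left h3 (by linarith)) (by linarith)
      linarith
    intro x hx y hy
    show dist (P.f x) (P.f y) ≤ (1 - P.e) * z₀ ^ (P.e - 2) * dist x y
    rcases le_total x y with h | h
    · exact key x hx y hy h
    · have := key y hy x hx h
      rwa [dist_comm, dist_comm x y]
  · intro z hz
    have h1 : P.f z ≤ z ^ (P.e - 1) := by
      unfold Par.f
      exact max_le (by linarith) (Real.rpow_nonneg hz.le _)
    calc z * P.f z ≤ z * z ^ (P.e - 1) := mul_le_mul_of_nonneg_left h1 hz.le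
      _ = z ^ P.e := by
        rw [Real.rpow_sub_one hz.ne']
        field_simp

end Pool.Agent.FAN4
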