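import Pool.Agent.FAN4.StP

/-!
# FAN4, block PATH, module GIN: the inequality for the weight of one side
-/

set_option autoImplicit false

open MeasureTheory Set

namespace Pool.Agent.FAN4

/-- the supporting line of a power with nonpositive exponent -/
private lemma GIN_tan (p x y : ℝ) (hp : p ≤ 0) (hx : 0 < x) (hy : 0 < y) :
    y ^ p + p * y ^ (p - 1) * (x - y) ≤ x ^ p := by
  have h1 : 1 + p * (x / y - 1) ≤ (x / y) ^ p := by
    have hz : 0 < x / y := div_pos hx hy
    have h1 : (x / y) ^ p = Real.exp (Real.log (x / y) * p) := Real.rpow_def_of_pos hz p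
    have h2 : Real.log (x / y) * p + 1 ≤ Real.exp (Real.log (x / y) * p) := Real.add_one_le_exp _
    have h3 : Real.log (x / y) ≤ x / y - 1 := Real.log_le_sub_one_of_pos hz
    rw [h1]
    nlinarith [mul_nonneg (sub_nonneg.mpr h3) (neg_nonneg.mpr hp)]
  have h2 : (x / y) ^ p = x ^ p / y ^ p := Real.div_rpow hx.le hy.le p
  have h3 : y ^ (p - 1) = y ^ p / y := by rw [Real.rpow_sub_one hy.ne']
  have h4 : 0 < y ^ p := Real.rpow_pos_of_pos hy p
  rw [h2, le_div_iff₀ h4] at h1
  rw [h3]
  have h5 : (1 + p * (x / y - 1)) * y ^ p = y ^ p + p * (y ^ p / y) * (x - y) := by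
    field_simp
  linarith

theorem p_GIN (hPar : Sp_PAR) : Sp_GIN := by
  intro P x hx0 hx1
  obtain ⟨ρ0, ρ1, eρ, -, -, -, -⟩ := hPar P
  set ρ := P.ρ with hρ
  set e := P.e with he
  -- the function and its derivative
  set h : ℝ → ℝ := fun x => 1 + ρ * x - (1 + x) ^ ρ - (ρ - e) * x ^ 2 with hh
  set H : ℝ → ℝ := fun x => ρ - ρ * (1 + x) ^ (ρ - 1) - 2 * (ρ - e) * x with hH
  have hd : ∀ x, -1 < x → HasDerivAt h (H x) x := by
    intro x hx
    have h1 : HasDerivAt (fun x : ℝ => 1 + x) 1 x := by
      simpa using (hasDerivAt_id x).const_add (1 : ℝ)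
    have h2 : HasDerivAt (fun x : ℝ => (1 + x) ^ ρ) (1 * ρ * (1 + x) ^ (ρ - 1)) x :=
      h1.rpow_const (Or.inl (ne_of_gt (by linarith)))
    have h3 : HasDerivAt (fun x : ℝ => 1 + ρ * x) ρ x := by
      simpa using ((hasDerivAt_id x).const_mul ρ).const_add (1 : ℝ)
    have h4 : HasDerivAt (fun x : ℝ => (ρ - e) * x ^ 2) ((ρ - e) * (2 * x)) x := by
      simpa using ((hasDerivAt_pow 2 x).const_mul (ρ - e))
    have h5 := (h3.sub h2).sub h4
    refine h5.congr_deriv ?_
    rw [hH]
    ring
  have hcont : Continuous h := by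
    rw [hh]
    have : Continuous fun x : ℝ => (1 + x) ^ ρ :=
      (continuous_const.add continuous_id).rpow_const (fun _ => Or.inr ρ0.le)
    fun_prop
  have h0 : h 0 = 0 := by simp [hh]
  have h1 : h 1 = 0 := by
    have := P.hρ
    rw [hh]
    norm_num
    rw [← hρ] at this
    rw [this]
    ring
  have H0 : H 0 = 0 := by simp [hH]
  -- supporting lines of H
  have tan : ∀ y, -1 < y → ∃ s : ℝ, ∀ x, -1 < x → H x ≤ H y + s * (x - y) := by
    intro y hy
    refine ⟨-ρ * ((ρ - 1) * (1 + y) ^ (ρ - 1 - 1)) - 2 * (ρ - e), fun x hx => ?_⟩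
    have ht := GIN_tan (ρ - 1) (1 + x) (1 + y) (by linarith) (by linarith) (by linarith)
    have := mul_le_mul_of_nonneg_left ht ρ0.le
    simp only [hH]
    nlinarith
  -- a zero of the derivative in the open unit interval
  obtain ⟨ξ, ⟨hξ0, hξ1⟩, hξ⟩ : ∃ ξ ∈ Ioo (0 : ℝ) 1, H ξ = 0 := by
    refine exists_hasDerivAt_eq_zero (by norm_num : (0 : ℝ) < 1) hcont.continuousOn ?_ ?_
    · rw [h0, h1]
    · intro x hx
      exact hd x (by linarith [hx.1])
  have s1 : ∀ x, -1 < x → x ≤ 0 → H x ≤ 0 := by
    intro x hx hx'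
    obtain ⟨s, hs⟩ := tan 0 (by norm_num)
    have a1 := hs ξ (by linarith)
    have a2 := hs x hx
    rw [H0, hξ] at a1
    rw [H0] at a2
    have : 0 ≤ s := by
      by_contra hcon
      push Not at hcon
      nlinarith
    nlinarith
  have s2 : ∀ x, 0 ≤ x → x ≤ ξ → 0 ≤ H x := by
    intro x hx hx'
    obtain ⟨s, hs⟩ := tan x (by linarith)
    have a1 := hs ξ (by linarith)
    have a2 := hs 0 (by linarith)
    rw [hξ] at a1
    rw [H0] at a2
    by_contra hcon
    push Not at hcon
    have hs0 : s < 0 := by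
      by_contra hc
      push Not at hc
      nlinarith
    nlinarith
  have s3 : ∀ x, ξ ≤ x → H x ≤ 0 := by
    intro x hx
    obtain ⟨s, hs⟩ := tan ξ (by linarith)
    have a1 := hs 0 (by linarith)
    have a2 := hs x (by linarith)
    rw [hξ, H0] at a1
    rw [hξ] at a2
    have : s ≤ 0 := by
      by_contra hc
      push Not at hc
      nlinarith
    nlinarith
  have key : 0 ≤ h x := by
    rcases le_total x 0 with hx | hx
    · have : AntitoneOn h (Icc (-1) 0) := by
        refine antitoneOn_of_deriv_nonpos (convex_Icc _ _) hcont.continuousOn ?_ ?_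
        · intro y hy
          rw [interior_Icc] at hy
          exact (hd y hy.1).differentiableAt.differentiableWithinAt
        · intro y hy
          rw [interior_Icc] at hy
          rw [(hd y hy.1).deriv]
          exact s1 y hy.1 hy.2.le
      have := this ⟨hx0, hx⟩ ⟨by norm_num, le_rfl⟩ hx
      linarith
    · rcases le_total x ξ with hx' | hx'
      · have : MonotoneOn h (Icc 0 ξ) := by
          refine monotoneOn_of_deriv_nonneg (convex_Icc _ _) hcont.continuousOn ?_ ?_
          · intro y hy
            rw [interior_Icc] at hy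
            exact (hd y (by linarith [hy.1])).differentiableAt.differentiableWithinAt
          · intro y hy
            rw [interior_Icc] at hy
            rw [(hd y (by linarith [hy.1])).deriv]
            exact s2 y hy.1.le hy.2.le
        have := this ⟨le_rfl, hξ0.le⟩ ⟨hx, hx'⟩ hx
        linarith
      · have : AntitoneOn h (Icc ξ 1) := by
          refine antitoneOn_of_deriv_nonpos (convex_Icc _ _) hcont.continuousOn ?_ ?_
          · intro y hy
            rw [interior_Icc] at hy
            exact (hd y (by linarith [hy.1])).differentiableAt.differentiableWithinAt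
          · intro y hy
            rw [interior_Icc] at hy
            rw [(hd y (by linarith [hy.1])).deriv]
            exact s3 y hy.1.le
        have := this ⟨hx', hx1⟩ ⟨hξ1.le, le_rfl⟩ hx1
        linarith
  have : h x = 1 + ρ * x - (1 + x) ^ ρ - (ρ - e) * x ^ 2 := rfl
  linarith

end Pool.Agent.FAN4
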