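import Pool.Agent.FAN4.StP

/-!
# FAN4, block PATH, module HBF: the height function
-/

set_option autoImplicit false

open MeasureTheory Set

namespace Pool.Agent.FAN4

private lemma HBF_nil (P : Par) (L B : ℝ) : hB P L [] B = P.r := rfl

private lemma HBF_cons (P : Par) (L : ℝ) (q : ℝ × ℝ) (A : List (ℝ × ℝ)) (B : ℝ) :
    hB P L (q :: A) B = min (Par.up q (Real.arcsin (B / L))) (hB P L A B) := rfl

private lemma HBF_le_r (P : Par) (L : ℝ) (A : List (ℝ × ℝ)) (B : ℝ) : hB P L A B ≤ P.r := by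
  induction A with
  | nil => exact le_of_eq (HBF_nil P L B)
  | cons q A ih => rw [HBF_cons]; exact (min_le_right _ _).trans ih

private lemma HBF_le (P : Par) (L : ℝ) (A : List (ℝ × ℝ)) (B : ℝ) (q : ℝ × ℝ) (hq : q ∈ A) :
    hB P L A B ≤ Par.up q (Real.arcsin (B / L)) := by
  induction A with
  | nil => simp at hq
  | cons p A ih =>
    rw [HBF_cons]
    rcases List.mem_cons.mp hq with rfl | h
    · exact min_le_left _ _
    · exact (min_le_right _ _).trans (ih h)

private lemma HBF_up0 (q : ℝ × ℝ) (L : ℝ) : Par.up q (Real.arcsin (0 / L)) = q.2 := by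
  simp [Par.up]

private lemma HBF_pos (P : Par) (L : ℝ) (A : List (ℝ × ℝ)) (hA : ∀ q ∈ A, 0 < q.2) :
    0 < hB P L A 0 := by
  induction A with
  | nil => rw [HBF_nil]; exact P.r0
  | cons q A ih =>
    rw [HBF_cons, HBF_up0]
    exact lt_min (hA q (by simp)) (ih fun p hp => hA p (by simp [hp]))

private lemma HBF_ex (P : Par) (L : ℝ) (A : List (ℝ × ℝ)) (h : hB P L A 0 < P.r) :
    ∃ q ∈ A, q.2 = hB P L A 0 := by
  induction A with
  | nil => rw [HBF_nil] at h; exact absurd h (lt_irrefl _)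
  | cons q A ih =>
    rw [HBF_cons, HBF_up0] at h ⊢
    rcases le_total q.2 (hB P L A 0) with h1 | h1
    · exact ⟨q, by simp, (min_eq_left h1).symm⟩
    · rw [min_eq_right h1] at h ⊢
      obtain ⟨p, hp, hp2⟩ := ih h
      exact ⟨p, by simp [hp], hp2⟩

private lemma HBF_abs {L B : ℝ} (hL : 0 < L) (h0 : 0 ≤ B) (h1 : B ≤ L / 2) :
    0 ≤ B / L ∧ B / L ≤ 1 / 2 := by
  refine ⟨by positivity, ?_⟩
  rw [div_le_iff₀ hL]
  linarith

private lemma HBF_form (q : ℝ × ℝ) {L B : ℝ} (hL : 0 < L) (h0 : 0 ≤ B) (h1 : B ≤ L / 2) :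
    Par.up q (Real.arcsin (B / L)) = q.2 * √(1 - (B / L) ^ 2) + q.1 * (B / L) := by
  obtain ⟨h2, h3⟩ := HBF_abs hL h0 h1
  unfold Par.up
  rw [Real.cos_arcsin, Real.sin_arcsin (by linarith) (by linarith)]

private lemma HBF_conc_sqrt {L : ℝ} (hL : 0 < L) :
    ConcaveOn ℝ (Icc 0 (L / 2)) fun B => √(1 - (B / L) ^ 2) := by
  have h1 : ConcaveOn ℝ (Icc 0 (L / 2)) fun B : ℝ => 1 - (B / L) ^ 2 := by
    refine ⟨convex_Icc _ _, ?_⟩
    intro x hx y hy a b ha hb hab
    simp only [smul_eq_mul]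
    have hb' : b = 1 - a := by linarith
    subst hb'
    have h2 : 0 ≤ a * (1 - a) * ((x / L - y / L) ^ 2) := by positivity
    have h3 : (a * x + (1 - a) * y) / L = a * (x / L) + (1 - a) * (y / L) := by ring
    rw [h3]
    nlinarith
  have h4 : ConcaveOn ℝ ((fun B : ℝ => 1 - (B / L) ^ 2) '' Icc 0 (L / 2)) Real.sqrt := by
    refine (Real.strictConcaveOn_sqrt.concaveOn).subset ?_ ?_
    · rintro _ ⟨B, hB, rfl⟩
      obtain ⟨h2, h3⟩ := HBF_abs hL hB.1 hB.2
      simp only [mem_Ici, sub_nonneg]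
      nlinarith
    · have hc : ContinuousOn (fun B : ℝ => 1 - (B / L) ^ 2) (Icc 0 (L / 2)) := by fun_prop
      have h5 : IsPreconnected ((fun B : ℝ => 1 - (B / L) ^ 2) '' Icc 0 (L / 2)) :=
        isPreconnected_Icc.image _ hc
      exact h5.ordConnected.convex
  exact h4.comp h1 fun x _ y _ hxy => Real.sqrt_le_sqrt hxy

private lemma HBF_conc_up (q : ℝ × ℝ) (hq : 0 < q.2) {L : ℝ} (hL : 0 < L) :
    ConcaveOn ℝ (Icc 0 (L / 2)) fun B => Par.up q (Real.arcsin (B / L)) := by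
  have h1 : ConcaveOn ℝ (Icc 0 (L / 2)) fun B => q.2 • √(1 - (B / L) ^ 2) :=
    (HBF_conc_sqrt hL).smul hq.le
  have h2 : ConcaveOn ℝ (Icc 0 (L / 2)) fun B : ℝ => q.1 * (B / L) := by
    refine ⟨convex_Icc _ _, ?_⟩
    intro x hx y hy a b ha hb hab
    simp only [smul_eq_mul]
    apply le_of_eq
    ring
  refine (h1.add h2).congr ?_
  intro B hB
  simp only [Pi.add_apply, smul_eq_mul]
  exact (HBF_form q hL hB.1 hB.2).symm

private lemma HBF_conc (P : Par) (L : ℝ) (hL : 0 < L) (A : List (ℝ × ℝ)) (hA : ∀ q ∈ A, 0 < q.2) :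
    ConcaveOn ℝ (Icc 0 (L / 2)) (hB P L A) := by
  induction A with
  | nil => exact concaveOn_const _ (convex_Icc _ _)
  | cons q A ih =>
    have h1 := (HBF_conc_up q (hA q (by simp)) hL).inf (ih fun p hp => hA p (by simp [hp]))
    exact h1

private lemma HBF_lip_up (q : ℝ × ℝ) {L : ℝ} (hL : 0 < L) {x y : ℝ} (hx : x ∈ Icc 0 (L / 2))
    (hy : y ∈ Icc 0 (L / 2)) :
    |Par.up q (Real.arcsin (x / L)) - Par.up q (Real.arcsin (y / L))| ≤
      (|q.2| + |q.1|) / L * |x - y| := by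
  rw [HBF_form q hL hx.1 hx.2, HBF_form q hL hy.1 hy.2]
  obtain ⟨h2, h3⟩ := HBF_abs hL hx.1 hx.2
  obtain ⟨h4, h5⟩ := HBF_abs hL hy.1 hy.2
  have h6 : |√(1 - (x / L) ^ 2) - √(1 - (y / L) ^ 2)| ≤ |x / L - y / L| := by
    have h7 : (1 : ℝ) / 2 ≤ √(1 - (x / L) ^ 2) := by
      apply Real.le_sqrt_of_sq_le
      nlinarith
    have h8 : (1 : ℝ) / 2 ≤ √(1 - (y / L) ^ 2) := by
      apply Real.le_sqrt_of_sq_le
      nlinarith
    have h9 : (√(1 - (x / L) ^ 2) - √(1 - (y / L) ^ 2)) * (√(1 - (x / L) ^ 2) + √(1 - (y / L) ^ 2)) =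
        (y / L - x / L) * (y / L + x / L) := by
      have e1 := Real.mul_self_sqrt (show 0 ≤ 1 - (x / L) ^ 2 by nlinarith)
      have e2 := Real.mul_self_sqrt (show 0 ≤ 1 - (y / L) ^ 2 by nlinarith)
      linear_combination e1 - e2
    have h10 := congrArg abs h9
    rw [abs_mul, abs_mul, abs_of_nonneg (show 0 ≤ √(1 - (x / L) ^ 2) + √(1 - (y / L) ^ 2) by
      linarith), abs_of_nonneg (show 0 ≤ y / L + x / L by linarith), abs_sub_comm (y / L)] at h10
    have h11 := abs_nonneg (√(1 - (x / L) ^ 2) - √(1 - (y / L) ^ 2))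
    have h12 := abs_nonneg (x / L - y / L)
    nlinarith
  have h13 : |x / L - y / L| = |x - y| / L := by
    rw [← sub_div, abs_div, abs_of_pos hL]
  calc |q.2 * √(1 - (x / L) ^ 2) + q.1 * (x / L) - (q.2 * √(1 - (y / L) ^ 2) + q.1 * (y / L))|
      = |q.2 * (√(1 - (x / L) ^ 2) - √(1 - (y / L) ^ 2)) + q.1 * (x / L - y / L)| := by
        congr 1
        ring
    _ ≤ |q.2 * (√(1 - (x / L) ^ 2) - √(1 - (y / L) ^ 2))| + |q.1 * (x / L - y / L)| :=
        abs_add_le _ _
    _ = |q.2| * |√(1 - (x / L) ^ 2) - √(1 - (y / L) ^ 2)| + |q.1| * |x / L - y / L| := by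
        rw [abs_mul, abs_mul]
    _ ≤ |q.2| * |x / L - y / L| + |q.1| * |x / L - y / L| := by
        have := mul_le_mul_of_nonneg_left h6 (abs_nonneg q.2)
        linarith
    _ = (|q.2| + |q.1|) / L * |x - y| := by
        rw [h13]
        ring

private lemma HBF_lip (P : Par) (L : ℝ) (hL : 0 < L) (A : List (ℝ × ℝ)) :
    ∃ K : ℝ, 0 ≤ K ∧ ∀ x ∈ Icc 0 (L / 2), ∀ y ∈ Icc 0 (L / 2),
      |hB P L A x - hB P L A y| ≤ K * |x - y| := by
  induction A with
  | nil =>
    refine ⟨0, le_refl _, ?_⟩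
    intro x _ y _
    simp [HBF_nil]
  | cons q A ih =>
    obtain ⟨K, hK, h⟩ := ih
    refine ⟨max ((|q.2| + |q.1|) / L) K, hK.trans (le_max_right _ _), ?_⟩
    intro x hx y hy
    rw [HBF_cons, HBF_cons]
    refine (abs_min_sub_min_le_max _ _ _ _).trans ?_
    refine max_le ?_ ?_
    · exact (HBF_lip_up q hL hx hy).trans
        (mul_le_mul_of_nonneg_right (le_max_left _ _) (abs_nonneg _))
    · exact (h x hx y hy).trans (mul_le_mul_of_nonneg_right (le_max_right _ _) (abs_nonneg _))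

private lemma HBF_der (q : ℝ × ℝ) {L B : ℝ} (hL : 0 < L) (h0 : 0 < B) (h1 : B < L / 2) :
    HasDerivAt (fun B => Par.up q (Real.arcsin (B / L)))
      ((q.1 * Real.cos (Real.arcsin (B / L)) - q.2 * Real.sin (Real.arcsin (B / L))) /
        (L * Real.cos (Real.arcsin (B / L)))) B := by
  obtain ⟨h2, h3⟩ := HBF_abs hL h0.le h1.le
  have h4 : HasDerivAt (fun B : ℝ => B / L) (1 / L) B := (hasDerivAt_id B).div_const L
  have h5 : HasDerivAt Real.arcsin (1 / √(1 - (B / L) ^ 2)) (B / L) :=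
    Real.hasDerivAt_arcsin (by linarith) (by linarith)
  have h6 : HasDerivAt (fun B : ℝ => Real.arcsin (B / L)) (1 / √(1 - (B / L) ^ 2) * (1 / L)) B :=
    HasDerivAt.comp (h₂ := Real.arcsin) B h5 h4
  have h7 := ((h6.cos).const_mul q.2).add ((h6.sin).const_mul q.1)
  have hc : Real.cos (Real.arcsin (B / L)) = √(1 - (B / L) ^ 2) := Real.cos_arcsin _
  have hc0 : 0 < √(1 - (B / L) ^ 2) := Real.sqrt_pos.mpr (by nlinarith)
  refine h7.congr_deriv ?_
  rw [hc]
  field_simp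
  ring

theorem p_HBF : Sp_HBF := by
  intro P L A hL hA
  have hr := P.r0
  have hL0 : 0 < L := by linarith
  refine ⟨HBF_conc P L hL0 A hA, ?_, HBF_pos P L A hA, HBF_le_r P L A, HBF_ex P L A, ?_, ?_⟩
  · obtain ⟨K, hK, h⟩ := HBF_lip P L hL0 A
    refine ⟨⟨K, hK⟩, LipschitzOnWith.of_dist_le_mul fun x hx y hy => ?_⟩
    rw [Real.dist_eq, Real.dist_eq]
    exact h x hx y hy
  · intro q hq h B hB
    have h1 := HBF_le P L A B q hq
    rw [HBF_form q hL0 hB.1 hB.2] at h1
    have h2 : √(1 - (B / L) ^ 2) ≤ 1 := by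
      rw [Real.sqrt_le_one]
      have := sq_nonneg (B / L)
      linarith
    have h3 := mul_le_mul_of_nonneg_left h2 (hA q hq).le
    rw [← h]
    have h4 : q.1 / L * B = q.1 * (B / L) := by ring
    rw [h4]
    linarith
  · intro B h0 h1 hd
    have hh := hd.hasDerivAt
    refine ⟨fun hr => ?_, fun q hq he => ?_⟩
    · have h2 : IsLocalMin (fun z => P.r - hB P L A z) B := by
        apply Filter.Eventually.of_forall
        intro z
        simp only [hr, sub_self]
        have := HBF_le_r P L A z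
        linarith
      have h3 := h2.hasDerivAt_eq_zero (hh.const_sub P.r)
      linarith
    · have h2 : IsLocalMin (fun z => Par.up q (Real.arcsin (z / L)) - hB P L A z) B := by
        apply Filter.Eventually.of_forall
        intro z
        simp only [he, sub_self]
        have := HBF_le P L A z q hq
        linarith
      have h3 := h2.hasDerivAt_eq_zero ((HBF_der q hL0 h0 h1).sub hh)
      obtain ⟨h4, h5⟩ := HBF_abs hL0 h0.le h1.le
      have hc : Real.cos (Real.arcsin (B / L)) = √(1 - (B / L) ^ 2) := Real.cos_arcsin _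
      have hc0 : 0 < Real.cos (Real.arcsin (B / L)) := by
        rw [hc]
        exact Real.sqrt_pos.mpr (by nlinarith)
      have h6 : deriv (hB P L A) B = (q.1 * Real.cos (Real.arcsin (B / L)) -
          q.2 * Real.sin (Real.arcsin (B / L))) / (L * Real.cos (Real.arcsin (B / L))) := by
        linarith
      rw [h6]
      field_simp

end Pool.Agent.FAN4
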