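import Pool.Agent.FAN4.P_VIN

/-!
# FAN4, block PATH: integrability
-/

set_option autoImplicit false

open MeasureTheory Set Filter Topology

namespace Pool.Agent.FAN4

open scoped NNReal

/-- the slopes of a path are between `0` and `1` -/
theorem INB_der {a : ℝ → ℝ} {B₁ z : ℝ} (hm : MonotoneOn a (Icc 0 B₁))
    (hl : LipschitzOnWith 1 a (Icc 0 B₁)) (hz : z ∈ Ioo 0 B₁) : 0 ≤ deriv a z ∧ deriv a z ≤ 1 := by
  have hn : Icc 0 B₁ ∈ 𝓝 z := Icc_mem_nhds hz.1 hz.2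
  constructor
  · rw [← derivWithin_of_mem_nhds hn]
    exact hm.derivWithin_nonneg
  · have := norm_deriv_le_of_lipschitzOn hn hl
    rw [Real.norm_eq_abs] at this
    exact (le_abs_self _).trans (by simpa using this)

theorem p_INB (hF : Sp_FFF) (hO : Sp_OMG) (hPA : Sp_PAR) : Sp_INB := by
  intro P L B₁ a c h
  obtain ⟨hr0, hr1, hpe, hk0, hk1, hk2, -⟩ := hPA P
  obtain ⟨hz0, hz1, hB1, hbd⟩ := VIN_bd h
  set z₀ := min (a 0) (c 0) with hz₀
  have hrp := P.r0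
  have hL := h.hL
  obtain ⟨ho1, ho2, ho3, ho4, ho5, ho6⟩ := hO P L hL
  obtain ⟨hf0, hfr, hfe, hfa, hfc, hf6, hf7, hf8, hf9, hf10⟩ := hF P
  have hsub : Ioo 0 B₁ ⊆ Icc 0 B₁ := Ioo_subset_Icc_self
  have habs : ∀ z ∈ Icc 0 B₁, |z| < L := fun z hz => by
    rw [abs_of_nonneg hz.1]; linarith [hz.2]
  have omc : ContinuousOn (P.om L) (Icc 0 B₁) := fun z hz =>
    (ho3 z (habs z hz)).1.continuousAt.continuousWithinAt
  obtain ⟨C, hC⟩ := isCompact_Icc.exists_bound_of_continuousOn omc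
  have hC0 : 0 ≤ C := (norm_nonneg _).trans (hC 0 ⟨le_rfl, h.pos.le⟩)
  set D := P.f z₀ with hD
  have hD0 : 0 ≤ D := hf0 z₀
  have hfb : ∀ u, z₀ ≤ u → 0 ≤ P.f u ∧ P.f u ≤ D := fun u hu =>
    ⟨hf0 u, hfa (mem_Ioi.2 hz0) (mem_Ioi.2 (hz0.trans_le hu)) hu⟩
  -- measurability
  set μ : Measure ℝ := volume.restrict (Ioo 0 B₁) with hμ
  have mc : ∀ {g : ℝ → ℝ}, ContinuousOn g (Ioo 0 B₁) → AEMeasurable g μ := fun hg =>
    hg.aemeasurable measurableSet_Ioo
  have ca : ContinuousOn a (Ioo 0 B₁) := h.al.continuousOn.mono hsub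
  have cc : ContinuousOn c (Ioo 0 B₁) := h.cl.continuousOn.mono hsub
  have cS : ContinuousOn (fun z => a z + c z - z) (Ioo 0 B₁) := (ca.add cc).sub continuousOn_id
  have cfa : ContinuousOn (fun z => P.f (a z)) (Ioo 0 B₁) :=
    hfc.comp ca fun z hz => hz0.trans_le (hbd z (hsub hz)).1
  have cfc : ContinuousOn (fun z => P.f (c z)) (Ioo 0 B₁) :=
    hfc.comp cc fun z hz => hz0.trans_le (hbd z (hsub hz)).2.2.1
  have cfS : ContinuousOn (fun z => P.f (a z + c z - z)) (Ioo 0 B₁) :=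
    hfc.comp cS fun z hz => hz0.trans_le (hbd z (hsub hz)).2.2.2.2.2.2.1
  have cfB : ContinuousOn (fun z => P.f z) (Ioo 0 B₁) := hfc.mono fun z hz => hz.1
  have ms : AEMeasurable (fun z => deriv a z ^ P.ρ) μ :=
    ((measurable_deriv a).pow_const P.ρ).aemeasurable
  have ms' : AEMeasurable (fun z => (1 - deriv a z) ^ P.ρ) μ :=
    (((measurable_const.sub (measurable_deriv a))).pow_const P.ρ).aemeasurable
  have mt : AEMeasurable (fun z => deriv c z ^ P.ρ) μ :=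
    ((measurable_deriv c).pow_const P.ρ).aemeasurable
  have mt' : AEMeasurable (fun z => (1 - deriv c z) ^ P.ρ) μ :=
    (((measurable_const.sub (measurable_deriv c))).pow_const P.ρ).aemeasurable
  have mI : AEMeasurable (fun B => P.om L B * P.I (a B) (c B) B (deriv a B) (deriv c B)) μ := by
    unfold Par.I
    have m0 := mc (omc.mono hsub)
    have mB : AEMeasurable (fun z : ℝ => z) μ := measurable_id.aemeasurable
    have m1 := mc ca
    have m2 := mc cc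
    have m3 := mc cfa
    have m4 := mc cfc
    have m5 := mc cfS
    have m6 := mc cfB
    exact m0.mul (((((mB.const_mul 2).mul (m6.sub m5))).sub
      ((m3.sub m5).mul (((ms.mul m1).add (ms'.mul (m1.sub mB))).add mB))).sub
      ((m4.sub m5).mul (((mt.mul m2).add (mt'.mul (m2.sub mB))).add mB)))
  rw [intervalIntegrable_iff_integrableOn_Ioo_of_le h.pos.le]
  have hfin : IsFiniteMeasure μ := by
    constructor
    rw [hμ, Measure.restrict_apply_univ, Real.volume_Ioo]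
    exact ENNReal.ofReal_lt_top
  refine Integrable.of_bound (μ := μ) mI.aestronglyMeasurable
    (C := C * (2 * B₁ ^ P.e + 2 * B₁ * D + D * (2 * P.r) + D * (2 * P.r))) ?_
  refine (ae_restrict_iff' measurableSet_Ioo).2 (Eventually.of_forall fun z hz => ?_)
  have hzI := hsub hz
  obtain ⟨g1, g2, g3, g4, g5, g6, g7, g8⟩ := hbd z hzI
  obtain ⟨s0, s1⟩ := INB_der h.am h.al hz
  obtain ⟨t0, t1⟩ := INB_der h.cm h.cl hz
  have fa := hfb _ g1
  have fc := hfb _ g3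
  have fS := hfb _ g7
  have hzz : z * P.f z ≤ B₁ ^ P.e :=
    (hf10 z hz.1).trans (Real.rpow_le_rpow hz.1.le hz.2.le P.e0.le)
  have hz3 : 0 ≤ z * P.f z := mul_nonneg hz.1.le (hf0 z)
  have key : ∀ x s : ℝ, z ≤ x → x ≤ P.r → 0 ≤ s → s ≤ 1 →
      |s ^ P.ρ * x + (1 - s) ^ P.ρ * (x - z) + z| ≤ 2 * P.r := fun x s hx hx' hs hs' => by
    have p1 : 0 ≤ s ^ P.ρ := Real.rpow_nonneg hs _
    have p2 : s ^ P.ρ ≤ 1 := Real.rpow_le_one hs hs' hr0.le
    have p3 : 0 ≤ (1 - s) ^ P.ρ := Real.rpow_nonneg (by linarith) _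
    have p4 : (1 - s) ^ P.ρ ≤ 1 := Real.rpow_le_one (by linarith) (by linarith) hr0.le
    have q1 : 0 ≤ s ^ P.ρ * x := mul_nonneg p1 (by linarith [hz.1])
    have q2 : s ^ P.ρ * x ≤ x := mul_le_of_le_one_left (by linarith [hz.1]) p2
    have q3 : 0 ≤ (1 - s) ^ P.ρ * (x - z) := mul_nonneg p3 (by linarith)
    have q4 : (1 - s) ^ P.ρ * (x - z) ≤ x - z := mul_le_of_le_one_left (by linarith) p4
    rw [abs_of_nonneg (by linarith [hz.1])]
    linarith
  have k1 := key (a z) (deriv a z) g5 g2 s0 s1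
  have k2 := key (c z) (deriv c z) g6 g4 t0 t1
  have u1 : |P.f (a z) - P.f (a z + c z - z)| ≤ D := by
    rw [abs_le]; constructor <;> linarith [fa.1, fa.2, fS.1, fS.2]
  have u2 : |P.f (c z) - P.f (a z + c z - z)| ≤ D := by
    rw [abs_le]; constructor <;> linarith [fc.1, fc.2, fS.1, fS.2]
  have u3 : |2 * z * (P.f z - P.f (a z + c z - z))| ≤ 2 * B₁ ^ P.e + 2 * B₁ * D := by
    have v1 : 0 ≤ z * P.f (a z + c z - z) := mul_nonneg hz.1.le fS.1
    have v2 : z * P.f (a z + c z - z) ≤ B₁ * D :=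
      mul_le_mul hz.2.le fS.2 fS.1 h.pos.le
    have v3 : 2 * z * (P.f z - P.f (a z + c z - z)) =
        2 * (z * P.f z) - 2 * (z * P.f (a z + c z - z)) := by ring
    rw [v3, abs_le]
    have v4 : 0 ≤ B₁ ^ P.e := Real.rpow_nonneg h.pos.le _
    constructor <;> nlinarith
  rw [norm_mul, Real.norm_eq_abs (P.I _ _ _ _ _)]
  refine mul_le_mul (hC z hzI) ?_ (abs_nonneg _) hC0
  unfold Par.I
  refine (abs_sub _ _).trans (add_le_add ((abs_sub _ _).trans (add_le_add u3 ?_)) ?_)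
  · rw [abs_mul]
    exact mul_le_mul u1 k1 (abs_nonneg _) hD0
  · rw [abs_mul]
    exact mul_le_mul u2 k2 (abs_nonneg _) hD0

end Pool.Agent.FAN4
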