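import Pool.Agent.FAN4.StP

/-!
# FAN4, block PATH, module KEY: the pointwise inequality along a path
-/

set_option autoImplicit false

open MeasureTheory Set

open scoped NNReal Topology

namespace Pool.Agent.FAN4

/-- a Lipschitz function on `[0, B₁]` is differentiable at almost all interior points -/
lemma KEY_diff {f : ℝ → ℝ} {B₁ : ℝ} {K : ℝ≥0} (h : LipschitzOnWith K f (Icc 0 B₁)) :
    ∀ᵐ B ∂(volume.restrict (Ioo 0 B₁)), DifferentiableAt ℝ f B := by
  rw [ae_restrict_iff' measurableSet_Ioo]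
  filter_upwards [h.ae_differentiableWithinAt_of_mem_real] with B h1 hB
  exact (h1 (Ioo_subset_Icc_self hB)).differentiableAt (Icc_mem_nhds hB.1 hB.2)

lemma KEY_deriv_nonneg {f : ℝ → ℝ} {B₁ B : ℝ} (h : MonotoneOn f (Icc 0 B₁)) (hB : B ∈ Ioo 0 B₁) :
    0 ≤ deriv f B := by
  have h1 := h.derivWithin_nonneg (x := B)
  rwa [derivWithin_of_mem_nhds (Icc_mem_nhds hB.1 hB.2)] at h1

lemma KEY_deriv_le {f : ℝ → ℝ} {B₁ B : ℝ} (h : LipschitzOnWith 1 f (Icc 0 B₁))
    (hB : B ∈ Ioo 0 B₁) : deriv f B ≤ 1 := by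
  have h1 := norm_deriv_le_of_lipschitzOn (Icc_mem_nhds hB.1 hB.2) h
  rw [Real.norm_eq_abs] at h1
  exact (le_abs_self _).trans (by simpa using h1)

lemma KEY_lip_min {a c : ℝ → ℝ} {s : Set ℝ} (ha : LipschitzOnWith 1 a s)
    (hc : LipschitzOnWith 1 c s) : LipschitzOnWith 1 (fun z => min (a z) (c z)) s := by
  apply LipschitzOnWith.of_dist_le_mul
  intro x hx y hy
  have h1 := ha.dist_le_mul x hx y hy
  have h2 := hc.dist_le_mul x hx y hy
  rw [Real.dist_eq] at h1 h2 ⊢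
  exact (abs_min_sub_min_le_max _ _ _ _).trans (max_le h1 h2)

lemma KEY_lip_S {a c : ℝ → ℝ} {s : Set ℝ} (ha : LipschitzOnWith 1 a s)
    (hc : LipschitzOnWith 1 c s) : LipschitzOnWith 3 (fun z => a z + c z - z) s := by
  apply LipschitzOnWith.of_dist_le_mul
  intro x hx y hy
  have h1 := ha.dist_le_mul x hx y hy
  have h2 := hc.dist_le_mul x hx y hy
  rw [Real.dist_eq] at h1 h2 ⊢
  rw [Real.dist_eq] at h1 h2 ⊢
  have h3 : a x + c x - x - (a y + c y - y) = (a x - a y) + (c x - c y) + -(x - y) := by ring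
  rw [h3]
  have h4 := abs_add_three (a x - a y) (c x - c y) (-(x - y))
  rw [abs_neg] at h4
  push_cast at h1 h2 ⊢
  linarith

/-- before the end the heights are larger than `B` -/
lemma KEY_lt {P : Par} {L B₁ : ℝ} {a c : ℝ → ℝ} (h : Path P L B₁ a c) {B : ℝ}
    (hB : B ∈ Ioo 0 B₁) : B < a B ∧ B < c B := by
  have key : ∀ f : ℝ → ℝ, ConcaveOn ℝ (Icc 0 B₁) f → 0 < f 0 → B₁ ≤ f B₁ → B < f B := by
    intro f hf hf0 hf1
    have hp := h.pos
    set θ := B / B₁ with hθ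
    have h0 : 0 < θ := div_pos hB.1 hp
    have h1 : θ < 1 := (div_lt_one hp).2 hB.2
    have m0 : (0 : ℝ) ∈ Icc 0 B₁ := ⟨le_refl _, hp.le⟩
    have m1 : B₁ ∈ Icc 0 B₁ := ⟨hp.le, le_refl _⟩
    have n0 : (0 : ℝ) ≤ 1 - θ := by linarith
    have h2 := hf.2 m0 m1 n0 h0.le (by ring)
    have h3 : (1 - θ) • (0 : ℝ) + θ • B₁ = B := by
      simp only [smul_eq_mul]
      rw [hθ]
      field_simp
      ring
    rw [h3] at h2
    simp only [smul_eq_mul] at h2
    have h4 : θ * B₁ = B := by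
      rw [hθ]
      field_simp
    have h5 : θ * B₁ ≤ θ * f B₁ := mul_le_mul_of_nonneg_left hf1 h0.le
    have h6 : 0 < (1 - θ) * f 0 := mul_pos (by linarith) hf0
    linarith
  have hp := h.pos
  exact ⟨key a h.aconc h.a0 (h.aB B₁ ⟨hp.le, le_refl _⟩).1,
    key c h.cconc h.c0 (h.cB B₁ ⟨hp.le, le_refl _⟩).1⟩

theorem p_KEY (hPAR : Sp_PAR) (hFFF : Sp_FFF) (hOMG : Sp_OMG) (hPIN : Sp_PIN) (hSHP : Sp_SHP)
    (hMDR : Sp_MDR) : Sp_KEY := by
  intro P L B₁ a c h
  obtain ⟨-, -, hρe, hk, -, -, -⟩ := hPAR P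
  obtain ⟨-, -, -, -, -, -, -, -, hlipf, -⟩ := hFFF P
  obtain ⟨hom, -, -, -, -, -⟩ := hOMG P L h.hL
  have hr := P.r0
  -- the function `f (S)`
  obtain ⟨K, hK⟩ := hlipf (a 0) h.a0
  have hmaps : MapsTo (fun z => a z + c z - z) (Icc 0 B₁) (Ici (a 0)) := by
    intro z hz
    have h1 := h.am ⟨le_refl _, h.pos.le⟩ hz hz.1
    have h2 := (h.cB z hz).1
    show a 0 ≤ a z + c z - z
    linarith
  have hlipS : LipschitzOnWith (K * 3) (fun z => P.f (a z + c z - z)) (Icc 0 B₁) :=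
    hK.comp (KEY_lip_S h.al h.cl) hmaps
  have hlipm := KEY_lip_min h.al h.cl
  filter_upwards [KEY_diff h.al, KEY_diff h.cl, KEY_diff hlipm, KEY_diff hlipS,
    ae_restrict_mem measurableSet_Ioo] with B hda hdc hdm hdS hB
  obtain ⟨haB, hcB⟩ := KEY_lt h hB
  have hBI := Ioo_subset_Icc_self hB
  have har := (h.aB B hBI).2
  have hcr := (h.cB B hBI).2
  have hs0 := KEY_deriv_nonneg h.am hB
  have hs1 := KEY_deriv_le h.al hB
  have ht0 := KEY_deriv_nonneg h.cm hB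
  have ht1 := KEY_deriv_le h.cl hB
  have hB0 := hB.1
  have ha := hda.hasDerivAt
  have hc := hdc.hasDerivAt
  have hm := hdm.hasDerivAt
  have hS := hdS.hasDerivAt
  have e1 := hMDR P L a c B _ _ _ _ h.hL hB0 haB har hcB hcr ha hc hm hS
  have hm' : HasDerivAt (fun z => min (c z) (a z)) (deriv (fun z => min (a z) (c z)) B) B := by
    have : (fun z => min (c z) (a z)) = fun z => min (a z) (c z) := by
      funext z
      exact min_comm _ _
    rw [this]
    exact hm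
  have hS' : HasDerivAt (fun z => P.f (c z + a z - z))
      (deriv (fun z => P.f (a z + c z - z)) B) B := by
    have : (fun z => P.f (c z + a z - z)) = fun z => P.f (a z + c z - z) := by
      funext z
      rw [add_comm (c z)]
    rw [this]
    exact hS
  have e2 := hMDR P L c a B _ _ _ _ h.hL hB0 hcB hcr haB har hc ha hm' hS'
  rw [e1.deriv, e2.deriv]
  set s := deriv a B with hs
  set t := deriv c B with ht
  have hGa : P.Ga L (c B) (a B) B = P.Ga L (a B) (c B) B := by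
    unfold Par.Ga
    rw [min_comm]
  have hSc : c B + a B - B = a B + c B - B := by ring
  rw [hGa, hSc]
  have e3 := hSHP P L (a B) (c B) B (2 * s - 1) (2 * t - 1) h.hL hB0.le (by linarith) (by linarith)
    haB.le har hcB.le hcr
  have e4 := hPIN P (a B) (c B) B s t hB0 haB.le har hcB.le hcr hs0 hs1 ht0 ht1
  have hBL : |B| < L := by
    rw [abs_of_pos hB0]
    have := h.hL
    linarith
  have hω := hom B hBL
  have hkk : 0 ≤ P.k * (P.ρ - P.e) := mul_nonneg hk.le (by linarith)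
  have hg : P.g L B = B * P.om L B := rfl
  rw [hg]
  set ω := P.om L B with hωd
  set Fa := P.f (a B) - P.f (a B + c B - B) with hFa
  set Fc := P.f (c B) - P.f (a B + c B - B) with hFc
  set l := P.lam (a B + c B - B) with hl
  set Γ := P.Ga L (a B) (c B) B with hΓ
  set b1 := P.be L (a B) (c B) B with hb1
  set b2 := P.be L (c B) (a B) B with hb2
  have e5 : (2 * s - 1) * (-(B * ω * Fa) + (2 * s - 1) * b1 + l * (s + t - 1) * Γ) +
      (2 * t - 1) * (-(B * ω * Fc) + (2 * t - 1) * b2 + l * (t + s - 1) * Γ) ≤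
      ω * (-(B * (Fa * (2 * s - 1) + Fc * (2 * t - 1))) +
        Fa * (2 * a B - B) * (2 * s - 1) ^ 2 + Fc * (2 * c B - B) * (2 * t - 1) ^ 2) := by
    have e6 : (2 * s - 1) * (-(B * ω * Fa) + (2 * s - 1) * b1 + l * (s + t - 1) * Γ) +
      (2 * t - 1) * (-(B * ω * Fc) + (2 * t - 1) * b2 + l * (t + s - 1) * Γ) =
      -(ω * (B * (Fa * (2 * s - 1) + Fc * (2 * t - 1)))) + ((2 * s - 1) ^ 2 * b1 +
        (2 * t - 1) ^ 2 * b2 + l * Γ / 2 * ((2 * s - 1) + (2 * t - 1)) ^ 2) := by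
      ring
    rw [e6]
    have e7 : ω * (-(B * (Fa * (2 * s - 1) + Fc * (2 * t - 1))) +
        Fa * (2 * a B - B) * (2 * s - 1) ^ 2 + Fc * (2 * c B - B) * (2 * t - 1) ^ 2) =
        -(ω * (B * (Fa * (2 * s - 1) + Fc * (2 * t - 1)))) +
        ω * (Fa * (2 * a B - B) * (2 * s - 1) ^ 2 + Fc * (2 * c B - B) * (2 * t - 1) ^ 2) := by
      ring
    rw [e7]
    linarith
  calc P.k * (P.ρ - P.e) *
      ((2 * s - 1) * (-(B * ω * Fa) + (2 * s - 1) * b1 + l * (s + t - 1) * Γ) +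
      (2 * t - 1) * (-(B * ω * Fc) + (2 * t - 1) * b2 + l * (t + s - 1) * Γ))
      ≤ P.k * (P.ρ - P.e) * (ω * (-(B * (Fa * (2 * s - 1) + Fc * (2 * t - 1))) +
        Fa * (2 * a B - B) * (2 * s - 1) ^ 2 + Fc * (2 * c B - B) * (2 * t - 1) ^ 2)) :=
        mul_le_mul_of_nonneg_left e5 hkk
    _ = ω * (P.k * (P.ρ - P.e) * (-(B * (Fa * (2 * s - 1) + Fc * (2 * t - 1))) +
        Fa * (2 * a B - B) * (2 * s - 1) ^ 2 + Fc * (2 * c B - B) * (2 * t - 1) ^ 2)) := by ring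
    _ ≤ ω * (P.I (a B) (c B) B s t + P.dV (a B) (c B) B s t) :=
        mul_le_mul_of_nonneg_left e4 hω.le
    _ = ω * P.I (a B) (c B) B s t + ω * P.dV (a B) (c B) B s t := by ring

end Pool.Agent.FAN4
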