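import Pool.Agent.FAN4.StP

/-!
# FAN4, block PATH: the derivative of `M` along a path
-/

set_option autoImplicit false

open MeasureTheory Set Filter Topology
open scoped Interval

namespace Pool.Agent.FAN4

section

variable {g dg G f : ℝ → ℝ} {L : ℝ}

/-- derivative of an integral with respect to its upper end, the integrand depending on the
parameter continuously -/
theorem MDR_end {φ : ℝ → ℝ → ℝ} {U : ℝ → ℝ} {B x U' : ℝ} (hU : HasDerivAt U U' B) (hx : U B = x)
    (hc : ContinuousAt (fun p : ℝ × ℝ => φ p.1 p.2) (B, x))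
    (hi : ∀ᶠ z in 𝓝 B, IntervalIntegrable (φ z) volume x (U z)) :
    HasDerivAt (fun z => ∫ u in x..U z, φ z u) (φ B x * U') B := by
  have h2 : (fun z => U z - x) =O[𝓝 B] fun z => z - B := by
    have := hU.isBigO_sub
    rwa [hx] at this
  have h1 : (fun z => ∫ u in x..U z, (φ z u - φ B x)) =o[𝓝 B] fun z => U z - x := by
    rw [Asymptotics.isLittleO_iff]
    intro ε hε
    obtain ⟨δ, hδ, hd⟩ := Metric.continuousAt_iff.1 hc ε hε
    have e1 : ∀ᶠ z in 𝓝 B, dist z B < δ := Metric.ball_mem_nhds B hδ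
    have e2 : ∀ᶠ z in 𝓝 B, dist (U z) x < δ := by
      have := hU.continuousAt.eventually (Metric.ball_mem_nhds (U B) hδ)
      rwa [hx] at this
    filter_upwards [e1, e2] with z hz hUz
    refine (intervalIntegral.norm_integral_le_of_norm_le_const fun u hu => ?_)
    have h3 : dist u x < δ := by
      refine lt_of_le_of_lt ?_ hUz
      rw [Real.dist_eq, Real.dist_eq]
      rcases mem_uIoc.1 hu with h | h
      · rw [abs_of_nonneg (by linarith [h.1]), abs_of_nonneg (by linarith [h.1, h.2])]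
        linarith [h.2]
      · rw [abs_of_nonpos (by linarith [h.2]), abs_of_nonpos (by linarith [h.1, h.2])]
        linarith [h.1]
    have h4 := @hd (z, u) (by rw [Prod.dist_eq]; exact max_lt hz h3)
    rw [Real.dist_eq] at h4
    exact h4.le
  have h3 : HasDerivAt (fun z => ∫ u in x..U z, (φ z u - φ B x)) 0 B := by
    rw [hasDerivAt_iff_isLittleO]
    have e : (fun z => (∫ u in x..U z, (φ z u - φ B x)) - (∫ u in x..U B, (φ B u - φ B x)) -
        (z - B) • (0 : ℝ)) = fun z => ∫ u in x..U z, (φ z u - φ B x) := by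
      funext z
      rw [hx, intervalIntegral.integral_same]
      simp
    rw [e]
    exact h1.trans_isBigO h2
  have h4 : HasDerivAt (fun z => φ B x * (U z - x)) (φ B x * U') B := (hU.sub_const x).const_mul _
  have h5 := h3.add h4
  rw [zero_add] at h5
  refine h5.congr_of_eventuallyEq ?_
  filter_upwards [hi] with z hz
  simp only [Pi.add_apply]
  rw [intervalIntegral.integral_sub hz intervalIntegrable_const, intervalIntegral.integral_const,
    smul_eq_mul]
  ring

theorem MDR_cont (hg : ∀ v, 0 < v → v < L → HasDerivAt g (dg v) v) (hf : ContinuousOn f (Ioi 0))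
    {α β κ : ℝ} (h : ∀ u ∈ Icc α β, 0 < u ∧ 0 < 2 * u - κ ∧ 2 * u - κ < L) :
    ContinuousOn (fun u => g (2 * u - κ) * f u) (Icc α β) ∧
      ContinuousOn (fun u => g (2 * u - κ)) (Icc α β) := by
  have h1 : ContinuousOn (fun u => g (2 * u - κ)) (Icc α β) := by
    intro u hu
    obtain ⟨_, h2, h3⟩ := h u hu
    have h4 : ContinuousAt g (2 * u - κ) := (hg _ h2 h3).continuousAt
    have h5 : ContinuousAt (fun u : ℝ => 2 * u - κ) u := by fun_prop
    exact (ContinuousAt.comp (f := fun u : ℝ => 2 * u - κ) h4 h5).continuousWithinAt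
  exact ⟨h1.mul (hf.mono fun u hu => (h u hu).1), h1⟩

theorem MDR_contd (hdg : ∀ v, 0 < v → v < L → ContinuousAt dg v) {α β κ : ℝ}
    (h : ∀ u ∈ Icc α β, 0 < u ∧ 0 < 2 * u - κ ∧ 2 * u - κ < L) :
    ContinuousOn (fun u => dg (2 * u - κ)) (Icc α β) := by
  intro u hu
  obtain ⟨_, h2, h3⟩ := h u hu
  have h5 : ContinuousAt (fun u : ℝ => 2 * u - κ) u := by fun_prop
  exact (ContinuousAt.comp (f := fun u : ℝ => 2 * u - κ) (hdg _ h2 h3) h5).continuousWithinAt

/-- derivative with respect to the parameter -/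
theorem MDR_par (hg : ∀ v, 0 < v → v < L → HasDerivAt g (dg v) v)
    (hdg : ∀ v, 0 < v → v < L → ContinuousAt dg v) (hf : ContinuousOn f (Ioi 0))
    {p q κ₀ δ : ℝ} (hδ : 0 < δ) (hpq : p ≤ q) (hp : 0 < p)
    (h : ∀ u ∈ Icc p q, ∀ κ, |κ - κ₀| ≤ δ → 0 < 2 * u - κ ∧ 2 * u - κ < L) :
    HasDerivAt (fun κ => ∫ u in p..q, g (2 * u - κ) * f u)
      (∫ u in p..q, -(dg (2 * u - κ₀) * f u)) κ₀ := by
  have h' : ∀ κ, |κ - κ₀| ≤ δ → ∀ u ∈ Icc p q, 0 < u ∧ 0 < 2 * u - κ ∧ 2 * u - κ < L :=
    fun κ hκ u hu => ⟨lt_of_lt_of_le hp hu.1, h u hu κ hκ⟩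
  have hint : ∀ κ, |κ - κ₀| ≤ δ →
      IntervalIntegrable (fun u => g (2 * u - κ) * f u) volume p q := by
    intro κ hκ
    refine ContinuousOn.intervalIntegrable ?_
    rw [uIcc_of_le hpq]
    exact (MDR_cont hg hf (h' κ hκ)).1
  -- a compact set containing all arguments
  set v0 : ℝ := 2 * p - κ₀ - δ with hv0
  set v1 : ℝ := 2 * q - κ₀ + δ with hv1
  have hv0p : 0 < v0 := by
    have := (h p ⟨le_rfl, hpq⟩ (κ₀ + δ) (by rw [add_sub_cancel_left, abs_of_pos hδ])).1
    linarith
  have hv1L : v1 < L := by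
    have := (h q ⟨hpq, le_rfl⟩ (κ₀ - δ) (by
      rw [show κ₀ - δ - κ₀ = -δ by ring, abs_neg, abs_of_pos hδ])).2
    linarith
  have hdc : ContinuousOn dg (Icc v0 v1) := fun v hv =>
    (hdg v (lt_of_lt_of_le hv0p hv.1) (lt_of_le_of_lt hv.2 hv1L)).continuousWithinAt
  obtain ⟨K, hK⟩ := isCompact_Icc.exists_bound_of_continuousOn hdc
  obtain ⟨K', hK'⟩ := isCompact_Icc.exists_bound_of_continuousOn
    (hf.mono fun u (hu : u ∈ Icc p q) => lt_of_lt_of_le hp hu.1)
  have hcl : ∀ κ ∈ Metric.ball κ₀ δ, |κ - κ₀| ≤ δ := fun κ hκ => by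
    rw [Metric.mem_ball, Real.dist_eq] at hκ
    exact hκ.le
  have hsub : Ι p q ⊆ Icc p q := by
    rw [uIoc_of_le hpq]
    exact Ioc_subset_Icc_self
  refine (intervalIntegral.hasDerivAt_integral_of_dominated_loc_of_deriv_le
    (F := fun κ u => g (2 * u - κ) * f u) (F' := fun κ u => -(dg (2 * u - κ) * f u))
    (bound := fun _ => K * K') (Metric.ball_mem_nhds κ₀ hδ) ?_ ?_ ?_ ?_ ?_ ?_).2
  · filter_upwards [Metric.ball_mem_nhds κ₀ hδ] with κ hκ
    exact (intervalIntegrable_iff.1 (hint κ (hcl κ hκ))).aestronglyMeasurable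
  · exact hint κ₀ (by simpa using hδ.le)
  · have h0 : |κ₀ - κ₀| ≤ δ := by simpa using hδ.le
    have h1 : ContinuousOn (fun u => -(dg (2 * u - κ₀) * f u)) (Icc p q) :=
      ((MDR_contd hdg (h' κ₀ h0)).mul (hf.mono fun u hu => lt_of_lt_of_le hp hu.1)).neg
    have h2 : IntervalIntegrable (fun u => -(dg (2 * u - κ₀) * f u)) volume p q :=
      ContinuousOn.intervalIntegrable (by rwa [uIcc_of_le hpq])
    exact (intervalIntegrable_iff.1 h2).aestronglyMeasurable
  · refine Eventually.of_forall fun u hu κ hκ => ?_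
    have hu' := hsub hu
    have hκ' := abs_le.1 (hcl κ hκ)
    rw [norm_neg, norm_mul]
    refine mul_le_mul (hK _ ?_) (hK' _ hu') (norm_nonneg _) ?_
    · exact ⟨by linarith [hu'.1], by linarith [hu'.2]⟩
    · exact (norm_nonneg _).trans (hK v0 ⟨le_rfl, by linarith⟩)
  · exact intervalIntegrable_const
  · refine Eventually.of_forall fun u hu κ hκ => ?_
    have hu' := h u (hsub hu) κ (hcl κ hκ)
    have h1 : HasDerivAt (fun κ : ℝ => 2 * u - κ) (-1) κ := by
      simpa using (hasDerivAt_id κ).const_sub (2 * u)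
    have h2 := ((hg _ hu'.1 hu'.2).comp κ h1).mul_const (f u)
    refine h2.congr_deriv ?_
    ring

/-- the primitive -/
theorem MDR_ftc (hG : ∀ v, 0 < v → v < L → HasDerivAt G (g v) v)
    (hg : ∀ v, 0 < v → v < L → HasDerivAt g (dg v) v) {p q κ : ℝ} (hpq : p ≤ q)
    (h : ∀ u ∈ Icc p q, 0 < 2 * u - κ ∧ 2 * u - κ < L) :
    2 * ∫ u in p..q, g (2 * u - κ) = G (2 * q - κ) - G (2 * p - κ) := by
  have h1 : ∫ u in p..q, 2 * g (2 * u - κ) = G (2 * q - κ) - G (2 * p - κ) := by
    refine intervalIntegral.integral_eq_sub_of_hasDerivAt (f := fun u => G (2 * u - κ)) ?_ ?_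
    · intro u hu
      rw [uIcc_of_le hpq] at hu
      have h2 : HasDerivAt (fun u : ℝ => 2 * u - κ) 2 u := by
        simpa using ((hasDerivAt_id u).const_mul 2).sub_const κ
      have h3 := (hG _ (h u hu).1 (h u hu).2).comp u h2
      refine h3.congr_deriv ?_
      ring
    · refine ContinuousOn.intervalIntegrable ?_
      rw [uIcc_of_le hpq]
      refine ContinuousOn.mul continuousOn_const ?_
      intro u hu
      have h4 : ContinuousAt g (2 * u - κ) := (hg _ (h u hu).1 (h u hu).2).continuousAt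
      have h5 : ContinuousAt (fun u : ℝ => 2 * u - κ) u := by fun_prop
      exact (ContinuousAt.comp (f := fun u : ℝ => 2 * u - κ) h4 h5).continuousWithinAt
  rw [← h1, intervalIntegral.integral_const_mul]

/-- the derivative, abstract form -/
theorem MDR_main (hG : ∀ v, 0 < v → v < L → HasDerivAt G (g v) v)
    (hg : ∀ v, 0 < v → v < L → HasDerivAt g (dg v) v)
    (hdg : ∀ v, 0 < v → v < L → ContinuousAt dg v) (hf : ContinuousOn f (Ioi 0))
    {a mi S : ℝ → ℝ} {B s μ σ : ℝ} (hB : 0 < B) (ha : B < a B) (hm : B < mi B)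
    (hEL : 2 * mi B + B < L) (hda : HasDerivAt a s B) (hdm : HasDerivAt mi μ B)
    (hfS : HasDerivAt (fun z => f (S z)) σ B) :
    HasDerivAt (fun z => 2 * ∫ u in (a z)..(a z + (mi z - z)),
        g (2 * u - 2 * a z + z) * (f u - f (S z)))
      (2 * ((s + μ - 1) * (g (2 * mi B - B) * f (a B + (mi B - B))) - s * (g B * f (a B)) -
        (2 * s - 1) * ∫ u in (a B)..(a B + (mi B - B)), dg (2 * u - 2 * a B + B) * f u) -
        (σ * (G (2 * mi B - B) - G B) +
          f (S B) * ((2 * μ - 1) * g (2 * mi B - B) - g B))) B := by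
  set κ : ℝ → ℝ := fun z => 2 * a z - z with hκ
  set U : ℝ → ℝ := fun z => a z + (mi z - z) with hU
  set δ : ℝ := B / 4 with hδ
  have hδ0 : 0 < δ := by rw [hδ]; linarith
  have dκ : HasDerivAt κ (2 * s - 1) B := (hda.const_mul 2).sub (hasDerivAt_id B)
  have dU : HasDerivAt U (s + μ - 1) B :=
    (hda.add (hdm.sub (hasDerivAt_id B))).congr_deriv (by ring)
  have hpq : a B ≤ U B := by simp only [hU]; linarith
  have hdom : ∀ u ∈ Icc (a B - δ) (U B + δ), ∀ k', |k' - κ B| ≤ δ →
      0 < u ∧ 0 < 2 * u - k' ∧ 2 * u - k' < L := by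
    intro u hu k' hk'
    have h1 := abs_le.1 hk'
    simp only [hκ] at h1
    have h2 := hu.1
    have h3 := hu.2
    simp only [hU] at h3
    refine ⟨by linarith, by linarith [h1.1, h1.2], ?_⟩
    linarith [h1.1, h1.2]
  have eva : ∀ᶠ z in 𝓝 B, |a z - a B| < δ := by
    simpa [Real.dist_eq] using hda.continuousAt.eventually (Metric.ball_mem_nhds (a B) hδ0)
  have evU : ∀ᶠ z in 𝓝 B, |U z - U B| < δ := by
    simpa [Real.dist_eq] using dU.continuousAt.eventually (Metric.ball_mem_nhds (U B) hδ0)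
  have evκ : ∀ᶠ z in 𝓝 B, |κ z - κ B| < δ := by
    simpa [Real.dist_eq] using dκ.continuousAt.eventually (Metric.ball_mem_nhds (κ B) hδ0)
  have evm : ∀ᶠ z in 𝓝 B, z < mi z :=
    (hasDerivAt_id B).continuousAt.eventually_lt hdm.continuousAt hm
  have hIa : a B ∈ Icc (a B - δ) (U B + δ) := ⟨by linarith, by linarith⟩
  have hIU : U B ∈ Icc (a B - δ) (U B + δ) := ⟨by linarith, by linarith⟩
  have hii : ∀ z, |κ z - κ B| < δ → ∀ p ∈ Icc (a B - δ) (U B + δ),
      ∀ q ∈ Icc (a B - δ) (U B + δ),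
      IntervalIntegrable (fun u => g (2 * u - κ z) * f u) volume p q ∧
      IntervalIntegrable (fun u => g (2 * u - κ z)) volume p q := by
    intro z hz p hp q hq
    have h1 := MDR_cont hg hf (fun u hu => hdom u hu (κ z) hz.le)
    exact ⟨(h1.1.mono (uIcc_subset_Icc hp hq)).intervalIntegrable,
      (h1.2.mono (uIcc_subset_Icc hp hq)).intervalIntegrable⟩
  have hmem : ∀ (x y : ℝ), x ∈ ({a B, U B} : Set ℝ) → |y - x| < δ →
      y ∈ Icc (a B - δ) (U B + δ) := by
    intro x y hx hy
    have h1 := abs_lt.1 hy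
    rcases hx with rfl | hx
    · exact ⟨by linarith [h1.1], by linarith [h1.2]⟩
    · rw [mem_singleton_iff.1 hx] at h1
      exact ⟨by linarith [h1.1], by linarith [h1.2]⟩
  -- joint continuity
  have hjc : ∀ x ∈ Icc (a B - δ) (U B + δ),
      ContinuousAt (fun p : ℝ × ℝ => g (2 * p.2 - κ p.1) * f p.2) (B, x) := by
    intro x hx
    obtain ⟨h1, h2, h3⟩ := hdom x hx (κ B) (by simpa using hδ0.le)
    have c1 : ContinuousAt (fun p : ℝ × ℝ => κ p.1) (B, x) :=
      ContinuousAt.comp (f := fun p : ℝ × ℝ => p.1) (g := κ) (x := (B, x)) dκ.continuousAt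
        continuousAt_fst
    have c2 : ContinuousAt (fun p : ℝ × ℝ => 2 * p.2 - κ p.1) (B, x) :=
      (continuousAt_const.mul continuousAt_snd).sub c1
    have c3 : ContinuousAt (fun p : ℝ × ℝ => g (2 * p.2 - κ p.1)) (B, x) :=
      ContinuousAt.comp (f := fun p : ℝ × ℝ => 2 * p.2 - κ p.1) (g := g) (x := (B, x))
        (hg _ h2 h3).continuousAt c2
    have c4 : ContinuousAt (fun p : ℝ × ℝ => f p.2) (B, x) :=
      ContinuousAt.comp (f := fun p : ℝ × ℝ => p.2) (g := f) (x := (B, x))
        (hf.continuousAt (Ioi_mem_nhds h1)) continuousAt_snd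
    exact c3.mul c4
  -- the three parts
  have D1 : HasDerivAt (fun z => ∫ u in (a B)..(U B), g (2 * u - κ z) * f u)
      ((∫ u in (a B)..(U B), -(dg (2 * u - κ B) * f u)) * (2 * s - 1)) B :=
    HasDerivAt.comp (h := κ)
      (h₂ := fun k' => ∫ u in (a B)..(U B), g (2 * u - k') * f u) B
      (MDR_par hg hdg hf hδ0 hpq (by linarith) fun u hu k' hk' =>
        (hdom u ⟨by linarith [hu.1], by linarith [hu.2]⟩ k' hk').2) dκ
  have D2 : HasDerivAt (fun z => ∫ u in (U B)..(U z), g (2 * u - κ z) * f u)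
      (g (2 * U B - κ B) * f (U B) * (s + μ - 1)) B :=
    MDR_end (φ := fun z u => g (2 * u - κ z) * f u) dU rfl (hjc _ hIU) (by
      filter_upwards [evU, evκ] with z h1 h2
      exact (hii z h2 _ hIU _ (hmem (U B) _ (by simp) h1)).1)
  have D3 : HasDerivAt (fun z => ∫ u in (a B)..(a z), g (2 * u - κ z) * f u)
      (g (2 * a B - κ B) * f (a B) * s) B :=
    MDR_end (φ := fun z u => g (2 * u - κ z) * f u) hda rfl (hjc _ hIa) (by
      filter_upwards [eva, evκ] with z h1 h2
      exact (hii z h2 _ hIa _ (hmem (a B) _ (by simp) h1)).1)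
  have DJ := ((D1.add D2).sub D3).const_mul 2
  -- the part with `G`
  have hE0 : 0 < 2 * mi B - B := by linarith
  have dE : HasDerivAt (fun z => 2 * mi z - z) (2 * μ - 1) B :=
    (hdm.const_mul 2).sub (hasDerivAt_id B)
  have D4 : HasDerivAt (fun z => G (2 * mi z - z) - G z)
      (g (2 * mi B - B) * (2 * μ - 1) - g B) B :=
    (HasDerivAt.comp (h := fun z => 2 * mi z - z) (h₂ := G) B
      (hG _ hE0 (by linarith)) dE).sub (hG B hB (by linarith))
  have D5 := hfS.mul D4
  have D6 := DJ.sub D5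
  have hUκ : 2 * U B - κ B = 2 * mi B - B := by simp only [hU, hκ]; ring
  have haκ : 2 * a B - κ B = B := by simp only [hκ]; ring
  rw [hUκ, haκ] at D6
  refine (D6.congr_of_eventuallyEq ?_).congr_deriv ?_
  · filter_upwards [eva, evU, evκ, evm] with z h1 h2 h3 h4
    have i1 := hmem (a B) _ (by simp) h1
    have i2 := hmem (U B) _ (by simp) h2
    have e0 : ∀ u, 2 * u - 2 * a z + z = 2 * u - κ z := fun u => by simp only [hκ]; ring
    have hle : a z ≤ U z := by simp only [hU]; linarith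
    have e1 : (∫ u in (a z)..(U z), g (2 * u - κ z) * (f u - f (S z))) =
        (∫ u in (a z)..(U z), g (2 * u - κ z) * f u) -
          f (S z) * ∫ u in (a z)..(U z), g (2 * u - κ z) := by
      rw [← intervalIntegral.integral_const_mul, ← intervalIntegral.integral_sub
        (hii z h3 _ i1 _ i2).1 ((hii z h3 _ i1 _ i2).2.const_mul _)]
      refine intervalIntegral.integral_congr fun u _ => ?_
      ring
    have e2 : 2 * ∫ u in (a z)..(U z), g (2 * u - κ z) = G (2 * mi z - z) - G z := by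
      rw [MDR_ftc hG hg hle fun u hu =>
        (hdom u ⟨by linarith [i1.1, hu.1], by linarith [i2.2, hu.2]⟩ (κ z) h3.le).2]
      have e3 : 2 * U z - κ z = 2 * mi z - z := by simp only [hU, hκ]; ring
      have e4 : 2 * a z - κ z = z := by simp only [hκ]; ring
      rw [e3, e4]
    have e5 : (∫ u in (a z)..(U z), g (2 * u - κ z) * f u) =
        (∫ u in (a B)..(U B), g (2 * u - κ z) * f u) +
        (∫ u in (U B)..(U z), g (2 * u - κ z) * f u) -
        ∫ u in (a B)..(a z), g (2 * u - κ z) * f u := by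
      have j1 := intervalIntegral.integral_add_adjacent_intervals (hii z h3 _ hIa _ hIU).1
        (hii z h3 _ hIU _ i2).1
      have j2 := intervalIntegral.integral_add_adjacent_intervals (hii z h3 _ hIa _ i1).1
        (hii z h3 _ i1 _ i2).1
      linarith
    simp_rw [e0]
    have e6 : a z + (mi z - z) = U z := rfl
    rw [e6, e1]
    simp only [Pi.sub_apply, Pi.add_apply, Pi.mul_apply]
    rw [mul_sub, e5]
    rw [show 2 * (f (S z) * ∫ u in (a z)..(U z), g (2 * u - κ z)) =
      f (S z) * (2 * ∫ u in (a z)..(U z), g (2 * u - κ z)) by ring, e2]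
  have e7 : (∫ u in (a B)..(U B), -(dg (2 * u - κ B) * f u)) =
      -∫ u in (a B)..(a B + (mi B - B)), dg (2 * u - 2 * a B + B) * f u := by
    rw [intervalIntegral.integral_neg]
    congr 1
    refine intervalIntegral.integral_congr fun u _ => ?_
    simp only [hκ]
    congr 2
    ring
  rw [e7]
  simp only [hU]
  ring

end

theorem p_MDR (hO : Sp_OMG) (hF : Sp_FFF) : Sp_MDR := by
  intro P L a c B s t μ σ hL hB haB har hcB hcr hda hdc hdm hσ
  obtain ⟨-, -, hder, -, -, -⟩ := hO P L hL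
  obtain ⟨f0, fr, ffor, -, fcont, -, -, -, -, -⟩ := hF P
  have hr := P.r0
  have hL0 : 0 < L := by linarith
  have habs : ∀ v, 0 < v → v < L → |v| < L := fun v h1 h2 => by rwa [abs_of_pos h1]
  have hG : ∀ v, 0 < v → v < L → HasDerivAt (P.G L) (P.g L v) v := fun v h1 h2 =>
    (hder v (habs v h1 h2)).2.2.1
  have hg : ∀ v, 0 < v → v < L → HasDerivAt (P.g L) (P.dg L v) v := fun v h1 h2 =>
    (hder v (habs v h1 h2)).2.1
  have hdg : ∀ v, 0 < v → v < L → ContinuousAt (P.dg L) v := fun v h1 h2 =>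
    (hder v (habs v h1 h2)).2.2.2.1
  have hmB : B < min (a B) (c B) := lt_min haB hcB
  have hmr : min (a B) (c B) ≤ P.r := (min_le_left _ _).trans har
  have key := MDR_main (f := P.f) (L := L) hG hg hdg fcont (a := a)
    (mi := fun z => min (a z) (c z)) (S := fun z => a z + c z - z) hB haB hmB
    (by linarith) hda hdm hσ
  have hMeq : (fun z => P.M L (a z) (c z) z) = fun z => 2 * ∫ u in (a z)..(a z + (min (a z) (c z) - z)),
      P.g L (2 * u - 2 * a z + z) * (P.f u - P.f (a z + c z - z)) := rfl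
  rw [hMeq]
  refine key.congr_deriv ?_
  -- the derivative of `f (S z)`
  have hS0 : 0 < a B + c B - B := by linarith
  have hdS : HasDerivAt (fun z => a z + c z - z) (s + t - 1) B :=
    (hda.add hdc).sub (hasDerivAt_id B)
  have hσ' : σ = -(P.lam (a B + c B - B) * (s + t - 1)) := by
    unfold Par.lam
    split_ifs with h
    · have h1 : P.f =ᶠ[𝓝 (a B + c B - B)] fun z => z ^ (P.e - 1) - P.r ^ (P.e - 1) := by
        filter_upwards [Ioi_mem_nhds hS0, Iio_mem_nhds h] with z h2 h3
        exact ffor z h2 (le_of_lt h3)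
      have h2 : HasDerivAt P.f ((P.e - 1) * (a B + c B - B) ^ (P.e - 1 - 1)) (a B + c B - B) :=
        ((Real.hasDerivAt_rpow_const (Or.inl hS0.ne')).sub_const _).congr_of_eventuallyEq h1
      have h3 : HasDerivAt (fun z => P.f (a z + c z - z))
          ((P.e - 1) * (a B + c B - B) ^ (P.e - 1 - 1) * (s + t - 1)) B :=
        HasDerivAt.comp (h := fun z => a z + c z - z) (h₂ := P.f) B h2 hdS
      rw [hσ.unique h3, show P.e - 1 - 1 = P.e - 2 by ring]
      ring
    · push Not at h
      have h1 : IsLocalMin (fun z => P.f (a z + c z - z)) B := by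
        refine Eventually.of_forall fun z => ?_
        simp only
        rw [fr _ h]
        exact f0 _
      rw [h1.hasDerivAt_eq_zero hσ]
      ring
  -- `(μ - s) F U = 0`
  have hμ : (μ - s) * (P.f (a B + (min (a B) (c B) - B)) - P.f (a B + c B - B)) = 0 := by
    rcases le_or_gt (c B) (a B) with h | h
    · rw [min_eq_right h, show a B + (c B - B) = a B + c B - B by ring, sub_self, mul_zero]
    · have h1 : (fun z => min (a z) (c z)) =ᶠ[𝓝 B] a := by
        have := hda.continuousAt.eventually_lt hdc.continuousAt h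
        filter_upwards [this] with z hz
        exact min_eq_left hz.le
      have h2 : HasDerivAt (fun z => min (a z) (c z)) s B := hda.congr_of_eventuallyEq h1
      rw [hdm.unique h2, sub_self, zero_mul]
  -- the integral with `dg`
  have hpq : a B ≤ a B + (min (a B) (c B) - B) := by linarith
  have hdomd : ∀ u ∈ Icc (a B) (a B + (min (a B) (c B) - B)),
      0 < u ∧ 0 < 2 * u - (2 * a B - B) ∧ 2 * u - (2 * a B - B) < L := by
    intro u hu
    have h1 := hu.1
    have h2 := hu.2
    exact ⟨by linarith, by linarith, by linarith⟩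
  have e0 : ∀ u, 2 * u - 2 * a B + B = 2 * u - (2 * a B - B) := fun u => by ring
  have hc1 := MDR_contd hdg hdomd
  have hi1 : IntervalIntegrable (fun u => P.dg L (2 * u - (2 * a B - B))) volume (a B)
      (a B + (min (a B) (c B) - B)) :=
    ContinuousOn.intervalIntegrable (by rwa [uIcc_of_le hpq])
  have hi2 : IntervalIntegrable (fun u => P.dg L (2 * u - (2 * a B - B)) * P.f u) volume (a B)
      (a B + (min (a B) (c B) - B)) :=
    ContinuousOn.intervalIntegrable (by
      rw [uIcc_of_le hpq]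
      exact hc1.mul (fcont.mono fun u hu => (hdomd u hu).1))
  have hI1 : 2 * ∫ u in (a B)..(a B + (min (a B) (c B) - B)), P.dg L (2 * u - (2 * a B - B)) =
      P.g L (2 * min (a B) (c B) - B) - P.g L B := by
    have h1 : ∫ u in (a B)..(a B + (min (a B) (c B) - B)), 2 * P.dg L (2 * u - (2 * a B - B)) =
        P.g L (2 * (a B + (min (a B) (c B) - B)) - (2 * a B - B)) -
          P.g L (2 * a B - (2 * a B - B)) := by
      refine intervalIntegral.integral_eq_sub_of_hasDerivAt
        (f := fun u => P.g L (2 * u - (2 * a B - B))) ?_ (hi1.const_mul 2)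
      intro u hu
      rw [uIcc_of_le hpq] at hu
      have h2 : HasDerivAt (fun u : ℝ => 2 * u - (2 * a B - B)) 2 u := by
        simpa using ((hasDerivAt_id u).const_mul 2).sub_const (2 * a B - B)
      have h3 := HasDerivAt.comp (h := fun u : ℝ => 2 * u - (2 * a B - B)) (h₂ := P.g L) u
        (hg _ (hdomd u hu).2.1 (hdomd u hu).2.2) h2
      refine h3.congr_deriv ?_
      ring
    rw [intervalIntegral.integral_const_mul] at h1
    rw [h1]
    congr 2 <;> ring
  have hI2 : (∫ u in (a B)..(a B + (min (a B) (c B) - B)),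
      P.dg L (2 * u - 2 * a B + B) * (P.f u - P.f (a B + c B - B))) =
      (∫ u in (a B)..(a B + (min (a B) (c B) - B)), P.dg L (2 * u - 2 * a B + B) * P.f u) -
      P.f (a B + c B - B) *
        ∫ u in (a B)..(a B + (min (a B) (c B) - B)), P.dg L (2 * u - (2 * a B - B)) := by
    simp_rw [e0]
    rw [← intervalIntegral.integral_const_mul, ← intervalIntegral.integral_sub hi2
      (hi1.const_mul _)]
    refine intervalIntegral.integral_congr fun u _ => ?_
    ring
  unfold Par.be Par.Ga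
  rw [hI2, hσ']
  set X := ∫ u in (a B)..(a B + (min (a B) (c B) - B)), P.dg L (2 * u - (2 * a B - B))
  set Y := ∫ u in (a B)..(a B + (min (a B) (c B) - B)), P.dg L (2 * u - 2 * a B + B) * P.f u
  linear_combination (2 * P.g L (2 * min (a B) (c B) - B)) * hμ -
    (2 * s - 1) * P.f (a B + c B - B) * hI1

end Pool.Agent.FAN4
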