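import Pool.Agent.FAN4.P_VIN

/-!
# FAN4, block PATH: the second potential is Lipschitz along a path
-/

set_option autoImplicit false

open MeasureTheory Set Filter Topology

namespace Pool.Agent.FAN4

open scoped NNReal

/-- integrals with Lipschitz limits and a Lipschitz parameter -/
theorem MLP_int {F : ℝ → ℝ → ℝ} {α β : ℝ → ℝ} {B₁ x y C : ℝ} {K₁ K₂ : ℝ≥0}
    (hα : LipschitzOnWith K₁ α (Icc 0 B₁)) (hβ : LipschitzOnWith K₂ β (Icc 0 B₁))
    (mα : ∀ z ∈ Icc 0 B₁, α z ∈ Icc x y) (mβ : ∀ z ∈ Icc 0 B₁, β z ∈ Icc x y) (hC : 0 ≤ C)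
    (hb : ∀ z ∈ Icc 0 B₁, ∀ u ∈ Icc x y, |F z u| ≤ C)
    (hl : ∀ z ∈ Icc 0 B₁, ∀ z' ∈ Icc 0 B₁, ∀ u ∈ Icc x y, |F z u - F z' u| ≤ C * |z - z'|)
    (hi : ∀ z ∈ Icc 0 B₁, ContinuousOn (F z) (Icc x y)) :
    ∃ K, LipschitzOnWith K (fun z => ∫ u in (α z)..(β z), F z u) (Icc 0 B₁) := by
  refine ⟨Real.toNNReal (C * K₁ + C * K₂ + C * |y - x|), LipschitzOnWith.of_dist_le_mul ?_⟩
  intro z hz z' hz'
  have hI : ∀ w ∈ Icc 0 B₁, ∀ p ∈ Icc x y, ∀ q ∈ Icc x y,
      IntervalIntegrable (F w) volume p q := fun w hw p hp q hq =>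
    ((hi w hw).mono (uIcc_subset_Icc hp hq)).intervalIntegrable
  have a1 := mα z hz
  have a2 := mα z' hz'
  have b1 := mβ z hz
  have b2 := mβ z' hz'
  have e1 : ∫ u in (α z)..(β z), F z u = (∫ u in (α z)..(α z'), F z u) +
      (∫ u in (α z')..(β z'), F z u) + ∫ u in (β z')..(β z), F z u := by
    rw [intervalIntegral.integral_add_adjacent_intervals (hI z hz _ a1 _ a2) (hI z hz _ a2 _ b2),
      intervalIntegral.integral_add_adjacent_intervals (hI z hz _ a1 _ b2) (hI z hz _ b2 _ b1)]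
  have e2 : (∫ u in (α z)..(β z), F z u) - ∫ u in (α z')..(β z'), F z' u =
      (∫ u in (α z)..(α z'), F z u) + (∫ u in (α z')..(β z'), (F z u - F z' u)) +
        ∫ u in (β z')..(β z), F z u := by
    rw [e1, intervalIntegral.integral_sub (hI z hz _ a2 _ b2) (hI z' hz' _ a2 _ b2)]
    ring
  have hsub : ∀ p ∈ Icc x y, ∀ q ∈ Icc x y, ∀ u ∈ uIoc p q, u ∈ Icc x y :=
    fun p hp q hq u hu => uIcc_subset_Icc hp hq (uIoc_subset_uIcc hu)
  have i1 : |∫ u in (α z)..(α z'), F z u| ≤ C * |α z' - α z| := by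
    have := intervalIntegral.norm_integral_le_of_norm_le_const (a := α z) (b := α z') (C := C)
      (f := F z) (fun u hu => by
        rw [Real.norm_eq_abs]; exact hb z hz u (hsub _ a1 _ a2 u hu))
    rwa [Real.norm_eq_abs] at this
  have i2 : |∫ u in (β z')..(β z), F z u| ≤ C * |β z - β z'| := by
    have := intervalIntegral.norm_integral_le_of_norm_le_const (a := β z') (b := β z) (C := C)
      (f := F z) (fun u hu => by
        rw [Real.norm_eq_abs]; exact hb z hz u (hsub _ b2 _ b1 u hu))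
    rwa [Real.norm_eq_abs] at this
  have i3 : |∫ u in (α z')..(β z'), (F z u - F z' u)| ≤ (C * |z - z'|) * |β z' - α z'| := by
    have := intervalIntegral.norm_integral_le_of_norm_le_const (a := α z') (b := β z')
      (C := C * |z - z'|) (f := fun u => F z u - F z' u) (fun u hu => by
        rw [Real.norm_eq_abs]; exact hl z hz z' hz' u (hsub _ a2 _ b2 u hu))
    rwa [Real.norm_eq_abs] at this
  have i4 : |β z' - α z'| ≤ |y - x| := by
    have h1 : x ≤ y := a1.1.trans a1.2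
    rw [abs_of_nonneg (by linarith : 0 ≤ y - x), abs_le]
    constructor <;> linarith [a2.1, a2.2, b2.1, b2.2]
  have i5 : |α z' - α z| ≤ K₁ * |z - z'| := by
    have := hα.dist_le_mul z' hz' z hz
    rw [Real.dist_eq, Real.dist_eq, abs_sub_comm z' z] at this
    exact this
  have i6 : |β z - β z'| ≤ K₂ * |z - z'| := by
    have := hβ.dist_le_mul z hz z' hz'
    rwa [Real.dist_eq, Real.dist_eq] at this
  have hK : (0 : ℝ) ≤ C * K₁ + C * K₂ + C * |y - x| := by positivity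
  rw [Real.dist_eq, Real.dist_eq, e2, Real.coe_toNNReal _ hK]
  have hzz := abs_nonneg (z - z')
  calc |(∫ u in (α z)..(α z'), F z u) + (∫ u in (α z')..(β z'), (F z u - F z' u)) +
        ∫ u in (β z')..(β z), F z u|
      ≤ |∫ u in (α z)..(α z'), F z u| + |∫ u in (α z')..(β z'), (F z u - F z' u)| +
        |∫ u in (β z')..(β z), F z u| := (abs_add_le _ _).trans (by gcongr; exact abs_add_le _ _)
    _ ≤ C * (K₁ * |z - z'|) + (C * |z - z'|) * |y - x| + C * (K₂ * |z - z'|) := by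
        gcongr
        · exact i1.trans (by gcongr)
        · exact i3.trans (by gcongr)
        · exact i2.trans (by gcongr)
    _ = (C * K₁ + C * K₂ + C * |y - x|) * |z - z'| := by ring

theorem p_MLP (hF : Sp_FFF) (hO : Sp_OMG) : Sp_MLP := by
  intro P L B₁ a c h
  obtain ⟨hz0, hz1, hB1, hbd⟩ := VIN_bd h
  set z₀ := min (a 0) (c 0) with hz₀
  have hrp := P.r0
  have hL := h.hL
  obtain ⟨ho1, ho2, ho3, ho4, ho5, ho6⟩ := hO P L hL
  obtain ⟨hf0, hfr, hfe, hfa, hfc, hf6, hf7, hf8, hf9, hf10⟩ := hF P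
  obtain ⟨K₄, k4⟩ := VIN_S h
  obtain ⟨Kf, kf⟩ := hf9 z₀ hz0
  -- the kernel `g`
  have habs : ∀ z ∈ Icc (-(2 * P.r)) (5 * P.r), |z| < L := fun z hz => by
    rw [abs_lt]
    constructor <;> linarith [hz.1, hz.2]
  have hdc : ContinuousOn (P.dg L) (Icc (-(2 * P.r)) (5 * P.r)) := fun z hz =>
    (ho3 z (habs z hz)).2.2.2.1.continuousWithinAt
  have hgc : ContinuousOn (P.g L) (Icc (-(2 * P.r)) (5 * P.r)) := fun z hz =>
    (ho3 z (habs z hz)).2.1.continuousAt.continuousWithinAt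
  obtain ⟨C1, hC1⟩ := isCompact_Icc.exists_bound_of_continuousOn hdc
  obtain ⟨C2, hC2⟩ := isCompact_Icc.exists_bound_of_continuousOn hgc
  obtain ⟨Kg, kg⟩ := VIN_lip (h := P.g L) (h' := P.dg L) (C := C1)
    (by linarith : -(2 * P.r) < 5 * P.r) hgc
    (fun z hz => (ho3 z (habs z ⟨hz.1.le, hz.2.le⟩)).2.1) (fun z hz => by
      have := hC1 z ⟨hz.1.le, hz.2.le⟩
      rwa [Real.norm_eq_abs] at this)
  have hC20 : 0 ≤ C2 := (norm_nonneg _).trans (hC2 0 ⟨by linarith, by linarith⟩)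
  set D := P.f z₀ with hD
  have hD0 : 0 ≤ D := hf0 z₀
  have hfb : ∀ u, z₀ ≤ u → |P.f u| ≤ D := fun u hu => by
    rw [abs_of_nonneg (hf0 u)]
    exact hfa (mem_Ioi.2 hz0) (mem_Ioi.2 (hz0.trans_le hu)) hu
  have hfd : ∀ u v, z₀ ≤ u → z₀ ≤ v → |P.f u - P.f v| ≤ D := fun u v hu hv => by
    have h1 := hfb u hu
    have h2 := hfb v hv
    rw [abs_of_nonneg (hf0 u)] at h1
    rw [abs_of_nonneg (hf0 v)] at h2
    rw [abs_le]
    constructor <;> linarith [hf0 u, hf0 v]
  set F : ℝ → ℝ → ℝ := fun z u =>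
    P.g L (2 * u - 2 * a z + z) * (P.f u - P.f (a z + c z - z)) with hFd
  have hκ : ∀ z ∈ Icc 0 B₁, ∀ u ∈ Icc z₀ (2 * P.r),
      2 * u - 2 * a z + z ∈ Icc (-(2 * P.r)) (5 * P.r) := fun z hz u hu => by
    have hb := hbd z hz
    constructor <;> linarith [hz.1, hz.2, hu.1, hu.2, hb.1, hb.2.1]
  have hb1 : ∀ z ∈ Icc 0 B₁, ∀ u ∈ Icc z₀ (2 * P.r), |F z u| ≤ C2 * D := fun z hz u hu => by
    simp only [hFd]
    rw [abs_mul]
    have h1 := hC2 _ (hκ z hz u hu)
    rw [Real.norm_eq_abs] at h1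
    exact mul_le_mul h1 (hfd _ _ hu.1 (hbd z hz).2.2.2.2.2.2.1) (abs_nonneg _) hC20
  have hal : ∀ z ∈ Icc 0 B₁, ∀ z' ∈ Icc 0 B₁, |a z - a z'| ≤ |z - z'| := fun z hz z' hz' => by
    have := h.al.dist_le_mul z hz z' hz'
    rw [Real.dist_eq, Real.dist_eq] at this
    simpa using this
  have hcl : ∀ z ∈ Icc 0 B₁, ∀ z' ∈ Icc 0 B₁, |c z - c z'| ≤ |z - z'| := fun z hz z' hz' => by
    have := h.cl.dist_le_mul z hz z' hz'
    rw [Real.dist_eq, Real.dist_eq] at this
    simpa using this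
  have hb2 : ∀ z ∈ Icc 0 B₁, ∀ z' ∈ Icc 0 B₁, ∀ u ∈ Icc z₀ (2 * P.r),
      |F z u - F z' u| ≤ (3 * Kg * D + C2 * (Kf * K₄)) * |z - z'| := by
    intro z hz z' hz' u hu
    have e : F z u - F z' u = (P.g L (2 * u - 2 * a z + z) - P.g L (2 * u - 2 * a z' + z')) *
        (P.f u - P.f (a z + c z - z)) + P.g L (2 * u - 2 * a z' + z') *
        (P.f (a z' + c z' - z') - P.f (a z + c z - z)) := by
      simp only [hFd]; ring
    have g1 : |P.g L (2 * u - 2 * a z + z) - P.g L (2 * u - 2 * a z' + z')| ≤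
        Kg * (3 * |z - z'|) := by
      have h1 := kg.dist_le_mul _ (hκ z hz u hu) _ (hκ z' hz' u hu)
      rw [Real.dist_eq, Real.dist_eq] at h1
      refine h1.trans (mul_le_mul_of_nonneg_left ?_ Kg.coe_nonneg)
      have e1 : 2 * u - 2 * a z + z - (2 * u - 2 * a z' + z') = (z - z') - 2 * (a z - a z') := by
        ring
      rw [e1]
      have h2 := abs_sub (z - z') (2 * (a z - a z'))
      rw [abs_mul, abs_of_pos (by norm_num : (0 : ℝ) < 2)] at h2
      linarith [hal z hz z' hz']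
    have g2 := hfd u (a z + c z - z) hu.1 (hbd z hz).2.2.2.2.2.2.1
    have g3 := hC2 _ (hκ z' hz' u hu)
    rw [Real.norm_eq_abs] at g3
    have g4 : |P.f (a z' + c z' - z') - P.f (a z + c z - z)| ≤ Kf * (K₄ * |z - z'|) := by
      have h1 := kf.dist_le_mul (a z' + c z' - z') (hbd z' hz').2.2.2.2.2.2.1
        (a z + c z - z) (hbd z hz).2.2.2.2.2.2.1
      have h2 := k4.dist_le_mul z' hz' z hz
      rw [Real.dist_eq, Real.dist_eq] at h1 h2
      rw [abs_sub_comm z' z] at h2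
      exact h1.trans (mul_le_mul_of_nonneg_left h2 Kf.coe_nonneg)
    rw [e]
    have hzz := abs_nonneg (z - z')
    calc |(P.g L (2 * u - 2 * a z + z) - P.g L (2 * u - 2 * a z' + z')) *
        (P.f u - P.f (a z + c z - z)) + P.g L (2 * u - 2 * a z' + z') *
        (P.f (a z' + c z' - z') - P.f (a z + c z - z))| ≤
        |P.g L (2 * u - 2 * a z + z) - P.g L (2 * u - 2 * a z' + z')| *
        |P.f u - P.f (a z + c z - z)| + |P.g L (2 * u - 2 * a z' + z')| *
        |P.f (a z' + c z' - z') - P.f (a z + c z - z)| := by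
          refine (abs_add_le _ _).trans ?_
          rw [abs_mul, abs_mul]
      _ ≤ (Kg * (3 * |z - z'|)) * D + C2 * (Kf * (K₄ * |z - z'|)) := by
          gcongr
      _ = (3 * Kg * D + C2 * (Kf * K₄)) * |z - z'| := by ring
  have hcF : ∀ z ∈ Icc 0 B₁, ContinuousOn (F z) (Icc z₀ (2 * P.r)) := fun z hz => by
    refine ContinuousOn.mul ?_ (ContinuousOn.sub ?_ continuousOn_const)
    · exact hgc.comp (by fun_prop) fun u hu => hκ z hz u hu
    · exact hfc.mono fun u hu => hz0.trans_le hu.1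
  have hα : ∀ z ∈ Icc 0 B₁, a z ∈ Icc z₀ (2 * P.r) := fun z hz =>
    ⟨(hbd z hz).1, by linarith [(hbd z hz).2.1]⟩
  have hβ : ∀ z ∈ Icc 0 B₁, a z + (min (a z) (c z) - z) ∈ Icc z₀ (2 * P.r) := fun z hz => by
    have hb := hbd z hz
    have h1 : z ≤ min (a z) (c z) := le_min hb.2.2.2.2.1 hb.2.2.2.2.2.1
    have h2 : min (a z) (c z) ≤ a z := min_le_left _ _
    constructor <;> linarith [hb.1, hb.2.1, hz.1]
  have hβl : LipschitzOnWith 3 (fun z => a z + (min (a z) (c z) - z)) (Icc 0 B₁) := by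
    refine LipschitzOnWith.of_dist_le_mul fun z hz z' hz' => ?_
    rw [Real.dist_eq, Real.dist_eq]
    have h1 := hal z hz z' hz'
    have h2 := hcl z hz z' hz'
    have h3 := abs_min_sub_min_le_max (a z) (c z) (a z') (c z')
    have h4 : max |a z - a z'| |c z - c z'| ≤ |z - z'| := max_le h1 h2
    have e : a z + (min (a z) (c z) - z) - (a z' + (min (a z') (c z') - z')) =
        (a z - a z') + ((min (a z) (c z) - min (a z') (c z')) - (z - z')) := by ring
    rw [e]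
    have h5 := abs_add_le (a z - a z') ((min (a z) (c z) - min (a z') (c z')) - (z - z'))
    have h6 := abs_sub (min (a z) (c z) - min (a z') (c z')) (z - z')
    push_cast
    linarith
  set C := max (C2 * D) (3 * Kg * D + C2 * (Kf * K₄)) with hC
  have hC0 : 0 ≤ C := (mul_nonneg hC20 hD0).trans (le_max_left _ _)
  obtain ⟨K, hK⟩ := MLP_int (F := F) (α := a) (β := fun z => a z + (min (a z) (c z) - z))
    h.al hβl hα hβ hC0 (fun z hz u hu => (hb1 z hz u hu).trans (le_max_left _ _))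
    (fun z hz z' hz' u hu => (hb2 z hz z' hz' u hu).trans
      (mul_le_mul_of_nonneg_right (le_max_right _ _) (abs_nonneg _))) hcF
  refine ⟨2 * K, LipschitzOnWith.of_dist_le_mul fun z hz z' hz' => ?_⟩
  have h1 := hK.dist_le_mul z hz z' hz'
  rw [Real.dist_eq, Real.dist_eq] at h1 ⊢
  have e : P.M L (a z) (c z) z - P.M L (a z') (c z') z' =
      2 * ((∫ u in (a z)..(a z + (min (a z) (c z) - z)), F z u) -
        ∫ u in (a z')..(a z' + (min (a z') (c z') - z')), F z' u) := by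
    unfold Par.M
    ring
  rw [e, abs_mul, abs_of_pos (by norm_num : (0 : ℝ) < 2)]
  push_cast
  linarith

end Pool.Agent.FAN4
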