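import Pool.Agent.FAN4.StP

/-!
# FAN4, block PATH: integral of a monotone function against a derivative
-/

set_option autoImplicit false

open MeasureTheory Set Filter Topology

namespace Pool.Agent.FAN4

open scoped NNReal

/-- Difference quotients of a concave function are antitone. -/
theorem MON_anti {a : ℝ → ℝ} {B₁ h : ℝ} (hc : ConcaveOn ℝ (Icc 0 B₁) a) (h0 : 0 < h) :
    AntitoneOn (fun u => h⁻¹ * (a (u + h) - a u)) (Icc 0 (B₁ - h)) := by
  intro u hu v hv huv
  have hi : 0 < h⁻¹ := inv_pos.2 h0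
  apply mul_le_mul_of_nonneg_left _ hi.le
  rcases huv.eq_or_lt with rfl | huv
  · exact le_rfl
  have e0 : 0 < v + h - u := by linarith
  have m1 : u ∈ Icc 0 B₁ := ⟨hu.1, by linarith [hu.2]⟩
  have m2 : v + h ∈ Icc 0 B₁ := ⟨by linarith [hv.1], by linarith [hv.2]⟩
  -- `u + h` and `v` are convex combinations of `u` and `v + h`
  have k1 : 0 ≤ (v - u) / (v + h - u) := div_nonneg (by linarith) e0.le
  have k2 : 0 ≤ h / (v + h - u) := div_nonneg h0.le e0.le
  have c1 := hc.2 m1 m2 k1 k2 (by rw [← add_div]; rw [div_eq_one_iff_eq e0.ne']; ring)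
  have c2 := hc.2 m1 m2 k2 k1 (by rw [← add_div]; rw [div_eq_one_iff_eq e0.ne']; ring)
  simp only [smul_eq_mul] at c1 c2
  have p1 : (v - u) / (v + h - u) * u + h / (v + h - u) * (v + h) = u + h := by
    field_simp; ring
  have p2 : h / (v + h - u) * u + (v - u) / (v + h - u) * (v + h) = v := by
    field_simp; ring
  rw [p1] at c1
  rw [p2] at c2
  have hsum : (v - u) / (v + h - u) + h / (v + h - u) = 1 := by
    rw [← add_div]; rw [div_eq_one_iff_eq e0.ne']; ring
  have : a u + a (v + h) ≤ a (u + h) + a v := by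
    have h3 : (v - u) / (v + h - u) * a u + h / (v + h - u) * a u = a u := by
      rw [← add_mul, hsum, one_mul]
    have h4 : (v - u) / (v + h - u) * a (v + h) + h / (v + h - u) * a (v + h) = a (v + h) := by
      rw [← add_mul, hsum, one_mul]
    linarith
  linarith

theorem MON_step {a M : ℝ → ℝ} {B₁ s₀ h : ℝ} {K K' : ℝ≥0} (hc : ConcaveOn ℝ (Icc 0 B₁) a)
    (ha : LipschitzWith K a) (hM : LipschitzWith K' M) (hM0 : ∀ B ∈ Icc 0 B₁, 0 ≤ M B)
    (hM1 : M B₁ = 0) (hs : ∀ B ∈ Icc 0 B₁, a B - a 0 ≤ s₀ * B) (h0 : 0 < h) (h1 : h < B₁) :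
    -(s₀ * M 0) - K * K' * h ≤ ∫ u in (0 : ℝ)..(B₁ - h), h⁻¹ * (a (u + h) - a u) * deriv M u := by
  have hi : 0 < h⁻¹ := inv_pos.2 h0
  have hle : (0 : ℝ) ≤ B₁ - h := by linarith
  set φ : ℝ → ℝ := fun u => h⁻¹ * (a (u + h) - a u) with hφ
  have hφL : LipschitzWith (‖h⁻¹‖₊ * (K + K)) φ := by
    have e1 : LipschitzWith (K + K) fun u => a (u + h) - a u := by
      have h7 : LipschitzWith 1 fun u : ℝ => u + h := by
        apply LipschitzWith.of_dist_le_mul
        intro x y
        simp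
      have := (ha.comp h7).sub ha
      simpa using this
    apply LipschitzWith.of_dist_le_mul
    intro x y
    have h2 := e1.dist_le_mul x y
    rw [Real.dist_eq] at h2
    simp only [hφ]
    rw [Real.dist_eq, ← mul_sub, abs_mul]
    push_cast at h2 ⊢
    rw [mul_assoc]
    apply mul_le_mul_of_nonneg_left h2
    · positivity
  have hφA : AbsolutelyContinuousOnInterval φ 0 (B₁ - h) :=
    (hφL.lipschitzOnWith (s := uIcc 0 (B₁ - h))).absolutelyContinuousOnInterval
  have hMA : AbsolutelyContinuousOnInterval M 0 (B₁ - h) :=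
    (hM.lipschitzOnWith (s := uIcc 0 (B₁ - h))).absolutelyContinuousOnInterval
  rw [hφA.integral_mul_deriv_eq_deriv_mul hMA]
  have hd : ∫ x in (0 : ℝ)..(B₁ - h), deriv φ x * M x ≤ 0 := by
    have : 0 ≤ ∫ x in (0 : ℝ)..(B₁ - h), -(deriv φ x * M x) := by
      apply intervalIntegral.integral_nonneg_of_ae_restrict hle
      rw [← restrict_Ioo_eq_restrict_Icc]
      rw [EventuallyLE, ae_restrict_iff' measurableSet_Ioo]
      filter_upwards with x hx
      have h3 : deriv φ x ≤ 0 := by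
        have h4 := (MON_anti hc h0).mono (Ioo_subset_Icc_self)
        have h5 := h4.derivWithin_nonpos (x := x)
        rwa [derivWithin_of_isOpen isOpen_Ioo hx] at h5
      have h4 : 0 ≤ M x := hM0 x ⟨hx.1.le, by linarith [hx.2]⟩
      simp only [Pi.zero_apply]
      nlinarith
    rw [intervalIntegral.integral_neg] at this
    linarith
  have hb1 : |φ (B₁ - h)| ≤ K := by
    have h2 := ha.dist_le_mul (B₁ - h + h) (B₁ - h)
    rw [Real.dist_eq, Real.dist_eq] at h2
    have e : |B₁ - h + h - (B₁ - h)| = h := by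
      rw [show B₁ - h + h - (B₁ - h) = h by ring, abs_of_pos h0]
    rw [e] at h2
    simp only [hφ]
    rw [abs_mul, abs_of_pos hi]
    calc h⁻¹ * |a (B₁ - h + h) - a (B₁ - h)| ≤ h⁻¹ * (K * h) := mul_le_mul_of_nonneg_left h2 hi.le
      _ = K := by field_simp
  have hb2 : M (B₁ - h) ≤ K' * h := by
    have h2 := hM.dist_le_mul (B₁ - h) B₁
    rw [Real.dist_eq, Real.dist_eq, hM1, sub_zero] at h2
    have e : |B₁ - h - B₁| = h := by
      rw [show B₁ - h - B₁ = -h by ring, abs_neg, abs_of_pos h0]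
    rw [e] at h2
    exact (le_abs_self _).trans h2
  have hb3 : 0 ≤ M (B₁ - h) := hM0 _ ⟨by linarith, by linarith⟩
  have hb4 : φ 0 ≤ s₀ := by
    have h2 := hs h ⟨h0.le, h1.le⟩
    simp only [hφ, zero_add]
    rw [inv_mul_le_iff₀ h0]
    linarith
  have hb5 : 0 ≤ M 0 := hM0 0 ⟨le_rfl, by linarith⟩
  have hb6 : -(K * K' * h) ≤ φ (B₁ - h) * M (B₁ - h) := by
    have h2 : -(K : ℝ) ≤ φ (B₁ - h) := (abs_le.1 hb1).1
    have hK : (0 : ℝ) ≤ K := K.2
    nlinarith
  have hb7 : φ 0 * M 0 ≤ s₀ * M 0 := mul_le_mul_of_nonneg_right hb4 hb5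
  linarith

theorem MON_core {a M : ℝ → ℝ} {B₁ s₀ : ℝ} {K K' : ℝ≥0} (hB : 0 < B₁)
    (hc : ConcaveOn ℝ (Icc 0 B₁) a)
    (ha : LipschitzWith K a) (hM : LipschitzWith K' M) (hM0 : ∀ B ∈ Icc 0 B₁, 0 ≤ M B)
    (hM1 : M B₁ = 0) (hs : ∀ B ∈ Icc 0 B₁, a B - a 0 ≤ s₀ * B) :
    -(s₀ * M 0) ≤ ∫ B in (0 : ℝ)..B₁, deriv a B * deriv M B := by
  set h : ℕ → ℝ := fun n => B₁ / (n + 2) with hh
  have hpos : ∀ n, 0 < h n := fun n => by simp only [hh]; positivity
  have hlt : ∀ n, h n < B₁ := fun n => by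
    simp only [hh]
    rw [div_lt_iff₀ (by positivity)]
    have : (0 : ℝ) ≤ n := Nat.cast_nonneg n
    nlinarith
  have hlim : Tendsto h atTop (𝓝 0) := by
    have h1 : Tendsto (fun n : ℕ => (n : ℝ) + 2) atTop atTop :=
      tendsto_atTop_add_const_right _ _ tendsto_natCast_atTop_atTop
    exact tendsto_const_nhds.div_atTop h1
  set F : ℕ → ℝ → ℝ := fun n => indicator (Iio (B₁ - h n))
    (fun u => (h n)⁻¹ * (a (u + h n) - a u) * deriv M u) with hF
  have hMd : ∀ x, |deriv M x| ≤ K' := fun x => by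
    have := norm_deriv_le_of_lipschitz hM (x₀ := x)
    rwa [Real.norm_eq_abs] at this
  have hq : ∀ n u, |(h n)⁻¹ * (a (u + h n) - a u)| ≤ K := fun n u => by
    have h2 := ha.dist_le_mul (u + h n) u
    rw [Real.dist_eq, Real.dist_eq] at h2
    rw [show u + h n - u = h n by ring, abs_of_pos (hpos n)] at h2
    rw [abs_mul, abs_of_pos (inv_pos.2 (hpos n)), inv_mul_le_iff₀ (hpos n)]
    linarith
  have hconv : Tendsto (fun n => ∫ u in (0 : ℝ)..B₁, F n u) atTop
      (𝓝 (∫ B in (0 : ℝ)..B₁, deriv a B * deriv M B)) := by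
    apply intervalIntegral.tendsto_integral_filter_of_dominated_convergence (fun _ => (K : ℝ) * K')
    · filter_upwards with n
      apply Measurable.aestronglyMeasurable
      apply Measurable.indicator _ measurableSet_Iio
      have h1 : Measurable a := ha.continuous.measurable
      exact ((h1.comp (measurable_id.add_const _)).sub h1).const_mul _ |>.mul (measurable_deriv M)
    · filter_upwards with n
      filter_upwards with u _
      simp only [hF]
      by_cases hu : u ∈ Iio (B₁ - h n)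
      · rw [indicator_of_mem hu, Real.norm_eq_abs, abs_mul]
        exact mul_le_mul (hq n u) (hMd u) (abs_nonneg _) K.2
      · rw [indicator_of_notMem hu, norm_zero]
        positivity
    · exact intervalIntegrable_const
    · have hae : ∀ᵐ x : ℝ, DifferentiableAt ℝ a x := ha.ae_differentiableAt
      have hne : ∀ᵐ x : ℝ, x ≠ B₁ := by
        rw [ae_iff]; simp
      filter_upwards [hae, hne] with u hu hu1 hu2
      rw [uIoc_of_le hB.le] at hu2
      have hu3 : u < B₁ := lt_of_le_of_ne hu2.2 hu1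
      have hsl : Tendsto (fun n => (h n)⁻¹ * (a (u + h n) - a u)) atTop (𝓝 (deriv a u)) := by
        have h1 := hu.hasDerivAt.tendsto_slope_zero
        have h2 : Tendsto h atTop (𝓝[≠] 0) := by
          apply tendsto_nhdsWithin_of_tendsto_nhds_of_eventually_within _ hlim
          filter_upwards with n
          exact (hpos n).ne'
        have h3 := h1.comp h2
        simpa [Function.comp_def, smul_eq_mul] using h3
      have hev : ∀ᶠ n in atTop, F n u = (h n)⁻¹ * (a (u + h n) - a u) * deriv M u := by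
        have h1 : ∀ᶠ n in atTop, h n < B₁ - u := hlim.eventually_lt_const (by linarith)
        filter_upwards [h1] with n hn
        simp only [hF]
        rw [indicator_of_mem]
        simp only [mem_Iio]
        linarith
      refine Tendsto.congr' (hev.mono fun n hn => hn.symm) ?_
      exact hsl.mul_const _
  have hge : ∀ n, -(s₀ * M 0) - K * K' * h n ≤ ∫ u in (0 : ℝ)..B₁, F n u := by
    intro n
    have h1 := MON_step hc ha hM hM0 hM1 hs (hpos n) (hlt n)
    refine h1.trans (le_of_eq ?_)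
    have hle : (0 : ℝ) ≤ B₁ - h n := by linarith [hlt n]
    simp only [hF]
    rw [intervalIntegral.integral_of_le hle, intervalIntegral.integral_of_le hB.le,
      setIntegral_indicator measurableSet_Iio]
    have : Ioc (0 : ℝ) B₁ ∩ Iio (B₁ - h n) = Ioo 0 (B₁ - h n) := by
      ext x
      simp only [mem_inter_iff, mem_Ioc, mem_Iio, mem_Ioo]
      constructor
      · rintro ⟨⟨h2, _⟩, h3⟩; exact ⟨h2, h3⟩
      · rintro ⟨h2, h3⟩; exact ⟨⟨h2, by linarith [hpos n]⟩, h3⟩
    rw [this, integral_Ioc_eq_integral_Ioo]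
  have hl2 : Tendsto (fun n => -(s₀ * M 0) - K * K' * h n) atTop (𝓝 (-(s₀ * M 0) - K * K' * 0)) :=
    tendsto_const_nhds.sub (hlim.const_mul _)
  rw [mul_zero, sub_zero] at hl2
  exact le_of_tendsto_of_tendsto' hl2 hconv hge

theorem p_MON : Sp_MON := by
  intro a M B₁ s₀ hB hc ⟨K, hK⟩ ⟨K', hK'⟩ hM0 hM1 hs
  obtain ⟨a', ha', ea⟩ := hK.extend_real
  obtain ⟨M', hM', eM⟩ := hK'.extend_real
  have h0 : (0 : ℝ) ∈ Icc 0 B₁ := ⟨le_rfl, hB.le⟩
  have h1 : B₁ ∈ Icc 0 B₁ := ⟨hB.le, le_rfl⟩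
  have hc' : ConcaveOn ℝ (Icc 0 B₁) a' := hc.congr ea
  have hmain := MON_core (a := a') (M := M') (s₀ := s₀) hB hc' ha' hM'
    (fun B hB' => by rw [← eM hB']; exact hM0 B hB') (by rw [← eM h1]; exact hM1)
    (fun B hB' => by rw [← ea hB', ← ea h0]; exact hs B hB')
  rw [← eM h0] at hmain
  refine hmain.trans (le_of_eq ?_)
  apply intervalIntegral.integral_congr_ae
  have hne : ∀ᵐ x : ℝ, x ≠ B₁ := by
    rw [ae_iff]; simp
  filter_upwards [hne] with x hx1 hx2
  rw [uIoc_of_le hB.le] at hx2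
  have hx : x ∈ Ioo 0 B₁ := ⟨hx2.1, lt_of_le_of_ne hx2.2 hx1⟩
  have e1 : deriv a x = deriv a' x := (ea.mono Ioo_subset_Icc_self).deriv isOpen_Ioo hx
  have e2 : deriv M x = deriv M' x := (eM.mono Ioo_subset_Icc_self).deriv isOpen_Ioo hx
  rw [e1, e2]

end Pool.Agent.FAN4
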