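import Pool.Agent.FAN4.StP

/-!
# FAN4, block PATH: the second potential is nonnegative
-/

set_option autoImplicit false

open MeasureTheory Set

namespace Pool.Agent.FAN4

theorem p_MPO (hFFF : Sp_FFF) (hOMG : Sp_OMG) : Sp_MPO := by
  intro P L a c B hL hB ha hc hBa har hBc hcr
  obtain ⟨_, f2, _, f4, _⟩ := hFFF P
  obtain ⟨o1, _⟩ := hOMG P L hL
  have hr := P.r0
  have hm : 0 ≤ min a c - B := by
    have := le_min hBa hBc
    linarith
  refine ⟨?_, ?_, ?_⟩
  · unfold Par.M
    apply mul_nonneg (by norm_num)
    apply intervalIntegral.integral_nonneg (by linarith)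
    intro u hu
    have h1 : min a c ≤ a := min_le_left _ _
    have h2 : min a c ≤ c := min_le_right _ _
    have hz : |2 * u - 2 * a + B| < L := by
      rw [abs_lt]
      constructor <;> linarith [hu.1, hu.2]
    have hg : 0 ≤ P.g L (2 * u - 2 * a + B) := by
      unfold Par.g
      exact mul_nonneg (by linarith [hu.1]) (o1 _ hz).le
    have hf : P.f (a + c - B) ≤ P.f u :=
      f4 (mem_Ioi.2 (by linarith [hu.1])) (mem_Ioi.2 (by linarith)) (by linarith [hu.2])
    exact mul_nonneg hg (by linarith)
  · intro h
    have h0 : min a c - B = 0 := by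
      rcases h with h | h
      · rw [min_eq_left (by linarith)]
        linarith
      · rw [min_eq_right (by linarith)]
        linarith
    unfold Par.M
    rw [h0, add_zero, intervalIntegral.integral_same, mul_zero]
  · intro h
    unfold Par.M
    have : ∫ u in a..(a + (min a c - B)), P.g L (2 * u - 2 * a + B) *
        (P.f u - P.f (a + c - B)) = ∫ _ in a..(a + (min a c - B)), (0 : ℝ) := by
      apply intervalIntegral.integral_congr
      intro u hu
      rw [uIcc_of_le (by linarith)] at hu
      simp only
      rw [f2 u (by linarith [hu.1]), f2 (a + c - B) (by linarith)]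
      ring
    rw [this, intervalIntegral.integral_zero, mul_zero]

end Pool.Agent.FAN4
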