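import Pool.Agent.FAN4.StP

/-!
# FAN4, block PATH, module OMG: the weight
-/

set_option autoImplicit false

open MeasureTheory Set

namespace Pool.Agent.FAN4

lemma OMG_base {L z : ℝ} (h : |z| < L) : 0 < L ^ 2 - z ^ 2 := by
  rw [abs_lt] at h
  exact sub_pos.2 (sq_lt_sq' h.1 h.2)

lemma OMG_pos (P : Par) {L z : ℝ} (h : |z| < L) : 0 < P.om L z :=
  Real.rpow_pos_of_pos (OMG_base h) _

lemma OMG_hasDeriv_base (L z : ℝ) : HasDerivAt (fun z : ℝ => L ^ 2 - z ^ 2) (-(2 * z)) z := by
  have h := (hasDerivAt_pow 2 z).const_sub (L ^ 2)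
  simpa using h

lemma OMG_om_deriv (P : Par) {L z : ℝ} (h : |z| < L) : HasDerivAt (P.om L) (P.dom L z) z := by
  have h0 := OMG_base h
  have h1 := (OMG_hasDeriv_base L z).rpow_const (p := (P.ρ - 1) / 2) (Or.inl h0.ne')
  have h2 : -(2 * z) * ((P.ρ - 1) / 2) * (L ^ 2 - z ^ 2) ^ ((P.ρ - 1) / 2 - 1) = P.dom L z := by
    unfold Par.dom
    have h3 : (P.ρ - 1) / 2 - 1 = (P.ρ - 3) / 2 := by ring
    rw [h3]
    ring
  rw [h2] at h1
  exact h1

lemma OMG_g_deriv (P : Par) {L z : ℝ} (h : |z| < L) : HasDerivAt (P.g L) (P.dg L z) z := by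
  have h1 := (hasDerivAt_id z).mul (OMG_om_deriv P h)
  have h2 : (1 : ℝ) * P.om L z + id z * P.dom L z = P.dg L z := by
    unfold Par.dg
    rw [one_mul, id]
  rw [h2] at h1
  exact h1

lemma OMG_G_deriv (P : Par) (hρ : 0 < P.ρ) {L z : ℝ} (h : |z| < L) :
    HasDerivAt (P.G L) (P.g L z) z := by
  have h0 := OMG_base h
  have h1 := (OMG_hasDeriv_base L z).rpow_const (p := (P.ρ + 1) / 2) (Or.inl h0.ne')
  have h2 := (h1.neg).div_const (P.ρ + 1)
  have h3 : -(-(2 * z) * ((P.ρ + 1) / 2) * (L ^ 2 - z ^ 2) ^ ((P.ρ + 1) / 2 - 1)) / (P.ρ + 1) =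
      P.g L z := by
    unfold Par.g Par.om
    have h4 : (P.ρ + 1) / 2 - 1 = (P.ρ - 1) / 2 := by ring
    have h5 : P.ρ + 1 ≠ 0 := by positivity
    rw [h4]
    field_simp
  rw [h3] at h2
  exact h2

lemma OMG_dom_cont (P : Par) {L z : ℝ} (h : |z| < L) : ContinuousAt (P.dom L) z := by
  have h0 := OMG_base h
  unfold Par.dom
  have h1 : ContinuousAt (fun z : ℝ => L ^ 2 - z ^ 2) z := (OMG_hasDeriv_base L z).continuousAt
  have h2 := h1.rpow_const (p := (P.ρ - 3) / 2) (Or.inl h0.ne')
  have h3 : ContinuousAt (fun z : ℝ => (1 - P.ρ) * z) z := by fun_prop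
  exact h3.mul h2

theorem p_OMG (hPAR : Sp_PAR) : Sp_OMG := by
  intro P L hL
  obtain ⟨hρ0, hρ1, -, -, -, -, -⟩ := hPAR P
  have hr := P.r0
  have hL0 : 0 < L := by linarith
  have hmono : MonotoneOn (P.om L) (Ico 0 L) := by
    intro x hx y hy hxy
    unfold Par.om
    apply Real.rpow_le_rpow_of_nonpos
    · exact OMG_base (by rw [abs_of_nonneg hy.1]; exact hy.2)
    · have h1 : x ^ 2 ≤ y ^ 2 := pow_le_pow_left₀ hx.1 hxy 2
      linarith
    · linarith
  have hdom : ∀ z, 0 ≤ z → z < L → 0 ≤ P.dom L z := by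
    intro z hz hzL
    unfold Par.dom
    have h1 : 0 < L ^ 2 - z ^ 2 := OMG_base (by rw [abs_of_nonneg hz]; exact hzL)
    have h2 : 0 ≤ 1 - P.ρ := by linarith
    positivity
  refine ⟨fun z hz => OMG_pos P hz, hmono, ?_, hdom, ?_, ?_⟩
  · intro z hz
    refine ⟨OMG_om_deriv P hz, OMG_g_deriv P hz, OMG_G_deriv P hρ0 hz, ?_, OMG_dom_cont P hz, ?_⟩
    · unfold Par.dg
      exact (OMG_om_deriv P hz).continuousAt.add (continuousAt_id.mul (OMG_dom_cont P hz))
    · unfold Par.dg
      have h1 := OMG_pos P hz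
      have h2 : 0 < L ^ 2 - z ^ 2 := OMG_base hz
      have h3 : z * P.dom L z = (1 - P.ρ) * z ^ 2 * (L ^ 2 - z ^ 2) ^ ((P.ρ - 3) / 2) := by
        unfold Par.dom
        ring
      rw [h3]
      have h4 : 0 ≤ 1 - P.ρ := by linarith
      positivity
  · intro B m hB hm hE
    have hBL : B < L := by linarith
    have hEL : B + 2 * m ≤ L / 5 := by linarith
    set X := L ^ 2 - B ^ 2 with hX
    set Y := L ^ 2 - (B + 2 * m) ^ 2 with hY
    have hE2 : (B + 2 * m) ^ 2 ≤ (L / 5) ^ 2 := pow_le_pow_left₀ (by linarith) hEL 2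
    have hY0 : L ^ 2 / 2 ≤ Y := by
      rw [hY]
      nlinarith
    have hY1 : 0 < Y := by
      have : 0 < L ^ 2 / 2 := by positivity
      linarith
    have hXY : X = Y + 4 * m * (B + m) := by
      rw [hX, hY]
      ring
    have hYX : Y ≤ X := by
      rw [hXY]
      have : 0 ≤ 4 * m * (B + m) := by positivity
      linarith
    have hX0 : 0 < X := lt_of_lt_of_le hY1 hYX
    have h1 : P.om L (B + 2 * m) = P.om L B * (X / Y) ^ ((1 - P.ρ) / 2) := by
      unfold Par.om
      rw [← hX, ← hY, Real.div_rpow hX0.le hY1.le]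
      have h2 : (P.ρ - 1) / 2 = -((1 - P.ρ) / 2) := by ring
      rw [h2, Real.rpow_neg hX0.le, Real.rpow_neg hY1.le]
      have h3 : X ^ ((1 - P.ρ) / 2) ≠ 0 := (Real.rpow_pos_of_pos hX0 _).ne'
      field_simp
    rw [h1]
    apply mul_le_mul_of_nonneg_left _ (OMG_pos P (by rw [abs_of_nonneg hB]; exact hBL)).le
    have h2 : (1 : ℝ) ≤ X / Y := (one_le_div hY1).2 hYX
    have h3 : (X / Y) ^ ((1 - P.ρ) / 2) ≤ (X / Y) ^ (1 : ℝ) :=
      Real.rpow_le_rpow_of_exponent_le h2 (by linarith)
    rw [Real.rpow_one] at h3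
    refine h3.trans ?_
    rw [hXY, add_div, div_self hY1.ne']
    have h4 : 4 * m * (B + m) / Y ≤ 4 * m * (B + m) / (L ^ 2 / 2) := by
      apply div_le_div_of_nonneg_left (by positivity) (by positivity) hY0
    have h5 : 4 * m * (B + m) / (L ^ 2 / 2) = 8 * m * (B + m) / L ^ 2 := by
      field_simp
      ring
    linarith
  · intro B m hB hm hE
    have hBE : B ≤ B + 2 * m := by linarith
    have hlt : ∀ z ∈ Icc B (B + 2 * m), |z| < L := by
      intro z hz
      rw [abs_of_nonneg (hB.trans hz.1)]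
      linarith [hz.2]
    have hder : ∀ w : ℝ, ∀ z ∈ Icc B (B + 2 * m),
        HasDerivAt (fun z => P.G L z - w * z ^ 2 / 2) (P.g L z - w * z) z := by
      intro w z hz
      have h1 := OMG_G_deriv P hρ0 (hlt z hz)
      have h2 := ((hasDerivAt_pow 2 z).const_mul w).div_const 2
      have h3 := h1.sub h2
      have h4 : P.g L z - w * (((2 : ℕ) : ℝ) * z ^ (2 - 1)) / 2 = P.g L z - w * z := by
        push_cast
        ring
      rw [h4] at h3
      exact h3
    have hmem1 : B ∈ Icc B (B + 2 * m) := ⟨le_refl _, hBE⟩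
    have hmem2 : B + 2 * m ∈ Icc B (B + 2 * m) := ⟨hBE, le_refl _⟩
    have hI : ∀ z ∈ Icc B (B + 2 * m), z ∈ Ico 0 L := by
      intro z hz
      exact ⟨hB.trans hz.1, by linarith [hz.2]⟩
    constructor
    · have hm1 : MonotoneOn (fun z => P.G L z - P.om L B * z ^ 2 / 2) (Icc B (B + 2 * m)) := by
        apply monotoneOn_of_deriv_nonneg (convex_Icc _ _)
        · intro z hz
          exact (hder _ z hz).continuousAt.continuousWithinAt
        · intro z hz
          exact (hder _ z (interior_subset hz)).differentiableAt.differentiableWithinAt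
        · intro z hz
          have hz' := interior_subset hz
          rw [(hder _ z hz').deriv]
          have h1 : P.om L B ≤ P.om L z := hmono (hI B hmem1) (hI z hz') hz'.1
          have h2 : P.g L z - P.om L B * z = z * (P.om L z - P.om L B) := by
            unfold Par.g
            ring
          rw [h2]
          exact mul_nonneg (hB.trans hz'.1) (by linarith)
      have h1 := hm1 hmem1 hmem2 hBE
      simp only at h1
      nlinarith
    · have hm1 : AntitoneOn (fun z => P.G L z - P.om L (B + 2 * m) * z ^ 2 / 2)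
          (Icc B (B + 2 * m)) := by
        apply antitoneOn_of_deriv_nonpos (convex_Icc _ _)
        · intro z hz
          exact (hder _ z hz).continuousAt.continuousWithinAt
        · intro z hz
          exact (hder _ z (interior_subset hz)).differentiableAt.differentiableWithinAt
        · intro z hz
          have hz' := interior_subset hz
          rw [(hder _ z hz').deriv]
          have h1 : P.om L z ≤ P.om L (B + 2 * m) := hmono (hI z hz') (hI _ hmem2) hz'.2
          have h2 : P.g L z - P.om L (B + 2 * m) * z = -(z * (P.om L (B + 2 * m) - P.om L z)) := by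
            unfold Par.g
            ring
          rw [h2, neg_nonpos]
          exact mul_nonneg (hB.trans hz'.1) (by linarith)
      have h1 := hm1 hmem1 hmem2 hBE
      simp only at h1
      nlinarith

end Pool.Agent.FAN4
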