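import Pool.Agent.FAN4.P_PTP

/-!
# FAN4, block PATH: ONE (helper48). One turning sense.
-/

set_option autoImplicit false

open MeasureTheory Set

namespace Pool.Agent.FAN4

namespace Par

variable (P : Par)

theorem ONE_f_zero {z : ℝ} (hz : P.r ≤ z) : P.f z = 0 := by
  unfold f
  have h : z ^ (P.e - 1) ≤ P.r ^ (P.e - 1) :=
    Real.rpow_le_rpow_of_nonpos P.r0 hz (by linarith [P.e1])
  exact max_eq_right (by linarith)

theorem ONE_mdn_le_r (A : List (ℝ × ℝ)) (φ : ℝ) : P.mdn A φ ≤ P.r := by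
  unfold mdn
  induction A with
  | nil => simp
  | cons q A ih => exact (min_le_right _ _).trans ih

theorem ONE_lt_mdn (A : List (ℝ × ℝ)) (φ x : ℝ) (hr : x < P.r) (h : ∀ q ∈ A, x < dn q φ) : x < P.mdn A φ := by
  unfold mdn
  induction A with
  | nil => simpa using hr
  | cons q A ih =>
    show x < min _ _
    rw [lt_min_iff]
    exact ⟨h q List.mem_cons_self, ih fun q' hq' => h q' (List.mem_cons_of_mem _ hq')⟩

theorem ONE_dn_refl (L : ℝ) (q : ℝ × ℝ) (φ : ℝ) : dn (L - q.1, q.2) φ = up q φ - L * Real.sin φ := by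
  unfold up dn; ring

theorem ONE_mup (L : ℝ) (A : List (ℝ × ℝ)) (φ : ℝ) (h : 0 ≤ L * Real.sin φ) :
    P.mup A φ = min (P.mdn (refl L A) φ + L * Real.sin φ) P.r := by
  induction A with
  | nil =>
    show P.r = min (P.r + L * Real.sin φ) P.r
    rw [min_eq_right]
    linarith
  | cons q A ih =>
    have e1 : P.mup (q :: A) φ = min (up q φ) (P.mup A φ) := rfl
    have e2 : P.mdn (refl L (q :: A)) φ = min (dn (L - q.1, q.2) φ) (P.mdn (refl L A) φ) := rfl
    rw [e1, e2, ih, ONE_dn_refl, ← min_assoc]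
    congr 1
    rw [← min_add_add_right, sub_add_cancel]

end Par

open Par

theorem ONE_refl_refl (L : ℝ) (A : List (ℝ × ℝ)) : refl L (refl L A) = A := by
  unfold refl
  rw [List.map_map]
  conv_rhs => rw [← List.map_id A]
  apply List.map_congr_left
  intro q _
  simp

theorem p_ONE (hH : Sp_HBF) (hG : Sp_ALG) : Sp_ONE := by
  intro P L A C φ₁ T₁ T₂ T₃ T₄ hL hA hC hlife hF1 hF2 hT1 hT2 hT3 hT4
  obtain ⟨hφ0, hφ1, hl, hend⟩ := hlife
  have hr := P.r0
  have hLp : 0 < L := by linarith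
  have hpi := Real.pi_pos
  have hC' : ∀ q ∈ refl L C, 0 < q.2 := by
    intro q hq
    obtain ⟨q', hq', rfl⟩ := List.mem_map.1 hq
    exact hC q' hq'
  set B₁ := min (L * Real.sin φ₁) P.r with hB₁
  have hsin : 0 < Real.sin φ₁ := Real.sin_pos_of_pos_of_lt_pi hφ0 (by linarith)
  have hB1pos : 0 < B₁ := lt_min (by positivity) hr
  have hB1r : B₁ ≤ P.r := min_le_right _ _
  have hB1s : B₁ ≤ L * Real.sin φ₁ := min_le_left _ _
  have hB1L : B₁ ≤ L / 2 := by linarith
  have hBL1 : B₁ / L ≤ Real.sin φ₁ := by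
    rw [div_le_iff₀ hLp]; linarith
  set ψ := Real.arcsin (B₁ / L) with hψ
  have hψ0 : 0 < ψ := Real.arcsin_pos.2 (by positivity)
  have hψ1 : ψ ≤ φ₁ := by
    rw [hψ, Real.arcsin_le_iff_le_sin' ⟨by linarith, hφ1⟩]
    exact hBL1
  have hsψ : L * Real.sin ψ = B₁ := by
    rw [hψ, Real.sin_arcsin]
    · field_simp
    · have : 0 ≤ B₁ / L := by positivity
      linarith
    · exact hBL1.trans (Real.sin_le_one _)
  set F : ℝ → ℝ := fun φ => P.W L A C T₁ T₂ φ + P.W L (refl L C) (refl L A) T₃ T₄ φ with hFdef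
  -- beyond ψ the integrand vanishes
  have hzero : ∀ φ, 0 < φ → φ < φ₁ → P.r ≤ L * Real.sin φ → F φ = 0 := by
    intro φ h0 h1 hrr
    have hs : 0 ≤ L * Real.sin φ := by linarith
    have hmA : 0 < P.mdn (refl L A) φ := by
      apply P.ONE_lt_mdn _ _ _ hr
      intro q hq
      obtain ⟨q', hq', rfl⟩ := List.mem_map.1 hq
      rw [ONE_dn_refl]
      have := (hl φ h0.le h1).1 q' hq'
      linarith
    have hmC : 0 < P.mdn C φ := by
      apply P.ONE_lt_mdn _ _ _ hr
      intro q hq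
      exact (hl φ h0.le h1).2 q hq
    have hA' : P.mup A φ = P.r := by
      rw [P.ONE_mup L A φ hs, min_eq_right]
      linarith
    have hC'' : P.mup (refl L C) φ = P.r := by
      rw [P.ONE_mup L (refl L C) φ hs, ONE_refl_refl, min_eq_right]
      linarith
    have key : ∀ b T T' T'' : ℝ, 0 < b → P.Ph (L * Real.sin φ) T b T' - P.Ph P.r T'' b T' = 0 := by
      intro b T T' T'' hb
      unfold Ph w
      rw [P.ONE_f_zero hrr, P.ONE_f_zero (z := L * Real.sin φ + b) (by linarith),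
        P.ONE_f_zero (z := b + L * Real.sin φ) (by linarith), P.ONE_f_zero (z := P.r) le_rfl,
        P.ONE_f_zero (z := P.r + b) (by linarith), P.ONE_f_zero (z := b + P.r) (by linarith)]
      ring
    show P.W L A C T₁ T₂ φ + P.W L (refl L C) (refl L A) T₃ T₄ φ = 0
    unfold W
    rw [hA', hC'', key _ _ _ _ hmC, key _ _ _ _ hmA]
    ring
  have step1 : ∫ φ in (0 : ℝ)..φ₁, F φ = ∫ φ in Ioo 0 ψ, F φ := by
    rw [intervalIntegral.integral_of_le hφ0.le, integral_Ioc_eq_integral_Ioo]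
    refine setIntegral_eq_of_subset_of_forall_sdiff_eq_zero measurableSet_Ioo
      (Ioo_subset_Ioo le_rfl hψ1) ?_
    rintro φ ⟨h1, h2⟩
    have hψφ : ψ ≤ φ := by
      by_contra hc
      push Not at hc
      exact h2 ⟨h1.1, hc⟩
    apply hzero φ h1.1 h1.2
    have hψφ1 : ψ < φ₁ := lt_of_le_of_lt hψφ h1.2
    have hB1r' : B₁ = P.r := by
      rcases le_or_gt P.r (L * Real.sin φ₁) with h3 | h3
      · exact min_eq_right h3
      · exfalso
        have h4 : B₁ = L * Real.sin φ₁ := min_eq_left h3.le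
        have : ψ = φ₁ := by
          rw [hψ, h4, mul_div_assoc, mul_comm, div_mul_cancel₀ _ hLp.ne', Real.arcsin_sin]
          · linarith
          · exact hφ1.le
        linarith
    rw [← hB1r', ← hsψ]
    apply mul_le_mul_of_nonneg_left _ hLp.le
    apply Real.sin_le_sin_of_le_of_le_pi_div_two <;> linarith [h1.2]
  -- substitution
  set h' : ℝ → ℝ := fun B => F (Real.arcsin (B / L)) / (L * Real.cos (Real.arcsin (B / L))) with hh'
  have himg : (fun φ => L * Real.sin φ) '' Ioo 0 ψ = Ioo 0 B₁ := by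
    ext B
    constructor
    · rintro ⟨φ, hφ, rfl⟩
      constructor
      · have : 0 < Real.sin φ := Real.sin_pos_of_pos_of_lt_pi hφ.1 (by linarith [hφ.2])
        positivity
      · rw [← hsψ]
        apply mul_lt_mul_of_pos_left _ hLp
        apply Real.sin_lt_sin_of_lt_of_le_pi_div_two <;> linarith [hφ.1, hφ.2]
    · rintro ⟨h0, h1⟩
      refine ⟨Real.arcsin (B / L), ⟨Real.arcsin_pos.2 (by positivity), ?_⟩, ?_⟩
      · rw [hψ]
        apply Real.strictMonoOn_arcsin _ _ (by gcongr)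
        · have : 0 < B / L := by positivity
          refine ⟨by linarith, ?_⟩
          rw [div_le_one hLp]; linarith
        · have : 0 < B₁ / L := by positivity
          refine ⟨by linarith, ?_⟩
          rw [div_le_one hLp]; linarith
      · show L * Real.sin (Real.arcsin (B / L)) = B
        rw [Real.sin_arcsin]
        · field_simp
        · have : 0 ≤ B / L := by positivity
          linarith
        · rw [div_le_one hLp]; linarith
  have step2 : ∫ φ in Ioo 0 ψ, F φ = ∫ B in Ioo 0 B₁, h' B := by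
    rw [← himg]
    rw [integral_image_eq_integral_abs_deriv_smul (f := fun φ => L * Real.sin φ)
      (f' := fun φ => L * Real.cos φ) measurableSet_Ioo]
    · apply setIntegral_congr_fun measurableSet_Ioo
      intro φ hφ
      have hc : 0 < Real.cos φ := Real.cos_pos_of_mem_Ioo ⟨by linarith [hφ.1], by linarith [hφ.2]⟩
      have ha : Real.arcsin (L * Real.sin φ / L) = φ := by
        rw [mul_div_assoc, mul_comm, div_mul_cancel₀ _ hLp.ne', Real.arcsin_sin]
        · linarith [hφ.1]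
        · linarith [hφ.2]
      have hN : 0 < L * Real.cos φ := by positivity
      show F φ = |L * Real.cos φ| • h' (L * Real.sin φ)
      rw [hh']
      simp only [smul_eq_mul]
      rw [ha, abs_of_pos hN]
      field_simp
    · intro φ _
      exact ((Real.hasDerivAt_sin φ).const_mul L).hasDerivWithinAt
    · intro x hx y hy hxy
      have : Real.sin x = Real.sin y := mul_left_cancel₀ hLp.ne' hxy
      exact Real.injOn_sin ⟨by linarith [hx.1], by linarith [hx.2]⟩
        ⟨by linarith [hy.1], by linarith [hy.2]⟩ this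
  rw [step1, step2, intervalIntegral.integral_of_le hB1pos.le, integral_Ioc_eq_integral_Ioo]
  apply setIntegral_congr_ae measurableSet_Ioo
  obtain ⟨-, ⟨Ka, hKa⟩, -, -, -, -, ha7⟩ := hH P L A hL hA
  obtain ⟨-, ⟨Kc, hKc⟩, -, -, -, -, hc7⟩ := hH P L (refl L C) hL hC'
  have hL2 : (0 : ℝ) ≤ L / 2 := by linarith
  have haeA : ∀ᵐ x, x ∈ uIcc 0 (L / 2) → DifferentiableAt ℝ (hB P L A) x :=
    (LipschitzOnWith.absolutelyContinuousOnInterval (by rwa [uIcc_of_le hL2])).ae_differentiableAt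
  have haeC : ∀ᵐ x, x ∈ uIcc 0 (L / 2) → DifferentiableAt ℝ (hB P L (refl L C)) x :=
    (LipschitzOnWith.absolutelyContinuousOnInterval (by rwa [uIcc_of_le hL2])).ae_differentiableAt
  rw [uIcc_of_le hL2] at haeA haeC
  filter_upwards [haeA, haeC] with B hdA hdC hBm
  have hB2 : B < L / 2 := by linarith [hBm.2]
  have hdA' := hdA ⟨hBm.1.le, hB2.le⟩
  have hdC' := hdC ⟨hBm.1.le, hB2.le⟩
  set φ := Real.arcsin (B / L) with hφ
  have hBLp : 0 < B / L := div_pos hBm.1 hLp
  have hBL2 : B / L < 1 := by rw [div_lt_one hLp]; linarith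
  have hφpos : 0 < φ := Real.arcsin_pos.2 hBLp
  have hφlt : φ < φ₁ := by
    rw [hφ, Real.arcsin_lt_iff_lt_sin' ⟨by linarith, hφ1.le⟩]
    refine lt_of_lt_of_le ?_ hBL1
    exact (div_lt_div_iff_of_pos_right hLp).2 hBm.2
  have hsφ : L * Real.sin φ = B := by
    rw [hφ, Real.sin_arcsin (by linarith) hBL2.le]
    field_simp
  have hcφ : 0 < Real.cos φ := Real.cos_pos_of_mem_Ioo ⟨by linarith, by linarith⟩
  have hN : 0 < L * Real.cos φ := by positivity
  have hBr : B < P.r := lt_of_lt_of_le hBm.2 hB1r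
  have hs0 : 0 ≤ L * Real.sin φ := by rw [hsφ]; exact hBm.1.le
  have dA := PTP_deriv hH P L A φ₁ hL hA hF1 B hBm.1 hB2 hφlt hdA'
  have dC := PTP_deriv hH P L (refl L C) φ₁ hL hC' hF2 B hBm.1 hB2 hφlt hdC'
  have hmA : 0 < P.mdn (refl L A) φ := by
    apply P.ONE_lt_mdn _ _ _ hr
    intro q hq
    obtain ⟨q', hq', rfl⟩ := List.mem_map.1 hq
    rw [ONE_dn_refl]
    have := (hl φ hφpos.le hφlt).1 q' hq'
    linarith
  have hmC : 0 < P.mdn C φ := by
    apply P.ONE_lt_mdn _ _ _ hr
    intro q hq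
    exact (hl φ hφpos.le hφlt).2 q hq
  have eA : P.mup A φ = min (P.mdn (refl L A) φ + B) P.r := by
    rw [P.ONE_mup L A φ hs0, hsφ]
  have eC : P.mup (refl L C) φ = min (P.mdn C φ + B) P.r := by
    rw [P.ONE_mup L (refl L C) φ hs0, hsφ, ONE_refl_refl]
  have eA2 : P.mdn (refl L A) φ = min (P.mdn (refl L A) φ + B - B) P.r := by
    rw [add_sub_cancel_right, min_eq_left (P.ONE_mdn_le_r _ _)]
  have eC2 : P.mdn C φ = min (P.mdn C φ + B - B) P.r := by
    rw [add_sub_cancel_right, min_eq_left (P.ONE_mdn_le_r _ _)]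
  have hfA : P.mdn (refl L A) φ + B < P.r → T₁ φ = L * Real.cos φ * deriv (hB P L A) B ∧
      T₄ φ = L * Real.cos φ * (1 - deriv (hB P L A) B) := by
    intro hlt
    have hmup : P.mup A φ = P.mdn (refl L A) φ + B := by
      rw [eA, min_eq_left hlt.le]
    constructor
    · obtain ⟨q, hq, h1, h2⟩ := hT1 φ hφpos hφlt (by rw [hmup]; exact hlt)
      have := (ha7 B hBm.1 hB2 hdA').2 q hq h1
      rw [h2, ← this]; ring
    · obtain ⟨q', hq', h1, h2⟩ := hT4 φ hφpos hφlt (by linarith [hBm.1])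
      obtain ⟨q, hq, rfl⟩ := List.mem_map.1 hq'
      rw [ONE_dn_refl, hsφ] at h1
      have := (ha7 B hBm.1 hB2 hdA').2 q hq (by
        show up q φ = P.mup A φ
        rw [hmup]; linarith)
      rw [h2]
      have e : L * Real.cos φ * (1 - deriv (hB P L A) B) =
          L * Real.cos φ - deriv (hB P L A) B * (L * Real.cos φ) := by ring
      rw [e, this]
      ring
  have hfC : P.mdn C φ + B < P.r → T₃ φ = L * Real.cos φ * deriv (hB P L (refl L C)) B ∧
      T₂ φ = L * Real.cos φ * (1 - deriv (hB P L (refl L C)) B) := by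
    intro hlt
    have hmup : P.mup (refl L C) φ = P.mdn C φ + B := by
      rw [eC, min_eq_left hlt.le]
    constructor
    · obtain ⟨q, hq, h1, h2⟩ := hT3 φ hφpos hφlt (by rw [hmup]; exact hlt)
      have := (hc7 B hBm.1 hB2 hdC').2 q hq h1
      rw [h2, ← this]; ring
    · obtain ⟨q, hq, h1, h2⟩ := hT2 φ hφpos hφlt (by linarith [hBm.1])
      have := (hc7 B hBm.1 hB2 hdC').2 (L - q.1, q.2) (List.mem_map.2 ⟨q, hq, rfl⟩) (by
        show up (L - q.1, q.2) φ = P.mup (refl L C) φ
        rw [hmup, PTP_up_refl, h1, hsφ])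
      rw [h2]
      have e : L * Real.cos φ * (1 - deriv (hB P L (refl L C)) B) =
          L * Real.cos φ - deriv (hB P L (refl L C)) B * (L * Real.cos φ) := by ring
      rw [e, this]
      ring
  have main := hG P (L * Real.cos φ) B (P.mdn (refl L A) φ + B) (P.mdn C φ + B)
    (deriv (hB P L A) B) (deriv (hB P L (refl L C)) B) (T₁ φ) (T₂ φ) (T₃ φ) (T₄ φ) hN hBm.1 hBr
    (by linarith) (by linarith) dA.1 dA.2 dC.1 dC.2 hfA hfC
  rw [← eA, ← eC, ← eA2, ← eC2] at main
  have hFφ : F φ = (L * Real.cos φ) ^ P.ρ * P.I (hB P L A B) (hB P L (refl L C) B) B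
      (deriv (hB P L A) B) (deriv (hB P L (refl L C)) B) := by
    show P.W L A C T₁ T₂ φ + P.W L (refl L C) (refl L A) T₃ T₄ φ = _
    unfold W
    rw [hsφ]
    exact main
  have hom : P.om L B = (L * Real.cos φ) ^ P.ρ / (L * Real.cos φ) := by
    have e1 : L ^ 2 - B ^ 2 = (L * Real.cos φ) ^ 2 := by
      have := Real.sin_sq_add_cos_sq φ
      rw [← hsφ]
      have e2 : Real.cos φ ^ 2 = 1 - Real.sin φ ^ 2 := by linarith
      rw [mul_pow, mul_pow, e2]; ring
    unfold om
    rw [e1, ← Real.rpow_natCast (L * Real.cos φ) 2, ← Real.rpow_mul hN.le, ← Real.rpow_sub_one hN.ne']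
    congr 1
    push_cast
    ring
  show F φ / (L * Real.cos φ) = _
  rw [hFφ, hom]
  ring

end Pool.Agent.FAN4
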