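import Pool.Agent.FAN4.StP

/-!
# FAN4, block PATH: the parameters
-/

set_option autoImplicit false

open Set

namespace Pool.Agent.FAN4

theorem p_PAR : Sp_PAR := by
  intro P
  have he0 := P.e0
  have he1 := P.e1
  have hρ := P.hρ
  have h0 : 0 < P.ρ := by
    by_contra h
    push Not at h
    have : (2 : ℝ) ^ P.ρ ≤ (2 : ℝ) ^ (0 : ℝ) := Real.rpow_le_rpow_of_exponent_le (by norm_num) h
    rw [Real.rpow_zero, hρ] at this
    linarith
  have h1 : P.ρ < 1 := by
    by_contra h
    push Not at h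
    have : (2 : ℝ) ^ (1 : ℝ) ≤ (2 : ℝ) ^ P.ρ := Real.rpow_le_rpow_of_exponent_le (by norm_num) h
    rw [Real.rpow_one, hρ] at this
    linarith
  have h2 : P.e < P.ρ := by
    by_contra h
    push Not at h
    have h3 : (2 : ℝ) ^ P.ρ ≤ (2 : ℝ) ^ P.e := Real.rpow_le_rpow_of_exponent_le (by norm_num) h
    have h4 : (1 + (1 : ℝ)) ^ P.e < 1 + P.e * 1 :=
      rpow_one_add_lt_one_add_mul_self (by norm_num) (by norm_num) he0 he1
    rw [hρ] at h3
    norm_num at h4
    linarith
  have hk : 0 < 1 + P.e := by linarith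
  have hk1 : P.k * (1 + P.e) = 1 := by
    unfold Par.k
    field_simp
  refine ⟨h0, h1, h2, ?_, ?_, hk1, ?_⟩
  · unfold Par.k
    positivity
  · unfold Par.k
    rw [div_lt_one hk]
    linarith
  · intro x hx
    rw [Real.div_rpow (by linarith) (by norm_num), hρ]
    unfold Par.k
    ring

end Pool.Agent.FAN4
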