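import Pool.Agent.FAN4.StP

/-!
# FAN4, block PATH: assembly of the planar inequality
-/

set_option autoImplicit false

open MeasureTheory Set Filter Topology

namespace Pool.Agent.FAN4

theorem PLN_zero (P : Par) (L : ℝ) (A : List (ℝ × ℝ)) :
    hB P L A 0 = (A.map fun q => q.2).foldr min P.r := by
  unfold hB Par.mup
  simp [Par.up]

theorem PLN_refl_zero (P : Par) (L : ℝ) (A : List (ℝ × ℝ)) : hB P L (refl L A) 0 = hB P L A 0 := by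
  rw [PLN_zero, PLN_zero]
  unfold refl
  rw [List.map_map]
  rfl

theorem PLN_slope (hHBF : Sp_HBF) (hMPO : Sp_MPO) (P : Par) (L : ℝ) (A : List (ℝ × ℝ))
    (hL : 10 * P.r ≤ L) (hA : ∀ q ∈ A, 0 < q.2) :
    ∃ s s' : ℝ, (∀ B ∈ Icc 0 (L / 2), hB P L A B - hB P L A 0 ≤ s * B) ∧
      (∀ B ∈ Icc 0 (L / 2), hB P L (refl L A) B - hB P L (refl L A) 0 ≤ s' * B) ∧
      ∀ Y, 0 < Y → Y ≤ P.r → P.M L (hB P L A 0) Y 0 * ((2 * s - 1) + (2 * s' - 1)) = 0 := by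
  have hr := P.r0
  have hL0 : 0 < L := by linarith
  have hA' : ∀ q ∈ refl L A, 0 < q.2 := by
    intro q hq
    unfold refl at hq
    obtain ⟨q', hq', rfl⟩ := List.mem_map.1 hq
    exact hA q' hq'
  obtain ⟨_, _, h3, h4, h5, h6, _⟩ := hHBF P L A hL hA
  obtain ⟨_, _, _, h4', _, h6', _⟩ := hHBF P L (refl L A) hL hA'
  rcases (h4 0).lt_or_eq with hlt | heq
  · obtain ⟨q, hq, hq0⟩ := h5 hlt
    refine ⟨q.1 / L, (L - q.1) / L, h6 q hq hq0, ?_, ?_⟩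
    · refine h6' (L - q.1, q.2) ?_ ?_
      · unfold refl
        exact List.mem_map.2 ⟨q, hq, rfl⟩
      · rw [PLN_refl_zero]
        exact hq0
    · intro Y _ _
      have : 2 * (q.1 / L) - 1 + (2 * ((L - q.1) / L) - 1) = 0 := by
        field_simp
        ring
      rw [this, mul_zero]
  · refine ⟨0, 0, ?_, ?_, ?_⟩
    · intro B _
      rw [zero_mul, heq]
      linarith [h4 B]
    · intro B _
      rw [zero_mul, PLN_refl_zero, heq]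
      linarith [h4' B]
    · intro Y hY hYr
      have := (hMPO P L (hB P L A 0) Y 0 hL le_rfl h3 hY h3.le (h4 0) hY.le hYr).2.2 heq
      rw [this, zero_mul]

theorem p_PLN (hHBF : Sp_HBF) (hPTP : Sp_PTP) (hPTH : Sp_PTH) (hMPO : Sp_MPO)
    (hONE : Sp_ONE) : Sp_PLN := by
  intro P L A C φ₁ φ₂ T₁ T₂ T₃ T₄ T₅ T₆ T₇ T₈ hL hA hC l1 l2 f1 f2 f3 f4 t1 t2 t3 t4 t5 t6 t7 t8
  rw [hONE P L A C φ₁ T₁ T₂ T₃ T₄ hL hA hC l1 f1 f2 t1 t2 t3 t4,
    hONE P L C A φ₂ T₅ T₆ T₇ T₈ hL hC hA l2 f3 f4 t5 t6 t7 t8]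
  have p1 := hPTP P L A C φ₁ hL hA hC l1 f1 f2
  have p2 := hPTP P L C A φ₂ hL hC hA l2 f3 f4
  obtain ⟨sA, sA', a1, a2, a3⟩ := PLN_slope hHBF hMPO P L A hL hA
  obtain ⟨sC, sC', c1, c2, c3⟩ := PLN_slope hHBF hMPO P L C hL hC
  have hr := P.r0
  have sub1 : Icc 0 (min (L * Real.sin φ₁) P.r) ⊆ Icc 0 (L / 2) := fun B hB =>
    ⟨hB.1, by have := hB.2.trans (min_le_right _ _); linarith⟩
  have sub2 : Icc 0 (min (L * Real.sin φ₂) P.r) ⊆ Icc 0 (L / 2) := fun B hB =>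
    ⟨hB.1, by have := hB.2.trans (min_le_right _ _); linarith⟩
  have b1 := hPTH P L _ sA sC' _ _ p1 (fun B hB => a1 B (sub1 hB)) (fun B hB => c2 B (sub1 hB))
  have b2 := hPTH P L _ sC sA' _ _ p2 (fun B hB => c1 B (sub2 hB)) (fun B hB => a2 B (sub2 hB))
  rw [PLN_refl_zero] at b1 b2
  obtain ⟨_, _, x3, x4, _⟩ := hHBF P L A hL hA
  obtain ⟨_, _, y3, y4, _⟩ := hHBF P L C hL hC
  have e1 := a3 (hB P L C 0) y3 (y4 0)
  have e2 := c3 (hB P L A 0) x3 (x4 0)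
  have e3 : P.k * (P.ρ - P.e) * ((2 * sA - 1) * P.M L (hB P L A 0) (hB P L C 0) 0 +
      (2 * sC' - 1) * P.M L (hB P L C 0) (hB P L A 0) 0) +
      P.k * (P.ρ - P.e) * ((2 * sC - 1) * P.M L (hB P L C 0) (hB P L A 0) 0 +
      (2 * sA' - 1) * P.M L (hB P L A 0) (hB P L C 0) 0) = 0 := by
    linear_combination P.k * (P.ρ - P.e) * e1 + P.k * (P.ρ - P.e) * e2
  linarith

end Pool.Agent.FAN4
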