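import Pool.Agent.FAN4.StP

/-!
# FAN4, block PATH: the path lemma
-/

set_option autoImplicit false

open MeasureTheory Set Filter Topology

namespace Pool.Agent.FAN4

open scoped NNReal

theorem PTH_swap {P : Par} {L B₁ : ℝ} {a c : ℝ → ℝ} (h : Path P L B₁ a c) : Path P L B₁ c a :=
  { hL := h.hL, pos := h.pos, a0 := h.c0, c0 := h.a0, am := h.cm, cm := h.am, al := h.cl,
    cl := h.al, aconc := h.cconc, cconc := h.aconc, aB := h.cB, cB := h.aB, fin := h.fin.symm }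

theorem PTH_pos {P : Par} {L B₁ : ℝ} {a c : ℝ → ℝ} (h : Path P L B₁ a c) :
    ∀ B ∈ Icc 0 B₁, 0 < a B := fun _ hB =>
  lt_of_lt_of_le h.a0 (h.am ⟨le_rfl, h.pos.le⟩ hB hB.1)

/-- The product of the derivatives of two Lipschitz functions is integrable. -/
theorem PTH_int {a M : ℝ → ℝ} {B₁ : ℝ} {K K' : ℝ≥0} (hB : 0 < B₁)
    (ha : LipschitzOnWith K a (Icc 0 B₁)) (hM : LipschitzOnWith K' M (Icc 0 B₁)) :
    IntervalIntegrable (fun B => deriv a B * deriv M B) volume 0 B₁ := by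
  have hMd : IntervalIntegrable (deriv M) volume 0 B₁ := by
    apply AbsolutelyContinuousOnInterval.intervalIntegrable_deriv
    apply LipschitzOnWith.absolutelyContinuousOnInterval (K := K')
    rwa [uIcc_of_le hB.le]
  rw [intervalIntegrable_iff_integrableOn_Ioo_of_le hB.le] at hMd ⊢
  refine Integrable.mono' (hMd.norm.const_mul (K : ℝ)) ?_ ?_
  · exact ((measurable_deriv a).mul (measurable_deriv M)).aestronglyMeasurable
  · rw [ae_restrict_iff' measurableSet_Ioo]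
    filter_upwards with x hx
    rw [norm_mul]
    apply mul_le_mul_of_nonneg_right _ (norm_nonneg _)
    exact norm_deriv_le_of_lipschitzOn (Icc_mem_nhds hx.1 hx.2) ha

/-- One half of the lower bound. -/
theorem PTH_half (hMON : Sp_MON) (hMLP : Sp_MLP) (hMPO : Sp_MPO) {P : Par} {L B₁ s₀ : ℝ}
    {a c : ℝ → ℝ} (h : Path P L B₁ a c) (hs : ∀ B ∈ Icc 0 B₁, a B - a 0 ≤ s₀ * B) :
    IntervalIntegrable (fun B => (2 * deriv a B - 1) * deriv (fun z => P.M L (a z) (c z) z) B)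
      volume 0 B₁ ∧
    -((2 * s₀ - 1) * P.M L (a 0) (c 0) 0) ≤
      ∫ B in (0 : ℝ)..B₁, (2 * deriv a B - 1) * deriv (fun z => P.M L (a z) (c z) z) B := by
  obtain ⟨K, hK⟩ := hMLP P L B₁ a c h
  set N : ℝ → ℝ := fun z => P.M L (a z) (c z) z with hN
  have hI := PTH_int h.pos h.al hK
  have hac : AbsolutelyContinuousOnInterval N 0 B₁ := by
    apply LipschitzOnWith.absolutelyContinuousOnInterval (K := K)
    rwa [uIcc_of_le h.pos.le]
  have hI2 : IntervalIntegrable (deriv N) volume 0 B₁ := hac.intervalIntegrable_deriv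
  have hM := fun B (hB : B ∈ Icc 0 B₁) => hMPO P L (a B) (c B) B h.hL hB.1 (PTH_pos h B hB)
    (PTH_pos (PTH_swap h) B hB) (h.aB B hB).1 (h.aB B hB).2 (h.cB B hB).1 (h.cB B hB).2
  have hN0 : ∀ B ∈ Icc 0 B₁, 0 ≤ N B := fun B hB => (hM B hB).1
  have h1 : B₁ ∈ Icc 0 B₁ := ⟨h.pos.le, le_rfl⟩
  have hN1 : N B₁ = 0 := (hM B₁ h1).2.1 h.fin
  have hmon := hMON a N B₁ s₀ h.pos h.aconc ⟨1, h.al⟩ ⟨K, hK⟩ hN0 hN1 hs
  have e1 : (fun B => (2 * deriv a B - 1) * deriv N B) =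
      fun B => 2 * (deriv a B * deriv N B) - deriv N B := by
    funext B; ring
  refine ⟨?_, ?_⟩
  · rw [e1]
    exact (hI.const_mul 2).sub hI2
  · rw [e1, intervalIntegral.integral_sub (hI.const_mul 2) hI2, intervalIntegral.integral_const_mul,
      hac.integral_deriv_eq_sub, hN1]
    have : N 0 = P.M L (a 0) (c 0) 0 := rfl
    rw [this] at hmon ⊢
    linarith

theorem p_PTH (hPAR : Sp_PAR) (hKEY : Sp_KEY) (hVIN : Sp_VIN) (hINB : Sp_INB) (hMLP : Sp_MLP)
    (hMON : Sp_MON) (hMPO : Sp_MPO) : Sp_PTH := by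
  intro P L B₁ s₀ t₀ a c h hs ht
  obtain ⟨i1, b1⟩ := PTH_half hMON hMLP hMPO h hs
  obtain ⟨i2, b2⟩ := PTH_half hMON hMLP hMPO (PTH_swap h) ht
  obtain ⟨i3, b3⟩ := hVIN P L B₁ a c h
  have i4 := hINB P L B₁ a c h
  obtain ⟨_, _, p3, p4, _, _, _⟩ := hPAR P
  have hk : 0 < P.k * (P.ρ - P.e) := mul_pos p4 (by linarith)
  have hint : ∫ B in (0 : ℝ)..B₁, P.k * (P.ρ - P.e) *
      ((2 * deriv a B - 1) * deriv (fun z => P.M L (a z) (c z) z) B +
      (2 * deriv c B - 1) * deriv (fun z => P.M L (c z) (a z) z) B) ≤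
      ∫ B in (0 : ℝ)..B₁, (P.om L B * P.I (a B) (c B) B (deriv a B) (deriv c B) +
      P.om L B * P.dV (a B) (c B) B (deriv a B) (deriv c B)) := by
    apply intervalIntegral.integral_mono_ae_restrict h.pos.le ((i1.add i2).const_mul _) (i4.add i3)
    rw [← restrict_Ioo_eq_restrict_Icc]
    exact hKEY P L B₁ a c h
  rw [intervalIntegral.integral_const_mul, intervalIntegral.integral_add i1 i2,
    intervalIntegral.integral_add i4 i3] at hint
  have h5 := mul_le_mul_of_nonneg_left (add_le_add b1 b2) hk.le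
  linarith

end Pool.Agent.FAN4
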