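import Pool.Agent.FAN4.StP

/-!
# FAN4, block PATH: PTP (helper48). The height functions of a life form a path.
-/

set_option autoImplicit false

open MeasureTheory Set

namespace Pool.Agent.FAN4

namespace Par

variable (P : Par)

theorem PTP_mup_le_r (A : List (ℝ × ℝ)) (φ : ℝ) : P.mup A φ ≤ P.r := by
  unfold mup
  induction A with
  | nil => simp
  | cons q A ih => exact (min_le_right _ _).trans ih

theorem PTP_mup_le (A : List (ℝ × ℝ)) (φ : ℝ) : ∀ q ∈ A, P.mup A φ ≤ up q φ := by
  unfold mup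
  induction A with
  | nil => simp
  | cons q A ih =>
    intro q' hq'
    rcases List.mem_cons.1 hq' with rfl | h
    · exact min_le_left _ _
    · exact (min_le_right _ _).trans (ih q' h)

theorem PTP_mup_cases (A : List (ℝ × ℝ)) (φ : ℝ) : P.mup A φ = P.r ∨ ∃ q ∈ A, up q φ = P.mup A φ := by
  unfold mup
  induction A with
  | nil => left; rfl
  | cons q A ih =>
    rcases min_choice (up q φ) ((A.map fun q => up q φ).foldr min P.r) with h | h
    · right
      exact ⟨q, List.mem_cons_self, h.symm⟩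
    · rcases ih with ih | ⟨q', hq', h'⟩
      · left
        show min _ _ = _
        rw [h, ih]
      · right
        refine ⟨q', List.mem_cons_of_mem _ hq', ?_⟩
        show _ = min _ _
        rw [h, h']

theorem PTP_lt_mup (A : List (ℝ × ℝ)) (φ x : ℝ) (hr : x < P.r) (h : ∀ q ∈ A, x < up q φ) : x < P.mup A φ := by
  rcases P.PTP_mup_cases A φ with e | ⟨q, hq, e⟩
  · rw [e]; exact hr
  · rw [← e]; exact h q hq

end Par

open Par

theorem PTP_up_refl (L : ℝ) (q : ℝ × ℝ) (φ : ℝ) : up (L - q.1, q.2) φ = dn q φ + L * Real.sin φ := by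
  unfold up dn; ring

/-- a Lipschitz function with a.e. derivative in `[0,1]` is monotone and 1-Lipschitz -/
theorem PTP_mono {a : ℝ → ℝ} {b : ℝ} (hL : ∃ K, LipschitzOnWith K a (Icc 0 b))
    (h : ∀ B, 0 < B → B < b → DifferentiableAt ℝ a B → 0 ≤ deriv a B ∧ deriv a B ≤ 1) :
    MonotoneOn a (Icc 0 b) ∧ LipschitzOnWith 1 a (Icc 0 b) := by
  obtain ⟨K, hK⟩ := hL
  have key : ∀ x ∈ Icc 0 b, ∀ y ∈ Icc 0 b, x ≤ y → 0 ≤ a y - a x ∧ a y - a x ≤ y - x := by
    intro x hx y hy hxy
    have hsub : Icc x y ⊆ Icc 0 b := Icc_subset_Icc hx.1 hy.2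
    have hac : AbsolutelyContinuousOnInterval a x y := by
      apply LipschitzOnWith.absolutelyContinuousOnInterval (K := K)
      rw [uIcc_of_le hxy]
      exact hK.mono hsub
    rw [← hac.integral_deriv_eq_sub]
    have hae : ∀ᵐ t, t ∈ Ioc x y → 0 ≤ deriv a t ∧ deriv a t ≤ 1 := by
      have h1 := hac.ae_differentiableAt
      have h2 : ∀ᵐ t : ℝ, t ≠ y := by
        simp [ae_iff, measure_singleton]
      filter_upwards [h1, h2] with t ht ht2 hmem
      have : t ∈ uIcc x y := by
        rw [uIcc_of_le hxy]; exact Ioc_subset_Icc_self hmem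
      have hty : t < y := lt_of_le_of_ne hmem.2 ht2
      exact h t (lt_of_le_of_lt hx.1 hmem.1) (lt_of_lt_of_le hty hy.2) (ht this)
    constructor
    · apply intervalIntegral.integral_nonneg_of_ae_restrict hxy
      rw [Filter.EventuallyLE, ae_restrict_iff' measurableSet_Icc]
      have h2 : ∀ᵐ t : ℝ, t ≠ x := by
        simp [ae_iff, measure_singleton]
      filter_upwards [hae, h2] with t ht ht2 hmem
      exact (ht ⟨lt_of_le_of_ne hmem.1 (Ne.symm ht2), hmem.2⟩).1
    · calc ∫ t in x..y, deriv a t ≤ ∫ t in x..y, (1 : ℝ) := by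
            apply intervalIntegral.integral_mono_ae_restrict hxy hac.intervalIntegrable_deriv
              intervalIntegrable_const
            rw [Filter.EventuallyLE, ae_restrict_iff' measurableSet_Icc]
            have h2 : ∀ᵐ t : ℝ, t ≠ x := by
              simp [ae_iff, measure_singleton]
            filter_upwards [hae, h2] with t ht ht2 hmem
            exact (ht ⟨lt_of_le_of_ne hmem.1 (Ne.symm ht2), hmem.2⟩).2
        _ = y - x := by simp
  constructor
  · intro x hx y hy hxy
    have := (key x hx y hy hxy).1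
    linarith
  · apply LipschitzOnWith.of_dist_le_mul
    intro x hx y hy
    simp only [NNReal.coe_one, one_mul]
    rw [Real.dist_eq, Real.dist_eq]
    rcases le_total x y with hxy | hxy
    · have := key x hx y hy hxy
      rw [abs_of_nonpos (by linarith), abs_of_nonpos (by linarith)]
      linarith
    · have := key y hy x hx hxy
      rw [abs_of_nonneg (by linarith), abs_of_nonneg (by linarith)]
      linarith

theorem PTP_deriv (h : Sp_HBF) (P : Par) (L : ℝ) (A : List (ℝ × ℝ)) (φ₁ : ℝ) (hL : 10 * P.r ≤ L)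
    (hA : ∀ q ∈ A, 0 < q.2) (hF : Feet P L A φ₁) (B : ℝ) (hB0 : 0 < B) (hB1 : B < L / 2)
    (hφ : Real.arcsin (B / L) < φ₁) (hd : DifferentiableAt ℝ (hB P L A) B) :
    0 ≤ deriv (hB P L A) B ∧ deriv (hB P L A) B ≤ 1 := by
  have hr := P.r0
  have hLp : 0 < L := by linarith
  obtain ⟨-, -, -, -, -, -, h7⟩ := h P L A hL hA
  obtain ⟨h7a, h7b⟩ := h7 B hB0 hB1 hd
  have hφ0 : 0 < Real.arcsin (B / L) := Real.arcsin_pos.2 (by positivity)
  have hcos : 0 < Real.cos (Real.arcsin (B / L)) := by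
    apply Real.cos_pos_of_mem_Ioo
    constructor
    · linarith [Real.pi_pos]
    · apply Real.arcsin_lt_pi_div_two.2
      rw [div_lt_one hLp]; linarith
  rcases lt_or_eq_of_le (P.PTP_mup_le_r A (Real.arcsin (B / L))) with hlt | heq
  · obtain ⟨q, hq, hqe, f1, f2⟩ := hF _ hφ0 hφ hlt
    have e := h7b q hq hqe
    have hN : 0 < L * Real.cos (Real.arcsin (B / L)) := by positivity
    constructor
    · by_contra hc
      push Not at hc
      have := mul_neg_of_neg_of_pos hc hN
      linarith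
    · by_contra hc
      push Not at hc
      have := mul_lt_mul_of_pos_right hc hN
      linarith
  · rw [h7a heq]
    norm_num

theorem p_PTP (h : Sp_HBF) : Sp_PTP := by
  intro P L A C φ₁ hL hA hC hlife hF1 hF2
  obtain ⟨hφ0, hφ1, hl, hend⟩ := hlife
  have hr := P.r0
  have hLp : 0 < L := by linarith
  have hC' : ∀ q ∈ refl L C, 0 < q.2 := by
    intro q hq
    obtain ⟨q', hq', rfl⟩ := List.mem_map.1 hq
    exact hC q' hq'
  set B₁ := min (L * Real.sin φ₁) P.r with hB₁
  have hsin : 0 < Real.sin φ₁ := Real.sin_pos_of_pos_of_lt_pi hφ0 (by linarith [Real.pi_pos])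
  have hB1pos : 0 < B₁ := lt_min (by positivity) hr
  have hB1r : B₁ ≤ P.r := min_le_right _ _
  have hB1s : B₁ ≤ L * Real.sin φ₁ := min_le_left _ _
  have hB1L : B₁ ≤ L / 2 := by linarith
  have hsub : Icc 0 B₁ ⊆ Icc 0 (L / 2) := Icc_subset_Icc le_rfl hB1L
  obtain ⟨ca, la, pa, ra, -, -, -⟩ := h P L A hL hA
  obtain ⟨cc, lc, pc, rc, -, -, -⟩ := h P L (refl L C) hL hC'
  have hla : ∃ K, LipschitzOnWith K (hB P L A) (Icc 0 B₁) := by
    obtain ⟨K, hK⟩ := la
    exact ⟨K, hK.mono hsub⟩
  have hlc : ∃ K, LipschitzOnWith K (hB P L (refl L C)) (Icc 0 B₁) := by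
    obtain ⟨K, hK⟩ := lc
    exact ⟨K, hK.mono hsub⟩
  have hang : ∀ B, 0 ≤ B → B < B₁ → 0 ≤ Real.arcsin (B / L) ∧ Real.arcsin (B / L) < φ₁ ∧
      L * Real.sin (Real.arcsin (B / L)) = B := by
    intro B h0 h1
    have hBL : B / L < Real.sin φ₁ := by
      rw [div_lt_iff₀ hLp]
      linarith
    refine ⟨Real.arcsin_nonneg.2 (by positivity), ?_, ?_⟩
    · rw [Real.arcsin_lt_iff_lt_sin' ⟨by linarith [Real.pi_pos], hφ1.le⟩]
      exact hBL
    · rw [Real.sin_arcsin]
      · field_simp
      · have : 0 ≤ B / L := by positivity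
        linarith
      · exact hBL.le.trans (Real.sin_le_one _)
  have hlta : ∀ B, 0 ≤ B → B < B₁ → B < hB P L A B := by
    intro B h0 h1
    obtain ⟨a0, a1, a2⟩ := hang B h0 h1
    apply P.PTP_lt_mup
    · linarith
    · intro q hq
      have := (hl _ a0 a1).1 q hq
      rwa [a2] at this
  have hltc : ∀ B, 0 ≤ B → B < B₁ → B < hB P L (refl L C) B := by
    intro B h0 h1
    obtain ⟨a0, a1, a2⟩ := hang B h0 h1
    apply P.PTP_lt_mup
    · linarith
    · intro q hq
      obtain ⟨q', hq', rfl⟩ := List.mem_map.1 hq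
      show B < up (L - q'.1, q'.2) (Real.arcsin (B / L))
      rw [PTP_up_refl, a2]
      have := (hl _ a0 a1).2 q' hq'
      linarith
  have hend1 : ∀ g : ℝ → ℝ, (∃ K, LipschitzOnWith K g (Icc 0 B₁)) →
      (∀ B, 0 ≤ B → B < B₁ → B < g B) → B₁ ≤ g B₁ := by
    intro g ⟨K, hK⟩ hg
    have hcont : ContinuousOn (fun B => g B - B) (Icc 0 B₁) := hK.continuousOn.sub continuousOn_id
    have hmem : B₁ ∈ closure (Ico 0 B₁) := by
      rw [closure_Ico hB1pos.ne]
      exact ⟨hB1pos.le, le_rfl⟩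
    have h2 : (0 : ℝ) ≤ g B₁ - B₁ := by
      have hc : ContinuousWithinAt (fun B => g B - B) (Ico 0 B₁) B₁ :=
        (hcont B₁ ⟨hB1pos.le, le_rfl⟩).mono Ico_subset_Icc_self
      have : (fun B => g B - B) B₁ ∈ closure (Ici (0 : ℝ)) := by
        apply hc.mem_closure hmem
        intro B hB
        have := hg B hB.1 hB.2
        show (0 : ℝ) ≤ g B - B
        linarith
      rwa [isClosed_Ici.closure_eq] at this
    linarith
  have ha1 := hend1 _ hla hlta
  have hc1 := hend1 _ hlc hltc
  have hda : MonotoneOn (hB P L A) (Icc 0 B₁) ∧ LipschitzOnWith 1 (hB P L A) (Icc 0 B₁) := by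
    apply PTP_mono hla
    intro B h0 h1 hd
    exact PTP_deriv h P L A φ₁ hL hA hF1 B h0 (by linarith) (hang B h0.le h1).2.1 hd
  have hdc : MonotoneOn (hB P L (refl L C)) (Icc 0 B₁) ∧
      LipschitzOnWith 1 (hB P L (refl L C)) (Icc 0 B₁) := by
    apply PTP_mono hlc
    intro B h0 h1 hd
    exact PTP_deriv h P L (refl L C) φ₁ hL hC' hF2 B h0 (by linarith) (hang B h0.le h1).2.1 hd
  refine ⟨hL, hB1pos, pa, pc, hda.1, hdc.1, hda.2, hdc.2, ca.subset hsub (convex_Icc _ _),
    cc.subset hsub (convex_Icc _ _), ?_, ?_, ?_⟩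
  · intro B hB
    refine ⟨?_, ra B⟩
    rcases lt_or_eq_of_le hB.2 with h1 | h1
    · exact (hlta B hB.1 h1).le
    · rw [h1]; exact ha1
  · intro B hB
    refine ⟨?_, rc B⟩
    rcases lt_or_eq_of_le hB.2 with h1 | h1
    · exact (hltc B hB.1 h1).le
    · rw [h1]; exact hc1
  · rcases le_or_gt P.r (L * Real.sin φ₁) with h1 | h1
    · left
      have : B₁ = P.r := min_eq_right h1
      apply le_antisymm _ ha1
      rw [this]
      exact ra _
    · have hB : B₁ = L * Real.sin φ₁ := min_eq_left h1.le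
      have hasin : Real.arcsin (B₁ / L) = φ₁ := by
        rw [hB, mul_div_assoc, mul_comm, div_mul_cancel₀ _ hLp.ne', Real.arcsin_sin]
        · linarith [Real.pi_pos]
        · exact hφ1.le
      rcases hend with h2 | ⟨q, hq, h2⟩ | ⟨q, hq, h2⟩
      · exact absurd h2 (not_le.2 h1)
      · left
        apply le_antisymm _ ha1
        have := P.PTP_mup_le A φ₁ q hq
        show P.mup A (Real.arcsin (B₁ / L)) ≤ B₁
        rw [hasin, hB]
        linarith
      · right
        apply le_antisymm _ hc1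
        have hm : (L - q.1, q.2) ∈ refl L C := List.mem_map.2 ⟨q, hq, rfl⟩
        have := P.PTP_mup_le (refl L C) φ₁ _ hm
        rw [PTP_up_refl, h2] at this
        show P.mup (refl L C) (Real.arcsin (B₁ / L)) ≤ B₁
        rw [hasin, hB]
        linarith

end Pool.Agent.FAN4
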