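import Pool.Agent.FAN4.StP

/-!
# FAN4, block PATH, module QQQ: the primitive of the truncated power
-/

set_option autoImplicit false

open MeasureTheory Set

namespace Pool.Agent.FAN4

theorem p_QQQ (hF : Sp_FFF) : Sp_QQQ := by
  intro P
  obtain ⟨f1, f2, f3, f4, f5, f6, f7, f8, f9, f10⟩ := hF P
  have e0 := P.e0
  have e1 := P.e1
  have r0 := P.r0
  have hcont : Continuous P.Q := by
    have h1 : Continuous fun z : ℝ => min z P.r := continuous_id.min continuous_const
    have h2 : Continuous fun z : ℝ => (min z P.r) ^ P.e := h1.rpow_const (fun _ => Or.inr e0.le)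
    show Continuous fun z : ℝ => (min z P.r) ^ P.e / P.e - P.r ^ (P.e - 1) * min z P.r
    exact (h2.div_const _).sub (continuous_const.mul h1)
  -- the untruncated primitive
  have hd0 : ∀ z, 0 < z → HasDerivAt (fun z : ℝ => z ^ P.e / P.e - P.r ^ (P.e - 1) * z)
      (z ^ (P.e - 1) - P.r ^ (P.e - 1)) z := by
    intro z hz
    have h1 : HasDerivAt (fun z : ℝ => z ^ P.e) (P.e * z ^ (P.e - 1)) z :=
      Real.hasDerivAt_rpow_const (Or.inl hz.ne')
    have h2 := (h1.div_const P.e).sub ((hasDerivAt_id z).const_mul (P.r ^ (P.e - 1)))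
    refine h2.congr_deriv ?_
    field_simp
  have hlt : ∀ z, z ≤ P.r → P.Q z = z ^ P.e / P.e - P.r ^ (P.e - 1) * z := by
    intro z hz
    unfold Par.Q
    rw [min_eq_left hz]
  have hge : ∀ z, P.r ≤ z → P.Q z = P.r ^ P.e / P.e - P.r ^ (P.e - 1) * P.r := by
    intro z hz
    unfold Par.Q
    rw [min_eq_right hz]
  have q2 : ∀ z, 0 < z → HasDerivAt P.Q (P.f z) z := by
    intro z hz
    rcases lt_trichotomy z P.r with h | h | h
    · rw [f3 z hz h.le]
      refine (hd0 z hz).congr_of_eventuallyEq ?_
      filter_upwards [Iio_mem_nhds h] with y hy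
      exact hlt y (le_of_lt hy)
    · have hf : P.f z = 0 := f2 z h.ge
      rw [hf]
      have h1 : HasDerivWithinAt P.Q 0 (Iic z) z := by
        have h2 := (hd0 z hz).hasDerivWithinAt (s := Iic z)
        have h3 : z ^ (P.e - 1) - P.r ^ (P.e - 1) = 0 := by rw [h]; ring
        rw [h3] at h2
        refine h2.congr ?_ ?_
        · intro y hy
          exact hlt y (le_trans hy h.le)
        · exact hlt z h.le
      have h2 : HasDerivWithinAt P.Q 0 (Ici z) z := by
        refine (hasDerivWithinAt_const z (Ici z)
          (P.r ^ P.e / P.e - P.r ^ (P.e - 1) * P.r)).congr ?_ ?_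
        · intro y hy
          exact hge y (le_trans h.ge hy)
        · exact hge z h.ge
      have h3 := h1.union h2
      rw [Iic_union_Ici] at h3
      exact hasDerivWithinAt_univ.mp h3
    · rw [f2 z h.le]
      refine (hasDerivAt_const z (P.r ^ P.e / P.e - P.r ^ (P.e - 1) * P.r)).congr_of_eventuallyEq ?_
      filter_upwards [Ioi_mem_nhds h] with y hy
      exact hge y (le_of_lt hy)
  refine ⟨?_, q2, hcont.continuousOn, ?_, ?_, ?_⟩
  · rw [hlt 0 r0.le, Real.zero_rpow e0.ne']
    simp
  · intro a c B hB ha hc
    -- monotonicity of a difference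
    have hmono : MonotoneOn (fun t => P.Q (B + t) - P.Q (c + t)) (Icc 0 (a - B)) := by
      have hder : ∀ t ∈ interior (Icc 0 (a - B)), HasDerivAt (fun t => P.Q (B + t) - P.Q (c + t))
          (P.f (B + t) - P.f (c + t)) t := by
        intro t ht
        rw [interior_Icc] at ht
        have hBt : 0 < B + t := by linarith [ht.1]
        have hct : 0 < c + t := by linarith [ht.1]
        have h1 := (q2 (B + t) hBt).comp_const_add B t
        have h2 := (q2 (c + t) hct).comp_const_add c t
        exact h1.sub h2
      refine monotoneOn_of_deriv_nonneg (convex_Icc _ _) ?_ ?_ ?_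
      · exact ((hcont.comp (continuous_const.add continuous_id)).sub
          (hcont.comp (continuous_const.add continuous_id))).continuousOn
      · intro t ht
        exact (hder t ht).differentiableAt.differentiableWithinAt
      · intro t ht
        rw [(hder t ht).deriv]
        rw [interior_Icc] at ht
        have := f4 (show B + t ∈ Ioi (0 : ℝ) from by show 0 < B + t; linarith [ht.1])
          (show c + t ∈ Ioi (0 : ℝ) from by show 0 < c + t; linarith [ht.1]) (by linarith)
        linarith
    have h := hmono (show (0 : ℝ) ∈ Icc 0 (a - B) from ⟨le_rfl, by linarith⟩)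
      (show a - B ∈ Icc 0 (a - B) from ⟨by linarith, le_rfl⟩) (by linarith)
    simp only [add_zero] at h
    have e2 : B + (a - B) = a := by ring
    have e3 : c + (a - B) = a + c - B := by ring
    rw [e2, e3] at h
    unfold Par.A4
    linarith
  · intro a c B hB hBa har hBc hcr
    have hrr : P.r ^ (P.e - 1) * P.r = P.r ^ P.e := by
      rw [Real.rpow_sub_one r0.ne']
      field_simp
    have hzz : ∀ z : ℝ, 0 < z → z * z ^ (P.e - 1) = z ^ P.e := by
      intro z hz
      rw [Real.rpow_sub_one hz.ne']
      field_simp
    have hsm : ∀ z, 0 < z → z ≤ P.r →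
        z * P.f z - P.e * P.Q z = -((1 - P.e) * P.r ^ (P.e - 1) * z) := by
      intro z hz hzr
      rw [f3 z hz hzr, hlt z hzr]
      have h1 := hzz z hz
      have h2 : P.e * (z ^ P.e / P.e - P.r ^ (P.e - 1) * z) =
          z ^ P.e - P.e * (P.r ^ (P.e - 1) * z) := by
        field_simp
      rw [h2]
      linear_combination h1
    have hbig : ∀ z, P.r ≤ z →
        z * P.f z - P.e * P.Q z = -((1 - P.e) * P.r ^ (P.e - 1) * P.r) := by
      intro z hz
      rw [f2 z hz, hge z hz]
      have h2 : P.e * (P.r ^ P.e / P.e - P.r ^ (P.e - 1) * P.r) =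
          P.r ^ P.e - P.e * (P.r ^ (P.e - 1) * P.r) := by
        field_simp
      rw [h2]
      linear_combination hrr
    have hrp : 0 < P.r ^ (P.e - 1) := Real.rpow_pos_of_pos r0 _
    have hS : 0 < a + c - B := by linarith
    have hSb : -((1 - P.e) * P.r ^ (P.e - 1) * (a + c - B)) ≤
        (a + c - B) * P.f (a + c - B) - P.e * P.Q (a + c - B) := by
      rcases le_total (a + c - B) P.r with h | h
      · rw [hsm _ hS h]
      · rw [hbig _ h]
        have : (1 - P.e) * P.r ^ (P.e - 1) * P.r ≤ (1 - P.e) * P.r ^ (P.e - 1) * (a + c - B) :=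
          mul_le_mul_of_nonneg_left h (mul_nonneg (by linarith) hrp.le)
        linarith
    have ea := hsm a (by linarith) har
    have ec := hsm c (by linarith) hcr
    have eB := hsm B hB (by linarith)
    unfold Par.A4
    nlinarith
  · intro a c B h
    unfold Par.A4
    rcases h with h | h
    · rw [h]
      have : B + c - B = c := by ring
      rw [this]
      ring
    · rw [h]
      have : a + B - B = a := by ring
      rw [this]
      ring

end Pool.Agent.FAN4
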