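import Pool.Agent.FAN4.StP

/-!
# FAN4, block PATH, module SHP: the quadratic inequality
-/

set_option autoImplicit false

open MeasureTheory Set

namespace Pool.Agent.FAN4

/-- a positive quadratic form -/
private lemma SHP_quad (α β t X Y : ℝ) (hα : 0 < α) (h : t ^ 2 ≤ α * β) :
    0 ≤ α * X ^ 2 + β * Y ^ 2 - 2 * t * (X * Y) := by
  have h1 : 0 ≤ α * (α * X ^ 2 + β * Y ^ 2 - 2 * t * (X * Y)) := by
    have e : α * (α * X ^ 2 + β * Y ^ 2 - 2 * t * (X * Y)) =
        (α * X - t * Y) ^ 2 + (α * β - t ^ 2) * Y ^ 2 := by ring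
    rw [e]
    have : 0 ≤ (α * β - t ^ 2) * Y ^ 2 := mul_nonneg (by linarith) (sq_nonneg Y)
    positivity
  exact nonneg_of_mul_nonneg_right h1 hα

/-- the case `a ≤ c` -/
private lemma SHP_half (hF : Sp_FFF) (hO : Sp_OMG) (hB : Sp_BND) (P : Par) (L a c B x y : ℝ)
    (hL : 10 * P.r ≤ L) (hB0 : 0 ≤ B) (ha0 : 0 < a) (hc0 : 0 < c) (hBa : B ≤ a) (har : a ≤ P.r)
    (hBc : B ≤ c) (hcr : c ≤ P.r) (hac : a ≤ c) :
    x ^ 2 * P.be L a c B + y ^ 2 * P.be L c a B +
        P.lam (a + c - B) * P.Ga L a c B / 2 * (x + y) ^ 2 ≤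
      P.om L B * ((P.f a - P.f (a + c - B)) * (2 * a - B) * x ^ 2 +
        (P.f c - P.f (a + c - B)) * (2 * c - B) * y ^ 2) := by
  obtain ⟨f1, f2, f3, f4, f5, f6, f7, f8, f9, f10⟩ := hF P
  obtain ⟨o1, o2, o3, o4, o5, o6⟩ := hO P L hL
  have b1 := hB P L a c B hL hB0 ha0 hc0 hBa har hBc hcr
  have b2 := hB P L c a B hL hB0 hc0 ha0 hBc hcr hBa har
  have hr0 := P.r0
  have hL0 : 0 < L := by linarith
  have emin : min a c = a := min_eq_left hac
  have emin' : min c a = a := min_eq_right hac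
  have eS : c + a - B = a + c - B := by ring
  rw [emin] at b1
  rw [emin', eS] at b2
  set m : ℝ := a - B with hm
  have hm0 : 0 ≤ m := by linarith
  set S : ℝ := a + c - B with hS
  have hS0 : 0 < S := by linarith
  have hcm : c + m = S := by rw [hm, hS]; ring
  have haU : 2 * a - B = B + 2 * m := by rw [hm]; ring
  have haB : B + m = a := by rw [hm]; ring
  rw [hcm, sub_self, mul_zero, zero_sub] at b2
  have hGa : P.Ga L a c B = P.G L (B + 2 * m) - P.G L B := by
    unfold Par.Ga
    rw [emin, haU]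
  have hGa' : P.Ga L c a B = P.Ga L a c B := by
    unfold Par.Ga
    rw [min_comm]
  rw [hGa'] at b2
  have hB2 : B + 2 * m ≤ 2 * P.r := by linarith
  have hw0 : 0 < P.om L B := o1 B (by rw [abs_of_nonneg hB0]; linarith)
  have hBL : B < L := by linarith
  have hEL : B + 2 * m < L := by linarith
  have hE0 : 0 ≤ B + 2 * m := by linarith
  have hmon : P.om L B ≤ P.om L (B + 2 * m) :=
    o2 ⟨hB0, hBL⟩ ⟨hE0, hEL⟩ (by linarith)
  have h5 := o5 B m hB0 hm0 hB2
  have h6 := o6 B m hB0 hm0 hB2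
  rw [← hGa] at h6
  -- names
  set w : ℝ := P.om L B with hw
  set w' : ℝ := P.om L (B + 2 * m) with hw'
  set l : ℝ := P.lam S with hl
  have hl0 : 0 ≤ l := f8 S hS0
  set Γ : ℝ := P.Ga L a c B with hΓ
  have egE : P.g L (2 * a - B) = (B + 2 * m) * w' := by
    rw [haU]
    rfl
  have egB : P.g L B = B * w := rfl
  rw [egE, egB] at b1
  rw [egB] at b2
  set fa : ℝ := P.f a with hfa
  set fc : ℝ := P.f c with hfc
  set fS : ℝ := P.f S with hfS
  set fU : ℝ := P.f (a + m) with hfU
  -- inequalities for `f`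
  have hUS : a + m ≤ S := by rw [hm, hS]; linarith
  have k1 : l * m ≤ fa - fU := by
    have := f6 a (a + m) S ha0 (by linarith) hUS
    rwa [add_sub_cancel_left] at this
  have k2 : l * m ≤ fc - fS := by
    have := f6 c S S hc0 (by linarith) le_rfl
    have e : S - c = m := by rw [hm, hS]; ring
    rwa [e] at this
  have k3 : (fU - fS) * m ≤ (fa - fU) * (c - a) := by
    have := f7 a (a + m) S ha0 (by linarith) hUS
    have e : S - (a + m) = c - a := by rw [hm, hS]; ring
    rwa [add_sub_cancel_left, e] at this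
  have k4 : 0 ≤ fU - fS := by
    have := f6 (a + m) S S (by linarith) hUS le_rfl
    have h : 0 ≤ P.lam S * (S - (a + m)) := mul_nonneg hl0 (by linarith)
    linarith
  have hd0 : 0 ≤ c - a := by linarith
  -- the small number `ε = 8 / L ^ 2`
  set ε : ℝ := 8 / L ^ 2 with hε
  have hε0 : 0 < ε := by positivity
  have hεr : ε * P.r ^ 2 ≤ 8 / 100 := by
    rw [hε, div_mul_eq_mul_div, div_le_div_iff₀ (by positivity) (by norm_num)]
    nlinarith [mul_le_mul hL hL (by positivity) hL0.le]
  have h5' : w' ≤ w * (1 + ε * m * a) := by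
    refine h5.trans (le_of_eq ?_)
    rw [haB, hε]
    ring
  have hεad : ε * a * (c - a) ≤ 8 / 100 := by
    have h1 : a * (c - a) ≤ P.r ^ 2 := by
      rw [sq]
      exact mul_le_mul har (by linarith) hd0 hr0.le
    have h2 : ε * (a * (c - a)) ≤ ε * P.r ^ 2 := mul_le_mul_of_nonneg_left h1 hε0.le
    calc ε * a * (c - a) = ε * (a * (c - a)) := by ring
      _ ≤ _ := h2.trans hεr
  have hεaa : ε * a * a ≤ 8 / 100 := by
    have h1 : a * a ≤ P.r ^ 2 := by
      rw [sq]
      exact mul_le_mul har har ha0.le hr0.le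
    have h2 : ε * (a * a) ≤ ε * P.r ^ 2 := mul_le_mul_of_nonneg_left h1 hε0.le
    calc ε * a * a = ε * (a * a) := by ring
      _ ≤ _ := h2.trans hεr
  have hεac : ε * a * (2 * c - B) ≤ 16 / 100 := by
    have h1 : a * (2 * c - B) ≤ P.r * (2 * P.r) :=
      mul_le_mul har (by linarith) (by linarith) hr0.le
    have h2 : ε * (a * (2 * c - B)) ≤ ε * (P.r * (2 * P.r)) :=
      mul_le_mul_of_nonneg_left h1 hε0.le
    calc ε * a * (2 * c - B) = ε * (a * (2 * c - B)) := by ring
      _ ≤ ε * (P.r * (2 * P.r)) := h2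
      _ = 2 * (ε * P.r ^ 2) := by ring
      _ ≤ _ := by linarith
  -- the first coefficient
  have hFa : w * (l * m * (1 - ε * a * (c - a))) ≤ w * (fa - fS) - w' * (fU - fS) := by
    rcases eq_or_lt_of_le hm0 with hm00 | hm1
    · have e1 : w' = w := by rw [hw', ← hm00, mul_zero, add_zero]
      have e2 : fU = fa := by rw [hfU, ← hm00, add_zero]
      rw [e1, e2, ← hm00]
      simp
    · have h1 : w' * (fU - fS) ≤ w * (1 + ε * m * a) * (fU - fS) :=
        mul_le_mul_of_nonneg_right h5' k4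
      have h2 : ε * a * ((fU - fS) * m) ≤ ε * a * ((fa - fU) * (c - a)) :=
        mul_le_mul_of_nonneg_left k3 (by positivity)
      have h3 : l * m * (1 - ε * a * (c - a)) ≤ (fa - fU) * (1 - ε * a * (c - a)) :=
        mul_le_mul_of_nonneg_right k1 (by linarith)
      have h4 : (fa - fU) * (1 - ε * a * (c - a)) ≤
          (fa - fS) - (1 + ε * m * a) * (fU - fS) := by
        have e : (fa - fS) - (1 + ε * m * a) * (fU - fS) =
            (fa - fU) - ε * a * ((fU - fS) * m) := by ring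
        rw [e]
        have e2 : (fa - fU) * (1 - ε * a * (c - a)) =
            (fa - fU) - ε * a * ((fa - fU) * (c - a)) := by ring
        rw [e2]
        linarith
      calc w * (l * m * (1 - ε * a * (c - a)))
          ≤ w * ((fa - fS) - (1 + ε * m * a) * (fU - fS)) :=
            mul_le_mul_of_nonneg_left (h3.trans h4) hw0.le
        _ = w * (fa - fS) - w * (1 + ε * m * a) * (fU - fS) := by ring
        _ ≤ _ := by linarith
  -- coefficient of `x ^ 2`
  have c1 : w * (l * m * (1 - ε * a * (c - a))) * (B + 2 * m) + l * Γ / 2 ≤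
      w * (fa - fS) * (B + 2 * m) - P.be L a c B := by
    have h1 := mul_le_mul_of_nonneg_right hFa hE0
    have h2 : B * w * (l * m) ≤ B * w * (fa - fU) :=
      mul_le_mul_of_nonneg_left k1 (by positivity)
    have h3 : (w * (fa - fS) - w' * (fU - fS)) * (B + 2 * m) =
        w * (fa - fS) * (B + 2 * m) - (B + 2 * m) * w' * (fU - fS) := by ring
    have h4 : l * (Γ / 2 - m * (B * w)) = l * Γ / 2 - B * w * (l * m) := by ring
    rw [h3] at h1
    rw [h4] at b1
    linarith
  -- coefficient of `y ^ 2`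
  have c2 : w * (l * m) * (2 * c - B) + l * Γ / 2 ≤
      w * (fc - fS) * (2 * c - B) - P.be L c a B := by
    have h1 : w * (l * m) * (2 * c - B) ≤ w * (fc - fS) * (2 * c - B) :=
      mul_le_mul_of_nonneg_right (mul_le_mul_of_nonneg_left k2 hw0.le) (by linarith)
    have h2 : B * w * (l * m) ≤ B * w * (fc - fS) :=
      mul_le_mul_of_nonneg_left k2 (by positivity)
    have h4 : l * (Γ / 2 - m * (B * w)) = l * Γ / 2 - B * w * (l * m) := by ring
    rw [h4] at b2
    linarith
  -- the mixed term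
  have hΓ1 : Γ ≤ 2 * m * a * (w * (1 + ε * m * a)) := by
    have h1 := h6.2
    rw [haB] at h1
    refine h1.trans ?_
    exact mul_le_mul_of_nonneg_left h5' (by positivity)
  have hΓ2 : Γ ≤ 2 * m * w * (a + m) := by
    refine hΓ1.trans ?_
    have h1 : a * (1 + ε * m * a) ≤ a + m := by
      have : a * (1 + ε * m * a) = a + (ε * a * a) * m := by ring
      rw [this]
      nlinarith
    calc 2 * m * a * (w * (1 + ε * m * a)) = 2 * m * w * (a * (1 + ε * m * a)) := by ring
      _ ≤ 2 * m * w * (a + m) := mul_le_mul_of_nonneg_left h1 (by positivity)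
  have hΓ0 : 0 ≤ Γ := by
    have h1 := h6.1
    have h2 : 0 ≤ 2 * m * (B + m) * w := by positivity
    linarith
  have hmix : l * Γ * (x * y) ≤ w * l * m * (2 * (a + m) * (|x| * |y|)) := by
    have h1 : x * y ≤ |x| * |y| := by
      rw [← abs_mul]
      exact le_abs_self _
    have h2 : 0 ≤ |x| * |y| := by positivity
    calc l * Γ * (x * y) ≤ l * Γ * (|x| * |y|) := mul_le_mul_of_nonneg_left h1 (by positivity)
      _ ≤ l * (2 * m * w * (a + m)) * (|x| * |y|) := by
          apply mul_le_mul_of_nonneg_right _ h2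
          exact mul_le_mul_of_nonneg_left hΓ2 hl0
      _ = _ := by ring
  -- the quadratic form
  have hq : 0 ≤ (B + 2 * m) * (1 - ε * a * (c - a)) * |x| ^ 2 + (2 * c - B) * |y| ^ 2 -
      2 * (a + m) * (|x| * |y|) := by
    have ht : B + 2 * m = a + m := by rw [← haB]; ring
    rw [ht]
    have ht0 : 0 < a + m := by linarith
    have hα : 0 < (a + m) * (1 - ε * a * (c - a)) := mul_pos ht0 (by linarith)
    refine SHP_quad _ _ _ _ _ hα ?_
    have h1 : a + m ≤ (1 - ε * a * (c - a)) * (2 * c - B) := by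
      have e : (1 - ε * a * (c - a)) * (2 * c - B) =
          (2 * c - B) - (ε * a * (2 * c - B)) * (c - a) := by ring
      rw [e]
      have e2 : 2 * c - B = a + m + 2 * (c - a) := by rw [hm]; ring
      have h2 : (ε * a * (2 * c - B)) * (c - a) ≤ 16 / 100 * (c - a) :=
        mul_le_mul_of_nonneg_right hεac hd0
      linarith
    calc (a + m) ^ 2 = (a + m) * (a + m) := sq _
      _ ≤ (a + m) * ((1 - ε * a * (c - a)) * (2 * c - B)) := mul_le_mul_of_nonneg_left h1 ht0.le
      _ = _ := by ring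
  have hq' := mul_nonneg (show 0 ≤ w * l * m by positivity) hq
  rw [sq_abs, sq_abs] at hq'
  have d1 := mul_le_mul_of_nonneg_right c1 (sq_nonneg x)
  have d2 := mul_le_mul_of_nonneg_right c2 (sq_nonneg y)
  have hfin : w * ((fa - fS) * (B + 2 * m) * x ^ 2 + (fc - fS) * (2 * c - B) * y ^ 2) -
      (x ^ 2 * P.be L a c B + y ^ 2 * P.be L c a B + l * Γ / 2 * (x + y) ^ 2) =
      (w * (fa - fS) * (B + 2 * m) - P.be L a c B) * x ^ 2 +
        (w * (fc - fS) * (2 * c - B) - P.be L c a B) * y ^ 2 -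
        l * Γ / 2 * (x ^ 2 + y ^ 2) - l * Γ * (x * y) := by ring
  rw [haU]
  have e1 : (w * (l * m * (1 - ε * a * (c - a))) * (B + 2 * m) + l * Γ / 2) * x ^ 2 +
      (w * (l * m) * (2 * c - B) + l * Γ / 2) * y ^ 2 - l * Γ / 2 * (x ^ 2 + y ^ 2) -
      w * l * m * (2 * (a + m) * (|x| * |y|)) =
      w * l * m * ((B + 2 * m) * (1 - ε * a * (c - a)) * x ^ 2 + (2 * c - B) * y ^ 2 -
        2 * (a + m) * (|x| * |y|)) := by ring
  linarith

theorem p_SHP (hF : Sp_FFF) (hO : Sp_OMG) (hB : Sp_BND) : Sp_SHP := by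
  intro P L a c B x y hL hB0 ha0 hc0 hBa har hBc hcr
  rcases le_total a c with hac | hca
  · exact SHP_half hF hO hB P L a c B x y hL hB0 ha0 hc0 hBa har hBc hcr hac
  · have h := SHP_half hF hO hB P L c a B y x hL hB0 hc0 ha0 hBc hcr hBa har hca
    have eS : c + a - B = a + c - B := by ring
    have hGa' : P.Ga L c a B = P.Ga L a c B := by
      unfold Par.Ga
      rw [min_comm]
    rw [eS, hGa'] at h
    have e1 : (y + x) ^ 2 = (x + y) ^ 2 := by ring
    rw [e1] at h
    linarith

end Pool.Agent.FAN4
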