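import Pool.Agent.FAN4.StP

/-!
# FAN4, block PATH: the first potential
-/

set_option autoImplicit false

open MeasureTheory Set Filter Topology

namespace Pool.Agent.FAN4

open scoped NNReal

/-- a continuous function with bounded derivative inside an interval is Lipschitz there -/
theorem VIN_lip {h h' : ℝ → ℝ} {x y C : ℝ} (hxy : x < y) (hc : ContinuousOn h (Icc x y))
    (hd : ∀ z ∈ Ioo x y, HasDerivAt h (h' z) z) (hb : ∀ z ∈ Ioo x y, |h' z| ≤ C) :
    ∃ K, LipschitzOnWith K h (Icc x y) := by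
  have h1 : LipschitzOnWith (Real.toNNReal C) h (Ioo x y) := by
    refine (convex_Ioo x y).lipschitzOnWith_of_nnnorm_hasDerivWithin_le
      (fun z hz => (hd z hz).hasDerivWithinAt) fun z hz => ?_
    rw [← NNReal.coe_le_coe, coe_nnnorm, Real.norm_eq_abs]
    exact (hb z hz).trans (Real.le_coe_toNNReal C)
  refine ⟨Real.toNNReal C, ?_⟩
  rw [← closure_Ioo hxy.ne]
  exact (lipschitzOnWith_closure_iff (by rwa [closure_Ioo hxy.ne])).2 h1

section

variable {P : Par} {L B₁ : ℝ} {a c : ℝ → ℝ}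

/-- bounds along a path -/
theorem VIN_bd (h : Path P L B₁ a c) :
    0 < min (a 0) (c 0) ∧ min (a 0) (c 0) ≤ P.r ∧ B₁ ≤ P.r ∧ ∀ z ∈ Icc 0 B₁,
      min (a 0) (c 0) ≤ a z ∧ a z ≤ P.r ∧ min (a 0) (c 0) ≤ c z ∧ c z ≤ P.r ∧ z ≤ a z ∧ z ≤ c z ∧
      min (a 0) (c 0) ≤ a z + c z - z ∧ a z + c z - z ≤ 2 * P.r := by
  have h0 : (0 : ℝ) ∈ Icc 0 B₁ := ⟨le_rfl, h.pos.le⟩
  have h1 : B₁ ∈ Icc 0 B₁ := ⟨h.pos.le, le_rfl⟩
  refine ⟨lt_min h.a0 h.c0, (min_le_left _ _).trans (h.aB 0 h0).2,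
    (h.aB B₁ h1).1.trans (h.aB B₁ h1).2, fun z hz => ?_⟩
  have e1 : a 0 ≤ a z := h.am h0 hz hz.1
  have e2 : c 0 ≤ c z := h.cm h0 hz hz.1
  have e3 := h.aB z hz
  have e4 := h.cB z hz
  have e5 := min_le_left (a 0) (c 0)
  have e6 := min_le_right (a 0) (c 0)
  refine ⟨by linarith, e3.2, by linarith, e4.2, e3.1, e4.1, by linarith, by linarith [hz.1]⟩

/-- `S` is Lipschitz -/
theorem VIN_S (h : Path P L B₁ a c) :
    ∃ K, LipschitzOnWith K (fun z => a z + c z - z) (Icc 0 B₁) :=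
  ⟨_, (h.al.add h.cl).sub (LipschitzWith.id.lipschitzOnWith (s := Icc 0 B₁))⟩

theorem VIN_Q (hF : Sp_FFF) (hQ : Sp_QQQ) {z₀ R : ℝ} (h0 : 0 < z₀) (hR : z₀ < R) :
    ∃ K, LipschitzOnWith K P.Q (Icc z₀ R) := by
  obtain ⟨hf0, hfr, hfe, hfa, hfc, hf6, hf7, hf8, hf9, hf10⟩ := hF P
  obtain ⟨hq0, hqd, hqc, hq4, hq5, hq6⟩ := hQ P
  refine VIN_lip (h' := P.f) (C := P.f z₀) hR
    (hqc.mono fun z hz => h0.le.trans hz.1) (fun z hz => hqd z (h0.trans hz.1)) fun z hz => ?_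
  rw [abs_of_nonneg (hf0 z)]
  exact hfa (mem_Ioi.2 h0) (mem_Ioi.2 (h0.trans hz.1)) hz.1.le

theorem VIN_zQ (hF : Sp_FFF) (hQ : Sp_QQQ) {R : ℝ} (hR : 0 < R) :
    ∃ K, LipschitzOnWith K (fun z => z * P.Q z) (Icc 0 R) := by
  obtain ⟨hf0, hfr, hfe, hfa, hfc, hf6, hf7, hf8, hf9, hf10⟩ := hF P
  obtain ⟨hq0, hqd, hqc, hq4, hq5, hq6⟩ := hQ P
  have hqc' : ContinuousOn P.Q (Icc 0 R) := hqc.mono fun z hz => hz.1
  obtain ⟨C, hC⟩ := isCompact_Icc.exists_bound_of_continuousOn hqc'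
  refine VIN_lip (h' := fun z => 1 * P.Q z + z * P.f z) (C := C + R ^ P.e) hR
    (continuousOn_id.mul hqc') (fun z hz => (hasDerivAt_id z).mul (hqd z hz.1)) fun z hz => ?_
  have e1 := hC z ⟨hz.1.le, hz.2.le⟩
  rw [Real.norm_eq_abs] at e1
  have e2 : 0 ≤ z * P.f z := mul_nonneg hz.1.le (hf0 z)
  have e3 : z * P.f z ≤ R ^ P.e :=
    (hf10 z hz.1).trans (Real.rpow_le_rpow hz.1.le hz.2.le P.e0.le)
  calc |1 * P.Q z + z * P.f z| ≤ |P.Q z| + |z * P.f z| := by
        rw [one_mul]; exact abs_add_le _ _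
    _ ≤ C + R ^ P.e := by rw [abs_of_nonneg e2]; linarith

theorem VIN_om (hO : Sp_OMG) {R : ℝ} (hL : 10 * P.r ≤ L) (hR0 : 0 < R) (hR : R < L) :
    ∃ K, LipschitzOnWith K (P.om L) (Icc 0 R) := by
  obtain ⟨ho1, ho2, ho3, ho4, ho5, ho6⟩ := hO P L hL
  have hab : ∀ z ∈ Icc 0 R, |z| < L := fun z hz => by
    rw [abs_of_nonneg hz.1]; linarith [hz.2]
  have hc : ContinuousOn (P.dom L) (Icc 0 R) := fun z hz =>
    (ho3 z (hab z hz)).2.2.2.2.1.continuousWithinAt
  obtain ⟨C, hC⟩ := isCompact_Icc.exists_bound_of_continuousOn hc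
  refine VIN_lip (h' := P.dom L) (C := C) hR0
    (fun z hz => (ho3 z (hab z hz)).1.continuousAt.continuousWithinAt)
    (fun z hz => (ho3 z (hab z ⟨hz.1.le, hz.2.le⟩)).1) fun z hz => ?_
  have := hC z ⟨hz.1.le, hz.2.le⟩
  rwa [Real.norm_eq_abs] at this

/-- the derivative of the first potential along a path -/
theorem VIN_der (hQ : Sp_QQQ) {B s t : ℝ} (hB : 0 < B) (ha : 0 < a B) (hc : 0 < c B)
    (hS : 0 < a B + c B - B) (hda : HasDerivAt a s B) (hdc : HasDerivAt c t B) :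
    HasDerivAt (fun z => P.V (a z) (c z) z) (P.dV (a B) (c B) B s t) B := by
  obtain ⟨hq0, hqd, hqc, hq4, hq5, hq6⟩ := hQ P
  have e1 : HasDerivAt (fun z => P.Q (a z)) (P.f (a B) * s) B :=
    HasDerivAt.comp (h₂ := P.Q) B (hqd _ ha) hda
  have e2 : HasDerivAt (fun z => P.Q (c z)) (P.f (c B) * t) B :=
    HasDerivAt.comp (h₂ := P.Q) B (hqd _ hc) hdc
  have e3 : HasDerivAt (fun z => P.Q z) (P.f B) B := hqd _ hB
  have e0 : HasDerivAt (fun z => a z + c z - z) (s + t - 1) B :=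
    (hda.fun_add hdc).fun_sub (hasDerivAt_id' B)
  have e4 : HasDerivAt (fun z => P.Q (a z + c z - z)) (P.f (a B + c B - B) * (s + t - 1)) B :=
    HasDerivAt.comp (h₂ := P.Q) B (hqd _ hS) e0
  have e5 := ((hasDerivAt_id' B).const_mul (2 * P.k * P.e)).fun_mul
    (((e1.fun_add e2).fun_sub e3).fun_sub e4)
  have e6 : (fun z => P.V (a z) (c z) z) = fun z => 2 * P.k * P.e * z *
      (P.Q (a z) + P.Q (c z) - P.Q z - P.Q (a z + c z - z)) := by
    funext z
    unfold Par.V Par.A4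
    rfl
  rw [e6]
  refine e5.congr_deriv ?_
  unfold Par.dV Par.A4
  ring

end

theorem p_VIN (hF : Sp_FFF) (hQ : Sp_QQQ) (hO : Sp_OMG) (hPA : Sp_PAR) : Sp_VIN := by
  intro P L B₁ a c h
  obtain ⟨hr0, hr1, hpe, hk0, hk1, hk2, -⟩ := hPA P
  obtain ⟨hz0, hz1, hB1, hbd⟩ := VIN_bd h
  set z₀ := min (a 0) (c 0) with hz₀
  have hrp := P.r0
  have hL := h.hL
  have hBL : B₁ < L := by linarith
  obtain ⟨ho1, ho2, ho3, ho4, ho5, ho6⟩ := hO P L hL
  obtain ⟨hq0, hqd, hqc, hq4, hq5, hq6⟩ := hQ P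
  obtain ⟨K1, k1⟩ := VIN_Q (P := P) hF hQ hz0 (R := 2 * P.r) (by linarith)
  obtain ⟨K2, k2⟩ := VIN_zQ (P := P) hF hQ h.pos
  obtain ⟨K3, k3⟩ := VIN_om (P := P) (L := L) hO hL h.pos hBL
  obtain ⟨K4, k4⟩ := VIN_S h
  have hu : uIcc 0 B₁ = Icc 0 B₁ := uIcc_of_le h.pos.le
  have cQa : AbsolutelyContinuousOnInterval (fun z => P.Q (a z)) 0 B₁ := by
    have := k1.comp h.al (fun z hz => ⟨(hbd z hz).1, by linarith [(hbd z hz).2.1]⟩)
    rw [← hu] at this
    exact this.absolutelyContinuousOnInterval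
  have cQc : AbsolutelyContinuousOnInterval (fun z => P.Q (c z)) 0 B₁ := by
    have := k1.comp h.cl (fun z hz => ⟨(hbd z hz).2.2.1, by linarith [(hbd z hz).2.2.2.1]⟩)
    rw [← hu] at this
    exact this.absolutelyContinuousOnInterval
  have cQS : AbsolutelyContinuousOnInterval (fun z => P.Q (a z + c z - z)) 0 B₁ := by
    have := k1.comp k4 (fun z hz => ⟨(hbd z hz).2.2.2.2.2.2.1, (hbd z hz).2.2.2.2.2.2.2⟩)
    rw [← hu] at this
    exact this.absolutelyContinuousOnInterval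
  have czQ : AbsolutelyContinuousOnInterval (fun z => z * P.Q z) 0 B₁ := by
    rw [← hu] at k2
    exact k2.absolutelyContinuousOnInterval
  have com : AbsolutelyContinuousOnInterval (P.om L) 0 B₁ := by
    rw [← hu] at k3
    exact k3.absolutelyContinuousOnInterval
  have cid : AbsolutelyContinuousOnInterval (fun z : ℝ => z) 0 B₁ :=
    (LipschitzWith.id.lipschitzOnWith (s := uIcc 0 B₁)).absolutelyContinuousOnInterval
  have cV : AbsolutelyContinuousOnInterval (fun z => P.V (a z) (c z) z) 0 B₁ := by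
    have e : (fun z => P.V (a z) (c z) z) = fun z => (2 * P.k * P.e) *
        (z * (P.Q (a z) + P.Q (c z) - P.Q (a z + c z - z)) - z * P.Q z) := by
      funext z
      unfold Par.V Par.A4
      ring
    rw [e]
    exact ((cid.fun_mul ((cQa.fun_add cQc).fun_sub cQS)).fun_sub czQ).const_mul _
  have cH : AbsolutelyContinuousOnInterval (fun z => P.om L z * P.V (a z) (c z) z) 0 B₁ :=
    com.fun_mul cV
  have caA : AbsolutelyContinuousOnInterval a 0 B₁ := by
    have := h.al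
    rw [← hu] at this
    exact this.absolutelyContinuousOnInterval
  have ccA : AbsolutelyContinuousOnInterval c 0 B₁ := by
    have := h.cl
    rw [← hu] at this
    exact this.absolutelyContinuousOnInterval
  have habs : ∀ z ∈ Icc 0 B₁, |z| < L := fun z hz => by
    rw [abs_of_nonneg hz.1]; linarith [hz.2]
  -- derivative almost everywhere
  have hae : ∀ᵐ z, z ∈ Ioc 0 B₁ → P.om L z * P.dV (a z) (c z) z (deriv a z) (deriv c z) =
      deriv (fun z => P.om L z * P.V (a z) (c z) z) z - P.dom L z * P.V (a z) (c z) z := by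
    have hne : ∀ᵐ z : ℝ, z ≠ B₁ := by
      simp [ae_iff]
    filter_upwards [caA.ae_differentiableAt, ccA.ae_differentiableAt, hne] with z hz1 hz2 hz3 hz
    have hzI : z ∈ Icc 0 B₁ := ⟨hz.1.le, hz.2⟩
    rw [hu] at hz1 hz2
    have hb := hbd z hzI
    have e1 := VIN_der (P := P) hQ hz.1 (hz0.trans_le hb.1) (hz0.trans_le hb.2.2.1)
      (hz0.trans_le hb.2.2.2.2.2.2.1) (hz1 hzI).hasDerivAt (hz2 hzI).hasDerivAt
    have e2 := ((ho3 z (habs z hzI)).1.mul e1).deriv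
    have e3 : deriv (fun z => P.om L z * P.V (a z) (c z) z) z =
        P.dom L z * P.V (a z) (c z) z +
          P.om L z * P.dV (a z) (c z) z (deriv a z) (deriv c z) := e2
    rw [e3]
    ring
  have hae' : ∀ᵐ z ∂(volume.restrict (Ioc 0 B₁)),
      P.om L z * P.dV (a z) (c z) z (deriv a z) (deriv c z) =
      deriv (fun z => P.om L z * P.V (a z) (c z) z) z - P.dom L z * P.V (a z) (c z) z :=
    (ae_restrict_iff' measurableSet_Ioc).2 hae
  have hcd : ContinuousOn (fun z => P.dom L z * P.V (a z) (c z) z) (uIcc 0 B₁) := by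
    rw [hu]
    refine ContinuousOn.mul (fun z hz => (ho3 z (habs z hz)).2.2.2.2.1.continuousWithinAt) ?_
    have := cV.continuousOn
    rwa [hu] at this
  have i1 := cH.intervalIntegrable_deriv
  have i2 : IntervalIntegrable (fun z => P.dom L z * P.V (a z) (c z) z) volume 0 B₁ :=
    hcd.intervalIntegrable
  have i3 : IntervalIntegrable (fun z => P.om L z * P.dV (a z) (c z) z (deriv a z) (deriv c z))
      volume 0 B₁ := by
    rw [intervalIntegrable_iff_integrableOn_Ioc_of_le h.pos.le]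
    have i4 := (i1.sub i2)
    rw [intervalIntegrable_iff_integrableOn_Ioc_of_le h.pos.le] at i4
    exact i4.congr (hae'.mono fun z hz => hz.symm)
  refine ⟨i3, ?_⟩
  have hV0 : P.V (a 0) (c 0) 0 = 0 := by unfold Par.V; ring
  have hV1 : P.V (a B₁) (c B₁) B₁ = 0 := by
    unfold Par.V
    rw [hq6 _ _ _ h.fin]
    ring
  have e1 : ∫ B in (0 : ℝ)..B₁, P.om L B * P.dV (a B) (c B) B (deriv a B) (deriv c B) =
      (∫ B in (0 : ℝ)..B₁, deriv (fun z => P.om L z * P.V (a z) (c z) z) B) -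
        ∫ B in (0 : ℝ)..B₁, P.dom L B * P.V (a B) (c B) B := by
    rw [← intervalIntegral.integral_sub i1 i2]
    refine intervalIntegral.integral_congr_ae ?_
    rw [uIoc_of_le h.pos.le]
    exact hae
  rw [e1, cH.integral_deriv_eq_sub]
  have e2 : 0 ≤ ∫ B in (0 : ℝ)..B₁, P.dom L B * P.V (a B) (c B) B := by
    refine intervalIntegral.integral_nonneg h.pos.le fun z hz => ?_
    refine mul_nonneg (ho4 z hz.1 (by linarith [hz.2])) ?_
    unfold Par.V
    have hb := hbd z hz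
    have h5 := hq4 (a z) (c z) z hz.1 hb.2.2.2.2.1 hb.2.2.2.2.2.1
    have h6 := P.e0
    have h7 := hz.1
    positivity
  rw [hV0, hV1]
  linarith

end Pool.Agent.FAN4
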