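import Pool.Agent.FAN4.P_ALG
import Pool.Agent.FAN4.P_BND
import Pool.Agent.FAN4.P_BRG
import Pool.Agent.FAN4.P_FFF
import Pool.Agent.FAN4.P_GIN
import Pool.Agent.FAN4.P_HBF
import Pool.Agent.FAN4.P_INB
import Pool.Agent.FAN4.P_KEY
import Pool.Agent.FAN4.P_MDR
import Pool.Agent.FAN4.P_MLP
import Pool.Agent.FAN4.P_MON
import Pool.Agent.FAN4.P_MPO
import Pool.Agent.FAN4.P_OMG
import Pool.Agent.FAN4.P_ONE
import Pool.Agent.FAN4.P_PAR
import Pool.Agent.FAN4.P_PIN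
import Pool.Agent.FAN4.P_PLN
import Pool.Agent.FAN4.P_PTH
import Pool.Agent.FAN4.P_PTP
import Pool.Agent.FAN4.P_QQQ
import Pool.Agent.FAN4.P_SHP
import Pool.Agent.FAN4.P_VIN

/-!
# FAN4: assembly of the block PATH (helper23)
-/

set_option autoImplicit false

namespace Pool.Agent.FAN4

theorem all_PAR : Sp_PAR := p_PAR
theorem all_FFF : Sp_FFF := p_FFF
theorem all_OMG : Sp_OMG := p_OMG all_PAR
theorem all_QQQ : Sp_QQQ := p_QQQ all_FFF
theorem all_GIN : Sp_GIN := p_GIN all_PAR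
theorem all_BND : Sp_BND := p_BND all_FFF all_OMG
theorem all_SHP : Sp_SHP := p_SHP all_FFF all_OMG all_BND
theorem all_PIN : Sp_PIN := p_PIN all_PAR all_GIN all_FFF all_QQQ
theorem all_MPO : Sp_MPO := p_MPO all_FFF all_OMG
theorem all_MON : Sp_MON := p_MON
theorem all_VIN : Sp_VIN := p_VIN all_FFF all_QQQ all_OMG all_PAR
theorem all_INB : Sp_INB := p_INB all_FFF all_OMG all_PAR
theorem all_MLP : Sp_MLP := p_MLP all_FFF all_OMG
theorem all_HBF : Sp_HBF := p_HBF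
theorem all_PTP : Sp_PTP := p_PTP all_HBF
theorem all_ALG : Sp_ALG := p_ALG all_PAR all_FFF
theorem all_ONE : Sp_ONE := p_ONE all_HBF all_ALG
theorem all_MDR : Sp_MDR := p_MDR all_OMG all_FFF
theorem all_KEY : Sp_KEY := p_KEY all_PAR all_FFF all_OMG all_PIN all_SHP all_MDR
theorem all_PTH : Sp_PTH := p_PTH all_PAR all_KEY all_VIN all_INB all_MLP all_MON all_MPO
theorem all_PLN : Si_PLN := p_PLN all_HBF all_PTP all_PTH all_MPO all_ONE

/-- The planar inequality. -/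
theorem all_PL2 : Si_PL2 := p_BRG all_PLN

end Pool.Agent.FAN4
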