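import Pool.Agent.FAN2.StH

/-!
# FAN4 (exponent 2.7869): definitions (helper23)

Frames. A line `x + τ v` (`‖v‖ = 1`); a point `p` on its left has the frame coordinate `conj v * (p - x)`
(real part = foot, imaginary part = height `> 0`), a point on its right the mirrored frame coordinate
`v * conj (p - x)` (real part = foot, imaginary part = distance `> 0`). If the line is rotated by the angle `φ` to the
right, the frame coordinates of the left points are multiplied by `ev φ` and those of the right points by
`ev (-φ)`; for a rotation to the left, left and right are exchanged.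
-/

set_option autoImplicit false

open scoped ComplexConjugate
open MeasureTheory Set

namespace Pool.Agent.FAN

variable {S : TriSys}

/-- the parameters: truncation `k`, exponent `e`, and `u = log₂ (1 + e)` -/
structure PR where
  k : ℝ
  e : ℝ
  u : ℝ
  k0 : 0 < k
  k1 : k ≤ 1
  e0 : 0 < e
  e1 : e < 1
  hu : (2 : ℝ) ^ u = 1 + e

/-- left end points of the crossed edges -/
noncomputable def lvs : Pl S → List (ZMod 3) → List ℂ
  | _, [] => []
  | q, j :: js => q.V (j + 2) :: lvs (q.nx j) js

/-- right end points of the crossed edges -/
noncomputable def rvs : Pl S → List (ZMod 3) → List ℂ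
  | _, [] => []
  | q, j :: js => q.V (j + 1) :: rvs (q.nx j) js

open Classical in
/-- the (first) element of the list with the smallest imaginary part -/
noncomputable def bot : List ℂ → ℂ
  | [] => 0
  | z :: l => if l = [] ∨ z.im ≤ (bot l).im then z else bot l

/-- the truncated kernel -/
noncomputable def trf (p : PR) (y : ℝ) : ℝ := max (y ^ (p.e - 1) - p.k ^ (p.e - 1)) 0

/-- the functional; `z`, `w`: frame coordinates of the lowest left and right points -/
noncomputable def PH (p : PR) (z w : ℂ) : ℝ :=
  z.re ^ p.u * (z.im * (trf p z.im - trf p (z.im + w.im))) +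
    w.re ^ p.u * (w.im * (trf p w.im - trf p (z.im + w.im)))

/-- frame coordinates of left points -/
noncomputable def frl (v x : ℂ) (l : List ℂ) : List ℂ := l.map fun p => conj v * (p - x)

/-- mirrored frame coordinates of right points -/
noncomputable def frr (v x : ℂ) (l : List ℂ) : List ℂ := l.map fun p => v * conj (p - x)

/-- the functional of the line `x + τ v` that runs through `js` -/
noncomputable def PHw (p : PR) (q : Pl S) (js : List (ZMod 3)) (x v : ℂ) : ℝ :=
  PH p (bot (frl v x (lvs q js))) (bot (frr v x (rvs q js)))

open Classical in
/-- integral over the directions of the rays from the corner `i` of the room `r` that run through `js` -/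
noncomputable def JJ (p : PR) (S : TriSys) (r : S.R) (i : ZMod 3) (js : List (ZMod 3)) : ℝ :=
  ∫ ψ in (0 : ℝ)..(2 * Real.pi), if Run (Pl.home S r) (S.P r i) (ev ψ) js then
    PHw p (Pl.home S r) js (S.P r i) (ev ψ) else 0

/-- the words with `n` letters -/
noncomputable def wds (n : ℕ) : Finset (List (ZMod 3)) := (List.finite_length_eq (ZMod 3) n).toFinset

/-- the potential: all rays from all corners, `n + 1` crossed edges -/
noncomputable def Psi (p : PR) (S : TriSys) (n : ℕ) : ℝ := ∑ r, ∑ i, ∑ js ∈ wds n, JJ p S r i (i :: js)

open Classical in
/-- Life of a new vertex on the left (`L` = length of the generalized diagonal, `A`, `C` = left and right points in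
the frame of the generalized diagonal): the line is rotated by `φ` to the right. -/
noncomputable def Lf (p : PR) (L : ℝ) (A C : List ℂ) : ℝ :=
  ∫ φ in (0 : ℝ)..(Real.pi / 2),
    if 0 < (bot (C.map fun z => ev (-φ) * z)).im ∧
        (ev φ * L).im < (bot (A.map fun z => ev φ * z)).im then
      PH p (ev φ * L) (bot (C.map fun z => ev (-φ) * z)) -
        PH p (bot (A.map fun z => ev φ * z)) (bot (C.map fun z => ev (-φ) * z))
    else 0

/-- the same points seen from the other end -/
noncomputable def hat (L : ℝ) (A : List ℂ) : List ℂ := A.map fun z => L - conj z

end Pool.Agent.FAN
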