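import Pool.Agent.FAN4.StE
import Pool.Agent.FAN2.HBase
import Pool.Agent.FAN2.H_ANT
import Pool.Agent.FAN2.H_EEM
import Pool.Agent.FAN2.H_FLW
import Pool.Agent.FAN2.H_MSE
import Pool.Agent.FAN2.H_NOW
import Pool.Agent.FAN2.H_PPM
import Pool.Agent.FAN2.W_EEL
import Pool.Agent.FAN2.W_FLO
import Pool.Agent.FAN2.W_HHH
import Pool.Agent.FAN2.W_SHE
import Pool.Agent.FAN2.W_SHM
import Pool.Agent.FAN2.W_SPL
import Pool.Agent.FAN.M_SH1
import Pool.Agent.FAN.M_SHF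
import Pool.Agent.FAN.M_SIG

/-!
# FAN4, block E, statement MEV: the measure of the hits followed by a long silence (helper99)
-/

set_option autoImplicit false

open MeasureTheory Set

namespace Pool.Agent.FAN

namespace MEV4

/-- The flow invariance for the hits. -/
theorem flw : Sh_FLW := by
  have hSHE : Sw_SHE := w_SHE b_UNI
  have hSHM : Sw_SHM := w_SHM b_OPN hSHE
  have hEEL : Sw_EEL := w_EEL b_OPN b_TO1
  have hSPL : Sw_SPL := w_SPL m_MOV m_EXU b_UNI b_CLV b_MON hSHE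
  have hSIG : Sm_SIG := g_SIG m_MOV m_REV
  have hSHF : Sm_SHF := g_SHF b_UNI b_OPN hSIG (g_SH1 b_PWR hSIG)
  have hFLO : Sw_FLO := w_FLO b_PWR b_OPN b_EXI hSHF hSHE hSHM hEEL
  exact h_FLW h_EEM h_NOW hSHM hSPL (w_HHH b_MEA b_EXI hSHE hSHM hEEL hFLO hSPL b_MON)

theorem tele (P h : ℝ → ℝ) (hP : ∀ t, 0 ≤ t → P (1 + t) = P t + h t) (m : ℕ) :
    P ((m : ℝ) + 1) = P 0 + ∑ k ∈ Finset.range (m + 1), h (k : ℝ) := by
  induction m with
  | zero =>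
    have h1 := hP 0 le_rfl
    simp only [Nat.cast_zero, zero_add, Finset.sum_range_one]
    rw [← h1, add_zero]
  | succ m ih =>
    rw [Finset.sum_range_succ, ← add_assoc, ← ih]
    have h1 := hP ((m : ℝ) + 1) (by positivity)
    push_cast
    rw [show (m : ℝ) + 1 + 1 = 1 + ((m : ℝ) + 1) by ring, h1]

end MEV4

theorem q_MEV : Se_MEV := by
  intro S
  obtain ⟨V, hV, hPP⟩ := h_PPM h_EEM h_MSE h_NOW S
  refine ⟨V, hV, fun w t hw ht => ?_⟩
  have hfin : ∀ t' : ℝ, mm S (EvH S w t') < ⊤ := fun t' =>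
    (h_EEM S (EvH S w t') (fun r => (h_MSE S w t' 0 r).1)).1
  obtain ⟨hb, -⟩ := hPP w hw
  have ht0 : (0 : ℝ) ≤ t := by linarith
  have htp : (0 : ℝ) < t := by linarith
  have hs := MEV4.tele (pp S w) (fun t' => (mm S (EvH S w t')).toReal)
    (fun t' ht' => MEV4.flw S w t' hw ht') ⌊t⌋₊
  have hnm : t < (⌊t⌋₊ : ℝ) + 1 := Nat.lt_floor_add_one t
  have hmn : (⌊t⌋₊ : ℝ) ≤ t := Nat.floor_le ht0
  have hle : ((⌊t⌋₊ : ℝ) + 1) * (mm S (EvH S w t)).toReal ≤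
      ∑ k ∈ Finset.range (⌊t⌋₊ + 1), (mm S (EvH S w (k : ℝ))).toReal := by
    have h1 : ∑ _k ∈ Finset.range (⌊t⌋₊ + 1), (mm S (EvH S w t)).toReal ≤
        ∑ k ∈ Finset.range (⌊t⌋₊ + 1), (mm S (EvH S w (k : ℝ))).toReal := by
      refine Finset.sum_le_sum fun k hk => ?_
      have hk' : k ≤ ⌊t⌋₊ := Nat.lt_succ_iff.mp (Finset.mem_range.mp hk)
      have hkm : (k : ℝ) ≤ ⌊t⌋₊ := by exact_mod_cast hk'
      exact ENNReal.toReal_mono (hfin _).ne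
        (h_ANT h_NOW S w k t (Nat.cast_nonneg k) (hkm.trans hmn))
    rw [Finset.sum_const, Finset.card_range, nsmul_eq_mul] at h1
    push_cast at h1
    exact h1
  have h0 := (hb 0 le_rfl).1
  have h1 := (hb ((⌊t⌋₊ : ℝ) + 1) (by positivity)).2
  have hh0 : 0 ≤ (mm S (EvH S w t)).toReal := ENNReal.toReal_nonneg
  rw [ENNReal.le_ofReal_iff_toReal_le (hfin t).ne (by positivity), le_div_iff₀ htp]
  have h2 : t * (mm S (EvH S w t)).toReal ≤
      ((⌊t⌋₊ : ℝ) + 1) * (mm S (EvH S w t)).toReal := mul_le_mul_of_nonneg_right hnm.le hh0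
  have h3 : pp S w ((⌊t⌋₊ : ℝ) + 1) = pp S w 0 +
      ∑ k ∈ Finset.range (⌊t⌋₊ + 1), (mm S (EvH S w (k : ℝ))).toReal := hs
  linarith

end Pool.Agent.FAN
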