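import Pool.Agent.FAN4.StE

/-!
# FAN4, block E, module UPB: upper bound of the potential
-/

set_option autoImplicit false

open scoped ComplexConjugate
open MeasureTheory Set

namespace Pool.Agent.FAN

/-- the number of words from one corner is at most the total number -/
private lemma UPB_le (S : TriSys) (r : S.R) (i : ZMod 3) (L : ℝ) :
    ((GG S r i L).ncard : ℝ) ≤ GT S L := by
  unfold GT
  have h1 : ∀ r' : S.R, 0 ≤ ∑ i' : ZMod 3, ((GG S r' i' L).ncard : ℝ) := fun r' =>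
    Finset.sum_nonneg fun i' _ => Nat.cast_nonneg _
  refine le_trans ?_ (Finset.single_le_sum (f := fun r' : S.R =>
    ∑ i' : ZMod 3, ((GG S r' i' L).ncard : ℝ)) (fun r' _ => h1 r') (Finset.mem_univ r))
  exact Finset.single_le_sum (f := fun i' : ZMod 3 => ((GG S r i' L).ncard : ℝ))
    (fun i' _ => Nat.cast_nonneg _) (Finset.mem_univ i)

/-- monotonicity of the total number -/
theorem UPB_mono (S : TriSys) {L L' : ℝ} (h : L ≤ L') : GT S L ≤ GT S L' := by
  unfold GT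
  refine Finset.sum_le_sum fun r _ => Finset.sum_le_sum fun i _ => ?_
  have hsub : GG S r i L ⊆ GG S r i L' := fun _ hjs => ⟨hjs.1, hjs.2.1, hjs.2.2.trans h⟩
  exact_mod_cast Set.ncard_le_ncard hsub (b_KFIN S r i L')

theorem UPB_nonneg (S : TriSys) (L : ℝ) : 0 ≤ GT S L :=
  Finset.sum_nonneg fun _ _ => Finset.sum_nonneg fun _ _ => Nat.cast_nonneg _

theorem q_UPB (hS : Se_SUM) (hD : Se_DYM) : Se_UPB := by
  intro S
  obtain ⟨κ₀, hκ, h1⟩ := hS S
  obtain ⟨C₂, hC₂, h2⟩ := hD S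
  refine ⟨κ₀, hκ, fun s hs0 hs1 => ?_⟩
  obtain ⟨C₁, hC₁, h3⟩ := h1 s hs0 hs1
  set K : ℝ := (Fintype.card S.R : ℝ) * 3 with hK
  have hK0 : 0 ≤ K := by positivity
  set C : ℝ := C₁ + K * C₁ + 2 * K * C₂ with hC
  have hKC₁ : 0 ≤ K * C₁ := mul_nonneg hK0 (by linarith)
  have hKC₂ : 0 ≤ K * C₂ := mul_nonneg hK0 (by linarith)
  have hCC : C₁ ≤ C := by rw [hC]; linarith
  refine ⟨C, by linarith, fun p n b lam hk hb hu hlam => ?_⟩
  have hn0 : (0 : ℝ) ≤ n := Nat.cast_nonneg n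
  have hn1 : (0 : ℝ) < n + 1 := by linarith
  have e0 := p.e0
  have e1 := p.e1
  have hsb : s * b ≤ p.u := by
    have h1 : s * b ≤ (1 - p.e) / 2 := by
      rw [hb, ← mul_div_assoc, div_le_div_iff₀ (by linarith) (by norm_num)]
      nlinarith
    linarith
  have hl1 : 0 < lam ^ (1 / b) := Real.rpow_pos_of_pos hlam _
  have hl2 : 0 < lam ^ (-(1 / (1 - b))) := Real.rpow_pos_of_pos hlam _
  have hlog : 0 ≤ (1 + Real.log (n + 1)) / (n + 1) := by
    have : 0 ≤ Real.log ((n : ℝ) + 1) := Real.log_nonneg (by linarith)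
    positivity
  have hM0 : 0 ≤ (C₁ * (n + 1)) ^ (p.u - s * b) := Real.rpow_nonneg (by positivity) _
  have hMM : (C₁ * (n + 1)) ^ (p.u - s * b) ≤ (C * (n + 1)) ^ (p.u - s * b) :=
    Real.rpow_le_rpow (by positivity) (mul_le_mul_of_nonneg_right hCC hn1.le) (by linarith)
  have hGG : GT S (C₁ * (n + 1)) ≤ GT S (C * (n + 1)) :=
    UPB_mono S (mul_le_mul_of_nonneg_right hCC hn1.le)
  have hG0 : 0 ≤ GT S (C₁ * (n + 1)) := UPB_nonneg S _
  have hG1 : 0 ≤ GT S (C * (n + 1)) := UPB_nonneg S _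
  -- the bound of one term
  set B : ℝ := (C₁ * (n + 1)) ^ (p.u - s * b) *
    (lam ^ (1 / b) * (C₁ * (1 + GT S (C₁ * (n + 1)))) +
      2 * lam ^ (-(1 / (1 - b))) * (C₂ * (1 + Real.log (n + 1)) / (n + 1))) with hB
  have hone : ∀ (r : S.R) (i : ZMod 3), ∑ js ∈ wds n, JJ p S r i (i :: js) ≤ B := by
    intro r i
    refine le_trans (h3 p r i n b lam hk hb hu hlam) ?_
    apply mul_le_mul_of_nonneg_left _ hM0
    have a1 := UPB_le S r i (C₁ * (n + 1))
    have a2 : lam ^ (1 / b) * (C₁ * (1 + ((GG S r i (C₁ * (n + 1))).ncard : ℝ))) ≤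
        lam ^ (1 / b) * (C₁ * (1 + GT S (C₁ * (n + 1)))) :=
      mul_le_mul_of_nonneg_left (mul_le_mul_of_nonneg_left (by linarith) (by linarith)) hl1.le
    have a3 := h2 p r i n
    have a4 : 2 * lam ^ (-(1 / (1 - b))) * ∫ ψ in (0 : ℝ)..(2 * Real.pi), mn p S r i n ψ ≤
        2 * lam ^ (-(1 / (1 - b))) * (C₂ * (1 + Real.log (n + 1)) / (n + 1)) :=
      mul_le_mul_of_nonneg_left a3 (by positivity)
    linarith
  have hsum : Psi p S n ≤ K * B := by
    unfold Psi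
    have : ∑ r : S.R, ∑ i : ZMod 3, ∑ js ∈ wds n, JJ p S r i (i :: js) ≤
        ∑ _r : S.R, ∑ _i : ZMod 3, B :=
      Finset.sum_le_sum fun r _ => Finset.sum_le_sum fun i _ => hone r i
    refine le_trans this (le_of_eq ?_)
    rw [Finset.sum_const, Finset.sum_const, Finset.card_univ, Finset.card_univ, ZMod.card]
    simp only [nsmul_eq_mul]
    rw [hK]
    push_cast
    ring
  refine le_trans hsum ?_
  have hin : K * (lam ^ (1 / b) * (C₁ * (1 + GT S (C₁ * (n + 1)))) +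
      2 * lam ^ (-(1 / (1 - b))) * (C₂ * (1 + Real.log (n + 1)) / (n + 1))) ≤
      lam ^ (1 / b) * (C * (1 + GT S (C * (n + 1)))) +
      lam ^ (-(1 / (1 - b))) * (C * (1 + Real.log (n + 1)) / (n + 1)) := by
    have b1 : K * (C₁ * (1 + GT S (C₁ * (n + 1)))) ≤ C * (1 + GT S (C * (n + 1))) := by
      calc K * (C₁ * (1 + GT S (C₁ * (n + 1)))) = (K * C₁) * (1 + GT S (C₁ * (n + 1))) := by ring
        _ ≤ C * (1 + GT S (C * (n + 1))) := by
          apply mul_le_mul _ (by linarith) (by linarith) (by linarith)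
          rw [hC]
          linarith
    have b2 : 2 * K * (C₂ * (1 + Real.log (n + 1)) / (n + 1)) ≤
        C * (1 + Real.log (n + 1)) / (n + 1) := by
      calc 2 * K * (C₂ * (1 + Real.log (n + 1)) / (n + 1)) =
          (2 * K * C₂) * ((1 + Real.log (n + 1)) / (n + 1)) := by ring
        _ ≤ C * ((1 + Real.log (n + 1)) / (n + 1)) := by
          apply mul_le_mul_of_nonneg_right _ hlog
          rw [hC]
          linarith
        _ = C * (1 + Real.log (n + 1)) / (n + 1) := by ring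
    have b3 := mul_le_mul_of_nonneg_left b1 hl1.le
    have b4 := mul_le_mul_of_nonneg_left b2 hl2.le
    calc K * (lam ^ (1 / b) * (C₁ * (1 + GT S (C₁ * (n + 1)))) +
      2 * lam ^ (-(1 / (1 - b))) * (C₂ * (1 + Real.log (n + 1)) / (n + 1)))
        = lam ^ (1 / b) * (K * (C₁ * (1 + GT S (C₁ * (n + 1))))) +
          lam ^ (-(1 / (1 - b))) * (2 * K * (C₂ * (1 + Real.log (n + 1)) / (n + 1))) := by ring
      _ ≤ _ := add_le_add b3 b4
  have hX0 : 0 ≤ lam ^ (1 / b) * (C * (1 + GT S (C * (n + 1)))) +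
      lam ^ (-(1 / (1 - b))) * (C * (1 + Real.log (n + 1)) / (n + 1)) := by
    have c1 : 0 ≤ lam ^ (1 / b) * (C * (1 + GT S (C * (n + 1)))) :=
      mul_nonneg hl1.le (mul_nonneg (by linarith) (by linarith))
    have c2 : 0 ≤ lam ^ (-(1 / (1 - b))) * (C * (1 + Real.log (n + 1)) / (n + 1)) := by
      rw [mul_div_assoc]
      exact mul_nonneg hl2.le (mul_nonneg (by linarith) hlog)
    linarith
  calc K * B = (C₁ * (n + 1)) ^ (p.u - s * b) *
        (K * (lam ^ (1 / b) * (C₁ * (1 + GT S (C₁ * (n + 1)))) +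
      2 * lam ^ (-(1 / (1 - b))) * (C₂ * (1 + Real.log (n + 1)) / (n + 1)))) := by
        rw [hB]
        ring
    _ ≤ (C₁ * (n + 1)) ^ (p.u - s * b) * (lam ^ (1 / b) * (C * (1 + GT S (C * (n + 1)))) +
      lam ^ (-(1 / (1 - b))) * (C * (1 + Real.log (n + 1)) / (n + 1))) :=
        mul_le_mul_of_nonneg_left hin hM0
    _ ≤ _ := mul_le_mul_of_nonneg_right hMM hX0

end Pool.Agent.FAN
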