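import Pool.Agent.FAN4.StG

/-!
# FAN4, block G: SML (helper17)
-/

set_option autoImplicit false

open scoped ComplexConjugate
open MeasureTheory Set

namespace Pool.Agent.FAN

/-- the cross product in the frame of a unit vector -/
theorem sml_cross {v : ℂ} (hv : ‖v‖ = 1) (z w : ℂ) :
    cx z w = dt v z * cx v w - cx v z * dt v w := by
  have h : v.re * v.re + v.im * v.im = 1 := by
    have := dt_self v
    rw [hv] at this
    simpa [dt] using this
  simp only [cx, dt]
  linear_combination (-(z.re * w.im - z.im * w.re)) * h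

/-- orientation at the vertex `i` -/
theorem sml_or {S : TriSys} (r : S.R) (i : ZMod 3) :
    0 < cx (S.P r (i + 1) - S.P r i) (S.P r (i + 2) - S.P r i) := by
  have h := TriSys.pos' (S := S) r i
  simp only [cx, Complex.sub_re, Complex.sub_im] at h ⊢
  nlinarith

/-- a positive lower bound for twice the areas of the rooms -/
theorem sml_area (S : TriSys) : ∃ c₀ : ℝ, 0 < c₀ ∧ ∀ (q : Pl S) (i : ZMod 3),
    c₀ ≤ cx (q.V (i + 1) - q.V i) (q.V (i + 2) - q.V i) := by
  classical
  have key : ∃ c₀ : ℝ, 0 < c₀ ∧ ∀ d : S.R × ZMod 3,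
      c₀ ≤ cx (S.P d.1 (d.2 + 1) - S.P d.1 d.2) (S.P d.1 (d.2 + 2) - S.P d.1 d.2) := by
    by_cases hne : Nonempty (S.R × ZMod 3)
    · obtain ⟨d₀, -, h₀⟩ := Finset.exists_min_image (Finset.univ : Finset (S.R × ZMod 3))
        (fun d => cx (S.P d.1 (d.2 + 1) - S.P d.1 d.2) (S.P d.1 (d.2 + 2) - S.P d.1 d.2))
        Finset.univ_nonempty
      exact ⟨_, sml_or d₀.1 d₀.2, fun d => h₀ d (Finset.mem_univ d)⟩
    · exact ⟨1, one_pos, fun d => absurd ⟨d⟩ hne⟩
  obtain ⟨c₀, hc, h⟩ := key
  refine ⟨c₀, hc, fun q i => ?_⟩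
  have e1 : q.V (i + 1) - q.V i = q.a * (S.P q.r (i + 1) - S.P q.r i) := by
    simp only [Pl.V]; ring
  have e2 : q.V (i + 2) - q.V i = q.a * (S.P q.r (i + 2) - S.P q.r i) := by
    simp only [Pl.V]; ring
  rw [e1, e2, cx_mul1 q.ha]
  exact h (q.r, i)

/-- the numerical part. `X, Y`: foot and height of the apex, `X₁, Y₁`: of the end point of the new
edge on the other side. -/
theorem sml_num {c D h X Y X₁ Y₁ : ℝ} (hD : 0 < D) (hh : 0 < h) (hY : 0 < Y) (hY₁ : 0 < Y₁)
    (hX : X ≤ 0) (h1 : h * (Y + Y₁) ≤ X₁ * Y + Y₁ * X) (h2 : X₁ - X ≤ D)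
    (h3 : c ≤ D * (Y₁ + 2 * Y)) : c / (D * (2 + D / h)) ≤ Y := by
  have e1 : Y₁ * X ≤ 0 := mul_nonpos_of_nonneg_of_nonpos hY₁.le hX
  have e2 : h * (Y + Y₁) ≤ X₁ * Y := by linarith
  have e3 : X₁ * Y ≤ D * Y := by
    apply mul_le_mul_of_nonneg_right _ hY.le
    linarith
  have e4 : h * Y₁ ≤ D * Y := by nlinarith
  have e5 : Y₁ ≤ D * Y / h := by
    rw [le_div_iff₀ hh]
    linarith
  rw [div_le_iff₀ (by positivity)]
  have e6 : D * Y / h = Y * (D / h) := by ring
  rw [e6] at e5
  calc c ≤ D * (Y₁ + 2 * Y) := h3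
    _ ≤ D * (Y * (D / h) + 2 * Y) := by
        apply mul_le_mul_of_nonneg_left _ hD.le
        linarith
    _ = Y * (D * (2 + D / h)) := by ring

theorem q_SML (hALG : Sg_ALG) (hEXT : Sg_EXT) : Sg_SML := by
  intro S
  obtain ⟨D₀, h₀, hD1, hh0, hd1, -, -, hd4⟩ := b_DIA S
  obtain ⟨c₀, hc, harea⟩ := sml_area S
  have hD0 : 0 < D₀ := by linarith
  have hden : 0 < D₀ * (2 + D₀ / h₀) := by positivity
  refine ⟨c₀ / (D₀ * (2 + D₀ / h₀)), by positivity, ?_⟩
  intro q i v js hv
  set x := q.V i with hx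
  -- `κ₀ ≤ c₀ / D₀`
  have hκ : ∀ Y : ℝ, c₀ ≤ D₀ * Y → c₀ / (D₀ * (2 + D₀ / h₀)) ≤ Y := by
    intro Y hY
    rw [div_le_iff₀ hden]
    have hY0 : 0 < Y := by
      by_contra hn
      rw [not_lt] at hn
      have : D₀ * Y ≤ 0 := mul_nonpos_of_nonneg_of_nonpos hD0.le hn
      linarith
    have h1 : 0 ≤ D₀ / h₀ := by positivity
    nlinarith [mul_pos hD0 hY0, mul_nonneg (mul_pos hD0 hY0).le h1]
  induction js using List.reverseRecOn with
  | nil =>
    intro hr p hp hlt
    obtain ⟨⟨hE1, hE2⟩, -⟩ := hr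
    have ho := harea q i
    rw [sml_cross hv, ← hx] at ho
    have b1 := abs_dt_le hv (q.V (i + 1) - x)
    have b2 := abs_dt_le hv (q.V (i + 2) - x)
    have b3 := hd1 q (i + 1) i
    have b4 := hd1 q (i + 2) i
    rw [← hx] at b3 b4
    have b5 := (abs_le.1 b1).2
    have b6 := (abs_le.1 b2).2
    simp only [lvs, rvs, List.mem_singleton] at hp
    by_contra hneg
    rw [not_lt] at hneg
    rcases hp with rfl | rfl
    · rw [abs_of_pos hE1] at hlt
      apply absurd hlt
      rw [not_lt]
      apply hκ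
      have : cx v (q.V (i + 1) - x) * dt v (q.V (i + 2) - x) ≥ 0 :=
        mul_nonneg_of_nonpos_of_nonpos hE2.le hneg
      have : dt v (q.V (i + 1) - x) * cx v (q.V (i + 2) - x) ≤ D₀ * cx v (q.V (i + 2) - x) :=
        mul_le_mul_of_nonneg_right (by linarith) hE1.le
      linarith
    · rw [abs_of_neg hE2] at hlt
      apply absurd hlt
      rw [not_lt]
      apply hκ
      have : dt v (q.V (i + 1) - x) * cx v (q.V (i + 2) - x) ≤ 0 :=
        mul_nonpos_of_nonpos_of_nonneg hneg hE1.le
      have : (-cx v (q.V (i + 1) - x)) * dt v (q.V (i + 2) - x) ≤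
          (-cx v (q.V (i + 1) - x)) * D₀ :=
        mul_le_mul_of_nonneg_left (by linarith) (by linarith)
      linarith
  | append_singleton js j ih =>
    intro hr p hp hlt
    have hr' : Run q x v ((i :: js) ++ [j]) := hr
    have hr0 := hr'
    rw [Run_append] at hr'
    obtain ⟨hr1, hr2⟩ := hr'
    have hexit : (endP q (i :: js)).Ex x v j := hr2.1
    have hent := (b_ENT S (i :: js) q x v i (by simp) hr1).1
    obtain ⟨⟨w₁, hw₁, eL₁, eR₁⟩, ⟨w₂, hw₂, eL₂, eR₂⟩⟩ := hEXT S q i js
    have hone := hd4 q v i hv hr1.1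
    rw [← hx] at hone
    have hct : q.ct x v i < (endP q (i :: js)).ct x v j :=
      (b_CTS S).2.1 (i :: js) q x v j hr0 _ (by simp [cts])
    have hctt : h₀ ≤ (endP q (i :: js)).ct x v j := by linarith
    have ih' := ih hr1
    set Q := endP q (i :: js) with hQ
    set k := eI q i (i :: js) with hk
    have hap : apQ q i (i :: js) = Q.V k := rfl
    have ho := harea Q k
    rw [sml_cross hv] at ho
    obtain ⟨hn1, hn2⟩ := hent
    rcases Pl.En.exit ⟨hn1, hn2⟩ hexit with ⟨rfl, hpos⟩ | ⟨rfl, hneg⟩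
    · -- the apex is on the left
      rw [eL₁, eR₁] at hp
      have hcase : p = Q.V k ∨ (p ∈ lvs q (i :: js) ∨ p ∈ rvs q (i :: js)) := by
        rcases hp with hp | hp
        · rw [List.mem_append, List.mem_singleton] at hp
          rcases hp with hp | hp
          · exact Or.inr (Or.inl hp)
          · exact Or.inl hp
        · rw [List.mem_append, List.mem_singleton] at hp
          rcases hp with hp | hp
          · exact Or.inr (Or.inr hp)
          · exact Or.inr (Or.inr (hp ▸ hw₁))
      rcases hcase with rfl | hp'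
      · by_contra hX
        rw [not_lt] at hX
        rw [abs_of_pos hpos] at hlt
        apply absurd hlt
        rw [not_lt]
        have hY₁ : 0 < -cx v (Q.V (k + 2) - x) := by linarith
        -- crossing time
        rw [Pl.ct, z31, z11, sml_cross hv] at hctt
        have hdpos : 0 < cx v (Q.V k - Q.V (k + 2)) := by
          have : Q.V k - Q.V (k + 2) = (Q.V k - x) - (Q.V (k + 2) - x) := by ring
          rw [this, cx_sub_right]
          linarith
        rw [le_div_iff₀ hdpos] at hctt
        have e1 : cx v (Q.V k - Q.V (k + 2)) = cx v (Q.V k - x) + -cx v (Q.V (k + 2) - x) := by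
          have : Q.V k - Q.V (k + 2) = (Q.V k - x) - (Q.V (k + 2) - x) := by ring
          rw [this, cx_sub_right]
          ring
        rw [e1] at hctt
        -- distances
        have e2 : dt v (Q.V (k + 2) - Q.V k) = dt v (Q.V (k + 2) - x) - dt v (Q.V k - x) := by
          rw [← dt_sub_right]; congr 1; ring
        have e3 : dt v (Q.V (k + 1) - Q.V k) = dt v (Q.V (k + 1) - x) - dt v (Q.V k - x) := by
          rw [← dt_sub_right]; congr 1; ring
        have e4 : cx v (Q.V (k + 2) - Q.V k) = cx v (Q.V (k + 2) - x) - cx v (Q.V k - x) := by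
          rw [← cx_sub_right]; congr 1; ring
        have e5 : cx v (Q.V (k + 1) - Q.V k) = cx v (Q.V (k + 1) - x) - cx v (Q.V k - x) := by
          rw [← cx_sub_right]; congr 1; ring
        have b1 := (abs_le.1 ((abs_dt_le hv (Q.V (k + 2) - Q.V k)).trans (hd1 Q (k + 2) k))).2
        have b2 := (abs_le.1 ((abs_dt_le hv (Q.V (k + 1) - Q.V k)).trans (hd1 Q (k + 1) k))).1
        rw [e3, e4, e5, e2] at ho
        rw [e2] at b1
        rw [e3] at b2
        set X := dt v (Q.V k - x)
        set Y := cx v (Q.V k - x)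
        set X₁ := dt v (Q.V (k + 2) - x)
        set Y₁ := -cx v (Q.V (k + 2) - x) with hY₁def
        set X₂ := dt v (Q.V (k + 1) - x)
        set Y₂ := cx v (Q.V (k + 1) - x)
        have e6 : cx v (Q.V (k + 2) - x) = -Y₁ := by rw [hY₁def]; ring
        rw [e6] at ho hctt
        have hctt' : h₀ * (Y + Y₁) ≤ X₁ * Y + Y₁ * X := by linarith
        have hX₁ : 0 < X₁ := by
          have h1 : 0 < h₀ * (Y + Y₁) := by positivity
          have h2 : Y₁ * X ≤ 0 := mul_nonpos_of_nonneg_of_nonpos hY₁.le hX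
          have h3 : 0 < X₁ * Y := by linarith
          exact (pos_iff_pos_of_mul_pos h3).2 hpos
        refine sml_num hD0 hh0 hpos hY₁ hX hctt' b1 ?_
        have h4 : (X₂ - X) * (-Y₁ - Y) ≤ D₀ * (Y₁ + Y) := by
          have : (X₂ - X) * (-Y₁ - Y) = (-(X₂ - X)) * (Y₁ + Y) := by ring
          rw [this]
          exact mul_le_mul_of_nonneg_right (by linarith) (by linarith)
        have h5 : -((Y₂ - Y) * (X₁ - X)) ≤ D₀ * Y := by
          have h6 : -((Y₂ - Y) * (X₁ - X)) ≤ Y * (X₁ - X) := by nlinarith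
          have h7 : Y * (X₁ - X) ≤ Y * D₀ := mul_le_mul_of_nonneg_left b1 hpos.le
          linarith
        linarith
      · exact ih' p hp' hlt
    · -- the apex is on the right
      rw [eL₂, eR₂] at hp
      have hcase : p = Q.V k ∨ (p ∈ lvs q (i :: js) ∨ p ∈ rvs q (i :: js)) := by
        rcases hp with hp | hp
        · rw [List.mem_append, List.mem_singleton] at hp
          rcases hp with hp | hp
          · exact Or.inr (Or.inl hp)
          · exact Or.inr (Or.inl (hp ▸ hw₂))
        · rw [List.mem_append, List.mem_singleton] at hp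
          rcases hp with hp | hp
          · exact Or.inr (Or.inr hp)
          · exact Or.inl hp
      rcases hcase with rfl | hp'
      · by_contra hX
        rw [not_lt] at hX
        rw [abs_of_neg hneg] at hlt
        apply absurd hlt
        rw [not_lt]
        have hY : 0 < -cx v (Q.V k - x) := by linarith
        rw [Pl.ct, z22, z32, sml_cross hv] at hctt
        have e1 : cx v (Q.V (k + 1) - Q.V k) = cx v (Q.V (k + 1) - x) + -cx v (Q.V k - x) := by
          have : Q.V (k + 1) - Q.V k = (Q.V (k + 1) - x) - (Q.V k - x) := by ring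
          rw [this, cx_sub_right]
          ring
        have hdpos : 0 < cx v (Q.V (k + 1) - Q.V k) := by
          rw [e1]
          linarith
        rw [le_div_iff₀ hdpos, e1] at hctt
        have e2 : dt v (Q.V (k + 2) - Q.V k) = dt v (Q.V (k + 2) - x) - dt v (Q.V k - x) := by
          rw [← dt_sub_right]; congr 1; ring
        have e3 : dt v (Q.V (k + 1) - Q.V k) = dt v (Q.V (k + 1) - x) - dt v (Q.V k - x) := by
          rw [← dt_sub_right]; congr 1; ring
        have e4 : cx v (Q.V (k + 2) - Q.V k) = cx v (Q.V (k + 2) - x) - cx v (Q.V k - x) := by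
          rw [← cx_sub_right]; congr 1; ring
        have e5 : cx v (Q.V (k + 1) - Q.V k) = cx v (Q.V (k + 1) - x) - cx v (Q.V k - x) := by
          rw [← cx_sub_right]; congr 1; ring
        have b1 := (abs_le.1 ((abs_dt_le hv (Q.V (k + 1) - Q.V k)).trans (hd1 Q (k + 1) k))).2
        have b2 := (abs_le.1 ((abs_dt_le hv (Q.V (k + 2) - Q.V k)).trans (hd1 Q (k + 2) k))).1
        rw [e3, e4, e5, e2] at ho
        rw [e3] at b1
        rw [e2] at b2
        set X := dt v (Q.V k - x)
        set Y := -cx v (Q.V k - x) with hYdef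
        set X₁ := dt v (Q.V (k + 1) - x)
        set Y₁ := cx v (Q.V (k + 1) - x)
        set X₂ := dt v (Q.V (k + 2) - x)
        set Y₂ := -cx v (Q.V (k + 2) - x) with hY₂def
        have e6 : cx v (Q.V k - x) = -Y := by rw [hYdef]; ring
        have e7 : cx v (Q.V (k + 2) - x) = -Y₂ := by rw [hY₂def]; ring
        have hY₂ : 0 < Y₂ := by linarith
        rw [e6, e7] at ho
        rw [e6] at hctt
        have hctt' : h₀ * (Y + Y₁) ≤ X₁ * Y + Y₁ * X := by linarith
        have hX₁ : 0 < X₁ := by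
          have h1 : 0 < h₀ * (Y + Y₁) := by positivity
          have h2 : Y₁ * X ≤ 0 := mul_nonpos_of_nonneg_of_nonpos hn1.le hX
          have h3 : 0 < X₁ * Y := by linarith
          exact (pos_iff_pos_of_mul_pos h3).2 hY
        refine sml_num hD0 hh0 hY hn1 hX hctt' b1 ?_
        have h4 : (X₁ - X) * (-Y₂ - -Y) ≤ D₀ * Y := by
          have h6 : (X₁ - X) * (-Y₂ - -Y) ≤ (X₁ - X) * Y := by nlinarith
          have h7 : (X₁ - X) * Y ≤ D₀ * Y := mul_le_mul_of_nonneg_right b1 hY.le
          linarith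
        have h5 : -((Y₁ - -Y) * (X₂ - X)) ≤ D₀ * (Y₁ + Y) := by
          have : -((Y₁ - -Y) * (X₂ - X)) = (-(X₂ - X)) * (Y₁ + Y) := by ring
          rw [this]
          exact mul_le_mul_of_nonneg_right (by linarith) (by linarith)
        linarith
      · exact ih' p hp' hlt

end Pool.Agent.FAN
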