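import Mathlib

/-!
# FAN4, block PATH: definitions (helper88)

Exponent `2.787` for the complexity of polygonal billiards (MP_aaed04_an, notes 2822, 2825, 2827). This block
is real analysis only. `2 ^ ρ = 1 + e`; `f z = z ^ (e - 1)`, truncated at the height `r`.
-/

set_option autoImplicit false

open MeasureTheory Set

namespace Pool.Agent.FAN4

/-- Parameters. -/
structure Par where
  e : ℝ
  ρ : ℝ
  r : ℝ
  e0 : 0 < e
  e1 : e < 1
  hρ : (2 : ℝ) ^ ρ = 1 + e
  r0 : 0 < r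

namespace Par

variable (P : Par)

/-- the truncated power -/
noncomputable def f (z : ℝ) : ℝ := max (z ^ (P.e - 1) - P.r ^ (P.e - 1)) 0

/-- a primitive of `f` -/
noncomputable def Q (z : ℝ) : ℝ := (min z P.r) ^ P.e / P.e - P.r ^ (P.e - 1) * min z P.r

/-- absolute value of the right derivative of `f` -/
noncomputable def lam (z : ℝ) : ℝ := if z < P.r then (1 - P.e) * z ^ (P.e - 2) else 0

noncomputable def k : ℝ := 1 / (1 + P.e)

/-- weight of one side, clearances `a` (this side) and `b` -/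
noncomputable def w (a b : ℝ) : ℝ := a * (P.f a - P.f (a + b))

/-- value of a state: clearances `a`, `b`, feet `T`, `T'` of the bottlenecks -/
noncomputable def Ph (a T b T' : ℝ) : ℝ := T ^ P.ρ * P.w a b + T' ^ P.ρ * P.w b a

/-- the integrand of the path inequality: `B` height of the new vertex, `a`, `c` old clearances at the
two ends, `s`, `t` their slopes -/
noncomputable def I (a c B s t : ℝ) : ℝ :=
  2 * B * (P.f B - P.f (a + c - B)) -
    (P.f a - P.f (a + c - B)) * (s ^ P.ρ * a + (1 - s) ^ P.ρ * (a - B) + B) -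
    (P.f c - P.f (a + c - B)) * (t ^ P.ρ * c + (1 - t) ^ P.ρ * (c - B) + B)

/-- alternating sum of the primitive -/
noncomputable def A4 (a c B : ℝ) : ℝ := P.Q a + P.Q c - P.Q B - P.Q (a + c - B)

/-- the first potential -/
noncomputable def V (a c B : ℝ) : ℝ := 2 * P.k * P.e * B * P.A4 a c B

/-- derivative of `V` along a path with slopes `s`, `t` -/
noncomputable def dV (a c B s t : ℝ) : ℝ :=
  2 * P.k * P.e * P.A4 a c B + 2 * P.k * P.e * B *
    (s * (P.f a - P.f (a + c - B)) + t * (P.f c - P.f (a + c - B)) - (P.f B - P.f (a + c - B)))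

/-- the weight of true geometry, `L` length of the generalized diagonal -/
noncomputable def om (L z : ℝ) : ℝ := (L ^ 2 - z ^ 2) ^ ((P.ρ - 1) / 2)

/-- derivative of `om` -/
noncomputable def dom (L z : ℝ) : ℝ := (1 - P.ρ) * z * (L ^ 2 - z ^ 2) ^ ((P.ρ - 3) / 2)

noncomputable def g (L z : ℝ) : ℝ := z * P.om L z

/-- derivative of `g` -/
noncomputable def dg (L z : ℝ) : ℝ := P.om L z + z * P.dom L z

/-- a primitive of `g` -/
noncomputable def G (L z : ℝ) : ℝ := -(L ^ 2 - z ^ 2) ^ ((P.ρ + 1) / 2) / (P.ρ + 1)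

/-- the second potential (`m = min a c - B`) -/
noncomputable def M (L a c B : ℝ) : ℝ :=
  2 * ∫ u in a..(a + (min a c - B)), P.g L (2 * u - 2 * a + B) * (P.f u - P.f (a + c - B))

/-- a part of the derivative of `M` -/
noncomputable def be (L a c B : ℝ) : ℝ :=
  2 * P.g L (2 * min a c - B) * (P.f (a + (min a c - B)) - P.f (a + c - B)) -
    P.g L B * (P.f a - P.f (a + c - B)) -
    2 * ∫ u in a..(a + (min a c - B)), P.dg L (2 * u - 2 * a + B) * (P.f u - P.f (a + c - B))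

/-- the integral of `g` from `B` to `B + 2 m` -/
noncomputable def Ga (L a c B : ℝ) : ℝ := P.G L (2 * min a c - B) - P.G L B

/-! ### The planar statement -/

/-- height of the point `q` over a ray from the origin turned away by the angle `φ` -/
noncomputable def up (q : ℝ × ℝ) (φ : ℝ) : ℝ := q.2 * Real.cos φ + q.1 * Real.sin φ

/-- height of the (mirrored) point `q` if the ray turns towards it -/
noncomputable def dn (q : ℝ × ℝ) (φ : ℝ) : ℝ := q.2 * Real.cos φ - q.1 * Real.sin φ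

/-- smallest `up` height, truncated at `r` -/
noncomputable def mup (A : List (ℝ × ℝ)) (φ : ℝ) : ℝ := (A.map fun q => up q φ).foldr min P.r

/-- smallest `dn` height, truncated at `r` -/
noncomputable def mdn (A : List (ℝ × ℝ)) (φ : ℝ) : ℝ := (A.map fun q => dn q φ).foldr min P.r

/-- `T` is the foot of the bottleneck for `up` -/
def IsUp (A : List (ℝ × ℝ)) (φ₁ : ℝ) (T : ℝ → ℝ) : Prop :=
  ∀ φ, 0 < φ → φ < φ₁ → P.mup A φ < P.r →
    ∃ q ∈ A, up q φ = P.mup A φ ∧ T φ = q.1 * Real.cos φ - q.2 * Real.sin φ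

/-- `T` is the foot of the bottleneck for `dn` -/
def IsDn (A : List (ℝ × ℝ)) (φ₁ : ℝ) (T : ℝ → ℝ) : Prop :=
  ∀ φ, 0 < φ → φ < φ₁ → P.mdn A φ < P.r →
    ∃ q ∈ A, dn q φ = P.mdn A φ ∧ T φ = q.1 * Real.cos φ + q.2 * Real.sin φ

/-- change of the value of the state at one end when the new vertex is inserted; `A` list of the
vertices on the side of the new vertex, `C` on the other side, `T`, `T'` feet -/
noncomputable def W (L : ℝ) (A C : List (ℝ × ℝ)) (T T' : ℝ → ℝ) (φ : ℝ) : ℝ :=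
  P.Ph (L * Real.sin φ) (L * Real.cos φ) (P.mdn C φ) (T' φ) -
    P.Ph (P.mup A φ) (T φ) (P.mdn C φ) (T' φ)

end Par

/-- the points seen from the other end -/
def refl (L : ℝ) (A : List (ℝ × ℝ)) : List (ℝ × ℝ) := A.map fun q => (L - q.1, q.2)

/-- The life of the generalized diagonal, turning sense with `A` on the side of the new vertex: all points
of `A` are above both lines, all points of `C` are below both lines; at `φ₁` this ends, or the height of the
new vertex is at least `r` (then nothing changes any more). -/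
def Life (P : Par) (L : ℝ) (A C : List (ℝ × ℝ)) (φ₁ : ℝ) : Prop :=
  0 < φ₁ ∧ φ₁ < Real.pi / 2 ∧
    (∀ φ, 0 ≤ φ → φ < φ₁ → (∀ q ∈ A, L * Real.sin φ < Par.up q φ) ∧ ∀ q ∈ C, 0 < Par.dn q φ) ∧
    (P.r ≤ L * Real.sin φ₁ ∨ (∃ q ∈ A, Par.up q φ₁ = L * Real.sin φ₁) ∨ ∃ q ∈ C, Par.dn q φ₁ = 0)

/-- hypothesis (H): bottlenecks at height less than `r` have their feet between the two ends -/
def Feet (P : Par) (L : ℝ) (A : List (ℝ × ℝ)) (φ₁ : ℝ) : Prop :=
  ∀ φ, 0 < φ → φ < φ₁ → P.mup A φ < P.r → ∃ q ∈ A, Par.up q φ = P.mup A φ ∧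
    0 ≤ q.1 * Real.cos φ - q.2 * Real.sin φ ∧
      q.1 * Real.cos φ - q.2 * Real.sin φ ≤ L * Real.cos φ

/-- PLN. The interface of the block PATH: the sum over the two turning senses and the two ends of a
generalized diagonal of the changes of the value of the state is nonnegative. -/
def Si_PLN : Prop := ∀ (P : Par) (L : ℝ) (A C : List (ℝ × ℝ)) (φ₁ φ₂ : ℝ)
  (T₁ T₂ T₃ T₄ T₅ T₆ T₇ T₈ : ℝ → ℝ),
  10 * P.r ≤ L → (∀ q ∈ A, 0 < q.2) → (∀ q ∈ C, 0 < q.2) →
  Life P L A C φ₁ → Life P L C A φ₂ →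
  Feet P L A φ₁ → Feet P L (refl L C) φ₁ → Feet P L C φ₂ → Feet P L (refl L A) φ₂ →
  P.IsUp A φ₁ T₁ → P.IsDn C φ₁ T₂ → P.IsUp (refl L C) φ₁ T₃ → P.IsDn (refl L A) φ₁ T₄ →
  P.IsUp C φ₂ T₅ → P.IsDn A φ₂ T₆ → P.IsUp (refl L A) φ₂ T₇ → P.IsDn (refl L C) φ₂ T₈ →
  0 ≤ (∫ φ in (0 : ℝ)..φ₁, (P.W L A C T₁ T₂ φ + P.W L (refl L C) (refl L A) T₃ T₄ φ)) +
    ∫ φ in (0 : ℝ)..φ₂, (P.W L C A T₅ T₆ φ + P.W L (refl L A) (refl L C) T₇ T₈ φ)

end Pool.Agent.FAN4
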