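import Pool.Agent.FAN4.StP

/-!
# FAN4, block PATH: the change of the state at the two ends
-/

set_option autoImplicit false

open Set

namespace Pool.Agent.FAN4

theorem ALG_fc (hFFF : Sp_FFF) (P : Par) {B c' : ℝ} (hc : B < c') :
    P.f (B + min (c' - B) P.r) = P.f (min c' P.r) ∨ B ≤ 0 := by
  obtain ⟨_, f2, _⟩ := hFFF P
  by_cases hB : B ≤ 0
  · exact Or.inr hB
  · left
    push Not at hB
    rcases lt_or_ge c' P.r with h | h
    · rw [min_eq_left (by linarith), min_eq_left h.le]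
      congr 1
      ring
    · rw [min_eq_right h, f2 P.r le_rfl, f2]
      rcases min_cases (c' - B) P.r with ⟨h1, _⟩ | ⟨h1, _⟩ <;> rw [h1] <;> linarith

theorem ALG_fS (hFFF : Sp_FFF) (P : Par) {B c' a : ℝ} (hB : 0 < B) (ha : B ≤ a) :
    P.f (a + min (c' - B) P.r) = P.f (a + min c' P.r - B) := by
  obtain ⟨_, f2, _⟩ := hFFF P
  rcases lt_or_ge c' P.r with h | h
  · rw [min_eq_left (by linarith), min_eq_left h.le]
    congr 1
    ring
  · rw [min_eq_right h, f2 (a + P.r - B) (by linarith), f2]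
    rcases min_cases (c' - B) P.r with ⟨h1, _⟩ | ⟨h1, _⟩ <;> rw [h1] <;> linarith

/-- One end. -/
theorem ALG_one (hPAR : Sp_PAR) (hFFF : Sp_FFF) (P : Par) {N B a' c' s t T₁ T₂ : ℝ} (hN : 0 < N)
    (hB : 0 < B) (hBr : B < P.r) (ha : B < a') (hc : B < c') (hs0 : 0 ≤ s) (ht1 : t ≤ 1)
    (h1 : a' < P.r → T₁ = N * s) (h2 : c' < P.r → T₂ = N * (1 - t)) :
    P.Ph B N (min (c' - B) P.r) T₂ - P.Ph (min a' P.r) T₁ (min (c' - B) P.r) T₂ =
      N ^ P.ρ * (B * (P.f B - P.f (min c' P.r)) -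
        s ^ P.ρ * (min a' P.r * (P.f (min a' P.r) - P.f (min a' P.r + min c' P.r - B))) -
        (1 - t) ^ P.ρ * ((min c' P.r - B) *
          (P.f (min c' P.r) - P.f (min a' P.r + min c' P.r - B)))) := by
  obtain ⟨p1, _⟩ := hPAR P
  obtain ⟨_, f2, _⟩ := hFFF P
  have haB : B ≤ min a' P.r := le_min ha.le hBr.le
  have e1 : P.f (B + min (c' - B) P.r) = P.f (min c' P.r) := by
    rcases ALG_fc hFFF P hc with h | h
    · exact h
    · linarith
  have e2 := ALG_fS hFFF P (c' := c') hB haB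
  unfold Par.Ph Par.w
  rw [add_comm (min (c' - B) P.r) B, add_comm (min (c' - B) P.r) (min a' P.r), e1, e2]
  have k1 : T₁ ^ P.ρ * (min a' P.r * (P.f (min a' P.r) - P.f (min a' P.r + min c' P.r - B))) =
      N ^ P.ρ * (s ^ P.ρ *
        (min a' P.r * (P.f (min a' P.r) - P.f (min a' P.r + min c' P.r - B)))) := by
    rcases lt_or_ge a' P.r with h | h
    · rw [h1 h, Real.mul_rpow hN.le hs0]
      ring
    · have hcB : B ≤ min c' P.r := le_min hc.le hBr.le
      rw [min_eq_right h, f2 P.r le_rfl, f2 (P.r + min c' P.r - B) (by linarith)]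
      ring
  have k2 : T₂ ^ P.ρ * (min (c' - B) P.r *
        (P.f (min c' P.r) - P.f (min a' P.r + min c' P.r - B))) =
      N ^ P.ρ * ((1 - t) ^ P.ρ * ((min c' P.r - B) *
        (P.f (min c' P.r) - P.f (min a' P.r + min c' P.r - B)))) := by
    rcases lt_or_ge c' P.r with h | h
    · rw [h2 h, Real.mul_rpow hN.le (by linarith), min_eq_left h.le, min_eq_left (by linarith)]
      ring
    · rw [min_eq_right h, f2 P.r le_rfl, f2 (min a' P.r + P.r - B) (by linarith)]
      ring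
  linear_combination (-1) * k1 - k2

theorem p_ALG (hPAR : Sp_PAR) (hFFF : Sp_FFF) : Sp_ALG := by
  intro P N B a' c' s t T₁ T₂ T₃ T₄ hN hB hBr ha hc hs0 hs1 ht0 ht1 h1 h2
  rw [ALG_one hPAR hFFF P (s := s) (t := t) hN hB hBr ha hc hs0 ht1 (fun h => (h1 h).1)
      (fun h => (h2 h).2),
    ALG_one hPAR hFFF P (s := t) (t := s) hN hB hBr hc ha ht0 hs1 (fun h => (h2 h).1)
      (fun h => (h1 h).2)]
  unfold Par.I
  rw [add_comm (min c' P.r) (min a' P.r)]
  ring

end Pool.Agent.FAN4
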