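import Pool.Agent.FAN4.StP

/-!
# FAN4, block PATH: the pointwise inequality
-/

set_option autoImplicit false

open Set

namespace Pool.Agent.FAN4

/-- The coefficient of one side. -/
theorem PIN_coef (hPAR : Sp_PAR) (hGIN : Sp_GIN) (P : Par) (a B s : ℝ) (hB : 0 < B) (ha : B ≤ a)
    (h0 : 0 ≤ s) (h1 : s ≤ 1) :
    P.k * (P.ρ - P.e) * (-(B * (2 * s - 1)) + (2 * a - B) * (2 * s - 1) ^ 2) ≤
      -(s ^ P.ρ * a + (1 - s) ^ P.ρ * (a - B) + B) + 2 * P.k * a + 2 * P.k * P.e * (s * B) := by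
  obtain ⟨_, _, _, p4, _, p6, p7⟩ := hPAR P
  have e1 := p7 (2 * s - 1) (by linarith)
  have e2 := p7 (-(2 * s - 1)) (by linarith)
  have e1' : (1 + (2 * s - 1)) / 2 = s := by ring
  have e2' : (1 + -(2 * s - 1)) / 2 = 1 - s := by ring
  rw [e1'] at e1
  rw [e2'] at e2
  have g1 := hGIN P (2 * s - 1) (by linarith) (by linarith)
  have g2 := hGIN P (-(2 * s - 1)) (by linarith) (by linarith)
  rw [e1, e2]
  set x := 2 * s - 1 with hx
  have hs : s = (1 + x) / 2 := by rw [hx]; ring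
  have m1 : P.k * (1 + x) ^ P.ρ * a ≤ P.k * (1 + P.ρ * x - (P.ρ - P.e) * x ^ 2) * a :=
    mul_le_mul_of_nonneg_right (mul_le_mul_of_nonneg_left g1 p4.le) (by linarith)
  have m2 : P.k * (1 + -x) ^ P.ρ * (a - B) ≤
      P.k * (1 + P.ρ * -x - (P.ρ - P.e) * (-x) ^ 2) * (a - B) :=
    mul_le_mul_of_nonneg_right (mul_le_mul_of_nonneg_left g2 p4.le) (by linarith)
  have hB' : B = P.k * (1 + P.e) * B := by rw [p6, one_mul]
  have key : P.k * (P.ρ - P.e) * (-(B * x) + (2 * a - B) * x ^ 2) =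
      -(P.k * (1 + P.ρ * x - (P.ρ - P.e) * x ^ 2) * a +
        P.k * (1 + P.ρ * -x - (P.ρ - P.e) * (-x) ^ 2) * (a - B) + P.k * (1 + P.e) * B) +
        2 * P.k * a + 2 * P.k * P.e * ((1 + x) / 2 * B) := by ring
  rw [key, hs]
  have hB2 : P.k * (1 + P.e) * B = B := hB'.symm
  rw [hB2]
  linarith

theorem p_PIN (hPAR : Sp_PAR) (hGIN : Sp_GIN) (hFFF : Sp_FFF) (hQQQ : Sp_QQQ) : Sp_PIN := by
  intro P a c B s t hB ha har hc hcr hs0 hs1 ht0 ht1
  obtain ⟨_, _, _, p4, _, p6, _⟩ := hPAR P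
  obtain ⟨_, _, _, f4, _⟩ := hFFF P
  obtain ⟨_, _, _, _, q5, _⟩ := hQQQ P
  have hQ := q5 a c B hB ha har hc hcr
  have hFa : 0 ≤ P.f a - P.f (a + c - B) := by
    have := f4 (mem_Ioi.2 (by linarith : 0 < a)) (mem_Ioi.2 (by linarith : 0 < a + c - B)) (by linarith)
    linarith
  have hFc : 0 ≤ P.f c - P.f (a + c - B) := by
    have := f4 (mem_Ioi.2 (by linarith : 0 < c)) (mem_Ioi.2 (by linarith : 0 < a + c - B)) (by linarith)
    linarith
  have ca := mul_le_mul_of_nonneg_left (PIN_coef hPAR hGIN P a B s hB ha hs0 hs1) hFa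
  have cc := mul_le_mul_of_nonneg_left (PIN_coef hPAR hGIN P c B t hB hc ht0 ht1) hFc
  have hQ2 := mul_le_mul_of_nonneg_left hQ (by linarith : 0 ≤ 2 * P.k)
  unfold Par.I Par.dV
  set fS := P.f (a + c - B) with hfS
  set fa := P.f a
  set fc := P.f c
  set fB := P.f B
  set X := s ^ P.ρ
  set X' := (1 - s) ^ P.ρ
  set Y := t ^ P.ρ
  set Y' := (1 - t) ^ P.ρ
  have hz : (2 * B * (fB - fS)) * (1 - P.k * (1 + P.e)) = 0 := by rw [p6]; ring
  have hlin : 2 * P.k * (a * fa + c * fc - B * fB - (a + c - B) * fS) =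
      2 * P.k * (a * (fa - fS) + c * (fc - fS) - B * (fB - fS)) := by ring
  rw [hlin] at hQ2
  linarith [ca, cc, hQ2, hz]

end Pool.Agent.FAN4
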