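import Pool.Agent.FAN4.Root2

/-!
# FAN4: the root of `2 ^ u + 2 u = 2` (helper63)
-/

set_option autoImplicit false

open Set

namespace Pool.Agent.FAN

set_option exponentiation.threshold 3000 in
theorem root_aux2 : (2 : ℝ) ^ ((1000 : ℝ) / 2787) < (3574 / 2787 : ℝ) := by
  have h3 : (2 : ℝ) ^ (1000 : ℕ) < ((3574 / 2787 : ℝ) ^ (2787 : ℕ)) := by
    rw [div_pow, lt_div_iff₀ (by positivity)]
    norm_num
  have h4 : ((2 : ℝ) ^ ((1000 : ℝ) / 2787)) ^ (2787 : ℕ) = (2 : ℝ) ^ (1000 : ℕ) := by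
    rw [← Real.rpow_natCast, ← Real.rpow_mul (by norm_num), ← Real.rpow_natCast]
    norm_num
  rw [← h4] at h3
  exact lt_of_pow_lt_pow_left₀ 2787 (by positivity) h3

/-- The exponent: `s = 1 / u` with `2 ^ u + 2 u = 2`. -/
theorem exists_root : ∃ s : ℝ, (2 : ℝ) ^ (1 / s) + 2 / s = 2 ∧ 2.7869 < s ∧ s < 2.787 := by
  have hc : ContinuousOn (fun u : ℝ => (2 : ℝ) ^ u + 2 * u) (Icc (1000 / 2787) (230 / 641)) := by
    apply Continuous.continuousOn
    exact (Real.continuous_const_rpow (by norm_num)).add (by fun_prop)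
  have h1 : (2 : ℝ) < (2 : ℝ) ^ (230 / 641 : ℝ) + 2 * (230 / 641) := by
    have := root_aux
    linarith
  have h1' : (2 : ℝ) ^ ((1000 : ℝ) / 2787) + 2 * (1000 / 2787) < 2 := by
    have := root_aux2
    linarith
  obtain ⟨u, hu, hu2⟩ := intermediate_value_Ioo (by norm_num : (1000 / 2787 : ℝ) ≤ 230 / 641) hc
    (show (2 : ℝ) ∈ Ioo _ _ from ⟨h1', h1⟩)
  have hu3 : (2 : ℝ) ^ u + 2 * u = 2 := hu2
  have hu0 : 0 < u := lt_trans (by norm_num) hu.1
  refine ⟨1 / u, ?_, ?_, ?_⟩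
  · rw [one_div_one_div]
    have h6 : (2 : ℝ) / (1 / u) = 2 * u := by field_simp
    rw [h6]
    exact hu3
  · rw [lt_div_iff₀ hu0]
    have := hu.2
    have h5 : (2.7869 : ℝ) * (230 / 641) < 1 := by norm_num
    nlinarith
  · rw [div_lt_iff₀ hu0]
    have := hu.1
    have h5 : (1 : ℝ) ≤ 2.787 * (1000 / 2787) := by norm_num
    nlinarith

end Pool.Agent.FAN
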