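import Pool.Agent.FAN4.Defs
import Pool.Agent.FAN4.PDefs

/-!
# FAN4: bridge from the block PATH (helper88) to the definitions of helper23
-/

set_option autoImplicit false

open scoped ComplexConjugate
open MeasureTheory Set

namespace Pool.Agent.FAN4

open Pool.Agent.FAN (ev PR bot trf PH Lf hat)

/-- hypothesis (H) in the language of `FAN4/Defs.lean` -/
def HF (p : PR) (L : ℝ) (A C : List ℂ) : Prop :=
  ∀ φ, 0 < φ → φ < Real.pi / 2 → 0 < (bot (C.map fun z => ev (-φ) * z)).im →
    L * Real.sin φ < (bot (A.map fun z => ev φ * z)).im →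
    ((bot (A.map fun z => ev φ * z)).im < p.k →
      0 < (bot (A.map fun z => ev φ * z)).re ∧ (bot (A.map fun z => ev φ * z)).re < L * Real.cos φ) ∧
    ((bot (C.map fun z => ev (-φ) * z)).im + L * Real.sin φ < p.k →
      0 < (bot (C.map fun z => ev (-φ) * z)).re ∧
        (bot (C.map fun z => ev (-φ) * z)).re < L * Real.cos φ)

/-- The planar inequality in the language of `FAN4/Defs.lean`. -/
def Si_PL2 : Prop := ∀ (p : PR) (L : ℝ) (A C : List ℂ), 0 < L → 10 * p.k ≤ L → A ≠ [] → C ≠ [] →
  (∀ z ∈ A, 0 < z.im) → (∀ z ∈ C, 0 < z.im) → HF p L A C → HF p L C A →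
  0 ≤ Lf p L A C + Lf p L (hat L C) (hat L A) + Lf p L C A + Lf p L (hat L A) (hat L C)

/-- BRG. The bridge. Proof. `P : Par` with `e, ρ = u, r = k`; `A' = A.map fun z => (z.re, z.im)`, `C'` similarly; `refl L A' = (hat L A)'`
(`L - conj z` has real part `L - z.re` and imaginary part `z.im`). For `z = X + i Y`: `ev φ * z` has imaginary part `up (X, Y) φ` and real part
`X cos φ - Y sin φ`; `ev (-φ) * z` has imaginary part `dn (X, Y) φ` and real part `X cos φ + Y sin φ`; `ev φ * L` has real part `L cos φ`, imaginary part `L sin φ`.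
(1) `bot l` (`l ≠ []`) is an element of `l` with the smallest imaginary part; so `mup A' φ = min (bot (A.map (ev φ * ·))).im k`, and the same for `mdn`.
(2) For `a, b ≥ B > 0` resp. `b > 0`: `Ph B N b T' - Ph a T b T' = Ph B N (min b r) T' - Ph (min a r) T (min b r) T'`, because the left side is
`N ^ ρ B (f B - f (B + b)) - T ^ ρ a (f a - f (a + b)) + T' ^ ρ b (f (a + b) - f (B + b))` and `f = 0` on `[r, ∞)`. So the integrand of `Lf p L A C` is, on its life set,
`W L A' C' T T'` with `T φ = (bot (A.map ..)).re`, `T' φ = (bot (C.map ..)).re`.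
(3) The life set `{φ ∈ (0, π/2) | 0 < (bot C(φ)).im ∧ L sin φ < (bot A(φ)).im}` is the set of the `φ` with `dn q φ > 0` for all `q ∈ C'` and `dn (L - X, Y) φ > 0` for all `(X, Y) ∈ A'`. Each of these conditions
`Y cos φ > Z sin φ` holds on an initial interval of `(0, π/2)` (`tan` is increasing), and the same set is the life set of `Lf p L (hat L C) (hat L A)`. If `L sin φ ≥ k` the integrand is `0` (`f B = 0`, `a ≥ B`: `f a = f (a + b) = f (B + b) = 0`). So with
`φ₁ = sup {φ ≤ arcsin (k / L) | life conditions on [0, φ)}` (`φ₁ > 0` by continuity at `0`, `φ₁ ≤ arcsin (1/10) < π/2`) both integrals are integrals over `(0, φ₁)` (up to the null set of the end point) and `Life P L A' C' φ₁` holds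
(at `φ₁` one of the conditions fails, with equality by continuity, or `φ₁ = arcsin (k / L)`).
(4) `Feet P L A' φ₁` and `Feet P L (refl L C') φ₁` are the two parts of `HF p L A C` (for the second: `up (L - X, Y) = dn (X, Y) + L sin φ`, foot `L cos φ - (X cos φ + Y sin φ)`). The `T`s satisfy `IsUp`, `IsDn` by (1).
Apply PLN; the sum of the four `Lf` is the sum of the two integrals (integrability of each `W`: bounded and measurable, or: if one uses `intervalIntegral.integral_add` one needs it; the functions
`W` are a.e. strongly measurable and bounded by a constant depending on `L`, `k`, `A`, `C`: `B f B ≤ B ^ e`, `a f a ≤ a ^ e`, `b f b ≤ b ^ e`, feet bounded). -/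
def Sb_BRG : Prop := Si_PLN → Si_PL2

end Pool.Agent.FAN4
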