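import Pool.Agent.FAN4.StS
import Pool.Agent.FAN2.PGen2

/-!
# FAN4, block E: upper bound of the potential, growth (helper23). Statements with complete proofs.

Write `theorem q_X : Se_X` in `Pool/Agent/FAN4/E_X.lean`, namespace `Pool.Agent.FAN`.
Parameters: `al = (1 - e) / 2`, `s ∈ (0, 1)`, `b = (1 - e) / (1 + s)`; `b < 1`, `s b ≤ al`.
-/

set_option autoImplicit false

open scoped ComplexConjugate
open MeasureTheory Set

namespace Pool.Agent.FAN

/-! ## The kernel -/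

/-- KER. Kernel inequality. Proof. If `a ≥ k`: `trf a = trf (a + b) = 0`. Let `a < k`. If `a < b`: `a * (trf a - trf (a + b)) ≤ a * trf a ≤ a * a ^ (e - 1)` and `min a b = a`. If `b ≤ a`: `trf a - trf (a + b) ≤ a ^ (e - 1) - (a + b) ^ (e - 1)`
(`trf a = a ^ (e-1) - k ^ (e-1)`, `trf (a + b) ≥ (a + b) ^ (e-1) - k ^ (e-1)`), and `(a + b) ^ (e-1) = a ^ (e-1) (1 + b/a) ^ (e-1) ≥ a ^ (e-1) (1 - (1 - e) b / a)`, because `(1 + t) ^ (1 - e) ≤ 1 + (1 - e) t` (`Real.rpow_one_add_le_one_add_mul_self`) and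
`1 / (1 + y) ≥ 1 - y`. So `a * (..) ≤ (1 - e) b a ^ (e - 1) ≤ min a b * a ^ (e - 1)`. Lower bound: `trf` is antitone on `(0, ∞)`. -/
def Se_KER : Prop := ∀ (p : PR) (a b : ℝ), 0 < a → 0 < b →
  0 ≤ a * (trf p a - trf p (a + b)) ∧ a * (trf p a - trf p (a + b)) ≤ min a b * a ^ (p.e - 1) ∧
  (p.k ≤ a → a * (trf p a - trf p (a + b)) = 0)

/-- YNG. Young. Proof. `X ^ b * m ^ (1 - b) = (lam ^ (1 / b) * X) ^ b * (lam ^ (-(1 / (1 - b))) * m) ^ (1 - b)` (exponents of `lam`: `1 - 1 = 0`; `Real.mul_rpow`, `← Real.rpow_mul`, `← Real.rpow_add`) `≤ b * .. + (1 - b) * ..` (`Real.geom_mean_le_arith_mean2_weighted`) `≤` the sum.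
(2) `T ^ u * (m * a ^ (e - 1)) ≤ M ^ (u - s b) * (((T / a) ^ s) ^ b * m ^ (1 - b))`: `((T / a) ^ s) ^ b = T ^ (s b) * a ^ (- s b)`, `T ^ u = T ^ (u - s b) * T ^ (s b)`, `T ^ (u - s b) ≤ M ^ (u - s b)` (`0 ≤ u - s b`, because `s b = s (1 - e) / (1 + s) ≤ (1 - e) / 2 ≤ u`), and
`m * a ^ (e - 1) ≤ a ^ (- s b) * m ^ (1 - b)` iff `m ^ b ≤ a ^ (1 - e - s b) = a ^ b`. -/
def Se_YNG : Prop := (∀ (b lam X m : ℝ), 0 < b → b < 1 → 0 < lam → 0 ≤ X → 0 ≤ m →
  X ^ b * m ^ (1 - b) ≤ lam ^ (1 / b) * X + lam ^ (-(1 / (1 - b))) * m) ∧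
  (∀ (p : PR) (s b T a m M : ℝ), 0 < s → s < 1 → b = (1 - p.e) / (1 + s) → (1 - p.e) / 2 ≤ p.u → 0 < T → T ≤ M → 0 < m →
    m ≤ a → T ^ p.u * (m * a ^ (p.e - 1)) ≤ M ^ (p.u - s * b) * (((T / a) ^ s) ^ b * m ^ (1 - b)))

/-- PTW. Pointwise bound. Proof. `PH p z w = z.re ^ u * (z.im * (trf z.im - trf (z.im + w.im))) + (the same with z, w exchanged)`. First term: zero if `z.im ≥ k` (KER (3)); otherwise `z.re > 0` and by KER, YNG (2) (`a = z.im`, `m = min z.im w.im`, `T = z.re`) and YNG (1)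
(`X = (T / a) ^ s`) it is at most `M ^ (u - s b) * (lam ^ (1/b) * (z.re / z.im) ^ s + lam ^ (-(1/(1-b))) * m)`; in this case `m < k`. -/
def Se_PTW : Prop := ∀ (p : PR) (s b lam M : ℝ) (z w : ℂ), 0 < s → s < 1 → b = (1 - p.e) / (1 + s) → (1 - p.e) / 2 ≤ p.u →
  0 < lam → 0 < z.im → 0 < w.im → (z.im < p.k → 0 < z.re) → (w.im < p.k → 0 < w.re) → z.re ≤ M → w.re ≤ M → 0 ≤ M →
  PH p z w ≤ M ^ (p.u - s * b) * (lam ^ (1 / b) * ((if z.im < p.k then (z.re / z.im) ^ s else 0) + (if w.im < p.k then (w.re / w.im) ^ s else 0)) +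
    2 * lam ^ (-(1 / (1 - b))) * (if min z.im w.im < p.k then min z.im w.im else 0))

/-! ## Counting -/

/-- COT. A vector seen from a direction. Proof. `cx (ev ψ) z / ‖z‖ = sin (θ - ψ)`, `θ = arg z`. `|sin| ^ (-s)` is `2π`-periodic, so the integral is `C = ∫_0^(2π) |sin t| ^ (-s)`, and it is enough that `|sin t| ^ (-s)` is integrable on `[0, 2π]` (then on every interval of length `2π` by periodicity,
`Function.Periodic.intervalIntegrable`): on `(0, π/2]`: `|sin t| ≥ 2 t / π` (`Real.mul_le_sin`), so `|sin t| ^ (-s) ≤ (2/π) ^ (-s) t ^ (-s)` (`intervalIntegral.intervalIntegrable_rpow'`, `IntervalIntegrable.mono_fun`); the other three quarters by reflections `t ↦ π - t`, `t ↦ 2π - t`, `t ↦ t - π`. -/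
def Se_COT : Prop := ∀ s : ℝ, 0 < s → s < 1 → ∃ C : ℝ, 0 < C ∧ ∀ z : ℂ, z ≠ 0 →
  IntervalIntegrable (fun ψ => |cx (ev ψ) z / ‖z‖| ^ (-s)) volume 0 (2 * Real.pi) ∧
  ∫ ψ in (0 : ℝ)..(2 * Real.pi), |cx (ev ψ) z / ‖z‖| ^ (-s) ≤ C

/-- the points that can be the lowest: the two other vertices of the room, and the ends of the generalized diagonals of length at most `L` -/
def PT (S : TriSys) (r : S.R) (i : ZMod 3) (L : ℝ) : Set ℂ :=
  {S.P r (i + 1), S.P r (i + 2)} ∪ (fun js => apQ (Pl.home S r) i js) '' GG S r i L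

/-- VIS. The lowest point is visible. Proof. `D` from BDF. Let `l = lvs (home r) (i :: js)`, `x = P r i`, `v = ev ψ`. By BOT (4) for `frl v x l` (or directly for the heights) there is a decomposition `l = l₁ ++ p :: l₂` with `bot (frl v x l) = conj v * (p - x)` and all points of `l₁`
have a larger height. If `l₁ = []`: `p = P r (i + 2)` (`lvs q (i :: js) = q.V (i + 2) :: ..`). Otherwise `i :: js = i :: (js₁ ++ j :: js₂)` with `l₁ = lvs (home r) (i :: js₁)` (lengths: `js₁ = js.take (l₁.length - 1)`, ALG (2), (8), `List.append_inj`), and `p` is the left end point of the edge `j` of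
`Q' = endP (home r) (i :: js₁)`. By ENT and EXU (5) `j = i' + 1` or `j = i' + 2` (`i' = eI ..`). If `j = i' + 2` then `p` is (EXT) an element of `l₁`, whose height would be larger than that of `p`: contradiction. So `j = i' + 1` and `p = apQ (home r) i (i :: js₁)` (EXT). REC (1) for `i :: js₁` (left points: `l₁`; right points: height `< 0 <`
height of `p`): `GD`, so `i :: js₁ ∈ GG S r i ‖p - x‖`, and `‖p - x‖ ≤ D (n + 1)` (BDF). The right side: mirror image. -/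
def Se_VIS : Prop := ∀ S : TriSys, ∃ D : ℝ, 1 ≤ D ∧ ∀ (r : S.R) (i : ZMod 3) (js : List (ZMod 3)) (v : ℂ), ‖v‖ = 1 →
  Run (Pl.home S r) (S.P r i) v (i :: js) →
  (∃ p ∈ PT S r i (D * (js.length + 1)), bot (frl v (S.P r i) (lvs (Pl.home S r) (i :: js))) = conj v * (p - S.P r i)) ∧
  (∃ p ∈ PT S r i (D * (js.length + 1)), bot (frr v (S.P r i) (rvs (Pl.home S r) (i :: js))) = v * conj (p - S.P r i)) ∧
  (∀ p ∈ PT S r i (D * (js.length + 1)), p ≠ S.P r i) ∧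
  (PT S r i (D * (js.length + 1))).Finite ∧
  ((PT S r i (D * (js.length + 1))).ncard : ℝ) ≤ 2 + (GG S r i (D * (js.length + 1))).ncard

/-- ONE1. At most one word of given length. Proof: `Run_comparable` (prefixes of equal length are equal: `List.IsPrefix.eq_of_length`). -/
def Se_ONE1 : Prop := ∀ (S : TriSys) (r : S.R) (x v : ℂ) (i : ZMod 3) (js js' : List (ZMod 3)), js.length = js'.length →
  Run (Pl.home S r) x v (i :: js) → Run (Pl.home S r) x v (i :: js') → js = js'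

open Classical in
/-- sum over the words of the truncated clearance -/
noncomputable def mn (p : PR) (S : TriSys) (r : S.R) (i : ZMod 3) (n : ℕ) (ψ : ℝ) : ℝ :=
  ∑ js ∈ wds n, if Run (Pl.home S r) (S.P r i) (ev ψ) (i :: js) ∧
      min (bot (frl (ev ψ) (S.P r i) (lvs (Pl.home S r) (i :: js)))).im
        (bot (frr (ev ψ) (S.P r i) (rvs (Pl.home S r) (i :: js)))).im < p.k then
    min (bot (frl (ev ψ) (S.P r i) (lvs (Pl.home S r) (i :: js)))).im
      (bot (frr (ev ψ) (S.P r i) (rvs (Pl.home S r) (i :: js)))).im else 0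

/-- SUM. The sum over the words, one corner. Proof. `κ₀` from SML, `D` = maximum of those of VIS and BDF (`PT` is monotone in `L`; or take `D` from VIS and note that VIS gives `‖p - x‖ ≤ D (n + 1)` for the lowest points up to the constant of DIA), `M = D (n + 1)`. The integrands of `JJ p S r i (i :: js)` are bounded and measurable (MSR, BDF), so
`∑ js ∈ wds n, JJ .. = ∫ ∑ js ∈ wds n, [Run] PHw` (`intervalIntegral.integral_finset_sum`). Pointwise, for every `ψ` (at most one `js` has `Run`, ONE1; if there is none the left side is `0` and the right side `≥ 0`) PTW (feet `> 0` by SML, `≤ M` by BDF) gives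
`∑ [Run] PHw ≤ M ^ (u - s b) * (lam ^ (1/b) * 2 ∑ q ∈ PT, |cx (ev ψ) (q - x) / ‖q - x‖| ^ (-s) + 2 lam ^ (-(1/(1-b))) * mn ψ)`: for the lowest point `q` (VIS) `foot / height ≤ ‖q - x‖ / |cx v (q - x)|`, so `(foot / height) ^ s ≤ |cx / ‖ ‖| ^ (-s)` (both sides of the line: factor 2).
The right side is interval integrable (COT; `mn` is bounded and measurable, MSR). Integrate: COT, VIS (last part). `GG` is monotone in `L`. -/
def Se_SUM : Prop := ∀ S : TriSys, ∃ κ₀ : ℝ, 0 < κ₀ ∧ ∀ s : ℝ, 0 < s → s < 1 → ∃ C : ℝ, 1 ≤ C ∧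
  ∀ (p : PR) (r : S.R) (i : ZMod 3) (n : ℕ) (b lam : ℝ), p.k ≤ κ₀ → b = (1 - p.e) / (1 + s) → (1 - p.e) / 2 ≤ p.u → 0 < lam →
  ∑ js ∈ wds n, JJ p S r i (i :: js) ≤ (C * (n + 1)) ^ (p.u - s * b) *
    (lam ^ (1 / b) * (C * (1 + (GG S r i (C * (n + 1))).ncard)) +
      2 * lam ^ (-(1 / (1 - b))) * ∫ ψ in (0 : ℝ)..(2 * Real.pi), mn p S r i n ψ)

/-! ## Packing -/

/-- the directions of the rays from the corner whose first `n + 1` rooms have no vertex at distance `≤ w` -/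
def WD (S : TriSys) (r : S.R) (i : ZMod 3) (n : ℕ) (w : ℝ) : Set ℝ :=
  {ψ | ∃ js : List (ZMod 3), js.length = n ∧ Run (Pl.home S r) (S.P r i) (ev ψ) (i :: js) ∧
    ∀ p : ℂ, (p ∈ lvs (Pl.home S r) (i :: js) ∨ p ∈ rvs (Pl.home S r) (i :: js)) → w < |cx (ev ψ) (p - S.P r i)|}

/-- MEV. Measure of the hits followed by a long silence. Proof: `V` from PPM. With `P t = pp S w t`, `h t = (mm S (EvH S w t)).toReal`: `P (1 + t) = P t + h t` (`FLW`), `h` antitone on `[0, ∞)` (ANT, and `mm S (EvH ..) < ⊤` by EEM with MSE), `0 ≤ P ≤ V`. For `m = ⌊t⌋₊`: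
`(m + 1) h t ≤ ∑_(k ≤ m) h k = P (m + 1) - P 0 ≤ V` and `t ≤ m + 1`. All these are proved: `h_FLW`, `h_ANT`, `h_PPM`, `h_EEM`, `h_MSE` (see FAN2/HAll.lean and FAN2/W_HHH.lean for how to assemble `Sh_FLW`; Si_HIT is assembled there too, copy the lines). -/
def Se_MEV : Prop := ∀ S : TriSys, ∃ V : ℝ, 0 < V ∧ ∀ w t : ℝ, 0 < w → 1 ≤ t →
  mm S (EvH S w t) ≤ ENNReal.ofReal (V / t)

/-- SHR. Area of a sheared strip. Proof. The map `y ↦ (cx v (y - x), dt v (y - x))` from `ℂ` to `ℝ × ℝ` preserves the measure (`‖v‖ = 1`; compare `m_KRCT` in FAN/K_RCT.lean), the set is the preimage of `regionBetween (fun σ => c₀ + k σ - η) (fun σ => c₀ + k σ) (Ioo (-w) w)`,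
whose volume is `∫ σ in Ioo (-w) w, η = 2 w η` (`volume_regionBetween_eq_integral`). -/
def Se_SHR : Prop := ∀ (x v : ℂ) (w η c₀ k : ℝ), ‖v‖ = 1 → 0 < w → 0 < η →
  volume {y : ℂ | |cx v (y - x)| < w ∧ c₀ + k * cx v (y - x) - η < dt v (y - x) ∧ dt v (y - x) < c₀ + k * cx v (y - x)} =
    ENNReal.ofReal (2 * w * η)

/-- STR. The strip in the first room. Proof. `η = min (h₀ / 2) (1 / 2)` (DIA). In the frame of `(x, v)`, `x = P r i`: `V (i + 2) = (T₂, a)`, `V (i + 1) = (T₁, -b)`, `a, b > 2 w'` with `w' = w / 2` (`w < a, b`). The edge line `i` is `dt = c₀ + k cx` with `k = (T₂ - T₁) / (a + b)`, `c₀ = T₂ - k a = ct (home r) x v i ≥ h₀` (DIA (4)).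
Let `y` have `|σ| < w / 2`, `σ = cx v (y - x)`, `τ = dt v (y - x) ∈ (c₀ + k σ - η, c₀ + k σ)`. Barycentric coordinates of `y`: `λ₀ = (c₀ + k σ - τ) / c₀ ∈ (0, 1/2]` (weight of `x`), `λ₂ = (σ + (1 - λ₀) b) / (a + b) > 0`, `λ₁ = ((1 - λ₀) a - σ) / (a + b) > 0` (`(1 - λ₀) a ≥ a / 2 > w / 2`); so `y` is in the open triangle: the three numbers of `In` are
`λ_j *` (twice the area) (for example `cx (V (i + 2) - V (i + 1)) (y - V (i + 1)) = (a + b) (c₀ + k σ - τ)`; the other two are `(a (1 - λ₀) - σ) c₀ `-like expressions: `cx (V i - V (i + 2)) (y - V (i + 2)) = a τ - T₂ σ` and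
`cx (V (i + 1) - V i) (y - V i) = T₁ σ + b τ`; check `a τ - T₂ σ = c₀ (a + b) λ₁`, `T₁ σ + b τ = c₀ (a + b) λ₂`, `field_simp; ring`). Area: SHR with `w / 2`: `w η`. The exit time of the line `(y, v)` is `c₀ + k σ - τ < η < 1` (`ct` from `y`). -/
def Se_STR : Prop := ∀ S : TriSys, ∃ η : ℝ, 0 < η ∧ η < 1 ∧ ∀ (r : S.R) (i : ZMod 3) (v : ℂ) (w : ℝ), ‖v‖ = 1 → 0 < w →
  (Pl.home S r).Ex (S.P r i) v i → w < |cx v (S.P r (i + 1) - S.P r i)| → w < |cx v (S.P r (i + 2) - S.P r i)| →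
  ENNReal.ofReal (w * η) ≤ volume {y : ℂ | y ∈ rm S r ∧ |cx v (y - S.P r i)| < w / 2 ∧ (Pl.home S r).ct y v i < 1}

/-- HTS. The strip consists of hits followed by a silence. Proof. `c, m`: by LEN (`C₁`) a run of length `n + 1` with crossing times in `[0, T]` has `n + 1 ≤ C₁ (1 + T)`; `c = 1 / (2 C₁)`, for `n ≥ m` (`m` large) `2 + c n < (n + 1) / C₁ - 1 ≤ T`. Let `ψ ∈ WD` with word `js`, `v = ev ψ`, `y` in the strip of STR (`y ∈ rm S r`, `|cx v (y - x)| < w / 2`, first crossing time `< 1`),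
and words `l₁` for time `1`, `l₂` for time `1 + t`, `t = c n` (`PW S r y v 1 l₁`, `PW S r y v (1 + t) l₂`). All end points of crossed edges of `i :: js` have distance `> w` from `(x, v)`, so `> w / 2` from `(y, v)`, with the same sign: `Run (home r) y v (i :: js)` (ALG (1)). `l₁ <+: l₂` (MON), `l₂ = l₁ ++ l₃`. All crossing times of `l₂` are `< 1 + t` (CTS (3)),
while the last crossing time of `i :: js` is `> 1 + t` (LEN, all times are positive, CTS (4), and ENT: the last is the largest); by `Run_comparable` `l₂` is a proper prefix of `i :: js` (otherwise `i :: js <+: l₂` and its last crossing time would be `< 1 + t`). Similarly `l₁ ≠ []`, `l₁ = i :: ..`: otherwise `home r` contains `y + v` and the first crossing time is `> 1` (TIM (2)).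
Hit: `x = P r i` is a vertex of `home r`, in `vl (home r) l₁`: `clr (home r) l₁ y v ≤ |cx v (x - y)| < w / 2` (`clr_le`, CLV). Silence: the rooms visited by `l₃` from `endP (home r) l₁` on are rooms `endP (home r) W₁` with `W₁ ≠ []` a prefix of `l₂`, a proper prefix of `i :: js`: every vertex of such a room is an end point of a crossed edge of `i :: js` (the entering edge: two vertices, EXT;
the apex: end point of the next crossed edge, since the exit edge is not the entering edge, EXU (5)). So their distance from `(x, v)` is `> w`, from `(y, v)` `> w / 2`: `w / 2 ≤ clr (endP (home r) l₁) l₃ y v` (`clr_mem`, `mem_vl`). So `(ψ, y) ∈ EvH S (w / 2) t r`. -/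
def Se_HTS : Prop := ∀ S : TriSys, ∃ (c : ℝ) (m : ℕ), 0 < c ∧ ∀ (r : S.R) (i : ZMod 3) (n : ℕ) (w ψ : ℝ) (y : ℂ) (l₁ l₂ : List (ZMod 3)),
  m ≤ n → 0 < w → ψ ∈ WD S r i n w → y ∈ rm S r → |cx (ev ψ) (y - S.P r i)| < w / 2 → (Pl.home S r).ct y (ev ψ) i < 1 →
  PW S r y (ev ψ) 1 l₁ → PW S r y (ev ψ) (1 + c * n) l₂ → (ψ, y) ∈ EvH S (w / 2) (c * n) r

/-- PCK. Packing. Proof. `WD` is measurable (finite union over the words of open conditions, MSR and continuity in `ψ`). For `n < m` or `c n < 1`: `volume (WD ∩ (0, 2π]) ≤ 2π ≤ C / ((n + 1) w)` with `C = 2π (m₁ + 1)` (`w ≤ 1`). For large `n`: let `Z = {(ψ, y) | ψ ∈ WD, y in the strip of STR}` (measurable: `ct` is measurable, `rm` open).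
By HTS and NOW (for `1` and `1 + c n`) `Z ∩ (Ioc 0 2π ×ˢ rm S r)` is contained in `EvH S (w / 2) (c n) r` up to a null set, so its measure is at most `mm S (EvH S (w/2) (c n)) ≤ V / (c n)` (one summand of `mm`; MEV). By `Measure.prod_apply` and STR (the conditions of STR hold for `ψ ∈ WD`: the first letter gives `Ex`, the end points of the first edge have distance `> w`) its measure is at least
`volume (WD ∩ Ioc 0 2π) * (w η)`. -/
def Se_PCK : Prop := ∀ S : TriSys, ∃ C : ℝ, 1 ≤ C ∧ ∀ (r : S.R) (i : ZMod 3) (n : ℕ) (w : ℝ), 0 < w → w ≤ 1 →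
  MeasurableSet (WD S r i n w) ∧
  volume (WD S r i n w ∩ Ioc (0 : ℝ) (2 * Real.pi)) ≤ ENNReal.ofReal (C / ((n + 1) * w))

/-- DYM. Dyadic sum. Proof. For `0 < y ≤ 1` and every `J`: `y ≤ (1/2) ^ J + ∑ j ∈ range J, (1/2) ^ j * [ (1/2) ^ (j + 1) < y ]` (if `y ≤ (1/2) ^ J` clear; otherwise the least `j` with `(1/2) ^ (j + 1) < y` is `< J` and `y ≤ (1/2) ^ j`). Here `mn p S r i n ψ` is `0` or the clearance `y < k ≤ 1` of the only word (ONE1), and then `(1/2) ^ (j + 1) < y` implies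
`ψ ∈ WD S r i n ((1/2) ^ (j + 1))` (BOT (2); ALG (1)). So `∫ mn ≤ 2π (1/2) ^ J + ∑_(j < J) (1/2) ^ j * volume (WD ((1/2) ^ (j+1)) ∩ Ioc) ≤ 2π (1/2) ^ J + J * 2 C / (n + 1)` (PCK). Take `J` with `(1/2) ^ J ≤ 1 / (n + 1) `, `J ≤ 1 + log (n + 1) / log 2 ≤ 2 + 2 log (n + 1)` (`J = Nat.clog 2 (n + 1)`). -/
def Se_DYM : Prop := ∀ S : TriSys, ∃ C : ℝ, 1 ≤ C ∧ ∀ (p : PR) (r : S.R) (i : ZMod 3) (n : ℕ),
  ∫ ψ in (0 : ℝ)..(2 * Real.pi), mn p S r i n ψ ≤ C * (1 + Real.log (n + 1)) / (n + 1)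

/-! ## Growth -/

/-- UPB. Upper bound of the potential. Proof: SUM and DYM, sum over the corners (`GT S` is the sum of the `ncard`, each `ncard ≤ GT S`; `3 |R|` terms). -/
def Se_UPB : Prop := ∀ S : TriSys, ∃ κ₀ : ℝ, 0 < κ₀ ∧ ∀ s : ℝ, 0 < s → s < 1 → ∃ C : ℝ, 1 ≤ C ∧
  ∀ (p : PR) (n : ℕ) (b lam : ℝ), p.k ≤ κ₀ → b = (1 - p.e) / (1 + s) → (1 - p.e) / 2 ≤ p.u → 0 < lam →
  Psi p S n ≤ (C * (n + 1)) ^ (p.u - s * b) *
    (lam ^ (1 / b) * (C * (1 + GT S (C * (n + 1)))) +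
      lam ^ (-(1 / (1 - b))) * (C * (1 + Real.log (n + 1)) / (n + 1)))

/-- CAL. Pure calculus (helper92). Proof. `b → al = (1 - e) / 2` as `s → 1`, `(1 - u - (1 - s) b) / b → (1 - u) / al`; fix `s < 1` with `γ < γ' := (1 - u - (1 - s) b) / b` (continuity). Let `N = n + 1`, `ρ' = u - s b ≥ 0`. Choose `lam` with `(C N) ^ ρ' * lam ^ (-(1/(1-b))) * C (1 + log N) / N = c₀ / 2`; then
`c₀ / 2 ≤ (C N) ^ ρ' * lam ^ (1/b) * C * (1 + G (C N))`, `lam ^ (1/b) = (2 C (C N) ^ ρ' (1 + log N) / (c₀ N)) ^ ((1-b)/b)`, so `1 + G (C N) ≥ c N ^ (-ρ' + (1 - ρ') (1 - b) / b) (1 + log N) ^ (-(1-b)/b) = c N ^ γ' / (..)`: indeed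
`-ρ' + (1 - ρ')(1 - b)/b = (1 - b - ρ') / b = (1 - u - (1 - s) b) / b`. For large `N` this is `≥ 2 N ^ γ''`, `γ < γ'' < γ'`, so `G (C N) ≥ N ^ γ''`. For real `L ≥ n₀` take `N = ⌊L / C⌋₊` and monotonicity of `G`. (If `γ ≤ 0` replace it by a positive number, or note `G ≥ 1`.) Here `1 - u > 0` because `2 ^ u = 1 + e < 2`. -/
def Se_CAL : Prop := ∀ (e u c₀ : ℝ) (G : ℝ → ℝ), 0 < e → e < 1 → (2 : ℝ) ^ u = 1 + e → (1 - e) / 2 ≤ u → 0 < c₀ →
  (∀ L, 0 ≤ G L) → Monotone G →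
  (∀ s : ℝ, 0 < s → s < 1 → ∃ C : ℝ, 1 ≤ C ∧ ∀ (n : ℕ) (b lam : ℝ), b = (1 - e) / (1 + s) → 0 < lam →
    c₀ ≤ (C * (n + 1)) ^ (u - s * b) * (lam ^ (1 / b) * (C * (1 + G (C * (n + 1)))) +
      lam ^ (-(1 / (1 - b))) * (C * (1 + Real.log (n + 1)) / (n + 1)))) →
  ∀ γ : ℝ, γ < (1 - u) / ((1 - e) / 2) → ∃ c : ℝ, 0 < c ∧ ∃ n₀ : ℝ, ∀ L : ℝ, n₀ ≤ L → c * L ^ γ ≤ G L

/-- GRO. Growth of the number of generalized diagonals. Proof: `p : PR` with `k` small (MON, POS, UPB), `c₀ = Psi p S 0 ≤ Psi p S n` (induction with MON), CAL. -/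
def Se_GRO : Prop := Pool.Agent.FAN4.Si_PL2 → ∀ S : TriSys, Nonempty S.R → ∀ e u : ℝ, 0 < e → e < 1 → (2 : ℝ) ^ u = 1 + e → (1 - e) / 2 ≤ u →
  ∀ γ : ℝ, γ < (1 - u) / ((1 - e) / 2) → ∃ c : ℝ, 0 < c ∧ ∃ n₀ : ℝ, ∀ L : ℝ, n₀ ≤ L → c * L ^ γ ≤ GT S L

open Pool.Agent.Billiard in
/-- FIN4. The theorem of the project. `u` is the root of `2 ^ u + 2 u = 2`, `u = 0.35882..`, `1 / u = 2.78689..`. Proof: GRO with `e = 1 - 2 u` (`(1 - e) / 2 = u`, `(1 - u) / u = 1 / u - 1`), `t_fit_all` (St_FIT) as in `gen2` (FAN2/PGen2.lean). `0 < u < 1/2`: at `u ≤ 0` the left side is `≤ 1`, at `u ≥ 1/2` it is `≥ 2 ^ (1/2) + 1 > 2`. -/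
def Si_FIN4 : Prop := ∀ u : ℝ, (2 : ℝ) ^ u + 2 * u = 2 → ∀ (P : Polygon) (β : ℝ), β < 1 / u → ∃ c : ℝ, 0 < c ∧
  ∀ n : ℕ, 1 ≤ n → c * (n : ℝ) ^ β ≤ P.complexity n

end Pool.Agent.FAN
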