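import Pool.Agent.FAN4.StB
import Pool.Agent.FAN2.HBase

/-!
# FAN4, block G: geometry (helper23). Statements with complete proofs.

Write `theorem g_X : Sg_X` in `Pool/Agent/FAN4/G_X.lean`, namespace `Pool.Agent.FAN` (where a theorem of that name
exists already, for example `g_MEA`, the name is given in the doc string). A statement may use other statements of this
file as hypotheses (`theorem q_X (h : Sg_Y) : Sg_X`). Name all theorems `q_X`.
Proved statements: `b_TIM, b_CTS, b_DIA, b_LEN, b_ENT, b_EXU = m_EXU, ..` in `FAN2/HBase.lean`; algebra of `cx, dt, ev, Run,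
endP, eI, rev, mv` in `FAN/Base.lean, Base2.lean, Base3.lean`.

Frames: for `‖v‖ = 1` the frame coordinate `conj v * (p - x)` has real part `dt v (p - x)` (foot) and imaginary part
`cx v (p - x)` (height) (`cx_eq_im`, `dt_eq_re`); `v * conj (p - x)` has real part `dt v (p - x)` and imaginary part
`- cx v (p - x)`.
-/

set_option autoImplicit false

open scoped ComplexConjugate
open MeasureTheory Set

namespace Pool.Agent.FAN

/-- the word `i :: js` from the corner `i` of the placed room `q` is the word of a generalized diagonal -/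
def GD {S : TriSys} (q : Pl S) (i : ZMod 3) (js : List (ZMod 3)) : Prop :=
  Run q (q.V i) (apQ q i (i :: js) - q.V i) (i :: js)

/-! ## Algebra of lists -/

/-- ALG. Lists of end points. Proof. All by induction on `js`. (1) `Run q x v (j :: js) = Ex ∧ Run`, `Ex` is the pair of sign
conditions. (4) `rev q (j :: js) = rev (q.nx j) js ++ [q.en j]`, `endP (endP (q.nx j) js) (rev (q.nx j) js) = q.nx j`
(`endP_rev`), and `(q.nx j).V (q.en j + 2) = q.V (j + 1)`, `(q.nx j).V (q.en j + 1) = q.V (j + 2)` (`V_nx1`, `V_nx2`);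
`List.reverse_cons`. (6) `Pl.V_mv`, `Pl.nx_mv`. -/
def Sg_ALG : Prop := ∀ (S : TriSys) (js js' : List (ZMod 3)) (q : Pl S) (x v : ℂ),
  (Run q x v js ↔ (∀ p ∈ lvs q js, 0 < cx v (p - x)) ∧ ∀ p ∈ rvs q js, cx v (p - x) < 0) ∧
  lvs q (js ++ js') = lvs q js ++ lvs (endP q js) js' ∧
  rvs q (js ++ js') = rvs q js ++ rvs (endP q js) js' ∧
  lvs (endP q js) (rev q js) = (rvs q js).reverse ∧ rvs (endP q js) (rev q js) = (lvs q js).reverse ∧
  (∀ (c e : ℂ) (hc : ‖c‖ = 1), lvs (q.mv c e hc) js = (lvs q js).map (fun p => c * p + e) ∧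
    rvs (q.mv c e hc) js = (rvs q js).map (fun p => c * p + e)) ∧
  (lvs q js).length = js.length ∧ (rvs q js).length = js.length

/-- BOT. The lowest element. Proof: induction on `l` (`bot [z] = z`; `bot (z :: l) = if l = [] ∨ z.im ≤ (bot l).im then z else bot l`,
`simp only [bot]`, `split_ifs`). For the third part: `bot (z :: (l ++ [w]))`, cases. The fourth: the induction hypothesis for `l`
in the case `bot (z :: l) = bot l`, `l₁ = z :: ..`; otherwise `l₁ = []`. The fifth follows from the first two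
(both elements are in both lists). -/
def Sg_BOT : Prop := ∀ l : List ℂ, l ≠ [] → bot l ∈ l ∧ (∀ z ∈ l, (bot l).im ≤ z.im) ∧
  (∀ w, bot (l ++ [w]) = if w.im < (bot l).im then w else bot l) ∧
  (∃ l₁ l₂, l = l₁ ++ bot l :: l₂ ∧ ∀ z ∈ l₁, (bot l).im < z.im) ∧
  (∀ l' : List ℂ, (∀ z, z ∈ l' ↔ z ∈ l) → (bot l').im = (bot l).im ∧
    ((∀ z ∈ l, ∀ w ∈ l, z.im = w.im → z = w) → bot l' = bot l))

/-- EXT. One more room: the apex is the only new end point. Proof. Write `i :: js = W₀ ++ [j₀]` (`List.eq_nil_or_concat`),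
`Q' = endP q (i :: js) = (endP q W₀).nx j₀`, `i' = eI q i (i :: js) = (endP q W₀).en j₀` (`eI_append`, `endP_append`). Letter `i' + 1`: left end
point `Q'.V (i' + 1 + 2) = Q'.V i'` (`z31`), right end point `Q'.V (i' + 1 + 1) = Q'.V (i' + 2) = (endP q W₀).V (j₀ + 1)`
(`z11`, `V_nx2`), the last element of `rvs q (i :: js)` (ALG). Letter `i' + 2`: `z22`, `z32`, `V_nx1`. -/
def Sg_EXT : Prop := ∀ (S : TriSys) (q : Pl S) (i : ZMod 3) (js : List (ZMod 3)),
  (∃ w ∈ rvs q (i :: js), lvs q (i :: (js ++ [eI q i (i :: js) + 1])) = lvs q (i :: js) ++ [apQ q i (i :: js)] ∧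
    rvs q (i :: (js ++ [eI q i (i :: js) + 1])) = rvs q (i :: js) ++ [w]) ∧
  (∃ w ∈ lvs q (i :: js), lvs q (i :: (js ++ [eI q i (i :: js) + 2])) = lvs q (i :: js) ++ [w] ∧
    rvs q (i :: (js ++ [eI q i (i :: js) + 2])) = rvs q (i :: js) ++ [apQ q i (i :: js)])

/-! ## Geometry of a ray from a corner -/

/-- SML. End points close to the ray are in front. Proof. Let `D₀, h₀` be as in DIA and `c₀ > 0` a lower bound of the numbers
`cx (q.V (j + 1) - q.V j) (q.V (j + 2) - q.V j)` over all placed rooms (they depend only on `q.r` and `j`: `‖q.a‖ = 1`, finitely many; ORI).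
`κ₀ = c₀ / (D₀ * (2 + D₀ / h₀))`. In the frame of `(q.V i, v)` a left end point is `(X, Y)`, `Y > 0`, a right one `(X', -Y')`, `Y' > 0`.
First letter: `c₀ ≤ cx (V (i + 1) - x) (V (i + 2) - x) = X' Y + Y' X` (`cx z w = dt v z * cx v w - cx v z * dt v w` for `‖v‖ = 1`). If `X ≤ 0` then `c₀ ≤ X' Y`,
so `X' > 0` and `X' ≤ D₀` give `Y ≥ c₀ / D₀ ≥ κ₀`; if `X' ≤ 0`: `Y' ≥ κ₀` in the same way.
Other letters: induction on `js` from the right (`List.reverseRecOn`, Run_append): the end points of the crossed edges of `i :: (js ++ [j])` are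
those of `i :: js` and, by EXT, the apex `p = apQ q i (i :: js)` (the letter is `i' + 1` or `i' + 2` by EXU (5), ENT). Say `p` is on the left
(letter `i' + 1`), `p = (X, Y)`, suppose `Y < κ₀`, `X ≤ 0`. Let `l = Q'.V (i' + 1) = (X_l, Y_l)`, `r = Q'.V (i' + 2) = (X_r, - Y_r)` be the end points of the entering edge
(En). The crossing time of the new edge `r p` is `≥ h₀` (the first one is `≥ h₀` by DIA (4), they increase, CTS (1)), it equals `(X_r Y + X Y_r) / (Y + Y_r)`
(definition of `ct`). So `X_r Y ≥ h₀ (Y + Y_r) - X Y_r ≥ h₀ (Y + Y_r) > 0`, hence `X_r > 0`, and `X_r ≤ X_r - X ≤ D₀`, `Y_r ≤ Y D₀ / h₀`. ORI for `Q'`, index `i'`: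
`c₀ ≤ cx (l - p) (r - p) = - (X_l - X) (Y_r + Y) - (Y_l - Y) (X_r - X) ≤ D₀ (Y_r + Y) + Y D₀ ≤ Y D₀ (2 + D₀ / h₀) < c₀`
(`|X_l - X| ≤ D₀`, `0 ≤ X_r - X ≤ D₀`, `Y_l > 0`): contradiction. `p` on the right: the same with all signs of the heights changed. -/
def Sg_SML : Prop := ∀ S : TriSys, ∃ κ₀ : ℝ, 0 < κ₀ ∧ ∀ (q : Pl S) (i : ZMod 3) (v : ℂ) (js : List (ZMod 3)), ‖v‖ = 1 →
  Run q (q.V i) v (i :: js) → ∀ p : ℂ, (p ∈ lvs q (i :: js) ∨ p ∈ rvs q (i :: js)) → |cx v (p - q.V i)| < κ₀ →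
  0 < dt v (p - q.V i)

/-- REC. A record is visible. Proof. `x = q.V i`, `z = apQ ..`. First part: by ALG (1) and the hypotheses `Run q z v (i :: js)` (the heights over the line `(z, v)` are
`cx v (p - x) - cx v (z - x)`). Now as in `h_GEO` (FAN2/H_GEO.lean, copy from there): crossing times of `(x, v)`: the first is `≥ h₀ > 0` (DIA (4)), the others
are larger (CTS (1)). Crossing times of `(z, v)`: by ENT at most the entering time of the last room, which is `< 0` by TIM (9). For every crossed edge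
(`mem_cts`: `i :: js = l₁ ++ k :: l₂`, `L = (endP q l₁).V (k + 2)`, `R = (endP q l₁).V (k + 1)`): `0 < cx (R - x) (L - x)` and `cx (R - z) (L - z) < 0`
(positive denominators), and CRX (`h_CRX`) gives the sign conditions for the line `(x, z - x)`. Second part: `v' = (z - x) / ‖z - x‖` (`z ≠ x` because `cx 0 _ = 0`), `Run_scale`, the first
crossing time is `≥ h₀`, the entering time of the last room is `< dt v' (z - x) = ‖z - x‖` (TIM (9), ENT): as in `h_GEO`. Third part: CTS, DIA (4), and TIM (9): if `cx v (z - x) = 0` then `h₀ < dt v (z - x)`;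
if `cx v (z - x) ≠ 0` then `z ≠ x` trivially. -/
def Sg_REC : Prop := ∀ S : TriSys, (∀ (q : Pl S) (i : ZMod 3) (v : ℂ) (js : List (ZMod 3)), ‖v‖ = 1 →
  Run q (q.V i) v (i :: js) →
  (∀ p ∈ lvs q (i :: js), cx v (apQ q i (i :: js) - q.V i) < cx v (p - q.V i)) →
  (∀ p ∈ rvs q (i :: js), cx v (p - q.V i) < cx v (apQ q i (i :: js) - q.V i)) → GD q i js) ∧
  (∃ h : ℝ, 0 < h ∧ ∀ (q : Pl S) (i : ZMod 3) (js : List (ZMod 3)), GD q i js → h ≤ ‖apQ q i (i :: js) - q.V i‖) ∧
  (∀ (q : Pl S) (i : ZMod 3) (v : ℂ) (js : List (ZMod 3)), ‖v‖ = 1 → Run q (q.V i) v (i :: js) →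
    apQ q i (i :: js) - q.V i ≠ 0)

/-- BDF. Distances. Proof. Induction on `js` with the triangle inequality and DIA: every vertex of the room `endP q (i :: js)` has distance
`≤ D₀ (js.length + 2)` from `q.V i` (`V_nx1`: two consecutive rooms have a common vertex); the end points of the crossed edges are vertices of
visited rooms. -/
def Sg_BDF : Prop := ∀ S : TriSys, ∃ D : ℝ, 1 ≤ D ∧ ∀ (q : Pl S) (i : ZMod 3) (js : List (ZMod 3)) (p : ℂ),
  (p ∈ lvs q (i :: js) ∨ p ∈ rvs q (i :: js) ∨ p = apQ q i (i :: js)) → ‖p - q.V i‖ ≤ D * (js.length + 1)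

/-- RVW. The reversed word of a word from a corner. Proof. `rev q (i :: js) = rev (q.nx i) js ++ [q.en i]`, length `rev_length`. First letter: write
`i :: js = W₀ ++ [j₀]`; `rev_append`: `rev q (W₀ ++ [j₀]) = [(endP q W₀).en j₀] ++ rev q W₀`, `eI q i (W₀ ++ [j₀]) = (endP q W₀).en j₀` (`eI_append`).
`eI Q' i' (rev (q.nx i) js ++ [q.en i]) = (endP Q' (rev (q.nx i) js)).en (q.en i) = (q.nx i).en (q.en i) = i` (`endP_rev`, `nx_en`), `endP Q' (rev q _) = q` (`endP_rev`).
GD: `Run_rev` with `N = 1`, `v = z - x`: `x + 1 * v = z`, `-v = x - z`. The statement for `home`: `Q' = mv Q'.a Q'.b (home Q'.r)` (`mv_home`); `endP_mv`, `eI_mv`, `V_mv`, `Run_mv`. -/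
def Sg_RVW : Prop := ∀ (S : TriSys) (q : Pl S) (i : ZMod 3) (js : List (ZMod 3)), ∃ js' : List (ZMod 3),
  js'.length = js.length ∧ rev q (i :: js) = eI q i (i :: js) :: js' ∧
  eI (endP q (i :: js)) (eI q i (i :: js)) (eI q i (i :: js) :: js') = i ∧
  endP (endP q (i :: js)) (eI q i (i :: js) :: js') = q ∧
  apQ (endP q (i :: js)) (eI q i (i :: js)) (eI q i (i :: js) :: js') = q.V i ∧
  rev (endP q (i :: js)) (eI q i (i :: js) :: js') = i :: js ∧
  (GD (endP q (i :: js)) (eI q i (i :: js)) js' ↔ GD q i js) ∧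
  (∀ (Q : Pl S) (k : ZMod 3) (l : List (ZMod 3)), (GD (Pl.home S Q.r) k l ↔ GD Q k l) ∧
    rev (Pl.home S Q.r) (k :: l) = rev Q (k :: l) ∧ eI (Pl.home S Q.r) k (k :: l) = eI Q k (k :: l) ∧
    (endP (Pl.home S Q.r) (k :: l)).r = (endP Q (k :: l)).r)

/-! ## Integrals over directions -/

/-- MSR. Measurability and boundedness. Proof. (1) `m_KOPN`, part 1, and the continuous map `ψ ↦ (ψ, x)`. (2) By induction on the list,
`ψ ↦ bot (l.map ..)` is measurable (`Measurable.ite` for the set `{z.im ≤ (bot l).im}`; the condition `l = []` does not depend on `ψ`); the functions `ψ ↦ conj (ev ψ) * (p - x)` are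
continuous; `PH p` is a measurable function of `(z, w)` (`Measurable.pow_const` for the real powers, `Measurable.max`). (3) For `z.im, w.im > 0`:
`0 ≤ trf z.im - trf (z.im + w.im) ≤ trf z.im ≤ z.im ^ (e - 1)` (`trf` is antitone on `(0, ∞)`), it vanishes for `z.im ≥ k`, so `0 ≤ z.im * (..) ≤ z.im ^ e ≤ 1` for `z.im < k ≤ 1`;
`|z.re ^ u| ≤ |z.re| ^ u` (`Real.abs_rpow_le_abs_rpow`) `≤ B ^ u` (`u ≥ 0` because `2 ^ u = 1 + e ≥ 1`). -/
def Sg_MSR : Prop := (∀ (S : TriSys) (q : Pl S) (x : ℂ) (js : List (ZMod 3)), MeasurableSet {ψ : ℝ | Run q x (ev ψ) js}) ∧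
  (∀ (p : PR) (x : ℂ) (l l' : List ℂ), Measurable (fun ψ : ℝ => bot (frl (ev ψ) x l)) ∧
    Measurable (fun ψ : ℝ => bot (frr (ev ψ) x l')) ∧ Measurable (fun ψ : ℝ => bot (l.map fun z => ev ψ * z)) ∧
    Measurable (fun ψ : ℝ => bot (l.map fun z => ev (-ψ) * z)) ∧ Measurable (fun t : ℂ × ℂ => PH p t.1 t.2)) ∧
  (∀ (p : PR) (B : ℝ) (z w : ℂ), 0 < z.im → 0 < w.im → |z.re| ≤ B → |w.re| ≤ B → |PH p z w| ≤ 2 * B ^ p.u)

/-- PHS. Elementary facts on `PH`. Proof. `ring`-like symmetry; for `z.im, z'.im ≥ k`: `trf z.im = trf (z.im + w.im) = 0`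
(`Real.rpow_le_rpow_of_nonpos`: `y ^ (e - 1) ≤ k ^ (e - 1)` for `y ≥ k > 0`), so both values are `w.re ^ u * (w.im * trf w.im)`. Last part: `trf` is antitone on `(0, ∞)`, `z.re ^ u ≥ 0` for `z.re ≥ 0`,
and the coefficient vanishes if `z.im ≥ k`; strict: `trf z.im > trf (z.im + w.im)` for `z.im < k`. -/
def Sg_PHS : Prop := ∀ (p : PR) (z z' w : ℂ), PH p z w = PH p w z ∧
  (0 < w.im → p.k ≤ z.im → p.k ≤ z'.im → PH p z w = PH p z' w) ∧
  (0 < z.im → 0 < w.im → (z.im < p.k → 0 < z.re) → (w.im < p.k → 0 < w.re) → 0 ≤ PH p z w ∧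
    (z.im < p.k → 0 < PH p z w))

open Classical in
/-- the new vertex is the lowest left point: integral over the directions -/
noncomputable def DRt (p : PR) (S : TriSys) (r : S.R) (i : ZMod 3) (js : List (ZMod 3)) : ℝ :=
  ∫ ψ in (0 : ℝ)..(2 * Real.pi),
    if Run (Pl.home S r) (S.P r i) (ev ψ) (i :: js) ∧
        0 < cx (ev ψ) (apQ (Pl.home S r) i (i :: js) - S.P r i) ∧
        cx (ev ψ) (apQ (Pl.home S r) i (i :: js) - S.P r i) <
          (bot (frl (ev ψ) (S.P r i) (lvs (Pl.home S r) (i :: js)))).im then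
      PH p (conj (ev ψ) * (apQ (Pl.home S r) i (i :: js) - S.P r i))
        (bot (frr (ev ψ) (S.P r i) (rvs (Pl.home S r) (i :: js)))) -
        PHw p (Pl.home S r) (i :: js) (S.P r i) (ev ψ)
    else 0

open Classical in
/-- the new vertex is the lowest right point: integral over the directions -/
noncomputable def DLt (p : PR) (S : TriSys) (r : S.R) (i : ZMod 3) (js : List (ZMod 3)) : ℝ :=
  ∫ ψ in (0 : ℝ)..(2 * Real.pi),
    if Run (Pl.home S r) (S.P r i) (ev ψ) (i :: js) ∧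
        cx (ev ψ) (apQ (Pl.home S r) i (i :: js) - S.P r i) < 0 ∧
        -cx (ev ψ) (apQ (Pl.home S r) i (i :: js) - S.P r i) <
          (bot (frr (ev ψ) (S.P r i) (rvs (Pl.home S r) (i :: js)))).im then
      PH p (bot (frl (ev ψ) (S.P r i) (lvs (Pl.home S r) (i :: js))))
        (ev ψ * conj (apQ (Pl.home S r) i (i :: js) - S.P r i)) -
        PHw p (Pl.home S r) (i :: js) (S.P r i) (ev ψ)
    else 0

/-- SPT. Node difference. Proof. Let `x = S.P r i`, `z` the apex, `i' = eI ..`, `W = i :: js`. The three integrands of `JJ (W ++ [j])`, that of `JJ W`, `DRt`, `DLt` are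
bounded and measurable (MSR, BDF), so interval integrable. Pointwise, for `ψ` with `cx (ev ψ) (z - x) ≠ 0` or `¬ Run W`:
`∑ j, [Run (W ++ [j])] PHw (W ++ [j]) - [Run W] PHw W = (integrand of DRt) + (integrand of DLt)`. Indeed if `¬ Run W` both sides are `0` (`Run_take`). If `Run W` and `cx v (z - x) > 0`: `Run (W ++ [j])`
iff `j = i' + 1` (ENT and EXU (4), (5); `ZMod 3 = {i', i' + 1, i' + 2}`, `z_cases`), by EXT and BOT (3) the lowest right point is unchanged (`w ∈ rvs`, so not lower), the lowest left point is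
`z` if its height is less than that of `bot`, otherwise unchanged. If `cx v (z - x) < 0`: the mirror image. The exceptional `ψ` (`Run W` and `cx (ev ψ) (z - x) = 0`) form a null set: `z - x ≠ 0` (REC (3)), and
`{ψ | cx (ev ψ) u = 0}` is countable for `u ≠ 0` (`h_ARC`, or `cx (ev ψ) u = ‖u‖ sin (arg u - ψ)`; there is a lemma in FAN/F_NHC.lean). -/
def Sg_SPT : Prop := ∀ (p : PR) (S : TriSys) (r : S.R) (i : ZMod 3) (js : List (ZMod 3)),
  (∑ j, JJ p S r i (i :: (js ++ [j]))) - JJ p S r i (i :: js) = DRt p S r i js + DLt p S r i js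

/-- ZER. Words that are not generalized diagonals do not contribute. Proof: the integrands vanish identically, because the conditions of `DRt` (`Run`, `0 < cx v (z - x)`,
`cx v (z - x) < (bot ..).im ≤` all heights of `frl`, BOT) give the hypotheses of REC (1) (right points have negative height by ALG (1)), so `GD`. The same for `DLt`. -/
def Sg_ZER : Prop := ∀ (p : PR) (S : TriSys) (r : S.R) (i : ZMod 3) (js : List (ZMod 3)),
  ¬ GD (Pl.home S r) i js → DRt p S r i js = 0 ∧ DLt p S r i js = 0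

/-- LFR. Right turn. Proof. `κ₀` from SML. `L = ‖z - x‖ > 0` (REC (2)), `u = (z - x) / L = ev θ`, `θ = arg`. For `v = ev (θ - φ)`: `frl v x l = (frl u x l).map (ev φ * ·)`, `frr v x l = (frr u x l).map (ev (-φ) * ·)`,
`conj v * (z - x) = ev φ * L` (`ev_add`, `conj (ev a) = ev (-a)`, `conj (ev θ) * ev θ = 1`). The integrand `g` of `DRt` is `2π`-periodic (`ev` is), so
`∫_0^(2π) g = ∫_0^(2π) g (θ - φ) dφ` (`Function.Periodic.intervalIntegral_add_eq`, `intervalIntegral.integral_comp_sub_left`). Split at `π / 2`. For `φ ∈ (0, π/2)`: `g (θ - φ)` is the integrand of `Lf`: the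
condition `Run ∧ 0 < L sin φ ∧ L sin φ < (bot A(φ)).im` is equivalent to `0 < (bot C(φ)).im ∧ (ev φ * L).im < (bot A(φ)).im`: by ALG (1) `Run` says that all heights of the rotated lists are
positive, i.e. `0 < (bot ..).im` for both (BOT), and `sin φ > 0`. For `φ ∈ [π/2, 2π]`: `g (θ - φ) = 0`: if the condition holds then `Run (home r) x v (i :: (js ++ [i' + 1]))` (EXT, ALG (1)) and `z` is a left end point of a crossed edge;
`dt v (z - x) = L cos φ`, `cx v (z - x) = L sin φ > 0` so `φ < π`, `cos φ ≤ 0`, and SML gives `L sin φ ≥ κ₀ ≥ k`; the heights of `bot A(φ)` is larger; by PHS the difference of the two values is `0`. -/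
def Sg_LFR : Prop := ∀ S : TriSys, ∃ κ₀ : ℝ, 0 < κ₀ ∧ ∀ (p : PR) (r : S.R) (i : ZMod 3) (js : List (ZMod 3)), p.k ≤ κ₀ →
  GD (Pl.home S r) i js → ∀ (z u : ℂ) (L : ℝ), z = apQ (Pl.home S r) i (i :: js) → L = ‖z - S.P r i‖ →
  u = (z - S.P r i) / L →
  DRt p S r i js = Lf p L (frl u (S.P r i) (lvs (Pl.home S r) (i :: js))) (frr u (S.P r i) (rvs (Pl.home S r) (i :: js)))

/-- LFL. Left turn. Proof: as LFR with `v = ev (θ + φ)`: `frl v x l = (frl u x l).map (ev (-φ) * ·)`, `frr v x l = (frr u x l).map (ev φ * ·)`, `v * conj (z - x) = ev φ * L`, and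
`PH p z w = PH p w z` (PHS). -/
def Sg_LFL : Prop := ∀ S : TriSys, ∃ κ₀ : ℝ, 0 < κ₀ ∧ ∀ (p : PR) (r : S.R) (i : ZMod 3) (js : List (ZMod 3)), p.k ≤ κ₀ →
  GD (Pl.home S r) i js → ∀ (z u : ℂ) (L : ℝ), z = apQ (Pl.home S r) i (i :: js) → L = ‖z - S.P r i‖ →
  u = (z - S.P r i) / L →
  DLt p S r i js = Lf p L (frr u (S.P r i) (rvs (Pl.home S r) (i :: js))) (frl u (S.P r i) (lvs (Pl.home S r) (i :: js)))

/-- PRM. The order of the lists does not matter. Proof: `intervalIntegral.integral_congr_ae`. For all `φ` outside of the union over the pairs `z ≠ w` in `A` of `{φ | (ev φ * (z - w)).im = 0}` and over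
the pairs in `C` of `{φ | (ev (-φ) * (z - w)).im = 0}` (countable sets: `(ev φ * ζ).im = ‖ζ‖ sin (φ + arg ζ)`; or at most one such `φ` in an interval of length `π/2`) the elements of the rotated lists have different
heights, and BOT (5) gives `bot (A'.map ..) = bot (A.map ..)`. -/
def Sg_PRM : Prop := ∀ (p : PR) (L : ℝ) (A A' C C' : List ℂ), (∀ z, z ∈ A' ↔ z ∈ A) → (∀ z, z ∈ C' ↔ z ∈ C) → A ≠ [] → C ≠ [] →
  Lf p L A' C' = Lf p L A C

/-- LNK. The lists of the reversed generalized diagonal. Proof. `Q' = endP (home r) (i :: js)`, `i'`, `js'` as in RVW, `r' = Q'.r`, `x' = S.P r' i'`, `z' = apQ (home r') i' (i' :: js')`. `Q' = mv a b (home r')`, `a = Q'.a`, `b = Q'.b`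
(`mv_home`): `z = a x' + b`, `x = a z' + b`, so `‖z' - x'‖ = L`, `a u' = - u`; `lvs Q' (i' :: js') = (lvs (home r') (i' :: js')).map (a * · + b)` (ALG (6)) and
`lvs Q' (i' :: js') = (rvs (home r) (i :: js)).reverse` (ALG (4)). So for `p' ∈ lvs (home r') ..` with `p = a p' + b`:
`conj u' * (p' - x') = conj (a u') * (p - z) = - conj u * (p - x) + conj u * (z - x) = L - conj (u * conj (p - x))`, an element of `hat L C`. All lists: `List.map_map`,
`List.mem_map`, `List.mem_reverse`. -/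
def Sg_LNK : Prop := ∀ (S : TriSys) (r : S.R) (i : ZMod 3) (js js' : List (ZMod 3)) (r' : S.R) (i' : ZMod 3) (z u z' u' : ℂ) (L : ℝ),
  r' = (endP (Pl.home S r) (i :: js)).r → i' = eI (Pl.home S r) i (i :: js) → rev (Pl.home S r) (i :: js) = i' :: js' →
  z = apQ (Pl.home S r) i (i :: js) → L = ‖z - S.P r i‖ → 0 < L → u = (z - S.P r i) / L →
  z' = apQ (Pl.home S r') i' (i' :: js') → u' = (z' - S.P r' i') / L →
  L = ‖z' - S.P r' i'‖ ∧
  (∀ w, w ∈ frl u' (S.P r' i') (lvs (Pl.home S r') (i' :: js')) ↔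
    w ∈ hat L (frr u (S.P r i) (rvs (Pl.home S r) (i :: js)))) ∧
  (∀ w, w ∈ frr u' (S.P r' i') (rvs (Pl.home S r') (i' :: js')) ↔
    w ∈ hat L (frl u (S.P r i) (lvs (Pl.home S r) (i :: js))))

/-- HYP. The hypothesis (H) of the planar inequality. Proof. `κ₀` from SML. `x`, `z`, `u = ev θ`. (First `HF`.) Let `φ ∈ (0, π/2)` with `b = (bot C(φ)).im > 0`, `L sin φ < (bot A(φ)).im`; `v = ev (θ - φ)`; `B = cx v (z - x) = L sin φ > 0`, `dt v (z - x) = L cos φ`.
All left end points have height `> B > 0`, all right ones height `≤ - b < 0`, so `Run (home r) x v (i :: js)` (ALG (1)). Also `Run Q' z (-v) (rev ..)` (`rev = i' :: js'`, RVW): by ALG (4), (1): left points of the reversed word are the right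
points of the word: `cx (-v) (p - z) = B - cx v (p - x) > 0`; right points: `cx (-v) (p - z) = B - cx v (p - x) < 0` for the left points of the word. `bot A(φ)` is the frame coordinate of a left point `p`
(BOT (1)) with height `a < k ≤ κ₀`: SML gives `0 < dt v (p - x) = (bot A(φ)).re`. `p` is a right point of the reversed word, `|cx (-v) (p - z)| = a - B < κ₀`, `z = Q'.V i'`: SML gives `0 < dt (-v) (p - z) = L cos φ - dt v (p - x)`.
`bot C(φ)`: right point `p` with distance `b`, `b + L sin φ < k`: SML (height `b`) gives foot `> 0`; in the reversed word it is a left point of height `B + b < κ₀`: `0 < L cos φ - dt v (p - x)`.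
(Second `HF`.) The mirror image with `v = ev (θ + φ)`. -/
def Sg_HYP : Prop := ∀ S : TriSys, ∃ κ₀ : ℝ, 0 < κ₀ ∧ ∀ (p : PR) (r : S.R) (i : ZMod 3) (js : List (ZMod 3)), p.k ≤ κ₀ →
  GD (Pl.home S r) i js → ∀ (z u : ℂ) (L : ℝ), z = apQ (Pl.home S r) i (i :: js) → L = ‖z - S.P r i‖ →
  u = (z - S.P r i) / L →
  Pool.Agent.FAN4.HF p L (frl u (S.P r i) (lvs (Pl.home S r) (i :: js))) (frr u (S.P r i) (rvs (Pl.home S r) (i :: js))) ∧
  Pool.Agent.FAN4.HF p L (frr u (S.P r i) (rvs (Pl.home S r) (i :: js))) (frl u (S.P r i) (lvs (Pl.home S r) (i :: js)))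

/-- PAR4. A generalized diagonal and its reverse together. Proof. `κ₀` = minimum of those of LFR, LFL, HYP, and `h / 10` (REC (2)). `A = frl u x (lvs ..)`, `C = frr u x (rvs ..)`, nonempty (ALG (8)), imaginary parts positive (GD, ALG (1), scaling by
`L > 0`: `Run_scale`). If `GD`: LFR, LFL for `(r, i, js)` and for `(r', i', js')` (GD by RVW, moved to `home`), LNK, PRM: the sum is
`Lf A C + Lf C A + Lf (hat C) (hat A) + Lf (hat A) (hat C) ≥ 0` (Si_PL2). If not `GD`: all are `0` (ZER, RVW). -/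
def Sg_PAR4 : Prop := Pool.Agent.FAN4.Si_PL2 → ∀ S : TriSys, ∃ κ₀ : ℝ, 0 < κ₀ ∧ ∀ (p : PR) (r : S.R) (i : ZMod 3) (js js' : List (ZMod 3)) (r' : S.R)
  (i' : ZMod 3), p.k ≤ κ₀ → r' = (endP (Pl.home S r) (i :: js)).r → i' = eI (Pl.home S r) i (i :: js) →
  rev (Pl.home S r) (i :: js) = i' :: js' →
  0 ≤ DRt p S r i js + DLt p S r i js + (DRt p S r' i' js' + DLt p S r' i' js')

end Pool.Agent.FAN
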