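import Pool.Agent.FAN4.PDefs

/-!
# FAN4, block PATH: statements with complete proofs (helper88)

Write `theorem p_X : Sp_X` in `Pool/Agent/FAN4/P_X.lean`, namespace `Pool.Agent.FAN4`. A statement may use other
statements of this file as hypotheses: `theorem p_X (h : Sp_Y) (h' : Sp_Z) : Sp_X` (do not wait for them). Give your
helper lemmas names starting with `X_`. If a statement is false or awkward tell helper88 at once.

NOTATION. `S = a + c - B`, `F u = f u - f S`, `m = min a c - B`, `U = a + m`, `E = B + 2 m = 2 min a c - B`,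
`x = 2 s - 1`, `y = 2 t - 1`, `k = 1 / (1 + e)`, `N' = √(L² - B²)`. Always `B ≤ a, c ≤ r`, so `S ≤ 2 r`, `U ≤ S`, and `10 r ≤ L`.
-/

set_option autoImplicit false

open MeasureTheory Set

namespace Pool.Agent.FAN4

/-- PAR. Parameters. Proof. `1 < 2 ^ ρ < 2` gives `0 < ρ < 1` (`Real.rpow_lt_rpow_left_iff`, `2 ^ 0 = 1`, `2 ^ 1 = 2`). `e < ρ`: else
`1 + e = 2 ^ ρ ≤ 2 ^ e < 1 + e` (strict Bernoulli for exponents in `(0, 1)`: `Real.rpow_one_add_lt_one_add_mul_self`,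
`(1 + 1) ^ e < 1 + e * 1`). Last: `((1 + x) / 2) ^ ρ = (1 + x) ^ ρ / 2 ^ ρ` (`Real.div_rpow`). -/
def Sp_PAR : Prop := ∀ P : Par, 0 < P.ρ ∧ P.ρ < 1 ∧ P.e < P.ρ ∧ 0 < P.k ∧ P.k < 1 ∧ P.k * (1 + P.e) = 1 ∧
  ∀ x : ℝ, -1 ≤ x → ((1 + x) / 2) ^ P.ρ = P.k * (1 + x) ^ P.ρ

/-- GIN. Proof. `g x = 1 + ρ x - (1 + x) ^ ρ - (ρ - e) x ^ 2`, so `g 0 = 0`, `g' 0 = 0`, `g 1 = 0` (`2 ^ ρ = 1 + e`). On `(-1, 1]`
`g'' x = ρ (1 - ρ) (1 + x) ^ (ρ - 2) - 2 (ρ - e)` is strictly decreasing. If `g'' x₁ ≤ 0` for some `x₁ ≤ 0` then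
`g'' < 0` on `(0, 1]`, `g' < 0` and `g < 0` at `1`, contradiction; so `g'' > 0` on `(-1, 0]`: `g` is convex there with `g 0 = g' 0 = 0`, so `g ≥ 0`
on `[-1, 0]` (at `-1` by continuity). On `[0, 1]`: let `x₀` be maximal with `g'' ≥ 0` on `[0, x₀]`; `g ≥ 0` on `[0, x₀]`, and on `[x₀, 1]` `g` is concave and `≥ 0` at both
ends. Other proof: `1 + ρ x - (1 + x) ^ ρ = ρ (1 - ρ) x ^ 2 ∫_0^1 (1 - v) (1 + v x) ^ (ρ - 2) dv` (Taylor), and the integral decreases in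
`x`, so it is at least its value for `x = 1`. Any other proof is welcome. -/
def Sp_GIN : Prop := ∀ (P : Par) (x : ℝ), -1 ≤ x → x ≤ 1 →
  (1 + x) ^ P.ρ ≤ 1 + P.ρ * x - (P.ρ - P.e) * x ^ 2

/-- FFF. The truncated power. Proof. `e - 1 < 0`, so `z ^ (e - 1)` is decreasing on `(0, ∞)` (`Real.rpow_le_rpow_of_nonpos`), continuous,
convex (`convexOn_rpow_of_nonpos` or the second derivative), with derivative `(e - 1) z ^ (e - 2)`, increasing. (6): if `S ≥ r` then `lam S = 0` and `f`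
is antitone. If `S < r`: `u ≤ v ≤ S < r`, mean value theorem (or tangent inequality): `u ^ (e-1) - v ^ (e-1) ≥ (1 - e) v ^ (e-2) (v - u) ≥ lam S (v - u)`.
(7): `f` is convex (maximum of a convex function and `0`): slope inequality for `u < v < S`. (9): the derivative of `z ^ (e-1)` is bounded by
`(1 - e) z₀ ^ (e-2)` on `[z₀, ∞)`; `max` with `0` is 1-Lipschitz. (10) `f z ≤ z ^ (e-1)`. -/
def Sp_FFF : Prop := ∀ P : Par,
  (∀ z, 0 ≤ P.f z) ∧ (∀ z, P.r ≤ z → P.f z = 0) ∧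
  (∀ z, 0 < z → z ≤ P.r → P.f z = z ^ (P.e - 1) - P.r ^ (P.e - 1)) ∧
  AntitoneOn P.f (Ioi 0) ∧ ContinuousOn P.f (Ioi 0) ∧
  (∀ u v S, 0 < u → u ≤ v → v ≤ S → P.lam S * (v - u) ≤ P.f u - P.f v) ∧
  (∀ u v S, 0 < u → u ≤ v → v ≤ S → (P.f v - P.f S) * (v - u) ≤ (P.f u - P.f v) * (S - v)) ∧
  (∀ z, 0 < z → 0 ≤ P.lam z) ∧
  (∀ z₀, 0 < z₀ → ∃ K, LipschitzOnWith K P.f (Ici z₀)) ∧
  (∀ z, 0 < z → z * P.f z ≤ z ^ P.e)

/-- QQQ. The primitive. Proof. (2) For `z < r` and for `z > r` clear (near `z` `min` is `z` resp. `r`); at `z = r` the two one sided derivatives are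
`r ^ (e-1) - r ^ (e-1) = 0` and `0` (`HasDerivWithinAt` on `Iic`, `Ici` and `HasDerivWithinAt.union`). (3) `z ^ e` is continuous, `e > 0`.
(4) `Q` is concave on `[0, ∞)` (`f` is antitone) and `(B, S)` is more spread than `(a, c)`, same sum; or `A4 = ∫_B^a (f z - f (z + c - B)) dz ≥ 0` (`B = 0`:
limit, or `Q` concave on `Ici 0`: `AntitoneOn.concaveOn_of_deriv`). (5) `z f z - e Q z = - (1 - e) r ^ (e-1) min z r` for every `z > 0`, and
`min a r + min c r - min B r - min S r ≥ 0` (concavity of `min · r`; here `a, c, B ≤ r`: it is `S - min S r`). (6) trivial. -/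
def Sp_QQQ : Prop := ∀ P : Par,
  P.Q 0 = 0 ∧ (∀ z, 0 < z → HasDerivAt P.Q (P.f z) z) ∧ ContinuousOn P.Q (Ici 0) ∧
  (∀ a c B, 0 ≤ B → B ≤ a → B ≤ c → 0 ≤ P.A4 a c B) ∧
  (∀ a c B, 0 < B → B ≤ a → a ≤ P.r → B ≤ c → c ≤ P.r →
    a * P.f a + c * P.f c - B * P.f B - (a + c - B) * P.f (a + c - B) ≤ P.e * P.A4 a c B) ∧
  (∀ a c B, a = B ∨ c = B → P.A4 a c B = 0)

/-- PIN. The pointwise inequality. Proof. By QQQ (5) `e A4 ≥ a f a + c f c - B f B - S f S = a F a + c F c - B F B` (because `a + c - B - S = 0`), so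
`I + dV ≥ I + 2 k (a F a + c F c - B F B) + 2 k e B (s F a + t F c - F B)`. The coefficient of `F B` is `2 B (1 - k (1 + e)) = 0`. The coefficient of `F a`
is `- (s ^ ρ a + (1 - s) ^ ρ (a - B) + B) + 2 k a + 2 k e s B`; with `s = (1 + x) / 2`, `s ^ ρ = k (1 + x) ^ ρ`, `(1 - s) ^ ρ = k (1 - x) ^ ρ` (PAR) and
`B = k (1 + e) B` it is `k [- (1 + x) ^ ρ a - (1 - x) ^ ρ (a - B) - (1 + e) B + 2 a + e (1 + x) B]`; GIN for `x` and `-x` gives
`≥ k [- a (1 + ρ x) - (a - B) (1 - ρ x) + (ρ - e) x² (2 a - B) + 2 a - B + e x B] = k (ρ - e) [- x B + (2 a - B) x²]`. Same for `F c`.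
`F a, F c ≥ 0` (FFF (4), `a, c ≤ S`). -/
def Sp_PIN : Prop := ∀ (P : Par) (a c B s t : ℝ), 0 < B → B ≤ a → a ≤ P.r → B ≤ c → c ≤ P.r →
  0 ≤ s → s ≤ 1 → 0 ≤ t → t ≤ 1 →
  P.k * (P.ρ - P.e) *
    (-(B * ((P.f a - P.f (a + c - B)) * (2 * s - 1) + (P.f c - P.f (a + c - B)) * (2 * t - 1))) +
      (P.f a - P.f (a + c - B)) * (2 * a - B) * (2 * s - 1) ^ 2 +
      (P.f c - P.f (a + c - B)) * (2 * c - B) * (2 * t - 1) ^ 2) ≤
    P.I a c B s t + P.dV a c B s t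

/-- OMG. The weight. Proof. `0 < ρ < 1` (PAR). (1)-(4): `Real.rpow` and derivatives (`HasDerivAt.rpow_const`, the base `L² - z²` is positive);
`d/dz (L² - z²) ^ ((ρ-1)/2) = ((ρ-1)/2) (L² - z²) ^ ((ρ-3)/2) (- 2 z)`; `G' = z (L² - z²) ^ ((ρ-1)/2)`. (5) With `E = B + 2 m`, `R = (L² - B²) / (L² - E²) ≥ 1`:
`om E / om B = R ^ ((1-ρ)/2) ≤ R ^ (1/2) ≤ R`, `R - 1 = (E² - B²) / (L² - E²) = 4 m (B + m) / (L² - E²) ≤ 8 m (B + m) / L²` because `E ≤ 2 r ≤ L / 5`.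
(6) `G E - G B = ∫_B^E z om z dz` and `om B ≤ om z ≤ om E`, `∫_B^E z dz = 2 m (B + m)` (or: the derivative of
`G z - om B z² / 2` is `≥ 0`, that of `G z - om E z² / 2` is `≤ 0` on `[B, E]`). -/
def Sp_OMG : Prop := ∀ (P : Par) (L : ℝ), 10 * P.r ≤ L →
  (∀ z, |z| < L → 0 < P.om L z) ∧ MonotoneOn (P.om L) (Ico 0 L) ∧
  (∀ z, |z| < L → HasDerivAt (P.om L) (P.dom L z) z ∧ HasDerivAt (P.g L) (P.dg L z) z ∧
    HasDerivAt (P.G L) (P.g L z) z ∧ ContinuousAt (P.dg L) z ∧ ContinuousAt (P.dom L) z ∧ 0 ≤ P.dg L z) ∧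
  (∀ z, 0 ≤ z → z < L → 0 ≤ P.dom L z) ∧
  (∀ B m, 0 ≤ B → 0 ≤ m → B + 2 * m ≤ 2 * P.r →
    P.om L (B + 2 * m) ≤ P.om L B * (1 + 8 * m * (B + m) / L ^ 2)) ∧
  (∀ B m, 0 ≤ B → 0 ≤ m → B + 2 * m ≤ 2 * P.r →
    2 * m * (B + m) * P.om L B ≤ P.G L (B + 2 * m) - P.G L B ∧
    P.G L (B + 2 * m) - P.G L B ≤ 2 * m * (B + m) * P.om L (B + 2 * m))

/-- BND. Bound of `be`. Proof. `2 u - 2 a + B` runs from `B ≥ 0` to `E ≤ 2 r < L` for `u` from `a` to `U`; there `dg ≥ 0` (OMG). `F u ≥ F U + lam S (U - u)` for `a ≤ u ≤ U`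
(FFF (6) with `v = U ≤ S`). `2 ∫_a^U dg (2 u - 2 a + B) du = g E - g B`, and by parts
`2 ∫_a^U dg (2 u - 2 a + B) (U - u) du = - g B m + ∫_a^U g (2 u - 2 a + B) du = - m g B + Ga / 2` (primitive `g (2u-2a+B) (U - u) + G (2u-2a+B) / 2`). So
`2 ∫ dg F ≥ F U (g E - g B) + lam S (Ga / 2 - m g B)`, insert in the definition of `be`. (Continuity of the integrands: FFF (5), OMG.) -/
def Sp_BND : Prop := ∀ (P : Par) (L a c B : ℝ), 10 * P.r ≤ L → 0 ≤ B → 0 < a → 0 < c → B ≤ a → a ≤ P.r → B ≤ c →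
  c ≤ P.r →
  P.be L a c B ≤
    P.g L (2 * min a c - B) * (P.f (a + (min a c - B)) - P.f (a + c - B)) -
      P.g L B * (P.f a - P.f (a + (min a c - B))) -
      P.lam (a + c - B) * (P.Ga L a c B / 2 - (min a c - B) * P.g L B)

/-- SHP. The quadratic inequality. Proof. By symmetry (exchange `a, c` and `x, y`; `S`, `m`, `Ga` are symmetric) let `a ≤ c`: `m = a - B`,
`U = 2 a - B`, `E = 2 a - B`, and for the second function `c + m = S`, `F (c + m) = 0`. Put `w = om L B`, `η = om L E / w`, `l = lam S`, `d = S - U = c - a`,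
`ε = 8 / L²`; `η - 1 ≤ ε m (B + m)` (OMG (5)). BND for `(a, c)`, with `g E = η w E`, `g B = w B`, `F a - F U ≥ l m` (FFF (6)):
`w F a (2 a - B) - be ≥ w (2 a - B) (F a - η F U) + l Ga / 2`. FFF (7) for `a ≤ U ≤ S`: `F U m ≤ (F a - F U) d`; so
`m (F a - η F U) ≥ (F a - F U) (m - (η - 1) d) `, i.e. (if `m > 0`) `F a - η F U ≥ (F a - F U) (1 - ε (B + m) d) ≥ l m (1 - ε (B + m) d)`; the bracket is
positive since `ε (B + m) d ≤ 8 r² / L² ≤ 1 / 10`. If `m = 0` then `a = B`, `F U = F a`, `η = 1`, `Ga = 0`, all clear.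
BND for `(c, a)`: `w F c (2 c - B) - be' ≥ w (2 c - B) l m + l Ga / 2` (`F c = F c - F (c + m) ≥ l m`). So
`RHS - LHS ≥ w l m [(2 a - B) (1 - ε (B + m) d) x² + (2 c - B) y²] + (l Ga / 2) (x² + y²) - (l Ga / 2) (x + y)²`, and `Ga ≤ 2 m (B + m) η w` (OMG (6)), so it is
at least `w l m [α x² + β y² - 2 η (B + m) |x y|]` with `α = (2 m + B) (1 - ε (B + m) d)`, `β = 2 m + B + 2 d` (note `2 a - B = 2 m + B`, `2 c - B = 2 m + B + 2 d`).
`(2 m + B + 2 d) (1 - ε (B + m) d) ≥ 2 m + B` because `ε (B + m) (2 m + B + 2 d) ≤ ε 4 r² ≤ 2`; so `α β ≥ (2 m + B)²`, and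
`η (B + m) ≤ B + m + ε m (B + m)² ≤ B + 2 m` because `ε (B + m)² ≤ 1`. Hence `α β ≥ (η (B + m))²` and `α x² + β y² ≥ 2 √(α β) |x y|`. -/
def Sp_SHP : Prop := ∀ (P : Par) (L a c B x y : ℝ), 10 * P.r ≤ L → 0 ≤ B → 0 < a → 0 < c → B ≤ a → a ≤ P.r → B ≤ c →
  c ≤ P.r →
  x ^ 2 * P.be L a c B + y ^ 2 * P.be L c a B + P.lam (a + c - B) * P.Ga L a c B / 2 * (x + y) ^ 2 ≤
    P.om L B * ((P.f a - P.f (a + c - B)) * (2 * a - B) * x ^ 2 +
      (P.f c - P.f (a + c - B)) * (2 * c - B) * y ^ 2)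

/-- MPO. `M ≥ 0`. Proof. `a ≤ U ≤ S`, the integrand is `≥ 0` (`g ≥ 0` on `[0, L)`, `f` antitone). `m = 0` if `a = B` or `c = B`. If `a = r`: `f u = 0` for `u ≥ r`, `S ≥ r`. -/
def Sp_MPO : Prop := ∀ (P : Par) (L a c B : ℝ), 10 * P.r ≤ L → 0 ≤ B → 0 < a → 0 < c → B ≤ a → a ≤ P.r → B ≤ c →
  c ≤ P.r →
  0 ≤ P.M L a c B ∧ (a = B ∨ c = B → P.M L a c B = 0) ∧ (a = P.r → P.M L a c B = 0)

/-- MDR. Derivative of `M` along a path. Proof. Write `κ z = 2 a z - z`. `M = 2 J - f (S) Γ` with `J z = ∫_{a z}^{U z} g (2 u - κ z) f u du` and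
`Γ z = 2 ∫_{a z}^{U z} g (2 u - κ z) du = G (E z) - G z`. `J z = H (a z) (U z) (κ z)`, `H (p, q, κ) = ∫_p^q g (2 u - κ) f u du` has
continuous partial derivatives `- g (2 p - κ) f p`, `g (2 q - κ) f q`, `- 2 ∫_p^q dg (2 u - κ) f u du` near the point (OMG, FFF (5)); `U' = s + μ - 1`, `κ' = 2 s - 1 = x`. (If the
total differentiability is awkward: `J (z + h) - J z` = the two integrals over the short intervals plus `∫_{a z}^{U z} (g (2 u - κ (z+h)) - g (2 u - κ z)) f u du`,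
and estimate each.) `(f ∘ S)' = σ`, `E' = 2 μ - 1`. So `M' = 2 (s + μ - 1) g E f U - 2 s g B f a - 2 x ∫ dg f - σ Γ - f S ((2 μ - 1) g E - g B)`, and with
`2 ∫ dg (2 u - κ) du = g E - g B` the terms with `f S` combine: `M' = 2 (s + μ - 1) g E F U - 2 s g B F a - 2 x ∫ dg F - σ Γ`.
(i) `σ = - lam S (s + t - 1)`: if `S ≠ r`, `f` is differentiable at `S` with derivative `- lam S`, and `S' = s + t - 1`; if `S = r` then `f ∘ S ≥ 0` has a minimum `0`, so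
`σ = 0 = lam r`. (ii) `(s + μ - 1) F U = x F U`: if `c ≤ a` then `U = S` and `F U = 0`; if `a < c` then `min = a` near the point, `μ = s`.
With `2 s = 1 + x` this is `- g B F a + x be + lam S (s + t - 1) Γ`. -/
def Sp_MDR : Prop := ∀ (P : Par) (L : ℝ) (a c : ℝ → ℝ) (B s t μ σ : ℝ), 10 * P.r ≤ L → 0 < B → B < a B →
  a B ≤ P.r → B < c B → c B ≤ P.r → HasDerivAt a s B → HasDerivAt c t B →
  HasDerivAt (fun z => min (a z) (c z)) μ B → HasDerivAt (fun z => P.f (a z + c z - z)) σ B →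
  HasDerivAt (fun z => P.M L (a z) (c z) z)
    (-(P.g L B * (P.f (a B) - P.f (a B + c B - B))) + (2 * s - 1) * P.be L (a B) (c B) B +
      P.lam (a B + c B - B) * (s + t - 1) * P.Ga L (a B) (c B) B) B

/-- A path: `a`, `c` concave, nondecreasing, 1-Lipschitz, at least `B` and at most `r` on `[0, B₁]`, ending
where one of them meets `B`. -/
structure Path (P : Par) (L B₁ : ℝ) (a c : ℝ → ℝ) : Prop where
  hL : 10 * P.r ≤ L
  pos : 0 < B₁
  a0 : 0 < a 0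
  c0 : 0 < c 0
  am : MonotoneOn a (Icc 0 B₁)
  cm : MonotoneOn c (Icc 0 B₁)
  al : LipschitzOnWith 1 a (Icc 0 B₁)
  cl : LipschitzOnWith 1 c (Icc 0 B₁)
  aconc : ConcaveOn ℝ (Icc 0 B₁) a
  cconc : ConcaveOn ℝ (Icc 0 B₁) c
  aB : ∀ B ∈ Icc 0 B₁, B ≤ a B ∧ a B ≤ P.r
  cB : ∀ B ∈ Icc 0 B₁, B ≤ c B ∧ c B ≤ P.r
  fin : a B₁ = B₁ ∨ c B₁ = B₁

/-- MLP. `M` is Lipschitz along a path. Proof. `a, c ≥ min (a 0) (c 0) =: z₀ > 0` on `[0, B₁]`. All quantities `a z`, `U z`, `S z`, `κ z` are Lipschitz in `z`; `f` is bounded and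
Lipschitz on `[z₀, ∞)` (FFF), `g` is bounded and Lipschitz on `[0, 2 r]` (OMG, `2 r < L`). With `J`, `Γ` as in MDR: `|J z - J z'|` is at most the integrals over the two short
intervals plus `∫ |g (2 u - κ z) - g (2 u - κ z')| f u du`. -/
def Sp_MLP : Prop := ∀ (P : Par) (L B₁ : ℝ) (a c : ℝ → ℝ), Path P L B₁ a c →
  ∃ K, LipschitzOnWith K (fun z => P.M L (a z) (c z) z) (Icc 0 B₁)

/-- MON. Integral of a monotone function against a derivative. Proof. `a`, `M` are Lipschitz on `[0, B₁]`, so a.e. differentiable with bounded derivatives and `∫_u^v deriv M = M v - M u`.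
Put `y = s₀ - deriv a`; a.e. `y ≥ 0` and `y` is a.e. equal to a nondecreasing function (slopes of the concave function `a`; `a B - a 0 ≤ s₀ B` bounds all slopes by `s₀`: let `B → 0+`).
Claim `∫ y (- deriv M) ≥ 0`; then `∫ deriv a * deriv M ≥ s₀ ∫ deriv M = - s₀ M 0`. Proof of the claim by difference quotients: for small `h > 0`,
`(1/h) ∫_0^(B₁-h) y(u) (M u - M (u + h)) du = (1/h) [∫_0^h y M + ∫_h^(B₁-h) (y u - y (u - h)) M u du - ∫_(B₁-h)^(B₁) y (u - h) M u du] ≥ - (1/h) ∫_(B₁-h)^(B₁) y (u - h) M u du ≥ - C h`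
(`M B₁ = 0`, Lipschitz), and the left side tends to `∫ y (- deriv M)` (dominated convergence). Or layer cake: `y u = ∫_0^C 1[v < y u] dv`, the set `{y > v}` is an interval
`(u_v, B₁)` up to a null set and `∫_{u_v}^{B₁} (- deriv M) = M u_v ≥ 0`. -/
def Sp_MON : Prop := ∀ (a M : ℝ → ℝ) (B₁ s₀ : ℝ), 0 < B₁ → ConcaveOn ℝ (Icc 0 B₁) a →
  (∃ K, LipschitzOnWith K a (Icc 0 B₁)) → (∃ K, LipschitzOnWith K M (Icc 0 B₁)) →
  (∀ B ∈ Icc 0 B₁, 0 ≤ M B) → M B₁ = 0 → (∀ B ∈ Icc 0 B₁, a B - a 0 ≤ s₀ * B) →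
  -(s₀ * M 0) ≤ ∫ B in (0 : ℝ)..B₁, deriv a B * deriv M B

/-- VIN. The first potential. Proof. `v z = V (a z) (c z) z` is continuous on `[0, B₁]` (QQQ (3)), `v 0 = 0`, `v B₁ = 0` (QQQ (6)), `v ≥ 0` (QQQ (4)). It is Lipschitz on `[0, B₁]`: `z Q z` has the
derivative `Q z + z f z`, which is bounded (FFF (10)); `Q (a z)`, `Q (c z)`, `Q (S z)` are Lipschitz since `f` is bounded on `[z₀, ∞)`. At every point of
differentiability of `a` and `c` its derivative is `dV` (QQQ (2)). So `om v` is Lipschitz with a.e. derivative `dom v + om dV`, and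
`0 = ∫ (om v)' = ∫ dom v + ∫ om dV`, the first integral is `≥ 0`. -/
def Sp_VIN : Prop := ∀ (P : Par) (L B₁ : ℝ) (a c : ℝ → ℝ), Path P L B₁ a c →
  IntervalIntegrable (fun B => P.om L B * P.dV (a B) (c B) B (deriv a B) (deriv c B)) volume 0 B₁ ∧
  ∫ B in (0 : ℝ)..B₁, P.om L B * P.dV (a B) (c B) B (deriv a B) (deriv c B) ≤ 0

/-- INB. Integrability. Proof. `deriv a`, `deriv c` are measurable with values in `[0, 1]` a.e. on `[0, B₁]` (monotone, 1-Lipschitz); `I` is a continuous function of `(a, c, B, s, t)`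
for `B > 0`, and bounded: `f a`, `f c`, `f S` are bounded, `B f B ≤ B ^ e`. -/
def Sp_INB : Prop := ∀ (P : Par) (L B₁ : ℝ) (a c : ℝ → ℝ), Path P L B₁ a c →
  IntervalIntegrable (fun B => P.om L B * P.I (a B) (c B) B (deriv a B) (deriv c B)) volume 0 B₁

/-- KEY. The pointwise inequality along a path, almost everywhere. Proof. `a`, `c`, `min a c`, `f (a z + c z - z)` are Lipschitz on `[0, B₁]`, hence differentiable a.e.; at such a point in the open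
interval with `B < a B`, `B < c B` (see below) `s = deriv a B`, `t = deriv c B` are in `[0, 1]`. MDR for `(a, c)` and for `(c, a)` (`c z + a z - z` is the same function, `min` is
commutative): with `x = 2 s - 1`, `y = 2 t - 1`, `s + t - 1 = (x + y) / 2`,
`x (deriv M) + y (deriv M') = - g B (x F a + y F c) + x² be + y² be' + lam S Ga (x + y)² / 2 ≤ om B [- B (x F a + y F c) + F a (2 a - B) x² + F c (2 c - B) y²]` by SHP (`g B = B om B`);
now PIN times `om B`. (`Ga L a c B = Ga L c a B`.) The points with `a B = B` or `c B = B`: since `a` is concave and `a 0 > 0`, `a B > B` for `B < B₁`: `a z - z` is concave, `≥ 0` and `> 0` at `0`,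
so it is `> 0` on `[0, B₁)`. -/
def Sp_KEY : Prop := ∀ (P : Par) (L B₁ : ℝ) (a c : ℝ → ℝ), Path P L B₁ a c →
  ∀ᵐ B ∂(volume.restrict (Ioo 0 B₁)),
    P.k * (P.ρ - P.e) * ((2 * deriv a B - 1) * deriv (fun z => P.M L (a z) (c z) z) B +
      (2 * deriv c B - 1) * deriv (fun z => P.M L (c z) (a z) z) B) ≤
    P.om L B * P.I (a B) (c B) B (deriv a B) (deriv c B) +
      P.om L B * P.dV (a B) (c B) B (deriv a B) (deriv c B)

/-- PTH. The path lemma. Proof. Integrate KEY (INB, VIN, MLP: everything is integrable), use VIN, and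
`∫ (2 deriv a - 1) deriv M = 2 ∫ deriv a * deriv M + M 0 ≥ - (2 s₀ - 1) M 0` by MON (`M B₁ = 0`, `M ≥ 0`: MPO; `∫ deriv M = - M 0`); the same for `c`; `k (ρ - e) > 0`. -/
def Sp_PTH : Prop := ∀ (P : Par) (L B₁ s₀ t₀ : ℝ) (a c : ℝ → ℝ), Path P L B₁ a c →
  (∀ B ∈ Icc 0 B₁, a B - a 0 ≤ s₀ * B) → (∀ B ∈ Icc 0 B₁, c B - c 0 ≤ t₀ * B) →
  -(P.k * (P.ρ - P.e) * ((2 * s₀ - 1) * P.M L (a 0) (c 0) 0 + (2 * t₀ - 1) * P.M L (c 0) (a 0) 0)) ≤
    ∫ B in (0 : ℝ)..B₁, P.om L B * P.I (a B) (c B) B (deriv a B) (deriv c B)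

/-! ## The planar statement -/

/-- the height function of a list of points in the parameter `B = L sin φ` -/
noncomputable def hB (P : Par) (L : ℝ) (A : List (ℝ × ℝ)) (B : ℝ) : ℝ := P.mup A (Real.arcsin (B / L))

/-- HBF. The height function. Proof. For a point `q = (X, Y)`, `Y > 0`, `|B| < L`: `up q (arcsin (B / L)) = Y √(1 - (B/L)²) + (X / L) B` (`Real.cos_arcsin`, `Real.sin_arcsin`), concave in `B`, with derivative
`(X cos φ - Y sin φ) / (L cos φ)`, `φ = arcsin (B / L)`. `hB` is the minimum of finitely many such functions and the constant `r` (induction on the list): (1) concave, (2) Lipschitz on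
`[0, L/2]`, (3) `hB B - hB 0 ≤ (X / L) B` if `q` realises the minimum at `0`: `hB B ≤ up q ≤ Y + (X/L) B`. (4) derivative: if `hB` is differentiable at `B` and `q` realises the
minimum there then `up q - hB ≥ 0` has a minimum, so `deriv hB B` is the derivative of `up q`; if `hB B = r` then `r - hB ≥ 0` has a minimum, so the derivative is `0`. -/
def Sp_HBF : Prop := ∀ (P : Par) (L : ℝ) (A : List (ℝ × ℝ)), 10 * P.r ≤ L → (∀ q ∈ A, 0 < q.2) →
  ConcaveOn ℝ (Icc 0 (L / 2)) (hB P L A) ∧ (∃ K, LipschitzOnWith K (hB P L A) (Icc 0 (L / 2))) ∧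
  0 < hB P L A 0 ∧ (∀ B, hB P L A B ≤ P.r) ∧
  (hB P L A 0 < P.r → ∃ q ∈ A, q.2 = hB P L A 0) ∧
  (∀ q ∈ A, q.2 = hB P L A 0 → ∀ B ∈ Icc 0 (L / 2), hB P L A B - hB P L A 0 ≤ q.1 / L * B) ∧
  (∀ B, 0 < B → B < L / 2 → DifferentiableAt ℝ (hB P L A) B →
    (hB P L A B = P.r → deriv (hB P L A) B = 0) ∧
    (∀ q ∈ A, Par.up q (Real.arcsin (B / L)) = hB P L A B →
      deriv (hB P L A) B * (L * Real.cos (Real.arcsin (B / L))) =
        q.1 * Real.cos (Real.arcsin (B / L)) - q.2 * Real.sin (Real.arcsin (B / L))))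

/-- PTP. The height functions of a life form a path. Proof. Let `B₁ = min (L sin φ₁) r`, `0 < B₁ ≤ r ≤ L / 10`. HBF. For `0 < B < B₁`, `φ = arcsin (B / L) ∈ (0, φ₁)`; by `Life` `a B > B` (`up q φ > L sin φ = B` for all `q ∈ A`, and `r > B`),
and for `q ∈ C`: `up (L - X, Y) φ = dn q φ + L sin φ > B`, so `c B > B`. The derivative of `a` (a.e.) is `foot / (L cos φ) ∈ [0, 1]` by `Feet` if `a B < r` and `0` if `a B = r`, so `a` is
monotone and 1-Lipschitz (Lipschitz function = integral of its derivative, on `[0, B₁]`). End: if `B₁ = r` then `r = B₁ ≤ a B₁ ≤ r` (continuity). Otherwise `B₁ = L sin φ₁ < r` and at `φ₁` some `q ∈ A` has `up q φ₁ = B₁`, so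
`a B₁ ≤ B₁`, or some `q ∈ C` has `dn q φ₁ = 0`, so `c B₁ ≤ B₁`; `≥` by continuity. -/
def Sp_PTP : Prop := ∀ (P : Par) (L : ℝ) (A C : List (ℝ × ℝ)) (φ₁ : ℝ), 10 * P.r ≤ L →
  (∀ q ∈ A, 0 < q.2) → (∀ q ∈ C, 0 < q.2) → Life P L A C φ₁ → Feet P L A φ₁ → Feet P L (refl L C) φ₁ →
  Path P L (min (L * Real.sin φ₁) P.r) (hB P L A) (hB P L (refl L C))

/-- ALG. The change of the state at the two ends is the integrand `I`. Here `a, c` are the truncated clearances on the side of the new vertex (seen from the two ends), `b`, `p` the (truncated) clearances on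
the other side: `b = min (c* - B) r`, `c = min c* r`, `p = min (a* - B) r`, `a = min a* r` with the true values `a*, c* > B`. Feet: `T / N = s` if `a < r`, `T' = N (1 - t)` if `c < r` (foot of the
bottleneck of `b`), `T₃ / N = t` if `c < r`, `T₄ = N (1 - s)` if `a < r`. Proof. `Ph B N b T' - Ph a T b T' = N ^ ρ B (f B - f (B + b)) - T ^ ρ a (f a - f (a + b)) + T' ^ ρ b (f (a + b) - f (B + b))`.
If `c < r`: `b = c - B`. If `c = r`: `c* ≥ r`, and `f (B + b) = f (a + b) = 0 = f c = f (a + c - B)` because `B + b ≥ r` (either `b = r`, or `b = c* - B`). So in all cases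
`f (B + b) = f c`, `f (a + b) = f S`, `b (f (a + b) - f (B + b)) = (c - B) (f S - f c)`, and the last term is `T' ^ ρ = (N (1 - t)) ^ ρ` times that (both factors vanish if `c = r`). Similarly
at the other end. If `a = r` then `f a = f S = 0` (`S = r + c - B ≥ r`). Sum: `N ^ ρ [2 B f B - B f c - B f a - s ^ ρ a (f a - f S) - (1 - t) ^ ρ (c - B) (f c - f S) - t ^ ρ c (f c - f S) - (1 - s) ^ ρ (a - B) (f a - f S)] = N ^ ρ I`
(`(N s) ^ ρ = N ^ ρ s ^ ρ`). -/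
def Sp_ALG : Prop := ∀ (P : Par) (N B a' c' s t T₁ T₂ T₃ T₄ : ℝ), 0 < N → 0 < B → B < P.r → B < a' → B < c' →
  0 ≤ s → s ≤ 1 → 0 ≤ t → t ≤ 1 →
  (a' < P.r → T₁ = N * s ∧ T₄ = N * (1 - s)) → (c' < P.r → T₃ = N * t ∧ T₂ = N * (1 - t)) →
  (P.Ph B N (min (c' - B) P.r) T₂ - P.Ph (min a' P.r) T₁ (min (c' - B) P.r) T₂) +
    (P.Ph B N (min (a' - B) P.r) T₄ - P.Ph (min c' P.r) T₃ (min (a' - B) P.r) T₄) =
  N ^ P.ρ * P.I (min a' P.r) (min c' P.r) B s t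

/-- ONE. One turning sense. Proof. Let `B₁ = min (L sin φ₁) r`, `ψ = arcsin (B₁ / L)`. For `φ ∈ (ψ, φ₁)` (possible only if `B₁ = r`): `L sin φ > r`, `mup A φ = r` (`up q φ > L sin φ`), and both terms `W` vanish:
`f B = f (B + b) = 0 = f r = f (r + b)`, the `b` terms cancel. For `φ ∈ (0, ψ)`: substitution `B = L sin φ`, `dB = L cos φ dφ`, `N = L cos φ = (L² - B²) ^ (1/2)`, so
`∫_0^ψ h (L sin φ) (L cos φ) dφ = ∫_0^B₁ h` with `h B = om L B * I (...)`, and `N ^ ρ = N * (L² - B²) ^ ((ρ-1)/2)`. For a.e. `B` (`hB A`, `hB (refl C)` differentiable) ALG applies with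
`a' = min over A of up` (if `A` is empty or the minimum is `≥ r` take any value `≥ r`, e.g. `r`, consistent with `mdn`: if `mup A φ = r` then `min (a' - B) r` must be `mdn (refl A) φ`; choose `a' = mdn (refl A) φ + B` in that case, it is `≥ r` because
`dn (L - X, Y) φ = up (X, Y) φ - L sin φ ≥ r - B`), `s = deriv (hB A) B`, `t = deriv (hB (refl C)) B` (HBF (7) and `IsUp`, `IsDn`: the foot of `q` for `up` is `N s`, the foot of `(L - X, Y)` for `dn` is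
`(L - X) cos φ + Y sin φ = N - N s`). Then the integrand is a.e. `N ^ ρ I (hB A B) (hB (refl C) B) B s t`. -/
def Sp_ONE : Prop := ∀ (P : Par) (L : ℝ) (A C : List (ℝ × ℝ)) (φ₁ : ℝ) (T₁ T₂ T₃ T₄ : ℝ → ℝ),
  10 * P.r ≤ L → (∀ q ∈ A, 0 < q.2) → (∀ q ∈ C, 0 < q.2) →
  Life P L A C φ₁ → Feet P L A φ₁ → Feet P L (refl L C) φ₁ →
  P.IsUp A φ₁ T₁ → P.IsDn C φ₁ T₂ → P.IsUp (refl L C) φ₁ T₃ → P.IsDn (refl L A) φ₁ T₄ →
  ∫ φ in (0 : ℝ)..φ₁, (P.W L A C T₁ T₂ φ + P.W L (refl L C) (refl L A) T₃ T₄ φ) =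
    ∫ B in (0 : ℝ)..(min (L * Real.sin φ₁) P.r), P.om L B *
      P.I (hB P L A B) (hB P L (refl L C) B) B (deriv (hB P L A) B) (deriv (hB P L (refl L C)) B)

/-- PLN. The interface. Proof. ONE, PTP and PTH for both turning senses (the second one with `A`, `C` exchanged). Put `X₀ = hB A 0 = hB (refl A) 0`, `Y₀ = hB C 0 = hB (refl C) 0` (`up q 0 = q.2`). If `X₀ < r` let `q ∈ A` realise `X₀`: slopes
`s₀ = q.1 / L` for `hB A` and `t₀' = (L - q.1) / L` for `hB (refl A)` (HBF (6)), so `(2 s₀ - 1) + (2 t₀' - 1) = 0`. If `X₀ = r` take `s₀ = t₀' = 0` (`hB ≤ r`) and `M L X₀ Y₀ 0 = 0` (MPO (3)). The same for `C` with `t₀`, `s₀'`. The sum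
of the two lower bounds is `- k (ρ - e) [M L X₀ Y₀ 0 ((2 s₀ - 1) + (2 t₀' - 1)) + M L Y₀ X₀ 0 ((2 t₀ - 1) + (2 s₀' - 1))] = 0`. -/
def Sp_PLN : Prop := Si_PLN

end Pool.Agent.FAN4
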