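import Pool.Agent.FAN4.StG

/-!
# FAN4, block S: the potential increases (helper23). Statements with complete proofs.

Write `theorem q_X : Ss_X` in `Pool/Agent/FAN4/S_X.lean`, namespace `Pool.Agent.FAN`.
-/

set_option autoImplicit false

open scoped ComplexConjugate
open MeasureTheory Set

namespace Pool.Agent.FAN

/-- WDS. Words. Proof. `Set.Finite.mem_toFinset`; (2) `List.length_eq_zero_iff`; (3) `Finset.sum_bij'`, or: `wds (n + 1)` is the image of `wds n ×ˢ univ` under the injective map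
`(js, j) ↦ js ++ [j]` (`Finset.sum_image`, `Finset.sum_product`; surjective: `List.eq_nil_or_concat`, `List.append_inj'`). -/
def Ss_WDS : Prop := (∀ (n : ℕ) (js : List (ZMod 3)), js ∈ wds n ↔ js.length = n) ∧ wds 0 = {[]} ∧
  (∀ (n : ℕ) (G : List (ZMod 3) → ℝ), ∑ js ∈ wds (n + 1), G js = ∑ js ∈ wds n, ∑ j, G (js ++ [j]))

/-- INV. Reversal is an involution of the words from corners. Proof. Put `T = univ ×ˢ univ ×ˢ wds n : Finset (S.R × ZMod 3 × List (ZMod 3))`, `∑ r, ∑ i, ∑ js = ∑ t ∈ T` (`Finset.sum_product`). The map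
`ρ (r, i, js) = ((endP (home r) (i :: js)).r, eI (home r) i (i :: js), (rev (home r) (i :: js)).tail)` maps `T` to `T` and `ρ (ρ t) = t` (RVW, with the last part of RVW to go from `Q' = endP (home r) (i :: js)` to `home Q'.r`:
`rev (home Q'.r) (i' :: js') = rev Q' (i' :: js') = i :: js`, `eI .. = i`, `(endP ..).r = (endP Q' ..).r = r`). `Finset.sum_nbij'` (or `Finset.sum_bij'`) gives `∑ t, F t = ∑ t, F (ρ t)`. -/
def Ss_INV : Prop := ∀ (S : TriSys) (n : ℕ) (F : S.R → ZMod 3 → List (ZMod 3) → ℝ),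
  ∑ r, ∑ i, ∑ js ∈ wds n, F r i js = ∑ r, ∑ i, ∑ js ∈ wds n,
    F (endP (Pl.home S r) (i :: js)).r (eI (Pl.home S r) i (i :: js)) (rev (Pl.home S r) (i :: js)).tail

/-- MON. The potential increases. Proof. By WDS (3) `Psi (n + 1) = ∑ r, ∑ i, ∑ js ∈ wds n, ∑ j, JJ r i (i :: (js ++ [j]))` (`i :: (js ++ [j])` is the argument for `js ++ [j] ∈ wds (n + 1)`), so by SPT
`Psi (n + 1) - Psi n = ∑ F` with `F r i js = DRt p S r i js + DLt p S r i js`. By INV `2 ∑ F = ∑ (F r i js + F r' i' js')`, each term is `≥ 0` by PAR4 (`rev (home r) (i :: js) = i' :: js'` with `js' = tail`, RVW). -/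
def Ss_MON : Prop := Pool.Agent.FAN4.Si_PL2 → ∀ S : TriSys, ∃ κ₀ : ℝ, 0 < κ₀ ∧ ∀ (p : PR) (n : ℕ), p.k ≤ κ₀ →
  Psi p S n ≤ Psi p S (n + 1)

/-- POS. Positive at the start. Proof. `Psi p S 0 = ∑ r, ∑ i, JJ p S r i [i]` (WDS (2)). Every `JJ p S r i (i :: js) ≥ 0` for `k ≤ κ₀` (SML): the integrand is `≥ 0` by PHS (3) (`bot` of the frame lists has height `> 0` by `Run`, ALG, BOT, and foot `> 0` if
the height is `< k`, SML). Let `r` be a room (`Nonempty S.R`), `i = 0`, `x = P r 0`, `a = P r 2 - x = ‖a‖ ev θ`. `lvs (home r) [0] = [P r 2]`, `rvs (home r) [0] = [P r 1]`. For `ψ = θ - φ` (mod `2π`), `φ > 0` small: `cx (ev ψ) a = ‖a‖ sin φ ∈ (0, k)`,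
`cx (ev ψ) (P r 1 - x) < 0` (continuity, at `φ = 0` it is `cx (ev θ) (P r 1 - x) < 0` by `S.pos`). So the set of `ψ ∈ (0, 2π)` with `Run` and `0 < cx (ev ψ) a < k` is nonempty and open (if `θ - φ` is not in `(0, 2π)` add a multiple of `2π`; the set of
`φ` is an interval, avoid the point with `θ - φ ∈ 2π ℤ`), on it the integrand is `> 0` (PHS (3)), so the integral is `> 0` (`setIntegral_pos_iff_support_of_nonneg_ae`: the support contains a nonempty open set; integrable by MSR). -/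
def Ss_POS : Prop := ∀ S : TriSys, Nonempty S.R → ∃ κ₀ : ℝ, 0 < κ₀ ∧ ∀ p : PR, p.k ≤ κ₀ → 0 < Psi p S 0

end Pool.Agent.FAN
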