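import Pool.Agent.FAN4.E_CAL
import Pool.Agent.FAN4.E_COT
import Pool.Agent.FAN4.E_DYM
import Pool.Agent.FAN4.E_FIN4
import Pool.Agent.FAN4.E_GRO
import Pool.Agent.FAN4.E_HTS
import Pool.Agent.FAN4.E_KER
import Pool.Agent.FAN4.E_MEV
import Pool.Agent.FAN4.E_ONE1
import Pool.Agent.FAN4.E_PCK
import Pool.Agent.FAN4.E_PTW
import Pool.Agent.FAN4.E_SHR
import Pool.Agent.FAN4.E_STR
import Pool.Agent.FAN4.E_SUM
import Pool.Agent.FAN4.E_UPB
import Pool.Agent.FAN4.E_VIS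
import Pool.Agent.FAN4.E_YNG
import Pool.Agent.FAN4.G_ALG
import Pool.Agent.FAN4.G_BDF
import Pool.Agent.FAN4.G_BOT
import Pool.Agent.FAN4.G_EXT
import Pool.Agent.FAN4.G_HYP
import Pool.Agent.FAN4.G_LFR
import Pool.Agent.FAN4.G_LNK
import Pool.Agent.FAN4.G_MSR
import Pool.Agent.FAN4.G_PAR4
import Pool.Agent.FAN4.G_PHS
import Pool.Agent.FAN4.G_PRM
import Pool.Agent.FAN4.G_REC
import Pool.Agent.FAN4.G_RVW
import Pool.Agent.FAN4.G_SML
import Pool.Agent.FAN4.G_SPT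
import Pool.Agent.FAN4.G_ZER
import Pool.Agent.FAN4.P_ALG
import Pool.Agent.FAN4.P_BND
import Pool.Agent.FAN4.P_BRG
import Pool.Agent.FAN4.P_FFF
import Pool.Agent.FAN4.P_GIN
import Pool.Agent.FAN4.P_HBF
import Pool.Agent.FAN4.P_INB
import Pool.Agent.FAN4.P_KEY
import Pool.Agent.FAN4.P_MDR
import Pool.Agent.FAN4.P_MLP
import Pool.Agent.FAN4.P_MON
import Pool.Agent.FAN4.P_MPO
import Pool.Agent.FAN4.P_OMG
import Pool.Agent.FAN4.P_ONE
import Pool.Agent.FAN4.P_PAR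
import Pool.Agent.FAN4.P_PIN
import Pool.Agent.FAN4.P_PLN
import Pool.Agent.FAN4.P_PTH
import Pool.Agent.FAN4.P_PTP
import Pool.Agent.FAN4.P_QQQ
import Pool.Agent.FAN4.P_SHP
import Pool.Agent.FAN4.P_VIN
import Pool.Agent.FAN4.S_INV
import Pool.Agent.FAN4.S_MON
import Pool.Agent.FAN4.S_POS
import Pool.Agent.FAN4.S_WDS
import Pool.Agent.FAN.TAll
import Pool.Agent.FAN.B_LEN
import Pool.Agent.FAN.B_GRW

/-!
# FAN4: total assembly, `F_P(n) ≥ c n^β` for every `β < 1/u`, `2^u + 2u = 2` (`1/u = 2.78...`) and every polygon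
(helper63)
-/

set_option autoImplicit false

open Pool.Agent.Billiard

namespace Pool.Agent.FAN4

/-- The planar inequality, in the language of `FAN4/Defs.lean`. -/
theorem pl2_total : Si_PL2 := by
  have hHBF : Sp_HBF := p_HBF
  have hPTP : Sp_PTP := p_PTP hHBF
  have hPAR : Sp_PAR := p_PAR
  have hFFF : Sp_FFF := p_FFF
  have hOMG : Sp_OMG := p_OMG hPAR
  have hGIN : Sp_GIN := p_GIN hPAR
  have hQQQ : Sp_QQQ := p_QQQ hFFF
  have hPIN : Sp_PIN := p_PIN hPAR hGIN hFFF hQQQ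
  have hBND : Sp_BND := p_BND hFFF hOMG
  have hSHP : Sp_SHP := p_SHP hFFF hOMG hBND
  have hMDR : Sp_MDR := p_MDR hOMG hFFF
  have hKEY : Sp_KEY := p_KEY hPAR hFFF hOMG hPIN hSHP hMDR
  have hVIN : Sp_VIN := p_VIN hFFF hQQQ hOMG hPAR
  have hINB : Sp_INB := p_INB hFFF hOMG hPAR
  have hMLP : Sp_MLP := p_MLP hFFF hOMG
  have hMON : Sp_MON := p_MON
  have hMPO : Sp_MPO := p_MPO hFFF hOMG
  have hPTH : Sp_PTH := p_PTH hPAR hKEY hVIN hINB hMLP hMON hMPO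
  have hALG : Sp_ALG := p_ALG hPAR hFFF
  have hONE : Sp_ONE := p_ONE hHBF hALG
  exact p_BRG (p_PLN hHBF hPTP hPTH hMPO hONE)

end Pool.Agent.FAN4

namespace Pool.Agent.FAN

/-- Growth of the numbers of generalized diagonals (Se_GRO). -/
theorem gro_total : Se_GRO := by
  have hRVW : Sg_RVW := q_RVW
  have hALG : Sg_ALG := q_ALG
  have hBOT : Sg_BOT := q_BOT
  have hEXT : Sg_EXT := q_EXT
  have hMSR : Sg_MSR := q_MSR
  have hBDF : Sg_BDF := q_BDF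
  have hREC : Sg_REC := q_REC hALG
  have hSPT : Sg_SPT := q_SPT hALG hBOT hEXT hMSR hBDF hREC
  have hZER : Sg_ZER := q_ZER hALG hBOT hREC
  have hPHS : Sg_PHS := q_PHS
  have hSML : Sg_SML := q_SML hALG hEXT
  have hLFR : Sg_LFR := q_LFR hALG hBOT hEXT hPHS hREC hSML
  have hLFL : Sg_LFL := q_LFL hALG hBOT hEXT hPHS hREC hSML
  have hPRM : Sg_PRM := q_PRM hBOT
  have hLNK : Sg_LNK := q_LNK
  have hHYP : Sg_HYP := q_HYP hSML hRVW
  have hPAR4 : Sg_PAR4 := q_PAR4 hREC hRVW hZER hLFR hLFL hPRM hLNK hHYP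
  have hINV : Ss_INV := q_INV hRVW
  have hMON : Ss_MON := q_MON hRVW hSPT hPAR4 hINV
  have hWDS : Ss_WDS := q_WDS
  have hPOS : Ss_POS := q_POS hSML hPHS hMSR hWDS
  have hVIS : Se_VIS := q_VIS hBOT hEXT hREC hBDF
  have hONE1 : Se_ONE1 := q_ONE1
  have hKER : Se_KER := q_KER
  have hYNG : Se_YNG := q_YNG
  have hPTW : Se_PTW := q_PTW hKER hYNG
  have hCOT : Se_COT := q_COT
  have hSUM : Se_SUM := q_SUM hBOT hSML hBDF hMSR hWDS hVIS hONE1 hPTW hCOT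
  have hHTS : Se_HTS := q_HTS hALG
  have hSHR : Se_SHR := q_SHR
  have hSTR : Se_STR := q_STR hSHR
  have hMEV : Se_MEV := q_MEV
  have hPCK : Se_PCK := q_PCK hHTS hSTR hMEV hMSR
  have hDYM : Se_DYM := q_DYM hALG hBOT hONE1 hWDS hPCK
  have hUPB : Se_UPB := q_UPB hSUM hDYM
  have hCAL : Se_CAL := q_CAL
  exact q_GRO hMON hPOS hUPB hCAL

/-- For every `u` with `2 ^ u + 2 u = 2`, every polygon and every `β < 1 / u`, the full complexity is at
least `c n ^ β`. -/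
theorem fan4_total : Si_FIN4 :=
  q_FIN4 (t_fit_all t_LEN t_GRW) Pool.Agent.FAN4.pl2_total gro_total

end Pool.Agent.FAN
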